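import Pool.Agent.Helper38.RG.RightP

/-!
# The hypotheses of the rigidity theorem

`df X` deficit of the face `X`; `R` radius, `z0` centre; `C` absolute constant; `γ` small, `C'` may depend on `γ`; `δ` small.
`za d`, `zb d`: the (shifted) end points of the outer edge `d`; `O1`: the edges of the main boundary cycle.
-/

namespace Pool.Agent.Helper38.RG

open Finset

variable {D Fc : Type} [Fintype D] [DecidableEq D] [Fintype Fc] [DecidableEq Fc]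

/-- the face has an outer dart -/
def Bdy (K : Cx D Fc) (X : Fc) : Prop := ∃ d, K.F d = X ∧ d ∈ K.out

/-- the faces: deficits, numbers, local structure -/
structure HypF (K : Cx D Fc) (C δ R : ℝ) (df : Fc → ℝ) : Prop where
  C_one : 1 ≤ C
  δ_nonneg : 0 ≤ δ
  δ_one : δ ≤ 1
  R_one : 1 ≤ R
  df_nonneg : ∀ X, 0 ≤ df X
  df_sum : ∑ X, df X ≤ δ * R
  cardD : (Fintype.card D : ℝ) ≤ C * R ^ 2
  cardO : (K.out.card : ℝ) ≤ C * R
  v_le : ∀ d, d ∉ K.out → ‖K.v d‖ ≤ 3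
  in_ne : ∀ X, ¬ Bdy K X → (K.fd X).card ≠ 6 → ((K.fd X).card : ℝ) ≤ C * df X
  in_six : ∀ X, ¬ Bdy K X → (K.fd X).card = 6 → ∀ d, K.F d = X →
    ‖K.v (K.s d) - om * K.v d‖ ^ 2 ≤ C * df X ∧ (‖K.v d‖ - 1) ^ 2 ≤ C * df X
  bd_card : ∀ X, Bdy K X → ((K.fd X).card : ℝ) ≤ 6 + C * df X
  bd_len : ∀ X, Bdy K X → ∑ d ∈ (K.fd X).filter (fun d => d ∈ K.out), ‖K.v d‖ ≤ 7 + C * df X

/-- the boundary faces: the relation between the inner edges and the (shifted) outer edges -/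
structure HypM (K : Cx D Fc) (C' γ : ℝ) (za zb : D → ℂ) (df : Fc → ℝ) : Prop where
  C'_one : 1 ≤ C'
  γ_nonneg : 0 ≤ γ
  shift : ∀ d ∈ K.out, ‖za d - K.z d‖ ≤ 1 ∧ ‖zb d - K.z (K.s d)‖ ≤ 1
  bd_M : ∀ X, Bdy K X → ∀ κ : ℕ, κ ≤ 1 →
    ‖∑ d ∈ (K.fd X).filter (fun d => d ∉ K.out), K.v d ^ (6 * κ + 1) -
      (-1) ^ (κ + 1) * ∑ d ∈ (K.fd X).filter (fun d => d ∈ K.out),
        dirn (zb d - za d) ^ (6 * κ) * (zb d - za d)‖ ≤ γ + C' * df X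

/-- the main boundary cycle is close to a circle -/
structure HypB (O1 : Finset D) (za zb : D → ℂ) (δ R : ℝ) (z0 : ℂ) : Prop where
  δ_nonneg : 0 ≤ δ
  δ_one : δ ≤ 1
  R_one : 1 ≤ R
  closed : ∀ g : ℂ → ℂ, ∑ d ∈ O1, (g (zb d) - g (za d)) = 0
  near : ∀ d ∈ O1, ‖za d - z0‖ ≤ 4 * R ∧ ‖zb d - z0‖ ≤ 4 * R
  tang : ∑ d ∈ O1, ‖zb d - za d‖ * ‖dirn (zb d - za d) - Complex.I * ((za d - z0) / R)‖ ^ 2 ≤
    δ * R
  len : |∑ d ∈ O1, ‖zb d - za d‖ - 2 * Real.pi * R| ≤ δ * R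

/-- the deviation of a face -/
noncomputable def ee (C : ℝ) (df : Fc → ℝ) (X : Fc) : ℝ := √(C * df X)

end Pool.Agent.Helper38.RG
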