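import Mathlib

/-!
# Rigidity of almost hexagonal complexes (MP_0e6ba8_gt, project LC3, block RG): definitions

A finite set `D` of darts (the corners of the faces), `s` = next corner of the same face (every face is one orbit of `s`),
`st` = the same edge seen from the other side (an involution, which maps the inner darts to the inner darts), `out` = the outer
darts (edges between a face and the outside), `z d` = start point of the edge of the dart `d`.
NO planarity and no embeddedness is assumed.  `df X` is a (small) deficit of the face `X`.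
-/

namespace Pool.Agent.Helper38.RG

open Finset

/-- `exp (i π / 3)` -/
noncomputable def om : ℂ := ⟨1 / 2, √3 / 2⟩

structure Cx (D Fc : Type) where
  s : Equiv.Perm D
  F : D → Fc
  F_s : ∀ d, F (s d) = F d
  orb : ∀ d d', F d = F d' → ∃ j : ℕ, (s ^ j) d = d'
  out : Finset D
  st : Equiv.Perm D
  st_st : ∀ d, st (st d) = d
  st_mem : ∀ d, d ∉ out → st d ∉ out
  z : D → ℂ
  z_st : ∀ d, d ∉ out → z (st d) = z (s d)

variable {D Fc : Type} [Fintype D] [DecidableEq D] [Fintype Fc] [DecidableEq Fc]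

namespace Cx

/-- the edge vector -/
def v (K : Cx D Fc) (d : D) : ℂ := K.z (K.s d) - K.z d

/-- the darts of a face -/
def fd (K : Cx D Fc) (X : Fc) : Finset D := univ.filter fun d => K.F d = X

/-- the mean of the corners of a face -/
noncomputable def pc (K : Cx D Fc) (X : Fc) : ℂ := (∑ d ∈ K.fd X, K.z d) / ((K.fd X).card : ℂ)

/-- the face of `d` has no outer dart, six corners, and is a regular hexagon with side `1` up to `e X ≤ η` -/
def Reg (K : Cx D Fc) (e : Fc → ℝ) (η : ℝ) (X : Fc) : Prop :=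
  (∀ d, K.F d = X → d ∉ K.out) ∧ (K.fd X).card = 6 ∧ 0 ≤ e X ∧ e X ≤ η ∧
    ∀ d, K.F d = X → ‖K.v (K.s d) - om * K.v d‖ ≤ e X ∧ |‖K.v d‖ - 1| ≤ e X

/-- a small face with an outer dart -/
def Mid (K : Cx D Fc) (X : Fc) : Prop :=
  (∃ d, K.F d = X ∧ d ∈ K.out) ∧ (K.fd X).card ≤ 7 ∧ ∑ d ∈ K.fd X, ‖K.v d‖ ≤ 30

end Cx

/-- the truncated Cauchy kernel -/
noncomputable def ker (s : ℝ) (z : ℂ) : ℂ := if ‖z‖ < s then (starRingEnd ℂ) z / (s : ℂ) ^ 2 else z⁻¹

/-- coefficient of `Δ` in the expansion of `ker s z - ker s (z + Δ)` -/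
noncomputable def dA (s : ℝ) (z : ℂ) : ℂ := if ‖z‖ < s then 0 else (z⁻¹) ^ 2

/-- coefficient of `conj Δ` in the expansion of `ker s z - ker s (z + Δ)` -/
noncomputable def dB (s : ℝ) (z : ℂ) : ℂ := if ‖z‖ < s then -((s : ℂ) ^ 2)⁻¹ else 0

/-- `1 / max ‖z‖ s` -/
noncomputable def q1 (s : ℝ) (z : ℂ) : ℝ := (max ‖z‖ s)⁻¹

/-- the error of the expansion -/
noncomputable def Er (s : ℝ) (z : ℂ) : ℝ := 32 * q1 s z ^ 3 + if |‖z‖ - s| ≤ 2 then 32 / s ^ 2 else 0

open scoped Classical in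
/-- `∑ v^(6κ) / (area of the disc)` over the regular darts in the disc of radius `s` about `ζ` -/
noncomputable def WW (K : Cx D Fc) (e : Fc → ℝ) (η : ℝ) (κ : ℕ) (s : ℝ) (ζ : ℂ) : ℂ :=
  ((√3 / (4 * Real.pi * s ^ 2) : ℝ) : ℂ) *
    ∑ d ∈ univ.filter (fun d => K.Reg e η (K.F d)),
      if ‖K.pc (K.F d) - ζ‖ < s then K.v d ^ (6 * κ) else 0

/-- the number of regular darts in the disc, normalised: the real number `WW … 0` -/
noncomputable def aa (K : Cx D Fc) (e : Fc → ℝ) (η : ℝ) (s : ℝ) (ζ : ℂ) : ℝ :=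
  (WW K e η 0 s ζ).re

/-- the tested sum -/
noncomputable def EE (K : Cx D Fc) (κ : ℕ) (s : ℝ) (ζ : ℂ) : ℂ :=
  ∑ d ∈ univ.filter (fun d => d ∉ K.out), K.v d ^ (6 * κ + 1) * ker s (K.pc (K.F d) - ζ)

/-- the unit vector -/
noncomputable def dirn (v : ℂ) : ℂ := v / (‖v‖ : ℂ)

/-- the boundary sum: `∑ over O1 of (dirn v')^(6κ) v' ker (za - ζ)`, `v' = zb - za` -/
noncomputable def SS (O1 : Finset D) (za zb : D → ℂ) (κ : ℕ) (s : ℝ) (ζ : ℂ) : ℂ :=
  ∑ d ∈ O1, dirn (zb d - za d) ^ (6 * κ) * (zb d - za d) * ker s (za d - ζ)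

end Pool.Agent.Helper38.RG
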