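import Pool.Agent.Helper38.RG.Hyp

/-!
# RG-12: counting

`e = ee C df`, `e X ^ 2 = C df X`.
* A wild face has `card ≤ 7 C df / η²`: no outer dart, `card ≠ 6`: `in_ne`.  No outer dart, `card = 6`: by `in_six` all conditions of `Reg` except `e X ≤ η` hold, so `η² < C df`.
  With an outer dart: if `C df ≤ 1` then `card ≤ 7` and `∑_{fd} ‖v‖ ≤ 3 · 7 + 8 ≤ 30` (`v_le`, `bd_len`), so the face is `Mid`; so `C df > 1` and `card ≤ 6 + C df ≤ 7 C df`.
* `card_wildF`: sum over the wild faces.  `card_W`: `d` or `st d` has a wild face, `st` is injective.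
* `card_midF`: every `Mid` face contains an outer dart and at most `7` darts: at most `7 |out|`.
* `card_M`: `d` or `st d` has a `Mid` face.
* `card_nreg`: not regular means wild or `Mid`.
* `sum_e`: Cauchy-Schwarz: `(∑ e)² ≤ |D| ∑_{Reg} e²`, `∑_{d : Reg} e (F d)² = ∑_{X Reg} 6 C df X ≤ 6 C δ R`, `√(C R² · 6 C δ R) ≤ 3 C R √(δ R)`.
-/

namespace Pool.Agent.Helper38.RG

open Finset

variable {D Fc : Type} [Fintype D] [DecidableEq D] [Fintype Fc] [DecidableEq Fc]
variable {K : Cx D Fc} {C δ R η : ℝ} {df : Fc → ℝ}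

set_option linter.unusedSectionVars false in
private theorem k_sf (K : Cx D Fc) (f : Fc → ℝ) :
    ∑ d, f (K.F d) = ∑ X, ((K.fd X).card : ℝ) * f X := by
  rw [← Finset.sum_fiberwise (univ : Finset D) K.F (fun d => f (K.F d))]
  refine Finset.sum_congr rfl fun X _ => ?_
  have h1 : ∑ d ∈ univ.filter (fun d => K.F d = X), f (K.F d) =
      ∑ _d ∈ univ.filter (fun d => K.F d = X), f X :=
    Finset.sum_congr rfl fun d hd => by rw [(Finset.mem_filter.1 hd).2]
  rw [h1, Finset.sum_const, nsmul_eq_mul]
  rfl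

open scoped Classical in
private theorem k_card (K : Cx D Fc) (P : Fc → Prop) :
    ((univ.filter (fun d => P (K.F d))).card : ℝ) =
      ∑ X, ((K.fd X).card : ℝ) * (if P X then 1 else 0) := by
  rw [← k_sf K (fun X => if P X then (1 : ℝ) else 0), Finset.card_filter]
  push_cast
  rfl

set_option linter.unusedSectionVars false in
private theorem k_ee (C : ℝ) (df : Fc → ℝ) (X : Fc) : 0 ≤ ee C df X := Real.sqrt_nonneg _

private theorem k_wild (h : HypF K C δ R df) (hη0 : 0 < η) (hη : η ≤ 1 / 100) {X : Fc}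
    (hX : WildF K (ee C df) η X) : ((K.fd X).card : ℝ) ≤ 7 * (C * df X) / η ^ 2 := by
  have hC : 0 ≤ C := zero_le_one.trans h.C_one
  have hdf : 0 ≤ C * df X := mul_nonneg hC (h.df_nonneg X)
  have hη2 : 0 < η ^ 2 := by positivity
  have hη3 : η ^ 2 ≤ 1 := by nlinarith
  have hbig : 7 * (C * df X) ≤ 7 * (C * df X) / η ^ 2 := by
    rw [le_div_iff₀ hη2]
    nlinarith
  by_cases hB : Bdy K X
  · by_cases h1 : C * df X ≤ 1
    · exfalso
      apply hX.2
      have hc : ((K.fd X).card : ℝ) ≤ 7 := by
        have := h.bd_card X hB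
        linarith
      have hc' : (K.fd X).card ≤ 7 := by exact_mod_cast hc
      refine ⟨hB, hc', ?_⟩
      have h2 := h.bd_len X hB
      have h3 : ∑ d ∈ K.fd X, ‖K.v d‖ =
          ∑ d ∈ (K.fd X).filter (fun d => d ∈ K.out), ‖K.v d‖ +
          ∑ d ∈ (K.fd X).filter (fun d => ¬ d ∈ K.out), ‖K.v d‖ :=
        (Finset.sum_filter_add_sum_filter_not _ _ _).symm
      have h4 : ∑ d ∈ (K.fd X).filter (fun d => ¬ d ∈ K.out), ‖K.v d‖ ≤ 21 := by
        calc ∑ d ∈ (K.fd X).filter (fun d => ¬ d ∈ K.out), ‖K.v d‖ ≤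
            ∑ _d ∈ (K.fd X).filter (fun d => ¬ d ∈ K.out), (3 : ℝ) :=
              Finset.sum_le_sum fun d hd => h.v_le d (Finset.mem_filter.1 hd).2
          _ = (((K.fd X).filter (fun d => ¬ d ∈ K.out)).card : ℝ) * 3 := by
              rw [Finset.sum_const, nsmul_eq_mul]
          _ ≤ 7 * 3 := by
              have h5 : ((K.fd X).filter (fun d => ¬ d ∈ K.out)).card ≤ (K.fd X).card :=
                Finset.card_le_card (Finset.filter_subset _ _)
              have h6 : (((K.fd X).filter (fun d => ¬ d ∈ K.out)).card : ℝ) ≤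
                  ((K.fd X).card : ℝ) := by exact_mod_cast h5
              nlinarith
          _ = 21 := by norm_num
      rw [h3]
      linarith
    · have h2 := h.bd_card X hB
      push Not at h1
      linarith
  · by_cases h6 : (K.fd X).card = 6
    · have hsix := h.in_six X hB h6
      have he : η < ee C df X := by
        by_contra hcon
        push Not at hcon
        apply hX.1
        refine ⟨fun d hd hdo => hB ⟨d, hd, hdo⟩, h6, k_ee C df X, hcon, fun d hd => ?_⟩
        obtain ⟨g1, g2⟩ := hsix d hd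
        exact ⟨Real.le_sqrt_of_sq_le g1, Real.abs_le_sqrt g2⟩
      have h7 : η ^ 2 < C * df X := by
        unfold ee at he
        exact (Real.lt_sqrt hη0.le).1 he
      rw [h6, le_div_iff₀ hη2]
      push_cast
      linarith
    · have h7 := h.in_ne X hB h6
      linarith

set_option linter.unusedSectionVars false in
open scoped Classical in
private theorem k_stle (K : Cx D Fc) (P : Fc → Prop) :
    (univ.filter (fun d => P (K.F (K.st d)))).card ≤
      (univ.filter (fun d => P (K.F d))).card := by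
  refine Finset.card_le_card_of_injOn K.st (fun d hd => ?_) K.st.injective.injOn
  have h1 : P (K.F (K.st d)) := (Finset.mem_filter.1 hd).2
  exact Finset.mem_coe.2 (Finset.mem_filter.2 ⟨Finset.mem_univ _, h1⟩)

open scoped Classical in
theorem card_wildF (h : HypF K C δ R df) (hη0 : 0 < η) (hη : η ≤ 1 / 100) :
    ((univ.filter (fun d => WildF K (ee C df) η (K.F d))).card : ℝ) ≤ 7 * C * δ * R / η ^ 2 := by
  rw [k_card K (fun X => WildF K (ee C df) η X)]
  have hC : 0 ≤ C := zero_le_one.trans h.C_one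
  have hη2 : 0 < η ^ 2 := by positivity
  calc ∑ X, ((K.fd X).card : ℝ) * (if WildF K (ee C df) η X then 1 else 0) ≤
      ∑ X, 7 * (C * df X) / η ^ 2 := by
        refine Finset.sum_le_sum fun X _ => ?_
        split_ifs with hX
        · rw [mul_one]
          exact k_wild h hη0 hη hX
        · rw [mul_zero]
          have := h.df_nonneg X
          positivity
    _ = 7 * C / η ^ 2 * ∑ X, df X := by
        rw [Finset.mul_sum]
        refine Finset.sum_congr rfl fun X _ => ?_
        ring
    _ ≤ 7 * C / η ^ 2 * (δ * R) := mul_le_mul_of_nonneg_left h.df_sum (by positivity)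
    _ = 7 * C * δ * R / η ^ 2 := by ring

open scoped Classical in
theorem card_midF (h : HypF K C δ R df) :
    ((univ.filter (fun d => K.Mid (K.F d))).card : ℝ) ≤ 7 * C * R := by
  rw [k_card K (fun X => K.Mid X)]
  calc ∑ X, ((K.fd X).card : ℝ) * (if K.Mid X then 1 else 0) ≤
      ∑ X, (if K.Mid X then (7 : ℝ) else 0) := by
        refine Finset.sum_le_sum fun X _ => ?_
        split_ifs with hX
        · rw [mul_one]
          exact_mod_cast hX.2.1
        · rw [mul_zero]
    _ = 7 * ((univ.filter (fun X => K.Mid X)).card : ℝ) := by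
        rw [← Finset.sum_filter, Finset.sum_const, nsmul_eq_mul, mul_comm]
    _ ≤ 7 * (C * R) := by
        have h1 : (univ.filter (fun X => K.Mid X)).card ≤ K.out.card := by
          refine (Finset.card_le_card (t := K.out.image K.F) ?_).trans Finset.card_image_le
          intro X hX
          obtain ⟨⟨d, hd, hdo⟩, -⟩ := (Finset.mem_filter.1 hX).2
          exact Finset.mem_image.2 ⟨d, hdo, hd⟩
        have h2 : ((univ.filter (fun X => K.Mid X)).card : ℝ) ≤ (K.out.card : ℝ) := by
          exact_mod_cast h1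
        have h3 := h.cardO
        linarith
    _ = 7 * C * R := by ring

open scoped Classical in
theorem card_W (h : HypF K C δ R df) (hη0 : 0 < η) (hη : η ≤ 1 / 100) :
    ((univ.filter (IsW K (ee C df) η)).card : ℝ) ≤ 14 * C * δ * R / η ^ 2 := by
  have h1 : (univ.filter (IsW K (ee C df) η)).card ≤
      (univ.filter (fun d => WildF K (ee C df) η (K.F d))).card +
        (univ.filter (fun d => WildF K (ee C df) η (K.F (K.st d)))).card := by
    refine (Finset.card_le_card ?_).trans (Finset.card_union_le _ _)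
    intro d hd
    obtain ⟨-, h2 | h2⟩ := (Finset.mem_filter.1 hd).2
    · exact Finset.mem_union_left _ (Finset.mem_filter.2 ⟨Finset.mem_univ _, h2⟩)
    · exact Finset.mem_union_right _ (Finset.mem_filter.2 ⟨Finset.mem_univ _, h2⟩)
  have h2 := k_stle K (fun X => WildF K (ee C df) η X)
  have h3 := card_wildF h hη0 hη
  have h4 : ((univ.filter (IsW K (ee C df) η)).card : ℝ) ≤
      2 * ((univ.filter (fun d => WildF K (ee C df) η (K.F d))).card : ℝ) := by
    have h5 : (univ.filter (IsW K (ee C df) η)).card ≤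
        2 * (univ.filter (fun d => WildF K (ee C df) η (K.F d))).card := by
      linarith
    exact_mod_cast h5
  calc _ ≤ _ := h4
    _ ≤ 2 * (7 * C * δ * R / η ^ 2) := by linarith
    _ = 14 * C * δ * R / η ^ 2 := by ring

open scoped Classical in
theorem card_M (h : HypF K C δ R df) :
    ((univ.filter (IsM K (ee C df) η)).card : ℝ) ≤ 14 * C * R := by
  have h1 : (univ.filter (IsM K (ee C df) η)).card ≤
      (univ.filter (fun d => K.Mid (K.F d))).card +
        (univ.filter (fun d => K.Mid (K.F (K.st d)))).card := by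
    refine (Finset.card_le_card ?_).trans (Finset.card_union_le _ _)
    intro d hd
    obtain ⟨g1, g2, g3⟩ := (Finset.mem_filter.1 hd).2
    rw [Finset.mem_union, Finset.mem_filter, Finset.mem_filter]
    by_contra hcon
    push Not at hcon
    have h2 := hcon.1 (Finset.mem_univ _)
    have h3 := hcon.2 (Finset.mem_univ _)
    have h4 : K.Reg (ee C df) η (K.F d) := by
      by_contra h5
      exact g3 ⟨g1, Or.inl ⟨h5, h2⟩⟩
    have h5 : K.Reg (ee C df) η (K.F (K.st d)) := by
      by_contra h6
      exact g3 ⟨g1, Or.inr ⟨h6, h3⟩⟩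
    exact g2 ⟨g1, h4, h5⟩
  have h2 := k_stle K (fun X => K.Mid X)
  have h3 := card_midF h
  have h4 : ((univ.filter (IsM K (ee C df) η)).card : ℝ) ≤
      2 * ((univ.filter (fun d => K.Mid (K.F d))).card : ℝ) := by
    have h5 : (univ.filter (IsM K (ee C df) η)).card ≤
        2 * (univ.filter (fun d => K.Mid (K.F d))).card := by
      linarith
    exact_mod_cast h5
  linarith

open scoped Classical in
theorem card_nreg (h : HypF K C δ R df) (hη0 : 0 < η) (hη : η ≤ 1 / 100) :
    ((univ.filter (fun d => ¬ K.Reg (ee C df) η (K.F d))).card : ℝ) ≤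
      7 * C * δ * R / η ^ 2 + 7 * C * R := by
  have h1 : (univ.filter (fun d => ¬ K.Reg (ee C df) η (K.F d))).card ≤
      (univ.filter (fun d => WildF K (ee C df) η (K.F d))).card +
        (univ.filter (fun d => K.Mid (K.F d))).card := by
    refine (Finset.card_le_card ?_).trans (Finset.card_union_le _ _)
    intro d hd
    have h2 : ¬ K.Reg (ee C df) η (K.F d) := (Finset.mem_filter.1 hd).2
    by_cases h3 : K.Mid (K.F d)
    · exact Finset.mem_union_right _ (Finset.mem_filter.2 ⟨Finset.mem_univ _, h3⟩)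
    · exact Finset.mem_union_left _ (Finset.mem_filter.2 ⟨Finset.mem_univ _, h2, h3⟩)
  have h2 := card_wildF h hη0 hη
  have h3 := card_midF h
  have h4 : ((univ.filter (fun d => ¬ K.Reg (ee C df) η (K.F d))).card : ℝ) ≤
      ((univ.filter (fun d => WildF K (ee C df) η (K.F d))).card : ℝ) +
        ((univ.filter (fun d => K.Mid (K.F d))).card : ℝ) := by
    exact_mod_cast h1
  linarith

open scoped Classical in
theorem sum_e (h : HypF K C δ R df) (hη0 : 0 < η) :
    ∑ d ∈ univ.filter (fun d => K.Reg (ee C df) η (K.F d)), ee C df (K.F d) ≤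
      3 * C * R * √(δ * R) := by
  have hC : 0 ≤ C := zero_le_one.trans h.C_one
  have hR : 0 ≤ R := zero_le_one.trans h.R_one
  have hδ := h.δ_nonneg
  set Rg : Finset D := univ.filter (fun d => K.Reg (ee C df) η (K.F d)) with hRg
  have h1 : (∑ d ∈ Rg, ee C df (K.F d)) ^ 2 ≤ (Rg.card : ℝ) * ∑ d ∈ Rg, ee C df (K.F d) ^ 2 :=
    sq_sum_le_card_mul_sum_sq
  have h2 : (Rg.card : ℝ) ≤ C * R ^ 2 := by
    refine le_trans ?_ h.cardD
    have h3 : Rg.card ≤ Fintype.card D := Finset.card_le_univ _
    exact_mod_cast h3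
  have h3 : ∑ d ∈ Rg, ee C df (K.F d) ^ 2 ≤ 6 * (C * (δ * R)) := by
    have h4 : ∑ d ∈ Rg, ee C df (K.F d) ^ 2 =
        ∑ X, ((K.fd X).card : ℝ) * (if K.Reg (ee C df) η X then C * df X else 0) := by
      rw [← k_sf K (fun X => if K.Reg (ee C df) η X then C * df X else 0), hRg,
        Finset.sum_filter]
      refine Finset.sum_congr rfl fun d _ => ?_
      by_cases h5 : K.Reg (ee C df) η (K.F d)
      · rw [if_pos h5, if_pos h5]
        exact Real.sq_sqrt (mul_nonneg hC (h.df_nonneg _))
      · rw [if_neg h5, if_neg h5]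
    rw [h4]
    calc ∑ X, ((K.fd X).card : ℝ) * (if K.Reg (ee C df) η X then C * df X else 0) ≤
        ∑ X, 6 * (C * df X) := by
          refine Finset.sum_le_sum fun X _ => ?_
          have h6 : 0 ≤ C * df X := mul_nonneg hC (h.df_nonneg X)
          split_ifs with h5
          · rw [h5.2.1]
            push_cast
            exact le_rfl
          · rw [mul_zero]
            positivity
      _ = 6 * (C * ∑ X, df X) := by rw [Finset.mul_sum, Finset.mul_sum]
      _ ≤ 6 * (C * (δ * R)) := by
          have := mul_le_mul_of_nonneg_left h.df_sum hC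
          linarith
  have h4 : 0 ≤ ∑ d ∈ Rg, ee C df (K.F d) ^ 2 := Finset.sum_nonneg fun d _ => sq_nonneg _
  have h5 : (∑ d ∈ Rg, ee C df (K.F d)) ^ 2 ≤ (3 * C * R * √(δ * R)) ^ 2 := by
    calc (∑ d ∈ Rg, ee C df (K.F d)) ^ 2 ≤ (Rg.card : ℝ) * ∑ d ∈ Rg, ee C df (K.F d) ^ 2 := h1
      _ ≤ C * R ^ 2 * (6 * (C * (δ * R))) := mul_le_mul h2 h3 h4 (by positivity)
      _ ≤ 9 * (C ^ 2 * R ^ 2 * (δ * R)) := by
          have : 0 ≤ C ^ 2 * R ^ 2 * (δ * R) := by positivity
          nlinarith
      _ = (3 * C * R * √(δ * R)) ^ 2 := by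
          rw [mul_pow, Real.sq_sqrt (by positivity)]
          ring
  exact le_of_sq_le_sq h5 (by positivity)

end Pool.Agent.Helper38.RG
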