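import Pool.Agent.Helper38.RG.Meas

/-!
# RG-03: integrals of the kernels over the disc `B = ball z0 (R/4)`

All integrals are invariant under translation; `∫` of a radial function: `∫_{‖z‖ < r} ‖z‖^(-a) = 2 π r^(2-a) / (2-a)` for `a < 2`
(polar coordinates, `Complex.polarCoord`, `integral_fun_norm_addHaar`, or `MeasureTheory.Measure.integral_fun_norm_addHaar`; or the layer cake formula).
* `int_q1`: split `B` at `‖p - ζ‖ < R/4`: there `q1 ≤ 1/‖p - ζ‖`, integral `≤ 2 π R/4`; elsewhere `q1 ≤ 4/R`, area `≤ π R²/16`.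
* `int_q2`: `q1² ≤ ‖p - ζ‖^(-3/2) s^(-1/2)`; near part `4 π (R/4)^(1/2) s^(-1/2)`, far part `(R/4)^(-3/2) s^(-1/2) π R²/16`.
  (Any other proof is fine, e.g. dyadic annuli `2^j s ≤ ‖p - ζ‖ < 2^(j+1) s`.)
* `int_Er`: `∫_ℂ q1³ = π/s + 2π/s`; the annulus `|‖z‖ - s| ≤ 2` has area `8 π s`.  `32 · 3 π + 32 · 8 π ≤ 1300`.
* `int_ind`: the area of the disc.
-/

namespace Pool.Agent.Helper38.RG

open Finset MeasureTheory

open Set in
private lemma rad (p : ℂ) (g : ℝ → ℝ) :
    ∫ ζ : ℂ, g ‖p - ζ‖ = 2 * Real.pi * ∫ t in Ioi (0 : ℝ), t * g t := by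
  rw [integral_sub_left_eq_self (fun z : ℂ => g ‖z‖) volume p, integral_fun_norm_addHaar]
  simp only [Complex.finrank_real_complex, Nat.add_one_sub_one, pow_one, smul_eq_mul,
    nsmul_eq_mul]
  have h : volume.real (Metric.ball (0 : ℂ) 1) = Real.pi := by
    have := ball_area 0 (r := 1) zero_le_one
    rw [Measure.real, this]
    ring
  rw [h]
  push_cast
  ring

open Set in
private lemma rad_int (p : ℂ) {g : ℝ → ℝ} (hg : IntegrableOn (fun t => t * g t) (Ioi 0)) :
    Integrable (fun ζ : ℂ => g ‖p - ζ‖) := by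
  have h1 : Integrable (fun z : ℂ => g ‖z‖) := by
    rw [integrable_fun_norm_addHaar]
    simpa only [Complex.finrank_real_complex, Nat.add_one_sub_one, pow_one, smul_eq_mul] using hg
  exact h1.comp_sub_left p

open Set in
private lemma ball_le (p z0 : ℂ) {r : ℝ} (hr : 0 ≤ r) {F : ℂ → ℝ} {g : ℝ → ℝ} {c : ℝ}
    (hF : IntegrableOn F (Metric.ball z0 r)) (hle : ∀ ζ, ζ ≠ p → F ζ ≤ c + g ‖p - ζ‖)
    (hg0 : ∀ t, 0 ≤ t → 0 ≤ g t) (hgi : IntegrableOn (fun t => t * g t) (Ioi 0)) :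
    ∫ ζ in Metric.ball z0 r, F ζ ≤
      c * (Real.pi * r ^ 2) + 2 * Real.pi * ∫ t in Ioi (0 : ℝ), t * g t := by
  have hG := rad_int p hgi
  have hfin : volume (Metric.ball z0 r) ≠ ⊤ := measure_ball_lt_top.ne
  have hc : IntegrableOn (fun _ : ℂ => c) (Metric.ball z0 r) := integrableOn_const hfin
  have h1 : ∫ ζ in Metric.ball z0 r, F ζ ≤ ∫ ζ in Metric.ball z0 r, (c + g ‖p - ζ‖) := by
    refine setIntegral_mono_ae hF (hc.add hG.integrableOn) ?_
    have h2 : ∀ᵐ ζ : ℂ ∂volume, ζ ≠ p := by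
      have := measure_singleton (μ := (volume : Measure ℂ)) p
      exact compl_mem_ae_iff.2 this
    filter_upwards [h2] with ζ hζ
    exact hle ζ hζ
  have h2 : ∫ ζ in Metric.ball z0 r, (c + g ‖p - ζ‖) =
      c * (Real.pi * r ^ 2) + ∫ ζ in Metric.ball z0 r, g ‖p - ζ‖ := by
    rw [integral_add hc hG.integrableOn, setIntegral_const, Measure.real, ball_area z0 hr,
      smul_eq_mul, mul_comm c]
  have h3 : ∫ ζ in Metric.ball z0 r, g ‖p - ζ‖ ≤ ∫ ζ : ℂ, g ‖p - ζ‖ :=
    setIntegral_le_integral hG (Filter.Eventually.of_forall fun ζ => hg0 _ (norm_nonneg _))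
  rw [rad] at h3
  linarith

open Set in
private lemma trunc {ρ : ℝ} (hρ : 0 ≤ ρ) (φ : ℝ → ℝ) :
    ∫ t in Ioi (0 : ℝ), t * (if t < ρ then φ t else 0) = ∫ t in (0 : ℝ)..ρ, t * φ t := by
  have h1 : (fun t : ℝ => t * (if t < ρ then φ t else 0)) =
      (Iio ρ).indicator fun t => t * φ t := by
    funext t
    by_cases h : t < ρ
    · rw [if_pos h, indicator_of_mem (Set.mem_Iio.2 h)]
    · rw [if_neg h, indicator_of_notMem (fun h' => h (Set.mem_Iio.1 h')), mul_zero]
  rw [h1, setIntegral_indicator measurableSet_Iio, Ioi_inter_Iio, ← integral_Ioc_eq_integral_Ioo,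
    intervalIntegral.integral_of_le hρ]

open Set in
private lemma trunc_int {ρ : ℝ} (hρ : 0 ≤ ρ) {φ : ℝ → ℝ}
    (h : IntervalIntegrable (fun t => t * φ t) volume 0 ρ) :
    IntegrableOn (fun t => t * (if t < ρ then φ t else 0)) (Ioi 0) := by
  have h1 : (fun t : ℝ => t * (if t < ρ then φ t else 0)) =
      (Iio ρ).indicator fun t => t * φ t := by
    funext t
    by_cases h : t < ρ
    · rw [if_pos h, indicator_of_mem (Set.mem_Iio.2 h)]
    · rw [if_neg h, indicator_of_notMem (fun h' => h (Set.mem_Iio.1 h')), mul_zero]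
  rw [h1, IntegrableOn, integrable_indicator_iff measurableSet_Iio, IntegrableOn,
    Measure.restrict_restrict measurableSet_Iio, Set.inter_comm, Ioi_inter_Iio]
  exact ((intervalIntegrable_iff_integrableOn_Ioc_of_le hρ).1 h).mono_set Ioo_subset_Ioc_self

theorem int_q1 {R s : ℝ} (hR : 0 < R) (hs : 0 < s) (p z0 : ℂ) :
    ∫ ζ in Metric.ball z0 (R / 4), q1 s (p - ζ) ≤ 7 * R := by
  have hcongr : ∀ t ∈ Set.uIoc (0 : ℝ) (R / 4), t * t⁻¹ = 1 := by
    intro t ht
    rw [Set.uIoc_of_le (by positivity)] at ht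
    exact mul_inv_cancel₀ ht.1.ne'
  have hii : IntervalIntegrable (fun t : ℝ => t * t⁻¹) volume 0 (R / 4) := by
    refine (intervalIntegrable_const (c := (1 : ℝ))).congr ?_
    exact fun t ht => (hcongr t ht).symm
  have h := ball_le p z0 (r := R / 4) (by positivity) (F := fun ζ => q1 s (p - ζ))
    (g := fun t => if t < R / 4 then t⁻¹ else 0) (c := 4 / R) (intg_q1 hs p z0 (R / 4))
    (fun ζ hζ => ?_) (fun t ht => ?_) (trunc_int (by positivity) hii)
  · rw [trunc (by positivity), intervalIntegral.integral_congr_ae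
      (Filter.Eventually.of_forall hcongr), intervalIntegral.integral_const] at h
    refine h.trans ?_
    have e : 4 / R * (Real.pi * (R / 4) ^ 2) + 2 * Real.pi * ((R / 4 - 0) • (1 : ℝ)) =
        Real.pi * (3 / 4 * R) := by
      rw [smul_eq_mul]
      field_simp
      ring
    rw [e]
    nlinarith [Real.pi_lt_four]
  · have hz : 0 < ‖p - ζ‖ := norm_pos_iff.2 (sub_ne_zero.2 hζ.symm)
    show q1 s (p - ζ) ≤ 4 / R + if ‖p - ζ‖ < R / 4 then ‖p - ζ‖⁻¹ else 0
    unfold q1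
    split_ifs with h1
    · have : (max ‖p - ζ‖ s)⁻¹ ≤ ‖p - ζ‖⁻¹ := inv_anti₀ hz (le_max_left _ _)
      have : 0 ≤ 4 / R := by positivity
      linarith
    · rw [not_lt] at h1
      rw [add_zero, show 4 / R = (R / 4)⁻¹ by rw [inv_div]]
      exact inv_anti₀ (by positivity) (h1.trans (le_max_left _ _))
  · show 0 ≤ if t < R / 4 then t⁻¹ else 0
    split_ifs
    · positivity
    · exact le_rfl

theorem int_q2 {R s : ℝ} (hR : 0 < R) (hs : 0 < s) (p z0 : ℂ) :
    ∫ ζ in Metric.ball z0 (R / 4), q1 s (p - ζ) ^ 2 ≤ 20 * √(R / s) := by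
  have hsR := Real.sqrt_pos.2 hR
  have hss := Real.sqrt_pos.2 hs
  have hcongr : ∀ t ∈ Set.uIoc (0 : ℝ) (R / 4), t * (t * √t * √s)⁻¹ =
      (√s)⁻¹ * t ^ (-(1 / 2) : ℝ) := by
    intro t ht
    rw [Set.uIoc_of_le (by positivity)] at ht
    have h0 := ht.1
    have h1 := Real.sqrt_pos.2 h0
    rw [Real.rpow_neg h0.le, ← Real.sqrt_eq_rpow]
    field_simp
  have hrp : IntervalIntegrable (fun t : ℝ => t ^ (-(1 / 2) : ℝ)) volume 0 (R / 4) :=
    intervalIntegral.intervalIntegrable_rpow' (by norm_num)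
  have hii : IntervalIntegrable (fun t : ℝ => t * (t * √t * √s)⁻¹) volume 0 (R / 4) := by
    refine (hrp.const_mul (√s)⁻¹).congr ?_
    exact fun t ht => (hcongr t ht).symm
  have h := ball_le p z0 (r := R / 4) (by positivity) (F := fun ζ => q1 s (p - ζ) ^ 2)
    (g := fun t => if t < R / 4 then (t * √t * √s)⁻¹ else 0) (c := 8 / (R * √R * √s))
    (intg_q2 hs p z0 (R / 4)) (fun ζ hζ => ?_) (fun t ht => ?_) (trunc_int (by positivity) hii)
  · rw [trunc (by positivity), intervalIntegral.integral_congr_ae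
      (Filter.Eventually.of_forall hcongr), intervalIntegral.integral_const_mul,
      integral_rpow (Or.inl (by norm_num))] at h
    refine h.trans ?_
    have e0 : (-(1 / 2) : ℝ) + 1 = 1 / 2 := by norm_num
    have e1 : (R / 4) ^ (1 / 2 : ℝ) = √R / 2 := by
      rw [← Real.sqrt_eq_rpow, Real.sqrt_div hR.le, show (4 : ℝ) = 2 ^ 2 by norm_num,
        Real.sqrt_sq (by norm_num)]
    rw [e0, e1, Real.zero_rpow (by norm_num), sub_zero, Real.sqrt_div hR.le]
    have e2 : 8 / (R * √R * √s) * (Real.pi * (R / 4) ^ 2) = Real.pi / 2 * (√R / √s) := by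
      have h3 : √R * √R = R := Real.mul_self_sqrt hR.le
      rw [div_mul_eq_mul_div, div_eq_iff (by positivity)]
      have h4 : Real.pi / 2 * (√R / √s) * (R * √R * √s) =
        Real.pi / 2 * R * (√R * √R) * (√s / √s) := by ring
      rw [h4, div_self hss.ne', h3]
      ring
    have e3 : 2 * Real.pi * ((√s)⁻¹ * (√R / 2 / (1 / 2))) = 2 * Real.pi * (√R / √s) := by
      rw [div_eq_mul_inv (√R) (√s)]
      ring
    rw [e2, e3]
    have h5 : 0 < √R / √s := by positivity
    nlinarith [Real.pi_lt_four]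
  · have hz : 0 < ‖p - ζ‖ := norm_pos_iff.2 (sub_ne_zero.2 hζ.symm)
    show q1 s (p - ζ) ^ 2 ≤ 8 / (R * √R * √s) +
      if ‖p - ζ‖ < R / 4 then (‖p - ζ‖ * √‖p - ζ‖ * √s)⁻¹ else 0
    unfold q1
    obtain ⟨m, hm⟩ : ∃ m, m = max ‖p - ζ‖ s := ⟨_, rfl⟩
    have hm1 : ‖p - ζ‖ ≤ m := hm ▸ le_max_left _ _
    have hm2 : s ≤ m := hm ▸ le_max_right _ _
    have hm0 : 0 < m := hs.trans_le hm2
    rw [← hm, inv_pow]
    have key : ∀ a : ℝ, 0 < a → a ≤ m → (m ^ 2)⁻¹ ≤ (a * √a * √s)⁻¹ := by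
      intro a ha ham
      refine inv_anti₀ (by have := Real.sqrt_pos.2 ha; positivity) ?_
      calc a * √a * √s ≤ m * √m * √m := by
            gcongr
        _ = m ^ 2 := by rw [mul_assoc, Real.mul_self_sqrt hm0.le]; ring
    split_ifs with h1
    · have h2 := key _ hz hm1
      have : 0 ≤ 8 / (R * √R * √s) := by positivity
      linarith
    · rw [not_lt] at h1
      have h2 := key (R / 4) (by positivity) (h1.trans hm1)
      rw [add_zero]
      refine h2.trans (le_of_eq ?_)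
      rw [Real.sqrt_div hR.le, show √(4 : ℝ) = 2 by
        rw [show (4 : ℝ) = 2 ^ 2 by norm_num, Real.sqrt_sq (by norm_num)]]
      field_simp
      norm_num
  · show 0 ≤ if t < R / 4 then (t * √t * √s)⁻¹ else 0
    split_ifs
    · positivity
    · exact le_rfl

open Set in
private lemma cube_int {s : ℝ} (hs : 0 < s) :
    IntegrableOn (fun t => t * (max t s)⁻¹ ^ 3) (Ioi 0) ∧
      ∫ t in Ioi (0 : ℝ), t * (max t s)⁻¹ ^ 3 = 3 / (2 * s) := by
  have hu : Ioc (0 : ℝ) s ∪ Ioi s = Set.Ioi 0 := Ioc_union_Ioi_eq_Ioi hs.le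
  have c1 : ∀ t ∈ Ioc (0 : ℝ) s, t * (max t s)⁻¹ ^ 3 = (s⁻¹ ^ 3) * t := by
    intro t ht
    rw [max_eq_right ht.2, mul_comm]
  have c2 : ∀ t ∈ Ioi s, t * (max t s)⁻¹ ^ 3 = t ^ (-2 : ℝ) := by
    intro t ht
    have ht0 : 0 < t := hs.trans ht
    rw [max_eq_left (le_of_lt ht), Real.rpow_neg ht0.le, show (2 : ℝ) = ((2 : ℕ) : ℝ) by norm_num,
      Real.rpow_natCast]
    field_simp
  have i1 : IntegrableOn (fun t => t * (max t s)⁻¹ ^ 3) (Ioc 0 s) := by
    refine IntegrableOn.congr_fun ?_ (fun t ht => (c1 t ht).symm) measurableSet_Ioc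
    exact ((continuous_const.mul continuous_id).integrableOn_Icc).mono_set Ioc_subset_Icc_self
  have i2 : IntegrableOn (fun t => t * (max t s)⁻¹ ^ 3) (Ioi s) := by
    refine IntegrableOn.congr_fun ?_ (fun t ht => (c2 t ht).symm) measurableSet_Ioi
    exact integrableOn_Ioi_rpow_of_lt (by norm_num) hs
  refine ⟨hu ▸ i1.union i2, ?_⟩
  rw [← hu, setIntegral_union (Ioc_disjoint_Ioi le_rfl) measurableSet_Ioi i1 i2,
    setIntegral_congr_fun measurableSet_Ioc c1, setIntegral_congr_fun measurableSet_Ioi c2,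
    integral_Ioi_rpow_of_lt (by norm_num) hs, ← intervalIntegral.integral_of_le hs.le,
    intervalIntegral.integral_const_mul, integral_id, show (-2 : ℝ) + 1 = -1 by norm_num,
    Real.rpow_neg_one]
  field_simp
  ring

open Set in
private lemma annulus_int {s : ℝ} (hs : 2 ≤ s) :
    IntegrableOn (fun t => t * (if |t - s| ≤ 2 then 32 / s ^ 2 else 0)) (Ioi 0) ∧
      ∫ t in Ioi (0 : ℝ), t * (if |t - s| ≤ 2 then 32 / s ^ 2 else 0) = 128 / s := by
  have h1 : (fun t : ℝ => t * (if |t - s| ≤ 2 then 32 / s ^ 2 else 0)) =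
      (Icc (s - 2) (s + 2)).indicator fun t => 32 / s ^ 2 * t := by
    funext t
    by_cases h : |t - s| ≤ 2
    · have h' := abs_le.1 h
      rw [if_pos h, indicator_of_mem (Set.mem_Icc.2 ⟨by linarith [h'.1], by linarith [h'.2]⟩),
        mul_comm]
    · rw [if_neg h, indicator_of_notMem, mul_zero]
      intro h'
      exact h (abs_le.2 ⟨by linarith [h'.1], by linarith [h'.2]⟩)
  have hi : IntegrableOn (fun t : ℝ => 32 / s ^ 2 * t) (Icc (s - 2) (s + 2)) :=
    (continuous_const.mul continuous_id).integrableOn_Icc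
  rw [h1]
  constructor
  · rw [IntegrableOn, integrable_indicator_iff measurableSet_Icc]
    exact hi.mono_measure Measure.restrict_le_self
  · rw [setIntegral_indicator measurableSet_Icc]
    have h2 : ∫ t in Ioi (0 : ℝ) ∩ Icc (s - 2) (s + 2), 32 / s ^ 2 * t =
        ∫ t in Icc (s - 2) (s + 2), 32 / s ^ 2 * t := by
      refine setIntegral_congr_set ?_
      have h3 : Ioc (s - 2) (s + 2) ⊆ Ioi (0 : ℝ) ∩ Icc (s - 2) (s + 2) := by
        intro t ht
        exact ⟨lt_of_le_of_lt (by linarith) ht.1, Ioc_subset_Icc_self ht⟩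
      have h4 : (Ioc (s - 2) (s + 2) : Set ℝ) =ᵐ[volume] Icc (s - 2) (s + 2) := Ioc_ae_eq_Icc
      have h5 : (Icc (s - 2) (s + 2) : Set ℝ) ≤ᵐ[volume]
          (Ioi (0 : ℝ) ∩ Icc (s - 2) (s + 2) : Set ℝ) :=
        h4.symm.le.trans (LE.le.eventuallyLE h3)
      exact (LE.le.eventuallyLE Set.inter_subset_right).antisymm h5
    rw [h2, integral_Icc_eq_integral_Ioc, ← intervalIntegral.integral_of_le (by linarith),
      intervalIntegral.integral_const_mul, integral_id]
    have : 0 < s := by linarith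
    field_simp
    ring

theorem int_Er {R s : ℝ} (hR : 0 < R) (hs : 200 ≤ s) (p z0 : ℂ) :
    ∫ ζ in Metric.ball z0 (R / 4), Er s (p - ζ) ≤ 1300 / s := by
  have hs0 : 0 < s := by linarith
  obtain ⟨i1, v1⟩ := cube_int hs0
  obtain ⟨i2, v2⟩ := annulus_int (show 2 ≤ s by linarith)
  have hg : (fun t : ℝ => t * (32 * (max t s)⁻¹ ^ 3 + if |t - s| ≤ 2 then 32 / s ^ 2 else 0)) =
      fun t => 32 * (t * (max t s)⁻¹ ^ 3) + t * (if |t - s| ≤ 2 then 32 / s ^ 2 else 0) := by
    funext t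
    ring
  have h := ball_le p z0 (r := R / 4) (by positivity) (F := fun ζ => Er s (p - ζ))
    (g := fun t => 32 * (max t s)⁻¹ ^ 3 + if |t - s| ≤ 2 then 32 / s ^ 2 else 0) (c := 0)
    (intg_Er hs0 p z0 (R / 4)) (fun ζ _ => ?_) (fun t ht => ?_) ?_
  · rw [hg, integral_add (i1.const_mul 32) i2, integral_const_mul, v1, v2] at h
    refine h.trans ?_
    have e : 0 * (Real.pi * (R / 4) ^ 2) + 2 * Real.pi * (32 * (3 / (2 * s)) + 128 / s) =
        352 * Real.pi / s := by
      field_simp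
      ring
    rw [e]
    gcongr
    linarith [Real.pi_lt_d2]
  · simp only [Er, q1, zero_add]
    exact le_rfl
  · have h1 : 0 < max t s := lt_of_lt_of_le hs0 (le_max_right _ _)
    show 0 ≤ 32 * (max t s)⁻¹ ^ 3 + if |t - s| ≤ 2 then 32 / s ^ 2 else 0
    split_ifs <;> positivity
  · rw [hg]
    exact (i1.const_mul 32).add i2

theorem int_ind {R s : ℝ} (hR : 0 < R) (hs : 0 < s) (p z0 : ℂ) :
    ∫ ζ in Metric.ball z0 (R / 4), (if ‖p - ζ‖ < s then (1 : ℝ) else 0) ≤ Real.pi * s ^ 2 := by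
  have hii : IntervalIntegrable (fun t : ℝ => t * (1 : ℝ)) volume 0 s :=
    (continuous_id.mul continuous_const).intervalIntegrable _ _
  have hgi := trunc_int hs.le hii
  have h := ball_le p z0 (r := R / 4) (by positivity)
    (F := fun ζ => if ‖p - ζ‖ < s then (1 : ℝ) else 0)
    (g := fun t => if t < s then (1 : ℝ) else 0) (c := 0) (rad_int p hgi).integrableOn
    (fun ζ _ => by rw [zero_add]) (fun t ht => ?_) hgi
  · rw [trunc hs.le] at h
    simp only [mul_one, zero_mul, zero_add, integral_id] at h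
    linarith
  · show 0 ≤ if t < s then (1 : ℝ) else 0
    split_ifs <;> norm_num

end Pool.Agent.Helper38.RG
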