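import Pool.Agent.Helper38.RG.Walk
import Pool.Agent.Helper38.RG.Count
import Pool.Agent.Helper38.RG.IntBall

/-!
# RG-21: the darts which are not good

* `card_bad`: for fixed `(a, b)` the map `YY K a b` is a bijection of `D`, so at most `#{d : F d not regular}` darts `d` have a face `F (YY K a b d)` which is not regular; `(2m+1)²` pairs.
* `bb_int`: `∫` of the indicator of the disc is `≤ π s²` (`int_ind`), `(√3/(4 π s²)) π s² = √3/4 ≤ 1`, and `card_nreg`.
-/

namespace Pool.Agent.Helper38.RG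

open Finset MeasureTheory

variable {D Fc : Type} [Fintype D] [DecidableEq D] [Fintype Fc] [DecidableEq Fc]

open scoped Classical in
/-- the normalised number of the regular darts in the disc which are not good -/
noncomputable def bb (K : Cx D Fc) (e : Fc → ℝ) (η : ℝ) (m : ℕ) (s : ℝ) (ζ : ℂ) : ℝ :=
  √3 / (4 * Real.pi * s ^ 2) *
    ∑ d ∈ univ.filter (fun d => K.Reg e η (K.F d) ∧ ¬ Good K e η m d),
      if ‖K.pc (K.F d) - ζ‖ < s then (1 : ℝ) else 0

open scoped Classical in
theorem card_bad (K : Cx D Fc) (e : Fc → ℝ) (η : ℝ) (m : ℕ) :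
    ((univ.filter (fun d => ¬ Good K e η m d)).card : ℝ) ≤
      (2 * m + 1) ^ 2 * ((univ.filter (fun d => ¬ K.Reg e η (K.F d))).card : ℝ) := by
  set N : ℕ := (univ.filter (fun d => ¬ K.Reg e η (K.F d))).card with hN
  set I : Finset ℤ := Finset.Icc (-(m : ℤ)) m with hI
  have hcard : I.card = 2 * m + 1 := by
    rw [hI, Int.card_Icc]
    omega
  have hsub : univ.filter (fun d => ¬ Good K e η m d) ⊆
      (I ×ˢ I).biUnion fun ab => univ.filter fun d => ¬ K.Reg e η (K.F (YY K ab.1 ab.2 d)) := by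
    intro d hd
    have h1 := (Finset.mem_filter.1 hd).2
    rw [Good] at h1
    push Not at h1
    obtain ⟨a, b, ha, hb, hab⟩ := h1
    rw [Finset.mem_biUnion]
    refine ⟨(a, b), ?_, ?_⟩
    · rw [Finset.mem_product, hI, Finset.mem_Icc, Finset.mem_Icc]
      exact ⟨abs_le.1 ha, abs_le.1 hb⟩
    · rw [Finset.mem_filter]
      exact ⟨Finset.mem_univ _, hab⟩
  have heach : ∀ ab ∈ I ×ˢ I,
      (univ.filter fun d => ¬ K.Reg e η (K.F (YY K ab.1 ab.2 d))).card ≤ N := by
    intro ab _
    rw [hN]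
    apply Finset.card_le_card_of_injOn (fun d => YY K ab.1 ab.2 d)
    · intro d hd
      have h1 := (Finset.mem_filter.1 (Finset.mem_coe.1 hd)).2
      rw [Finset.mem_coe, Finset.mem_filter]
      exact ⟨Finset.mem_univ _, h1⟩
    · intro x _ y _ hxy
      exact ((t1 K) ^ ab.2).injective (((t0 K) ^ ab.1).injective hxy)
  have h1 : (univ.filter (fun d => ¬ Good K e η m d)).card ≤ (2 * m + 1) ^ 2 * N := by
    calc (univ.filter (fun d => ¬ Good K e η m d)).card
        ≤ ((I ×ˢ I).biUnion fun ab =>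
            univ.filter fun d => ¬ K.Reg e η (K.F (YY K ab.1 ab.2 d))).card :=
          Finset.card_le_card hsub
      _ ≤ ∑ ab ∈ I ×ˢ I, (univ.filter fun d => ¬ K.Reg e η (K.F (YY K ab.1 ab.2 d))).card :=
          Finset.card_biUnion_le
      _ ≤ ∑ _ab ∈ I ×ˢ I, N := Finset.sum_le_sum heach
      _ = (2 * m + 1) ^ 2 * N := by
          rw [Finset.sum_const, Finset.card_product, hcard, smul_eq_mul]
          ring
  exact_mod_cast h1

private theorem meas_ind (s : ℝ) (p : ℂ) :
    Measurable fun ζ : ℂ => if ‖p - ζ‖ < s then (1 : ℝ) else 0 := by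
  refine Measurable.ite ?_ measurable_const measurable_const
  exact measurableSet_lt (by fun_prop) measurable_const

private theorem intg_ind (s : ℝ) (p z0 : ℂ) (r : ℝ) :
    IntegrableOn (fun ζ : ℂ => if ‖p - ζ‖ < s then (1 : ℝ) else 0) (Metric.ball z0 r) volume := by
  refine intg (meas_ind s p).aestronglyMeasurable (M := 1) (fun ζ => ?_) z0 r
  split_ifs <;> simp

theorem bb_int {K : Cx D Fc} {C δ R η : ℝ} {df : Fc → ℝ} (h : HypF K C δ R df) (hη0 : 0 < η)
    (hη : η ≤ 1 / 100) (m : ℕ) {s : ℝ} (hs : 200 ≤ s) (z0 : ℂ) :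
    ∫ ζ in Metric.ball z0 (R / 4), bb K (ee C df) η m s ζ ≤
      (2 * m + 1) ^ 2 * (7 * C * δ * R / η ^ 2 + 7 * C * R) := by
  classical
  have hR : 0 < R := lt_of_lt_of_le one_pos h.R_one
  have hs0 : 0 < s := by linarith
  set S := univ.filter (fun d => K.Reg (ee C df) η (K.F d) ∧ ¬ Good K (ee C df) η m d) with hS
  have h1 : ∫ ζ in Metric.ball z0 (R / 4), bb K (ee C df) η m s ζ =
      √3 / (4 * Real.pi * s ^ 2) * ∑ d ∈ S, ∫ ζ in Metric.ball z0 (R / 4),
        (if ‖K.pc (K.F d) - ζ‖ < s then (1 : ℝ) else 0) := by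
    unfold bb
    rw [integral_const_mul, integral_finsetSum]
    intro d _
    exact intg_ind s _ z0 _
  have hc0 : 0 ≤ √3 / (4 * Real.pi * s ^ 2) := by positivity
  have h2 : ∑ d ∈ S, ∫ ζ in Metric.ball z0 (R / 4),
        (if ‖K.pc (K.F d) - ζ‖ < s then (1 : ℝ) else 0) ≤ S.card * (Real.pi * s ^ 2) := by
    have := Finset.sum_le_sum fun d (_ : d ∈ S) => int_ind hR hs0 (K.pc (K.F d)) z0
    refine this.trans (le_of_eq ?_)
    rw [Finset.sum_const, nsmul_eq_mul]
  have h3 : √3 / (4 * Real.pi * s ^ 2) * (S.card * (Real.pi * s ^ 2)) ≤ S.card := by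
    have e1 : √3 / (4 * Real.pi * s ^ 2) * (S.card * (Real.pi * s ^ 2)) = √3 / 4 * S.card := by
      field_simp
    have e2 : √3 ≤ 4 := by
      rw [Real.sqrt_le_left (by norm_num)]
      norm_num
    rw [e1]
    have : (0 : ℝ) ≤ S.card := Nat.cast_nonneg _
    nlinarith
  have h4 : (S.card : ℝ) ≤ (univ.filter (fun d => ¬ Good K (ee C df) η m d)).card := by
    have : S.card ≤ (univ.filter (fun d => ¬ Good K (ee C df) η m d)).card := by
      apply Finset.card_le_card
      intro d hd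
      rw [Finset.mem_filter]
      exact ⟨Finset.mem_univ _, (Finset.mem_filter.1 hd).2.2⟩
    exact_mod_cast this
  have h5 := card_bad K (ee C df) η m
  have h6 := card_nreg h hη0 hη
  have h7 := mul_le_mul_of_nonneg_left h6 (sq_nonneg ((2 : ℝ) * m + 1))
  rw [h1]
  have h8 := mul_le_mul_of_nonneg_left h2 hc0
  linarith

theorem intg_bb (K : Cx D Fc) (e : Fc → ℝ) (η : ℝ) (m : ℕ) (s : ℝ) (z0 : ℂ) (r : ℝ) :
    IntegrableOn (fun ζ => bb K e η m s ζ) (Metric.ball z0 r) volume := by
  classical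
  unfold bb
  apply Integrable.const_mul
  apply integrable_finsetSum
  intro d _
  exact intg_ind s _ z0 r

end Pool.Agent.Helper38.RG
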