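import Pool.Agent.Helper38.RG.Defs

/-!
# RG-01: the truncated Cauchy kernel

* `ker_le`: both cases of the definition (`‖z‖ / s² ≤ 1 / s`).
* `dAdB`: exactly one of the two is nonzero.
* `ker_lip`: put `Δ = z - z'`.  Both `≥ s`: `‖z⁻¹ - z'⁻¹‖ = ‖Δ‖ / (‖z‖ ‖z'‖)` and `‖z'‖ ≥ ‖z‖ - 100 ≥ ‖z‖ / 2`.  Both `< s`: `‖Δ‖ / s²`.
  Mixed, `‖x‖ < s ≤ ‖y‖`: `y⁻¹ = conj y / ‖y‖²`, so `‖conj x / s² - y⁻¹‖ ≤ ‖x - y‖ / s² + ‖y‖ (1/s² - 1/‖y‖²)` and `‖y‖ (1/s² - 1/‖y‖²) = (‖y‖ - s)(‖y‖ + s)/(s² ‖y‖) ≤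
  2 (‖y‖ - s)/s² ≤ 2 ‖x - y‖/s²` (`‖y‖ - s ≤ ‖y‖ - ‖x‖`).  So always `≤ 3 ‖Δ‖/s²`; if `‖z‖ ≥ s` then `‖z‖ ≤ s + 100 ≤ 3/2 s`, so `3/s² ≤ 8/‖z‖²`.
* `ker_taylor`: `‖z‖ ≥ s` and `‖z + Δ‖ ≥ s`: `1/z - 1/(z+Δ) - Δ/z² = - Δ²/(z² (z + Δ))`, `‖z + Δ‖ ≥ ‖z‖/2`.  Both `< s`: the difference is `0`.
  Mixed: then `|‖z‖ - s| ≤ 2`, and everything is `≤ 3 · 2/s² + 2/s²` (the mixed case of the computation for `ker_lip`, `dAdB`).
-/

namespace Pool.Agent.Helper38.RG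

open Finset

theorem q1_pos {s : ℝ} (hs : 0 < s) (z : ℂ) : 0 < q1 s z :=
  inv_pos.2 (lt_of_lt_of_le hs (le_max_right _ _))

theorem q1_le {s : ℝ} (hs : 0 < s) (z : ℂ) : q1 s z ≤ s⁻¹ :=
  inv_anti₀ hs (le_max_right _ _)

private theorem q1_lt {s : ℝ} {z : ℂ} (h : ‖z‖ < s) : q1 s z = s⁻¹ := by
  rw [q1, max_eq_right h.le]

private theorem q1_ge {s : ℝ} {z : ℂ} (h : ¬ ‖z‖ < s) : q1 s z = ‖z‖⁻¹ := by
  rw [q1, max_eq_left (not_lt.1 h)]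

private theorem norm_conj (z : ℂ) : ‖(starRingEnd ℂ) z‖ = ‖z‖ := by
  simp

private theorem norm_sq_s {s : ℝ} (hs : 0 < s) : ‖(s : ℂ) ^ 2‖ = s ^ 2 := by
  rw [norm_pow, Complex.norm_real, Real.norm_eq_abs, abs_of_pos hs]

theorem ker_le {s : ℝ} (hs : 0 < s) (z : ℂ) : ‖ker s z‖ ≤ q1 s z := by
  by_cases h : ‖z‖ < s
  · rw [ker, if_pos h, q1_lt h, norm_div, norm_conj, norm_sq_s hs, div_le_iff₀ (by positivity)]
    have h1 : s⁻¹ * s ^ 2 = s := by field_simp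
    rw [h1]
    exact h.le
  · rw [ker, if_neg h, q1_ge h, norm_inv]

theorem dAdB {s : ℝ} (hs : 0 < s) (z : ℂ) : ‖dA s z‖ + ‖dB s z‖ = q1 s z ^ 2 := by
  by_cases h : ‖z‖ < s
  · rw [dA, dB, if_pos h, if_pos h, q1_lt h, norm_zero, zero_add, norm_neg, norm_inv, norm_sq_s hs,
      inv_pow]
  · rw [dA, dB, if_neg h, if_neg h, q1_ge h, norm_zero, add_zero, norm_pow, norm_inv]

private theorem mixed {s : ℝ} (hs : 0 < s) {x y : ℂ} (hy : s ≤ ‖y‖) (hx : ‖x‖ < s) :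
    ‖(starRingEnd ℂ) x / (s : ℂ) ^ 2 - y⁻¹‖ ≤ 3 * ‖x - y‖ / s ^ 2 := by
  have hy0 : 0 < ‖y‖ := lt_of_lt_of_le hs hy
  have hyne : y ≠ 0 := norm_pos_iff.1 hy0
  have hsC : (s : ℂ) ≠ 0 := by exact_mod_cast hs.ne'
  have hyC : ((‖y‖ : ℝ) : ℂ) ≠ 0 := by exact_mod_cast hy0.ne'
  have h1 : y⁻¹ = (starRingEnd ℂ) y / ((‖y‖ : ℝ) : ℂ) ^ 2 := by
    rw [Complex.inv_def, div_eq_mul_inv, ← Complex.ofReal_pow, Complex.sq_norm, Complex.ofReal_inv]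
  have h2 : (starRingEnd ℂ) x / (s : ℂ) ^ 2 - y⁻¹ =
      (starRingEnd ℂ) (x - y) / (s : ℂ) ^ 2 +
        (starRingEnd ℂ) y * ((1 / s ^ 2 - 1 / ‖y‖ ^ 2 : ℝ) : ℂ) := by
    rw [h1, map_sub]
    push_cast
    field_simp
    ring
  have h3 : ‖(starRingEnd ℂ) (x - y) / (s : ℂ) ^ 2‖ = ‖x - y‖ / s ^ 2 := by
    rw [norm_div, norm_conj, norm_sq_s hs]
  have hpos : 0 ≤ 1 / s ^ 2 - 1 / ‖y‖ ^ 2 := by
    rw [sub_nonneg]
    exact one_div_le_one_div_of_le (by positivity) (by gcongr)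
  have h4 : ‖(starRingEnd ℂ) y * ((1 / s ^ 2 - 1 / ‖y‖ ^ 2 : ℝ) : ℂ)‖ =
      ‖y‖ * (1 / s ^ 2 - 1 / ‖y‖ ^ 2) := by
    rw [norm_mul, norm_conj, Complex.norm_real, Real.norm_eq_abs, abs_of_nonneg hpos]
  have h5 : ‖y‖ * (1 / s ^ 2 - 1 / ‖y‖ ^ 2) ≤ 2 * ‖x - y‖ / s ^ 2 := by
    have h6 : ‖y‖ * (1 / s ^ 2 - 1 / ‖y‖ ^ 2) = (‖y‖ - s) * (‖y‖ + s) / ‖y‖ / s ^ 2 := by
      field_simp
      ring
    rw [h6]
    have h7 : ‖y‖ - s ≤ ‖x - y‖ := by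
      have := norm_sub_norm_le y x
      rw [norm_sub_rev] at this
      linarith
    have h8 : (‖y‖ - s) * (‖y‖ + s) / ‖y‖ ≤ 2 * ‖x - y‖ := by
      rw [div_le_iff₀ hy0]
      have h9 : 0 ≤ ‖y‖ - s := by linarith
      calc (‖y‖ - s) * (‖y‖ + s) ≤ (‖y‖ - s) * (2 * ‖y‖) := by
            apply mul_le_mul_of_nonneg_left _ h9
            linarith
        _ ≤ ‖x - y‖ * (2 * ‖y‖) := by
            apply mul_le_mul_of_nonneg_right h7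
            positivity
        _ = 2 * ‖x - y‖ * ‖y‖ := by ring
    gcongr
  calc ‖(starRingEnd ℂ) x / (s : ℂ) ^ 2 - y⁻¹‖
      ≤ ‖x - y‖ / s ^ 2 + ‖y‖ * (1 / s ^ 2 - 1 / ‖y‖ ^ 2) := by
        rw [h2, ← h3, ← h4]
        exact norm_add_le _ _
    _ ≤ ‖x - y‖ / s ^ 2 + 2 * ‖x - y‖ / s ^ 2 := by gcongr
    _ = 3 * ‖x - y‖ / s ^ 2 := by ring

private theorem inv_diff {x y : ℂ} (hx : x ≠ 0) (hy : y ≠ 0) :
    ‖x⁻¹ - y⁻¹‖ = ‖x - y‖ / (‖x‖ * ‖y‖) := by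
  rw [inv_sub_inv hx hy, norm_div, norm_mul, norm_sub_rev]

theorem ker_lip {s : ℝ} (hs : 200 ≤ s) {z z' : ℂ} (h : ‖z - z'‖ ≤ 100) :
    ‖ker s z - ker s z'‖ ≤ 8 * ‖z - z'‖ * q1 s z ^ 2 := by
  have hs0 : 0 < s := by linarith
  have hA : ‖z‖ ≤ ‖z'‖ + ‖z - z'‖ := by
    have := norm_sub_norm_le z z'
    linarith
  have hd : 0 ≤ ‖z - z'‖ := norm_nonneg _
  by_cases hz : ‖z‖ < s
  · rw [q1_lt hz, ker, if_pos hz, ker]
    have e : 8 * ‖z - z'‖ * s⁻¹ ^ 2 = 8 * ‖z - z'‖ / s ^ 2 := by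
      rw [inv_pow, div_eq_mul_inv]
    rw [e]
    by_cases hz' : ‖z'‖ < s
    · rw [if_pos hz', ← sub_div, ← map_sub, norm_div, norm_conj, norm_sq_s hs0]
      gcongr
      linarith
    · rw [if_neg hz']
      refine (mixed hs0 (not_lt.1 hz') hz).trans ?_
      gcongr
      norm_num
  · have hzs := not_lt.1 hz
    have hz0 : 0 < ‖z‖ := lt_of_lt_of_le hs0 hzs
    rw [q1_ge hz, ker, if_neg hz, ker]
    have e : 8 * ‖z - z'‖ * ‖z‖⁻¹ ^ 2 = 8 * ‖z - z'‖ / ‖z‖ ^ 2 := by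
      rw [inv_pow, div_eq_mul_inv]
    rw [e]
    by_cases hz' : ‖z'‖ < s
    · rw [if_pos hz', norm_sub_rev]
      refine (mixed hs0 hzs hz').trans ?_
      rw [norm_sub_rev z' z, div_le_div_iff₀ (by positivity) (by positivity)]
      have h1 : ‖z‖ ≤ 3 / 2 * s := by linarith
      have h2 : ‖z‖ ^ 2 ≤ (3 / 2 * s) ^ 2 := by gcongr
      nlinarith [mul_le_mul_of_nonneg_left h2 hd, mul_nonneg hd (sq_nonneg s)]
    · have hzs' := not_lt.1 hz'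
      have hz0' : 0 < ‖z'‖ := lt_of_lt_of_le hs0 hzs'
      rw [if_neg hz', inv_diff (norm_pos_iff.1 hz0) (norm_pos_iff.1 hz0'),
        div_le_div_iff₀ (by positivity) (by positivity)]
      have h1 : ‖z‖ / 2 ≤ ‖z'‖ := by linarith
      have h2 : ‖z‖ * (‖z‖ / 2) ≤ ‖z‖ * ‖z'‖ := by gcongr
      nlinarith [mul_le_mul_of_nonneg_left h2 hd, mul_nonneg hd (sq_nonneg ‖z‖)]

private theorem Er_ge {s : ℝ} (hs : 0 < s) (z : ℂ) : 32 * q1 s z ^ 3 ≤ Er s z := by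
  rw [Er]
  have : (0 : ℝ) ≤ if |‖z‖ - s| ≤ 2 then 32 / s ^ 2 else 0 := by
    split_ifs
    · positivity
    · exact le_rfl
  linarith

private theorem Er_ge' {s : ℝ} (hs : 0 < s) {z : ℂ} (h : |‖z‖ - s| ≤ 2) :
    32 / s ^ 2 ≤ Er s z := by
  rw [Er, if_pos h]
  have := pow_pos (q1_pos hs z) 3
  linarith

theorem ker_taylor {s : ℝ} (hs : 200 ≤ s) {z Δ : ℂ} (h : ‖Δ‖ ≤ 2) :
    ‖ker s z - ker s (z + Δ) - (dA s z * Δ + dB s z * (starRingEnd ℂ) Δ)‖ ≤ Er s z := by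
  have hs0 : 0 < s := by linarith
  have hsC : (s : ℂ) ≠ 0 := by exact_mod_cast hs0.ne'
  have hA : ‖z‖ ≤ ‖z + Δ‖ + 2 := by
    have := norm_sub_le (z + Δ) Δ
    rw [add_sub_cancel_right] at this
    linarith
  have hB : ‖z + Δ‖ ≤ ‖z‖ + 2 := by
    have := norm_add_le z Δ
    linarith
  by_cases hz : ‖z‖ < s
  · by_cases hz' : ‖z + Δ‖ < s
    · rw [ker, ker, dA, dB, if_pos hz, if_pos hz', if_pos hz, if_pos hz]
      have e : (starRingEnd ℂ) z / (s : ℂ) ^ 2 - (starRingEnd ℂ) (z + Δ) / (s : ℂ) ^ 2 -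
          (0 * Δ + -((s : ℂ) ^ 2)⁻¹ * (starRingEnd ℂ) Δ) = 0 := by
        rw [map_add]
        field_simp
        ring
      rw [e, norm_zero]
      have := pow_pos (q1_pos hs0 z) 3
      exact le_trans (by positivity) (Er_ge hs0 z)
    · have h1 : |‖z‖ - s| ≤ 2 := by
        rw [abs_le]
        constructor <;> linarith [not_lt.1 hz']
      refine le_trans ?_ (Er_ge' hs0 h1)
      rw [ker, ker, dA, dB, if_pos hz, if_neg hz', if_pos hz, if_pos hz, zero_mul, zero_add]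
      refine (norm_sub_le _ _).trans ?_
      have h2 := mixed hs0 (not_lt.1 hz') hz
      have h3 : ‖z - (z + Δ)‖ ≤ 2 := by
        rw [sub_add_cancel_left, norm_neg]
        exact h
      have h4 : ‖-((s : ℂ) ^ 2)⁻¹ * (starRingEnd ℂ) Δ‖ ≤ 2 / s ^ 2 := by
        rw [norm_mul, norm_neg, norm_inv, norm_sq_s hs0, norm_conj, inv_mul_eq_div]
        gcongr
      calc _ ≤ 3 * 2 / s ^ 2 + 2 / s ^ 2 := by
            refine add_le_add (h2.trans ?_) h4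
            gcongr
        _ ≤ 32 / s ^ 2 := by
            rw [← add_div]
            gcongr
            norm_num
  · have hzs := not_lt.1 hz
    have hz0 : 0 < ‖z‖ := lt_of_lt_of_le hs0 hzs
    have hzne : z ≠ 0 := norm_pos_iff.1 hz0
    by_cases hz' : ‖z + Δ‖ < s
    · have h1 : |‖z‖ - s| ≤ 2 := by
        rw [abs_le]
        constructor <;> linarith
      refine le_trans ?_ (Er_ge' hs0 h1)
      rw [ker, ker, dA, dB, if_neg hz, if_pos hz', if_neg hz, if_neg hz, zero_mul, add_zero]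
      refine (norm_sub_le _ _).trans ?_
      have h2 := mixed hs0 hzs hz'
      have h3 : ‖z + Δ - z‖ ≤ 2 := by
        rw [add_sub_cancel_left]
        exact h
      have h4 : ‖z⁻¹ ^ 2 * Δ‖ ≤ 2 / s ^ 2 := by
        rw [norm_mul, norm_pow, norm_inv, inv_pow, inv_mul_eq_div]
        gcongr
      calc _ ≤ 3 * 2 / s ^ 2 + 2 / s ^ 2 := by
            refine add_le_add ?_ h4
            rw [norm_sub_rev]
            refine h2.trans ?_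
            gcongr
        _ ≤ 32 / s ^ 2 := by
            rw [← add_div]
            gcongr
            norm_num
    · have hzs' := not_lt.1 hz'
      have hz0' : 0 < ‖z + Δ‖ := lt_of_lt_of_le hs0 hzs'
      have hzne' : z + Δ ≠ 0 := norm_pos_iff.1 hz0'
      refine le_trans ?_ (Er_ge hs0 z)
      rw [ker, ker, dA, dB, if_neg hz, if_neg hz', if_neg hz, if_neg hz, zero_mul, add_zero,
        q1_ge hz]
      have e : z⁻¹ - (z + Δ)⁻¹ - z⁻¹ ^ 2 * Δ = -(Δ ^ 2 / (z ^ 2 * (z + Δ))) := by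
        field_simp
        ring
      rw [e, norm_neg, norm_div, norm_mul, norm_pow, norm_pow, inv_pow, ← div_eq_mul_inv,
        div_le_div_iff₀ (by positivity) (by positivity)]
      have h1 : ‖z‖ / 2 ≤ ‖z + Δ‖ := by linarith
      have h2 : ‖Δ‖ ^ 2 ≤ 4 := by nlinarith [norm_nonneg Δ]
      calc ‖Δ‖ ^ 2 * ‖z‖ ^ 3 ≤ 4 * ‖z‖ ^ 3 := by gcongr
        _ ≤ 32 * (‖z‖ ^ 2 * (‖z‖ / 2)) := by
            have := pow_pos hz0 3
            nlinarith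
        _ ≤ 32 * (‖z‖ ^ 2 * ‖z + Δ‖) := by gcongr

end Pool.Agent.Helper38.RG
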