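import Pool.Agent.Helper38.RG.Hyp
import Pool.Agent.Helper38.RG.Ker

/-!
# RG-16: the boundary cycle: telescoping and Cauchy-Schwarz

`u = (za - z0)/R`, `u' = (zb - z0)/R`, `‖u‖, ‖u'‖ ≤ 4`, `v' = zb - za = R (u' - u)`, `T = dirn v'` (`‖T‖ = 1` if `v' ≠ 0`; `‖v'‖ T = v'`).
* `tele`: `closed` with `g z = ((z - z0)/R)^(k+1)`: `∑ (u'^(k+1) - u^(k+1)) = 0`, and `|(u'^(k+1) - u^(k+1))/(k+1) - u^k (u' - u)| ≤ (k/2) 4^(k-1) |u' - u|² ≤ 640 |u' - u|²`
  (e.g. `u'^(k+1) - u^(k+1) = (u' - u) ∑ u'^i u^(k-i)` and `|u'^i u^(k-i) - u^k| ≤ i 4^(k-1) |u' - u|`).  For `k = 0` the sum is exactly `0`.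
* `sumT`: Cauchy-Schwarz, `∑ ‖v'‖ ≤ (2π + δ) R ≤ 7.29 R`.
* `sum_zero`: `closed` with `g = id`.  `sum_u1`: `I ‖v'‖ u = v' + ‖v'‖ (I u - T)`.  `sum_u2`: `I ‖v'‖ u² = v' u + ‖v'‖ (I u - T) u`.
* `far`: if `‖u‖ ≤ 1/2` or `|‖u‖ - 1| ≥ 1/4` then (`v' ≠ 0`) `‖T - I u‖ ≥ |1 - ‖u‖|`.
-/

namespace Pool.Agent.Helper38.RG

open Finset

variable {D : Type} [Fintype D] [DecidableEq D]
variable {O1 : Finset D} {za zb : D → ℂ} {δ R : ℝ} {z0 : ℂ}

theorem norm_dirn {v : ℂ} (hv : v ≠ 0) : ‖dirn v‖ = 1 := by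
  unfold dirn
  rw [norm_div, Complex.norm_real, norm_norm, div_self (norm_ne_zero_iff.2 hv)]

theorem norm_mul_dirn (v : ℂ) : (‖v‖ : ℂ) * dirn v = v := by
  unfold dirn
  by_cases hv : v = 0
  · simp [hv]
  · have h : (‖v‖ : ℂ) ≠ 0 := by
      exact_mod_cast norm_ne_zero_iff.2 hv
    rw [mul_div_assoc', mul_comm, mul_div_assoc, div_self h, mul_one]

private theorem bd_taylor {x y : ℂ} (hx : ‖x‖ ≤ 4) (hy : ‖y‖ ≤ 4) (k : ℕ) :
    ‖y ^ (k + 1) - x ^ (k + 1) - (k + 1) * x ^ k * (y - x)‖ ≤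
      (k * (k + 1) / 8) * 4 ^ k * ‖y - x‖ ^ 2 := by
  induction k with
  | zero => simp
  | succ k ih =>
    have e : y ^ (k + 1 + 1) - x ^ (k + 1 + 1) - (((k + 1 : ℕ) : ℂ) + 1) * x ^ (k + 1) * (y - x) =
        y * (y ^ (k + 1) - x ^ (k + 1) - (k + 1) * x ^ k * (y - x)) +
          (k + 1) * x ^ k * (y - x) ^ 2 := by
      push_cast
      ring
    rw [e]
    have h1 : ‖y * (y ^ (k + 1) - x ^ (k + 1) - (k + 1) * x ^ k * (y - x))‖ ≤
        4 * ((k * (k + 1) / 8) * 4 ^ k * ‖y - x‖ ^ 2) := by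
      rw [norm_mul]
      exact mul_le_mul hy ih (norm_nonneg _) (by norm_num)
    have hk1 : ‖((k : ℂ) + 1)‖ = (k : ℝ) + 1 := by
      have : ((k : ℂ) + 1) = (((k + 1 : ℕ) : ℝ) : ℂ) := by push_cast; ring
      rw [this, Complex.norm_real, Real.norm_of_nonneg (Nat.cast_nonneg _)]
      push_cast
      ring
    have h2 : ‖((k : ℂ) + 1) * x ^ k * (y - x) ^ 2‖ ≤ (k + 1) * 4 ^ k * ‖y - x‖ ^ 2 := by
      rw [norm_mul, norm_mul, norm_pow, norm_pow, hk1]
      have h3 : ‖x‖ ^ k ≤ 4 ^ k := pow_le_pow_left₀ (norm_nonneg _) hx k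
      gcongr
    refine (norm_add_le _ _).trans ?_
    push_cast
    have h4 : 4 * ((k * (k + 1) / 8) * 4 ^ k * ‖y - x‖ ^ 2) + (k + 1) * 4 ^ k * ‖y - x‖ ^ 2 =
        ((k : ℝ) + 1) * ((k : ℝ) + 1 + 1) / 8 * 4 ^ (k + 1) * ‖y - x‖ ^ 2 := by
      rw [pow_succ]
      ring
    linarith

private theorem bd_R (h : HypB O1 za zb δ R z0) : 0 < R := by
  have := h.R_one
  linarith

private theorem bd_u (h : HypB O1 za zb δ R z0) {d : D} (hd : d ∈ O1) :
    ‖(za d - z0) / R‖ ≤ 4 := by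
  have hR := bd_R h
  rw [norm_div, Complex.norm_real, Real.norm_of_nonneg hR.le, div_le_iff₀ hR]
  exact (h.near d hd).1

private theorem bd_u' (h : HypB O1 za zb δ R z0) {d : D} (hd : d ∈ O1) :
    ‖(zb d - z0) / R‖ ≤ 4 := by
  have hR := bd_R h
  rw [norm_div, Complex.norm_real, Real.norm_of_nonneg hR.le, div_le_iff₀ hR]
  exact (h.near d hd).2

theorem tele (h : HypB O1 za zb δ R z0) {k : ℕ} (hk : k ≤ 5) :
    ‖∑ d ∈ O1, ((za d - z0) / R) ^ k * (zb d - za d)‖ ≤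
      1000 * (∑ d ∈ O1, ‖zb d - za d‖ ^ 2) / R := by
  have hR := bd_R h
  have hRc : (R : ℂ) ≠ 0 := by exact_mod_cast hR.ne'
  have hcl := h.closed (fun z => ((z - z0) / R) ^ (k + 1))
  beta_reduce at hcl
  have hk1 : ((k : ℂ) + 1) ≠ 0 := by exact_mod_cast Nat.succ_ne_zero k
  -- the sum as a sum of Taylor errors
  have hsum : ∑ d ∈ O1, ((za d - z0) / R) ^ k * (zb d - za d) =
      ∑ d ∈ O1, (-(R : ℂ) / (k + 1)) * (((zb d - z0) / R) ^ (k + 1) - ((za d - z0) / R) ^ (k + 1) -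
        (k + 1) * ((za d - z0) / R) ^ k * ((zb d - z0) / R - (za d - z0) / R)) := by
    rw [← Finset.mul_sum, Finset.sum_sub_distrib, hcl, zero_sub, ← Finset.sum_neg_distrib,
      Finset.mul_sum]
    apply Finset.sum_congr rfl
    intro d _
    have e1 : (zb d - z0) / R - (za d - z0) / R = (zb d - za d) / R := by
      rw [← sub_div]
      congr 1
      ring
    rw [e1]
    field_simp
  rw [hsum]
  refine (norm_sum_le _ _).trans ?_
  rw [mul_div_assoc, Finset.sum_div, Finset.mul_sum]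
  refine Finset.sum_le_sum fun d hd => ?_
  have ht := bd_taylor (bd_u h hd) (bd_u' h hd) k
  have hn : ‖-(R : ℂ) / (k + 1)‖ = R / (k + 1) := by
    have : ((k : ℂ) + 1) = (((k + 1 : ℕ) : ℝ) : ℂ) := by push_cast; ring
    rw [norm_div, norm_neg, this, Complex.norm_real, Complex.norm_real,
      Real.norm_of_nonneg hR.le, Real.norm_of_nonneg (Nat.cast_nonneg _)]
    push_cast
    ring
  have e1 : (zb d - z0) / R - (za d - z0) / R = (zb d - za d) / R := by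
    rw [← sub_div]
    congr 1
    ring
  rw [norm_mul, hn]
  rw [e1] at ht ⊢
  have hd2 : ‖(zb d - za d) / (R : ℂ)‖ ^ 2 = ‖zb d - za d‖ ^ 2 / R ^ 2 := by
    rw [norm_div, Complex.norm_real, Real.norm_of_nonneg hR.le, div_pow]
  rw [hd2] at ht
  have hkr : (k : ℝ) ≤ 5 := by exact_mod_cast hk
  have hk0 : (0 : ℝ) ≤ k := Nat.cast_nonneg k
  have h4 : (4 : ℝ) ^ k ≤ 4 ^ 5 := pow_le_pow_right₀ (by norm_num) hk
  have hV : 0 ≤ ‖zb d - za d‖ ^ 2 := by positivity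
  calc R / (k + 1) * ‖((zb d - z0) / R) ^ (k + 1) - ((za d - z0) / R) ^ (k + 1) -
        (k + 1) * ((za d - z0) / R) ^ k * ((zb d - za d) / R)‖
      ≤ R / (k + 1) * ((k * (k + 1) / 8) * 4 ^ k * (‖zb d - za d‖ ^ 2 / R ^ 2)) :=
        mul_le_mul_of_nonneg_left ht (by positivity)
    _ = (k / 8 * 4 ^ k) * (‖zb d - za d‖ ^ 2 / R) := by
        field_simp
    _ ≤ 1000 * (‖zb d - za d‖ ^ 2 / R) := by
        apply mul_le_mul_of_nonneg_right _ (by positivity)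
        have : (k : ℝ) / 8 * 4 ^ k ≤ 5 / 8 * 4 ^ 5 := by gcongr
        linarith

theorem sumT (h : HypB O1 za zb δ R z0) :
    ∑ d ∈ O1, ‖zb d - za d‖ * ‖dirn (zb d - za d) - Complex.I * ((za d - z0) / R)‖ ≤
      3 * √δ * R := by
  have hR := bd_R h
  have hcs := Finset.sum_sq_le_sum_mul_sum_of_sq_le_mul O1
    (r := fun d => ‖zb d - za d‖ * ‖dirn (zb d - za d) - Complex.I * ((za d - z0) / R)‖)
    (f := fun d => ‖zb d - za d‖)
    (g := fun d => ‖zb d - za d‖ * ‖dirn (zb d - za d) - Complex.I * ((za d - z0) / R)‖ ^ 2)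
    (fun d _ => norm_nonneg _) (fun d _ => by positivity) (fun d _ => le_of_eq (by ring))
  have hlen : ∑ d ∈ O1, ‖zb d - za d‖ ≤ 9 * R := by
    have h1 := (abs_le.1 h.len).2
    have h2 := Real.pi_lt_four
    have h3 := Real.pi_lt_d2
    have h4 : δ * R ≤ 1 * R := mul_le_mul_of_nonneg_right h.δ_one hR.le
    nlinarith
  have hδ := h.δ_nonneg
  have h0 : 0 ≤ ∑ d ∈ O1, ‖zb d - za d‖ *
      ‖dirn (zb d - za d) - Complex.I * ((za d - z0) / R)‖ ^ 2 :=
    Finset.sum_nonneg fun d _ => by positivity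
  have h1 : (∑ d ∈ O1, ‖zb d - za d‖ *
      ‖dirn (zb d - za d) - Complex.I * ((za d - z0) / R)‖) ^ 2 ≤ (3 * √δ * R) ^ 2 := by
    refine hcs.trans ?_
    have e : (3 * √δ * R) ^ 2 = (9 * R) * (δ * R) := by
      have := Real.sq_sqrt hδ
      calc (3 * √δ * R) ^ 2 = 9 * (√δ ^ 2) * R ^ 2 := by ring
        _ = (9 * R) * (δ * R) := by rw [this]; ring
    rw [e]
    exact mul_le_mul hlen h.tang h0 (by linarith)
  exact (abs_le_of_sq_le_sq' h1 (by positivity)).2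

theorem sum_zero (h : HypB O1 za zb δ R z0) : ∑ d ∈ O1, (zb d - za d) = 0 :=
  h.closed (fun z => z)

theorem sum_u1 (h : HypB O1 za zb δ R z0) :
    ‖∑ d ∈ O1, (‖zb d - za d‖ : ℂ) * ((za d - z0) / R)‖ ≤ 3 * √δ * R := by
  have h1 : ∑ d ∈ O1, (‖zb d - za d‖ : ℂ) * ((za d - z0) / R) =
      ∑ d ∈ O1, Complex.I * ((‖zb d - za d‖ : ℂ) *
        (dirn (zb d - za d) - Complex.I * ((za d - z0) / R))) := by
    have h2 : ∀ d ∈ O1, Complex.I * ((‖zb d - za d‖ : ℂ) *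
        (dirn (zb d - za d) - Complex.I * ((za d - z0) / R))) =
        Complex.I * (zb d - za d) + (‖zb d - za d‖ : ℂ) * ((za d - z0) / R) := by
      intro d _
      have e1 := norm_mul_dirn (zb d - za d)
      have e2 : Complex.I * ((‖zb d - za d‖ : ℂ) *
        (dirn (zb d - za d) - Complex.I * ((za d - z0) / R))) =
          Complex.I * ((‖zb d - za d‖ : ℂ) * dirn (zb d - za d)) -
          (Complex.I * Complex.I) * ((‖zb d - za d‖ : ℂ) * ((za d - z0) / R)) := by ring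
      rw [e2, e1, Complex.I_mul_I]
      ring
    rw [Finset.sum_congr rfl h2, Finset.sum_add_distrib, ← Finset.mul_sum, sum_zero h, mul_zero,
      zero_add]
  rw [h1]
  refine (norm_sum_le _ _).trans ((Finset.sum_le_sum fun d _ => ?_).trans (sumT h))
  rw [norm_mul, Complex.norm_I, one_mul, norm_mul, Complex.norm_real, norm_norm]

theorem sum_u2 (h : HypB O1 za zb δ R z0) :
    ‖∑ d ∈ O1, (‖zb d - za d‖ : ℂ) * ((za d - z0) / R) ^ 2‖ ≤
      12 * √δ * R + 1000 * (∑ d ∈ O1, ‖zb d - za d‖ ^ 2) / R := by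
  have h2 : ∀ d ∈ O1, (‖zb d - za d‖ : ℂ) * ((za d - z0) / R) ^ 2 =
      Complex.I * (((‖zb d - za d‖ : ℂ) *
        (dirn (zb d - za d) - Complex.I * ((za d - z0) / R))) * ((za d - z0) / R)) -
      Complex.I * (((za d - z0) / R) ^ 1 * (zb d - za d)) := by
    intro d _
    have e1 := norm_mul_dirn (zb d - za d)
    have e2 : Complex.I * (((‖zb d - za d‖ : ℂ) *
        (dirn (zb d - za d) - Complex.I * ((za d - z0) / R))) * ((za d - z0) / R)) =
        Complex.I * ((‖zb d - za d‖ : ℂ) * dirn (zb d - za d)) * ((za d - z0) / R) -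
        (Complex.I * Complex.I) * ((‖zb d - za d‖ : ℂ) * ((za d - z0) / R) ^ 2) := by ring
    rw [e2, e1, Complex.I_mul_I]
    ring
  rw [Finset.sum_congr rfl h2, Finset.sum_sub_distrib]
  refine (norm_sub_le _ _).trans (add_le_add ?_ ?_)
  · refine (norm_sum_le _ _).trans ?_
    have h3 : ∀ d ∈ O1, ‖Complex.I * (((‖zb d - za d‖ : ℂ) *
        (dirn (zb d - za d) - Complex.I * ((za d - z0) / R))) * ((za d - z0) / R))‖ ≤
        (‖zb d - za d‖ * ‖dirn (zb d - za d) - Complex.I * ((za d - z0) / R)‖) * 4 := by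
      intro d hd
      rw [norm_mul, Complex.norm_I, one_mul, norm_mul, norm_mul, Complex.norm_real, norm_norm]
      exact mul_le_mul_of_nonneg_left (bd_u h hd) (by positivity)
    refine (Finset.sum_le_sum h3).trans ?_
    rw [← Finset.sum_mul]
    have := sumT h
    linarith
  · rw [← Finset.mul_sum, norm_mul, Complex.norm_I, one_mul]
    exact tele h (by norm_num)

/-- the weight of the boundary edges with `‖u‖ ≤ 1/2` -/
theorem far_half (h : HypB O1 za zb δ R z0) :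
    ∑ d ∈ O1.filter (fun d => ‖(za d - z0) / R‖ ≤ 1 / 2), ‖zb d - za d‖ ≤ 4 * δ * R := by
  have h1 : ∀ d ∈ O1.filter (fun d => ‖(za d - z0) / R‖ ≤ 1 / 2), ‖zb d - za d‖ ≤
      4 * (‖zb d - za d‖ * ‖dirn (zb d - za d) - Complex.I * ((za d - z0) / R)‖ ^ 2) := by
    intro d hd
    have hu := (Finset.mem_filter.1 hd).2
    by_cases hv : zb d - za d = 0
    · rw [hv]
      simp
    · have h2 := norm_sub_norm_le (dirn (zb d - za d)) (Complex.I * ((za d - z0) / R))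
      rw [norm_dirn hv, norm_mul, Complex.norm_I, one_mul] at h2
      have h3 : (1 : ℝ) / 2 ≤ ‖dirn (zb d - za d) - Complex.I * ((za d - z0) / R)‖ := by linarith
      have h4 : (1 : ℝ) ≤ 4 * ‖dirn (zb d - za d) - Complex.I * ((za d - z0) / R)‖ ^ 2 := by
        nlinarith
      have h5 := mul_le_mul_of_nonneg_left h4 (norm_nonneg (zb d - za d))
      linarith
  refine (Finset.sum_le_sum h1).trans ?_
  rw [← Finset.mul_sum]
  have h2 : ∑ d ∈ O1.filter (fun d => ‖(za d - z0) / R‖ ≤ 1 / 2),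
      ‖zb d - za d‖ * ‖dirn (zb d - za d) - Complex.I * ((za d - z0) / R)‖ ^ 2 ≤
      ∑ d ∈ O1, ‖zb d - za d‖ * ‖dirn (zb d - za d) - Complex.I * ((za d - z0) / R)‖ ^ 2 :=
    Finset.sum_le_sum_of_subset_of_nonneg (Finset.filter_subset _ _) fun d _ _ => by positivity
  have h3 := h.tang
  linarith

end Pool.Agent.Helper38.RG
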