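import Pool.Agent.Helper38.RG.BdA
import Pool.Agent.Helper38.RG.IntBall

/-!
# RG-17: the boundary sum with `κ = 1`

`u = (za - z0)/R`, `ξ = (ζ - z0)/R`, `‖ξ‖ ≤ 1/4`, `T = dirn (zb - za)`.
* `S1a`: `T^6 + u^6 = T^6 - (I u)^6`, `|x^6 - y^6| ≤ 6 · 4^5 |x - y|` (`‖T‖ ≤ 1`, `‖u‖ ≤ 4`), `ker_le`, `int_q1`, `sumT`: `7 R · 6144 · 3 √δ R ≤ 10^6 √δ R²`.
* `S1b`: `u^6 - ξ^6 = (u - ξ) Q`, `Q = ∑_{k ≤ 5} u^k ξ^(5-k)`, `u - ξ = (za - ζ)/R`.  If `‖za - ζ‖ ≥ s` then `(u^6 - ξ^6) ker = Q/R`.  If `‖za - ζ‖ < s` then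
  `‖(u^6 - ξ^6) ker‖ ≤ ‖Q‖/R` (`‖ker‖ = ‖za - ζ‖/s²`), `‖u‖ ≤ 1/4 + s/R ≤ 1/2`, `‖Q‖ ≤ 6/32`, and the weight of these edges is `≤ 4 δ R` (`far_half`): error `≤ 2 · (6/32)/R · 4 δ R`.
  `‖∑ Q v'‖/R ≤ (1/R) ∑_k (1/4)^(5-k) ‖∑ u^k v'‖ ≤ 2000 (∑ ‖v'‖²)/R²` (`tele`).
-/

namespace Pool.Agent.Helper38.RG

open Finset MeasureTheory

variable {D : Type} [Fintype D] [DecidableEq D]
variable {O1 : Finset D} {za zb : D → ℂ} {δ R : ℝ} {z0 : ℂ}

private noncomputable def QQ (x y : ℂ) : ℂ := ∑ k ∈ range 6, x ^ k * y ^ (5 - k)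

private theorem QQ_mul (x y : ℂ) : x ^ 6 - y ^ 6 = (x - y) * QQ x y := by
  unfold QQ
  simp only [Finset.sum_range_succ, Finset.sum_range_zero]
  norm_num
  ring

private theorem norm_QQ {x y : ℂ} {a b : ℝ} (hx : ‖x‖ ≤ a) (hy : ‖y‖ ≤ b) :
    ‖QQ x y‖ ≤ ∑ k ∈ range 6, a ^ k * b ^ (5 - k) := by
  have ha := (norm_nonneg x).trans hx
  unfold QQ
  refine (norm_sum_le _ _).trans (Finset.sum_le_sum fun k _ => ?_)
  rw [norm_mul, norm_pow, norm_pow]
  exact mul_le_mul (pow_le_pow_left₀ (norm_nonneg _) hx k)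
    (pow_le_pow_left₀ (norm_nonneg _) hy _) (by positivity) (by positivity)

omit [Fintype D] [DecidableEq D] in
private theorem norm_u {h : HypB O1 za zb δ R z0} {d : D} (hd : d ∈ O1) :
    ‖(za d - z0) / (R : ℂ)‖ ≤ 4 := by
  have hR : 0 < R := lt_of_lt_of_le one_pos h.R_one
  rw [norm_div, Complex.norm_real, Real.norm_eq_abs, abs_of_pos hR, div_le_iff₀ hR]
  exact (h.near d hd).1

private theorem norm_dirn_le (v : ℂ) : ‖dirn v‖ ≤ 1 := by
  by_cases hv : v = 0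
  · subst hv
    simp [dirn]
  · exact (norm_dirn hv).le

private theorem ptw (h : HypB O1 za zb δ R z0) {s : ℝ} (hs : 200 ≤ s) (ζ : ℂ) :
    ‖SS O1 za zb 1 s ζ +
      ∑ d ∈ O1, ((za d - z0) / R) ^ 6 * (zb d - za d) * ker s (za d - ζ)‖ ≤
    ∑ d ∈ O1, 6144 * (‖zb d - za d‖ * ‖dirn (zb d - za d) - Complex.I * ((za d - z0) / R)‖) *
      q1 s (za d - ζ) := by
  have hs0 : 0 < s := by linarith
  unfold SS
  rw [← Finset.sum_add_distrib]
  refine (norm_sum_le _ _).trans (Finset.sum_le_sum fun d hd => ?_)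
  set u := (za d - z0) / (R : ℂ) with hu
  set T := dirn (zb d - za d) with hT
  have e : T ^ (6 * 1) * (zb d - za d) * ker s (za d - ζ) +
      u ^ 6 * (zb d - za d) * ker s (za d - ζ) =
      (T ^ 6 - (Complex.I * u) ^ 6) * (zb d - za d) * ker s (za d - ζ) := by
    have hI : (Complex.I * u) ^ 6 = -u ^ 6 := by
      rw [mul_pow]
      have h6 : Complex.I ^ 6 = -1 := by
        have h2 : Complex.I ^ 6 = (Complex.I ^ 2) ^ 3 := by ring
        rw [h2, Complex.I_sq]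
        norm_num
      rw [h6]
      ring
    rw [hI]
    ring
  rw [e, norm_mul, norm_mul, QQ_mul, norm_mul]
  have hTn : ‖T‖ ≤ 4 := (norm_dirn_le _).trans (by norm_num)
  have hun : ‖Complex.I * u‖ ≤ 4 := by
    rw [norm_mul, Complex.norm_I, one_mul]
    exact norm_u (h := h) hd
  have hQ : ‖QQ T (Complex.I * u)‖ ≤ 6144 := by
    refine (norm_QQ hTn hun).trans (le_of_eq ?_)
    simp only [Finset.sum_range_succ, Finset.sum_range_zero]
    norm_num
  have hk := ker_le hs0 (za d - ζ)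
  calc ‖T - Complex.I * u‖ * ‖QQ T (Complex.I * u)‖ * ‖zb d - za d‖ * ‖ker s (za d - ζ)‖
      ≤ ‖T - Complex.I * u‖ * 6144 * ‖zb d - za d‖ * q1 s (za d - ζ) := by
        gcongr
    _ = _ := by ring

omit [Fintype D] [DecidableEq D] in
private theorem intg_sum {s : ℝ} (hs : 0 < s) (c : D → ℝ) (O1 : Finset D) (za : D → ℂ) (z0 : ℂ)
    (r : ℝ) : Integrable (fun ζ => ∑ d ∈ O1, c d * q1 s (za d - ζ))
      (volume.restrict (Metric.ball z0 r)) :=
  integrable_finsetSum _ fun d _ => (intg_q1 hs (za d) z0 r).const_mul (c d)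

private theorem int_sum (h : HypB O1 za zb δ R z0) {s : ℝ} (hs : 200 ≤ s) :
    ∫ ζ in Metric.ball z0 (R / 4), ∑ d ∈ O1,
      6144 * (‖zb d - za d‖ * ‖dirn (zb d - za d) - Complex.I * ((za d - z0) / R)‖) *
        q1 s (za d - ζ) ≤ 10 ^ 6 * √δ * R ^ 2 := by
  have hs0 : 0 < s := by linarith
  have hR : 0 < R := lt_of_lt_of_le one_pos h.R_one
  rw [integral_finsetSum _ fun d _ => (intg_q1 hs0 (za d) z0 (R / 4)).const_mul _]
  calc ∑ d ∈ O1, ∫ ζ in Metric.ball z0 (R / 4),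
        6144 * (‖zb d - za d‖ * ‖dirn (zb d - za d) - Complex.I * ((za d - z0) / R)‖) *
          q1 s (za d - ζ)
      ≤ ∑ d ∈ O1, 6144 * (‖zb d - za d‖ *
          ‖dirn (zb d - za d) - Complex.I * ((za d - z0) / R)‖) * (7 * R) := by
        refine Finset.sum_le_sum fun d _ => ?_
        rw [integral_const_mul]
        exact mul_le_mul_of_nonneg_left (int_q1 hR hs0 _ _) (by positivity)
    _ = 43008 * R * ∑ d ∈ O1, ‖zb d - za d‖ *
          ‖dirn (zb d - za d) - Complex.I * ((za d - z0) / R)‖ := by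
        rw [Finset.mul_sum]
        refine Finset.sum_congr rfl fun d _ => ?_
        ring
    _ ≤ 43008 * R * (3 * √δ * R) := mul_le_mul_of_nonneg_left (sumT h) (by positivity)
    _ ≤ _ := by
        have h1 : 0 ≤ √δ * R ^ 2 := by positivity
        nlinarith

theorem S1a (h : HypB O1 za zb δ R z0) {s : ℝ} (hs : 200 ≤ s) :
    ∫ ζ in Metric.ball z0 (R / 4), ‖SS O1 za zb 1 s ζ +
      ∑ d ∈ O1, ((za d - z0) / R) ^ 6 * (zb d - za d) * ker s (za d - ζ)‖ ≤
      10 ^ 6 * √δ * R ^ 2 := by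
  have hs0 : 0 < s := by linarith
  refine le_trans ?_ (int_sum h hs)
  refine integral_mono_of_nonneg (Filter.Eventually.of_forall fun _ => norm_nonneg _)
    (intg_sum hs0 _ O1 za z0 (R / 4)) (Filter.Eventually.of_forall fun ζ => ptw h hs ζ)

theorem S1b (h : HypB O1 za zb δ R z0) {s : ℝ} (hs : 200 ≤ s) (hR : 4 * s ≤ R) {ζ : ℂ}
    (hζ : ζ ∈ Metric.ball z0 (R / 4)) :
    ‖∑ d ∈ O1, ((za d - z0) / R) ^ 6 * (zb d - za d) * ker s (za d - ζ) -
      ((ζ - z0) / R) ^ 6 * SS O1 za zb 0 s ζ‖ ≤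
      2 * δ + 2000 * (∑ d ∈ O1, ‖zb d - za d‖ ^ 2) / R ^ 2 := by
  have hs0 : 0 < s := by linarith
  have hR0 : 0 < R := lt_of_lt_of_le one_pos h.R_one
  have hRC : (R : ℂ) ≠ 0 := by exact_mod_cast hR0.ne'
  have hnR : ‖(R : ℂ)‖ = R := by
    rw [Complex.norm_real, Real.norm_eq_abs, abs_of_pos hR0]
  set ξ := (ζ - z0) / (R : ℂ) with hξ
  have hξn : ‖ξ‖ ≤ 1 / 4 := by
    rw [Metric.mem_ball, dist_eq_norm] at hζ
    rw [hξ, norm_div, hnR, div_le_iff₀ hR0]
    linarith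
  set S2 := ∑ d ∈ O1, ‖zb d - za d‖ ^ 2 with hS2
  have hS2n : 0 ≤ S2 := Finset.sum_nonneg fun _ _ => sq_nonneg _
  -- the error terms
  have hker : ∀ d, ¬ ‖za d - ζ‖ < s →
      (((za d - z0) / (R : ℂ)) ^ 6 - ξ ^ 6) * ker s (za d - ζ) =
        QQ ((za d - z0) / R) ξ / R := by
    intro d hd
    have hne : za d - ζ ≠ 0 := by
      intro h0
      rw [h0, norm_zero] at hd
      exact hd hs0
    rw [QQ_mul, ker, if_neg hd, hξ]
    have e : (za d - z0) / (R : ℂ) - (ζ - z0) / R = (za d - ζ) / R := by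
      field_simp
      ring
    rw [e]
    field_simp
  have hker2 : ∀ d, ‖za d - ζ‖ < s →
      ‖(((za d - z0) / (R : ℂ)) ^ 6 - ξ ^ 6) * ker s (za d - ζ) -
        QQ ((za d - z0) / R) ξ / R‖ ≤ 2 * (‖QQ ((za d - z0) / R) ξ‖ / R) := by
    intro d hd
    rw [QQ_mul, ker, if_pos hd, hξ]
    have e : (za d - z0) / (R : ℂ) - (ζ - z0) / R = (za d - ζ) / R := by
      field_simp
      ring
    rw [e, ← hξ]
    refine (norm_sub_le _ _).trans ?_
    rw [norm_div (QQ _ _), hnR, two_mul]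
    refine add_le_add ?_ le_rfl
    rw [norm_mul, norm_mul, norm_div, norm_div, hnR, norm_pow, Complex.norm_real,
      Real.norm_eq_abs, abs_of_pos hs0, Complex.norm_conj]
    have h1 : ‖za d - ζ‖ ^ 2 ≤ s ^ 2 := pow_le_pow_left₀ (norm_nonneg _) hd.le 2
    have h2 : ‖za d - ζ‖ / R * ‖QQ ((za d - z0) / R) ξ‖ * (‖za d - ζ‖ / s ^ 2) =
        ‖QQ ((za d - z0) / R) ξ‖ / R * (‖za d - ζ‖ ^ 2 / s ^ 2) := by
      field_simp
    rw [h2]
    refine mul_le_of_le_one_right (by positivity) ?_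
    rw [div_le_one (by positivity)]
    exact h1
  -- main decomposition
  have hdec : ∑ d ∈ O1, ((za d - z0) / R) ^ 6 * (zb d - za d) * ker s (za d - ζ) -
      ξ ^ 6 * SS O1 za zb 0 s ζ =
      (∑ d ∈ O1, QQ ((za d - z0) / R) ξ * (zb d - za d)) / R +
      ∑ d ∈ O1, ((((za d - z0) / (R : ℂ)) ^ 6 - ξ ^ 6) * ker s (za d - ζ) -
        QQ ((za d - z0) / R) ξ / R) * (zb d - za d) := by
    unfold SS
    rw [Finset.mul_sum, ← Finset.sum_sub_distrib, Finset.sum_div, ← Finset.sum_add_distrib]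
    refine Finset.sum_congr rfl fun d _ => ?_
    rw [Nat.mul_zero, pow_zero]
    ring
  rw [hdec]
  refine (norm_add_le _ _).trans ?_
  rw [add_comm (2 * δ)]
  refine add_le_add ?_ ?_
  · rw [norm_div, hnR, div_le_iff₀ hR0]
    have e1 : ∑ d ∈ O1, QQ ((za d - z0) / R) ξ * (zb d - za d) =
        ∑ k ∈ range 6, ξ ^ (5 - k) * ∑ d ∈ O1, ((za d - z0) / (R : ℂ)) ^ k * (zb d - za d) := by
      unfold QQ
      simp only [Finset.sum_mul, Finset.mul_sum]
      rw [Finset.sum_comm]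
      refine Finset.sum_congr rfl fun k _ => Finset.sum_congr rfl fun d _ => ?_
      ring
    rw [e1]
    have e2 : ‖∑ k ∈ range 6, ξ ^ (5 - k) *
        ∑ d ∈ O1, ((za d - z0) / (R : ℂ)) ^ k * (zb d - za d)‖ ≤
        ∑ k ∈ range 6, (1 / 4 : ℝ) ^ (5 - k) * (1000 * S2 / R) := by
      refine (norm_sum_le _ _).trans (Finset.sum_le_sum fun k hk => ?_)
      rw [norm_mul, norm_pow]
      refine mul_le_mul (pow_le_pow_left₀ (norm_nonneg _) hξn _) ?_ (norm_nonneg _)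
        (by positivity)
      exact tele h (by rw [mem_range] at hk; omega)
    refine e2.trans ?_
    rw [← Finset.sum_mul]
    have e3 : ∑ k ∈ range 6, (1 / 4 : ℝ) ^ (5 - k) ≤ 2 := by
      simp only [Finset.sum_range_succ, Finset.sum_range_zero]
      norm_num
    calc (∑ k ∈ range 6, (1 / 4 : ℝ) ^ (5 - k)) * (1000 * S2 / R) ≤ 2 * (1000 * S2 / R) :=
          mul_le_mul_of_nonneg_right e3 (by positivity)
      _ = _ := by
          field_simp
          ring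
  · calc ‖∑ d ∈ O1, ((((za d - z0) / (R : ℂ)) ^ 6 - ξ ^ 6) * ker s (za d - ζ) -
          QQ ((za d - z0) / R) ξ / R) * (zb d - za d)‖
        ≤ ∑ d ∈ O1, if ‖(za d - z0) / (R : ℂ)‖ ≤ 1 / 2 then
            1 / 2 / R * ‖zb d - za d‖ else 0 := by
          refine (norm_sum_le _ _).trans (Finset.sum_le_sum fun d _ => ?_)
          rw [norm_mul]
          by_cases hd : ‖za d - ζ‖ < s
          · have hu : ‖(za d - z0) / (R : ℂ)‖ ≤ 1 / 2 := by
              have e : (za d - z0) / (R : ℂ) = (za d - ζ) / R + ξ := by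
                rw [hξ]
                field_simp
                ring
              rw [e]
              refine (norm_add_le _ _).trans ?_
              have h3 : ‖(za d - ζ) / (R : ℂ)‖ ≤ 1 / 4 := by
                rw [norm_div, hnR, div_le_iff₀ hR0]
                linarith
              linarith
            rw [if_pos hu]
            refine mul_le_mul_of_nonneg_right ((hker2 d hd).trans ?_) (norm_nonneg _)
            have h4 := norm_QQ hu hξn
            have h5 : ∑ k ∈ range 6, (1 / 2 : ℝ) ^ k * (1 / 4) ^ (5 - k) ≤ 1 / 4 := by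
              simp only [Finset.sum_range_succ, Finset.sum_range_zero]
              norm_num
            have h6 : ‖QQ ((za d - z0) / R) ξ‖ / R ≤ 1 / 4 / R := by
              gcongr
              exact h4.trans h5
            have h7 : 2 * (1 / 4 / R) = 1 / 2 / R := by ring
            linarith
          · rw [hker d hd, sub_self, norm_zero, zero_mul]
            split_ifs
            · positivity
            · exact le_rfl
      _ = 1 / 2 / R * ∑ d ∈ O1.filter (fun d => ‖(za d - z0) / (R : ℂ)‖ ≤ 1 / 2),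
            ‖zb d - za d‖ := by
          rw [← Finset.sum_filter, Finset.mul_sum]
      _ ≤ 1 / 2 / R * (4 * δ * R) :=
          mul_le_mul_of_nonneg_left (far_half h) (by positivity)
      _ = 2 * δ := by
          field_simp
          norm_num

theorem S1 (h : HypB O1 za zb δ R z0) {s : ℝ} (hs : 200 ≤ s) (hR : 4 * s ≤ R) :
    ∫ ζ in Metric.ball z0 (R / 4), ‖SS O1 za zb 1 s ζ +
      ((ζ - z0) / R) ^ 6 * SS O1 za zb 0 s ζ‖ ≤
      10 ^ 7 * √δ * R ^ 2 + 10 ^ 3 * ∑ d ∈ O1, ‖zb d - za d‖ ^ 2 := by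
  have hs0 : 0 < s := by linarith
  have hR0 : 0 < R := lt_of_lt_of_le one_pos h.R_one
  set S2 := ∑ d ∈ O1, ‖zb d - za d‖ ^ 2 with hS2
  have hS2n : 0 ≤ S2 := Finset.sum_nonneg fun _ _ => sq_nonneg _
  set c := 2 * δ + 2000 * S2 / R ^ 2 with hc
  have hδ := h.δ_nonneg
  have hc0 : 0 ≤ c := by positivity
  have hfin : volume (Metric.ball z0 (R / 4)) ≠ ⊤ := measure_ball_lt_top.ne
  have hci : Integrable (fun _ : ℂ => c) (volume.restrict (Metric.ball z0 (R / 4))) :=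
    integrableOn_const hfin
  have hgi := (intg_sum hs0 (fun d => 6144 * (‖zb d - za d‖ *
    ‖dirn (zb d - za d) - Complex.I * ((za d - z0) / R)‖)) O1 za z0 (R / 4))
  have h1 : ∫ ζ in Metric.ball z0 (R / 4), ‖SS O1 za zb 1 s ζ +
      ((ζ - z0) / R) ^ 6 * SS O1 za zb 0 s ζ‖ ≤
      ∫ ζ in Metric.ball z0 (R / 4), (∑ d ∈ O1,
        6144 * (‖zb d - za d‖ * ‖dirn (zb d - za d) - Complex.I * ((za d - z0) / R)‖) *
          q1 s (za d - ζ) + c) := by
    refine integral_mono_of_nonneg (Filter.Eventually.of_forall fun _ => norm_nonneg _)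
      (hgi.add hci) ?_
    refine (ae_restrict_iff' measurableSet_ball).2 (Filter.Eventually.of_forall fun ζ hζ => ?_)
    have h2 := ptw h hs ζ
    have h3 := S1b h hs hR hζ
    have e : SS O1 za zb 1 s ζ + ((ζ - z0) / R) ^ 6 * SS O1 za zb 0 s ζ =
        (SS O1 za zb 1 s ζ +
          ∑ d ∈ O1, ((za d - z0) / R) ^ 6 * (zb d - za d) * ker s (za d - ζ)) -
        (∑ d ∈ O1, ((za d - z0) / R) ^ 6 * (zb d - za d) * ker s (za d - ζ) -
          ((ζ - z0) / R) ^ 6 * SS O1 za zb 0 s ζ) := by ring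
    simp only
    rw [e]
    exact (norm_sub_le _ _).trans (add_le_add h2 h3)
  refine h1.trans ?_
  rw [integral_add hgi hci, setIntegral_const, smul_eq_mul, Measure.real,
    ball_area z0 (by positivity : (0 : ℝ) ≤ R / 4)]
  have h4 := int_sum h hs
  have h5 : Real.pi * (R / 4) ^ 2 * c ≤ √δ * R ^ 2 + 10 ^ 3 * S2 := by
    have hpi : Real.pi ≤ 4 := Real.pi_le_four
    have h6 : δ ≤ √δ := by
      have h7 : √δ * √δ = δ := Real.mul_self_sqrt hδ
      have h8 : √δ ≤ 1 := by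
        rw [Real.sqrt_le_one]
        exact h.δ_one
      nlinarith [Real.sqrt_nonneg δ]
    have h9 : Real.pi * (R / 4) ^ 2 ≤ R ^ 2 / 4 := by nlinarith [sq_nonneg R]
    calc Real.pi * (R / 4) ^ 2 * c ≤ R ^ 2 / 4 * c := mul_le_mul_of_nonneg_right h9 hc0
      _ = δ * R ^ 2 / 2 + 500 * S2 := by
          rw [hc]
          field_simp
          ring
      _ ≤ _ := by nlinarith [mul_le_mul_of_nonneg_right h6 (sq_nonneg R),
          mul_nonneg (Real.sqrt_nonneg δ) (sq_nonneg R)]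
  have h10 : 0 ≤ √δ * R ^ 2 := by positivity
  nlinarith

end Pool.Agent.Helper38.RG
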