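import Pool.Agent.Helper38.RG.BdA
import Pool.Agent.Helper38.RG.IntBall

/-!
# RG-18: the boundary sum with `κ = 0` is close to `2 π i`

`u = (za - z0)/R`, `ξ = (ζ - z0)/R`, `‖ξ‖ ≤ 1/4`, `T = dirn (zb - za)`, `G = 1 + ξ conj u + (ξ conj u)²`, `t = ‖T - I u‖`.
* `S0_term` (one edge, `zb ≠ za`): `‖R u ker (za - ζ) - G‖ ≤ .0445 + t (16 R q1 + 12)`.
  If `|‖u‖ - 1| ≤ 1/4`: `‖za - ζ‖ = R ‖u - ξ‖ ≥ R/2 ≥ s`, so `R u ker = u/(u - ξ)`; `u/(u - ξ) - 1/(1 - ξ conj u) = ξ (1 - ‖u‖²)/((u - ξ)(1 - ξ conj u))` has norm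
  `≤ (1/4)(9/4) |1 - ‖u‖| / (1/2 · 11/16) ≤ 2 |1 - ‖u‖| ≤ 2 t` (`t ≥ |‖T‖ - ‖I u‖|`); `1/(1 - x) - (1 + x + x²) = x³/(1 - x)`, `‖x‖ ≤ 5/16`: `≤ (5/16)³/(11/16) ≤ .0445`.
  Otherwise `t ≥ 1/4`, `‖R u ker‖ ≤ 4 R q1` (`ker_le`, `‖u‖ ≤ 4`), `‖G‖ ≤ 3`.
* `S0_pt`: `SS 0 = ∑ v' ker`, `v' = I ‖v'‖ u + ‖v'‖ (T - I u)`; `S0_term` for `(I/R) ∑ ‖v'‖ (R u ker - G)`; and `(I/R) ∑ ‖v'‖ G = (I/R) (∑ ‖v'‖ + ξ conj(∑ ‖v'‖ u) + ξ² conj(∑ ‖v'‖ u²))`
  (`len`, `sum_u1`, `sum_u2`).  Total: `.0445 (2π + δ) + ∑ ‖v'‖ t (17 q1 + 12/R) + δ + (3/4) √δ + (12 √δ + 1000 Q/R²)/16`, `Q = ∑ ‖v'‖²`, and `.0445 · 2 π ≤ .2797`.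
* `S0`: integrate (`int_q1`, `sumT`, `ball_area`).
-/

namespace Pool.Agent.Helper38.RG

open Finset MeasureTheory

variable {D : Type} [Fintype D] [DecidableEq D]
variable {O1 : Finset D} {za zb : D → ℂ} {δ R : ℝ} {z0 : ℂ}

private lemma q1_nn {s : ℝ} (hs : 200 ≤ s) (z : ℂ) : 0 ≤ q1 s z := (q1_pos (by linarith) z).le

private lemma xi_le {R : ℝ} (hR : 0 < R) {z0 ζ : ℂ} (hζ : ζ ∈ Metric.ball z0 (R / 4)) :
    ‖(ζ - z0) / (R : ℂ)‖ ≤ 1 / 4 := by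
  rw [Metric.mem_ball, dist_eq_norm] at hζ
  rw [norm_div, Complex.norm_real, Real.norm_eq_abs, abs_of_pos hR, div_le_iff₀ hR]
  linarith

omit [Fintype D] [DecidableEq D] in
private lemma u_le (h : HypB O1 za zb δ R z0) {d : D} (hd : d ∈ O1) :
    ‖(za d - z0) / (R : ℂ)‖ ≤ 4 := by
  have hR : 0 < R := lt_of_lt_of_le one_pos h.R_one
  rw [norm_div, Complex.norm_real, Real.norm_eq_abs, abs_of_pos hR, div_le_iff₀ hR]
  exact (h.near d hd).1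

/-- the algebraic part of the near case -/
private lemma near_case {u ξ : ℂ} (hξ : ‖ξ‖ ≤ 1 / 4) (h1 : 3 / 4 ≤ ‖u‖) (h2 : ‖u‖ ≤ 5 / 4) :
    ‖u * (u - ξ)⁻¹ - (1 + ξ * (starRingEnd ℂ) u + (ξ * (starRingEnd ℂ) u) ^ 2)‖ ≤
      0.0445 + 2 * |1 - ‖u‖| := by
  set x : ℂ := ξ * (starRingEnd ℂ) u with hx
  have hxn : ‖x‖ ≤ 5 / 16 := by
    rw [hx, norm_mul, Complex.norm_conj]
    calc ‖ξ‖ * ‖u‖ ≤ 1 / 4 * (5 / 4) := mul_le_mul hξ h2 (norm_nonneg _) (by norm_num)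
      _ = 5 / 16 := by norm_num
  have h3 : 1 / 2 ≤ ‖u - ξ‖ := by
    have := norm_sub_norm_le u ξ
    linarith
  have h4 : 11 / 16 ≤ ‖1 - x‖ := by
    have := norm_sub_norm_le (1 : ℂ) x
    rw [norm_one] at this
    linarith
  have h3' : u - ξ ≠ 0 := norm_pos_iff.1 (by linarith)
  have h4' : 1 - x ≠ 0 := norm_pos_iff.1 (by linarith)
  have hux : u * (starRingEnd ℂ) u = ((‖u‖ ^ 2 : ℝ) : ℂ) := by
    rw [Complex.mul_conj, Complex.normSq_eq_norm_sq]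
  have e1 : u * (u - ξ)⁻¹ - (1 + x + x ^ 2) =
      ξ * ((1 - ‖u‖ ^ 2 : ℝ) : ℂ) / ((u - ξ) * (1 - x)) + x ^ 3 / (1 - x) := by
    have e2 : ξ * ((1 - ‖u‖ ^ 2 : ℝ) : ℂ) = ξ - u * x := by
      rw [hx]
      push_cast
      have : ξ - u * (ξ * (starRingEnd ℂ) u) = ξ * (1 - u * (starRingEnd ℂ) u) := by ring
      rw [this, hux]
      push_cast
      ring
    rw [e2]
    field_simp
    ring
  rw [e1]
  have b1 : ‖ξ * ((1 - ‖u‖ ^ 2 : ℝ) : ℂ) / ((u - ξ) * (1 - x))‖ ≤ 2 * |1 - ‖u‖| := by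
    rw [norm_div, norm_mul, norm_mul, Complex.norm_real, Real.norm_eq_abs]
    rw [div_le_iff₀ (by positivity)]
    have e3 : |1 - ‖u‖ ^ 2| = |1 - ‖u‖| * (1 + ‖u‖) := by
      have : 1 - ‖u‖ ^ 2 = (1 - ‖u‖) * (1 + ‖u‖) := by ring
      rw [this, abs_mul, abs_of_nonneg (by positivity : (0 : ℝ) ≤ 1 + ‖u‖)]
    rw [e3]
    have a0 : 0 ≤ |1 - ‖u‖| := abs_nonneg _
    have a1 : ‖ξ‖ * (|1 - ‖u‖| * (1 + ‖u‖)) ≤ 1 / 4 * (|1 - ‖u‖| * (9 / 4)) := by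
      refine mul_le_mul hξ ?_ (by positivity) (by norm_num)
      exact mul_le_mul_of_nonneg_left (by linarith) a0
    have a2 : 1 / 2 * (11 / 16) ≤ ‖u - ξ‖ * ‖1 - x‖ :=
      mul_le_mul h3 h4 (by norm_num) (norm_nonneg _)
    have a3 : 2 * |1 - ‖u‖| * (1 / 2 * (11 / 16)) ≤ 2 * |1 - ‖u‖| * (‖u - ξ‖ * ‖1 - x‖) :=
      mul_le_mul_of_nonneg_left a2 (by positivity)
    linarith
  have b2 : ‖x ^ 3 / (1 - x)‖ ≤ 0.0445 := by
    rw [norm_div, norm_pow, div_le_iff₀ (by linarith)]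
    have c1 : ‖x‖ ^ 3 ≤ (5 / 16) ^ 3 := pow_le_pow_left₀ (norm_nonneg _) hxn 3
    have c2 : (0.0445 : ℝ) * (11 / 16) ≤ 0.0445 * ‖1 - x‖ :=
      mul_le_mul_of_nonneg_left h4 (by norm_num)
    refine c1.trans (le_trans ?_ c2)
    norm_num
  calc _ ≤ _ := norm_add_le _ _
    _ ≤ _ := by linarith

theorem S0_term (h : HypB O1 za zb δ R z0) {s : ℝ} (hs : 200 ≤ s) (hR : 4 * s ≤ R) {ζ : ℂ}
    (hζ : ζ ∈ Metric.ball z0 (R / 4)) {d : D} (hd : d ∈ O1) (hne : zb d ≠ za d) :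
    ‖(R : ℂ) * ((za d - z0) / R) * ker s (za d - ζ) -
      (1 + ((ζ - z0) / R) * (starRingEnd ℂ) ((za d - z0) / R) +
        (((ζ - z0) / R) * (starRingEnd ℂ) ((za d - z0) / R)) ^ 2)‖ ≤
      0.0445 + ‖dirn (zb d - za d) - Complex.I * ((za d - z0) / R)‖ *
        (16 * R * q1 s (za d - ζ) + 12) := by
  have hs0 : 0 < s := by linarith
  have hR0 : 0 < R := by linarith
  have hRC : (R : ℂ) ≠ 0 := by exact_mod_cast hR0.ne'
  have hξ := xi_le hR0 hζ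
  have hu := u_le h hd
  have hT : ‖dirn (zb d - za d)‖ = 1 := norm_dirn (sub_ne_zero.2 hne)
  have hq := q1_nn hs (za d - ζ)
  have hdiff : za d - ζ = R * ((za d - z0) / R - (ζ - z0) / R) := by
    field_simp
    ring
  have hker := ker_le hs0 (za d - ζ)
  set u : ℂ := (za d - z0) / R with hudef
  set ξ : ℂ := (ζ - z0) / R with hξdef
  set t : ℝ := ‖dirn (zb d - za d) - Complex.I * u‖ with htdef
  have ht : |1 - ‖u‖| ≤ t := by
    have h1 := abs_norm_sub_norm_le (dirn (zb d - za d)) (Complex.I * u)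
    rwa [hT, norm_mul, Complex.norm_I, one_mul] at h1
  have ht0 : 0 ≤ t := norm_nonneg _
  by_cases hc : |1 - ‖u‖| ≤ 1 / 4
  · rw [abs_le] at hc
    have h1 : 3 / 4 ≤ ‖u‖ := by linarith [hc.2]
    have h2 : ‖u‖ ≤ 5 / 4 := by linarith [hc.1]
    have h3 : 1 / 2 ≤ ‖u - ξ‖ := by
      have := norm_sub_norm_le u ξ
      linarith
    have h4 : ¬ ‖za d - ζ‖ < s := by
      rw [hdiff, norm_mul, Complex.norm_real, Real.norm_eq_abs, abs_of_pos hR0, not_lt]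
      nlinarith
    have h5 : (R : ℂ) * u * ker s (za d - ζ) = u * (u - ξ)⁻¹ := by
      rw [ker, if_neg h4, hdiff, mul_inv]
      field_simp
    rw [h5]
    refine (near_case hξ h1 h2).trans ?_
    have h6 : 0 ≤ 16 * R * q1 s (za d - ζ) := by positivity
    nlinarith
  · push Not at hc
    have h1 : 1 / 4 ≤ t := hc.le.trans ht
    have h2 : ‖(R : ℂ) * u * ker s (za d - ζ)‖ ≤ 4 * R * q1 s (za d - ζ) := by
      rw [norm_mul, norm_mul, Complex.norm_real, Real.norm_eq_abs, abs_of_pos hR0]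
      have : R * ‖u‖ ≤ 4 * R := by nlinarith
      exact mul_le_mul this hker (norm_nonneg _) (by positivity)
    have hx : ‖ξ * (starRingEnd ℂ) u‖ ≤ 1 := by
      rw [norm_mul, Complex.norm_conj]
      calc ‖ξ‖ * ‖u‖ ≤ 1 / 4 * 4 := mul_le_mul hξ hu (norm_nonneg _) (by norm_num)
        _ = 1 := by norm_num
    have h3 : ‖1 + ξ * (starRingEnd ℂ) u + (ξ * (starRingEnd ℂ) u) ^ 2‖ ≤ 3 := by
      calc _ ≤ ‖1 + ξ * (starRingEnd ℂ) u‖ + ‖(ξ * (starRingEnd ℂ) u) ^ 2‖ := norm_add_le _ _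
        _ ≤ (‖(1 : ℂ)‖ + ‖ξ * (starRingEnd ℂ) u‖) + ‖ξ * (starRingEnd ℂ) u‖ ^ 2 := by
            rw [norm_pow]
            gcongr
            exact norm_add_le _ _
        _ ≤ (1 + 1) + 1 ^ 2 := by
            rw [norm_one]
            gcongr
        _ = 3 := by norm_num
    have h4 := norm_sub_le ((R : ℂ) * u * ker s (za d - ζ))
      (1 + ξ * (starRingEnd ℂ) u + (ξ * (starRingEnd ℂ) u) ^ 2)
    have h5 : 0 ≤ 16 * R * q1 s (za d - ζ) + 12 := by positivity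
    have h6 : 1 / 4 * (16 * R * q1 s (za d - ζ) + 12) ≤ t * (16 * R * q1 s (za d - ζ) + 12) :=
      mul_le_mul_of_nonneg_right h1 h5
    linarith

/-- the boundary sum against the polynomial `G` -/
private lemma G_sum (h : HypB O1 za zb δ R z0) {ζ : ℂ}
    (hζ : ζ ∈ Metric.ball z0 (R / 4)) :
    ‖(Complex.I / R) * ∑ d ∈ O1, (‖zb d - za d‖ : ℂ) *
        (1 + ((ζ - z0) / R) * (starRingEnd ℂ) ((za d - z0) / R) +
        (((ζ - z0) / R) * (starRingEnd ℂ) ((za d - z0) / R)) ^ 2) -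
        2 * (Real.pi : ℂ) * Complex.I‖ ≤
      δ + (3 / 2) * √δ + 100 * (∑ d ∈ O1, ‖zb d - za d‖ ^ 2) / R ^ 2 := by
  have hR0 : 0 < R := lt_of_lt_of_le one_pos h.R_one
  have hRC : (R : ℂ) ≠ 0 := by exact_mod_cast hR0.ne'
  have hξ := xi_le hR0 hζ
  set ξ : ℂ := (ζ - z0) / R with hξdef
  have e1 : ∑ d ∈ O1, (‖zb d - za d‖ : ℂ) *
        (1 + ξ * (starRingEnd ℂ) ((za d - z0) / R) +
        (ξ * (starRingEnd ℂ) ((za d - z0) / R)) ^ 2) =
      ((∑ d ∈ O1, ‖zb d - za d‖ : ℝ) : ℂ) +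
      ξ * (starRingEnd ℂ) (∑ d ∈ O1, (‖zb d - za d‖ : ℂ) * ((za d - z0) / R)) +
      ξ ^ 2 * (starRingEnd ℂ) (∑ d ∈ O1, (‖zb d - za d‖ : ℂ) * ((za d - z0) / R) ^ 2) := by
    rw [map_sum, map_sum, Finset.mul_sum, Finset.mul_sum, Complex.ofReal_sum,
      ← Finset.sum_add_distrib, ← Finset.sum_add_distrib]
    refine Finset.sum_congr rfl fun d _ => ?_
    rw [map_mul, map_mul, map_pow, Complex.conj_ofReal]
    ring
  rw [e1]
  have h1 := sum_u1 h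
  have h2 := sum_u2 h
  set S1 := ∑ d ∈ O1, (‖zb d - za d‖ : ℂ) * ((za d - z0) / R) with hS1
  set S2 := ∑ d ∈ O1, (‖zb d - za d‖ : ℂ) * ((za d - z0) / R) ^ 2 with hS2
  set L := ∑ d ∈ O1, ‖zb d - za d‖ with hL
  set W := ∑ d ∈ O1, ‖zb d - za d‖ ^ 2 with hW
  have hW0 : 0 ≤ W := Finset.sum_nonneg fun d _ => by positivity
  have hlen : |L - 2 * Real.pi * R| ≤ δ * R := h.len
  have e2 : (Complex.I / R) * ((L : ℂ) + ξ * (starRingEnd ℂ) S1 + ξ ^ 2 * (starRingEnd ℂ) S2) -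
      2 * (Real.pi : ℂ) * Complex.I =
      Complex.I * (((L - 2 * Real.pi * R) / R : ℝ) : ℂ) +
        (Complex.I / R) * (ξ * (starRingEnd ℂ) S1) +
        (Complex.I / R) * (ξ ^ 2 * (starRingEnd ℂ) S2) := by
    push_cast
    field_simp
    ring
  rw [e2]
  have hIR : ‖Complex.I / (R : ℂ)‖ = 1 / R := by
    rw [norm_div, Complex.norm_I, Complex.norm_real, Real.norm_eq_abs, abs_of_pos hR0]
  have n1 : ‖Complex.I * (((L - 2 * Real.pi * R) / R : ℝ) : ℂ)‖ ≤ δ := by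
    rw [norm_mul, Complex.norm_I, one_mul, Complex.norm_real, Real.norm_eq_abs, abs_div,
      abs_of_pos hR0, div_le_iff₀ hR0]
    exact hlen
  have n2 : ‖(Complex.I / R) * (ξ * (starRingEnd ℂ) S1)‖ ≤ 3 / 4 * √δ := by
    rw [norm_mul, norm_mul, Complex.norm_conj, hIR]
    have : ‖ξ‖ * ‖S1‖ ≤ 1 / 4 * (3 * √δ * R) := mul_le_mul hξ h1 (norm_nonneg _) (by norm_num)
    calc 1 / R * (‖ξ‖ * ‖S1‖) ≤ 1 / R * (1 / 4 * (3 * √δ * R)) :=
          mul_le_mul_of_nonneg_left this (by positivity)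
      _ = 3 / 4 * √δ := by field_simp
  have n3 : ‖(Complex.I / R) * (ξ ^ 2 * (starRingEnd ℂ) S2)‖ ≤ 3 / 4 * √δ + 100 * W / R ^ 2 := by
    rw [norm_mul, norm_mul, Complex.norm_conj, hIR, norm_pow]
    have hξ2 : ‖ξ‖ ^ 2 ≤ 1 / 16 := by
      calc ‖ξ‖ ^ 2 ≤ (1 / 4) ^ 2 := pow_le_pow_left₀ (norm_nonneg _) hξ 2
        _ = 1 / 16 := by norm_num
    have : ‖ξ‖ ^ 2 * ‖S2‖ ≤ 1 / 16 * (12 * √δ * R + 1000 * W / R) :=
      mul_le_mul hξ2 h2 (norm_nonneg _) (by norm_num)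
    calc 1 / R * (‖ξ‖ ^ 2 * ‖S2‖) ≤ 1 / R * (1 / 16 * (12 * √δ * R + 1000 * W / R)) :=
          mul_le_mul_of_nonneg_left this (by positivity)
      _ = 3 / 4 * √δ + (1000 / 16) * (W / R ^ 2) := by
          field_simp
          ring
      _ ≤ 3 / 4 * √δ + 100 * (W / R ^ 2) := by
          have : 0 ≤ W / R ^ 2 := by positivity
          linarith
      _ = _ := by ring
  calc _ ≤ ‖Complex.I * (((L - 2 * Real.pi * R) / R : ℝ) : ℂ) +
        (Complex.I / R) * (ξ * (starRingEnd ℂ) S1)‖ +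
        ‖(Complex.I / R) * (ξ ^ 2 * (starRingEnd ℂ) S2)‖ := norm_add_le _ _
    _ ≤ (‖Complex.I * (((L - 2 * Real.pi * R) / R : ℝ) : ℂ)‖ +
        ‖(Complex.I / R) * (ξ * (starRingEnd ℂ) S1)‖) +
        ‖(Complex.I / R) * (ξ ^ 2 * (starRingEnd ℂ) S2)‖ := by
          gcongr
          exact norm_add_le _ _
    _ ≤ _ := by linarith

theorem S0_pt (h : HypB O1 za zb δ R z0) {s : ℝ} (hs : 200 ≤ s) (hR : 4 * s ≤ R) {ζ : ℂ}
    (hζ : ζ ∈ Metric.ball z0 (R / 4)) :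
    ‖SS O1 za zb 0 s ζ - 2 * (Real.pi : ℂ) * Complex.I‖ ≤
      0.2797 + 3 * √δ + 100 * (∑ d ∈ O1, ‖zb d - za d‖ ^ 2) / R ^ 2 +
      ∑ d ∈ O1, ‖zb d - za d‖ * ‖dirn (zb d - za d) - Complex.I * ((za d - z0) / R)‖ *
        (17 * q1 s (za d - ζ) + 12 / R) := by
  have hs0 : 0 < s := by linarith
  have hR0 : 0 < R := by linarith
  have hRC : (R : ℂ) ≠ 0 := by exact_mod_cast hR0.ne'
  have hG := G_sum h hζ
  -- decomposition
  have key : SS O1 za zb 0 s ζ - 2 * (Real.pi : ℂ) * Complex.I =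
      ∑ d ∈ O1, (‖zb d - za d‖ : ℂ) * (dirn (zb d - za d) - Complex.I * ((za d - z0) / R)) *
        ker s (za d - ζ) +
      (Complex.I / R) * ∑ d ∈ O1, (‖zb d - za d‖ : ℂ) *
        ((R : ℂ) * ((za d - z0) / R) * ker s (za d - ζ) -
        (1 + ((ζ - z0) / R) * (starRingEnd ℂ) ((za d - z0) / R) +
        (((ζ - z0) / R) * (starRingEnd ℂ) ((za d - z0) / R)) ^ 2)) +
      ((Complex.I / R) * ∑ d ∈ O1, (‖zb d - za d‖ : ℂ) *
        (1 + ((ζ - z0) / R) * (starRingEnd ℂ) ((za d - z0) / R) +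
        (((ζ - z0) / R) * (starRingEnd ℂ) ((za d - z0) / R)) ^ 2) -
        2 * (Real.pi : ℂ) * Complex.I) := by
    have : SS O1 za zb 0 s ζ =
      ∑ d ∈ O1, (‖zb d - za d‖ : ℂ) * (dirn (zb d - za d) - Complex.I * ((za d - z0) / R)) *
        ker s (za d - ζ) +
      (Complex.I / R) * ∑ d ∈ O1, (‖zb d - za d‖ : ℂ) *
        ((R : ℂ) * ((za d - z0) / R) * ker s (za d - ζ) -
        (1 + ((ζ - z0) / R) * (starRingEnd ℂ) ((za d - z0) / R) +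
        (((ζ - z0) / R) * (starRingEnd ℂ) ((za d - z0) / R)) ^ 2)) +
      (Complex.I / R) * ∑ d ∈ O1, (‖zb d - za d‖ : ℂ) *
        (1 + ((ζ - z0) / R) * (starRingEnd ℂ) ((za d - z0) / R) +
        (((ζ - z0) / R) * (starRingEnd ℂ) ((za d - z0) / R)) ^ 2) := by
      rw [SS, Finset.mul_sum, Finset.mul_sum, ← Finset.sum_add_distrib, ← Finset.sum_add_distrib]
      refine Finset.sum_congr rfl fun d _ => ?_
      have hv := norm_mul_dirn (zb d - za d)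
      rw [Nat.mul_zero, pow_zero, one_mul]
      nth_rewrite 1 [← hv]
      field_simp
      ring
    rw [this]
    ring
  rw [key]
  have m1 : ‖∑ d ∈ O1, (‖zb d - za d‖ : ℂ) * (dirn (zb d - za d) - Complex.I * ((za d - z0) / R)) *
        ker s (za d - ζ)‖ ≤ ∑ d ∈ O1, ‖zb d - za d‖ *
        ‖dirn (zb d - za d) - Complex.I * ((za d - z0) / R)‖ * q1 s (za d - ζ) := by
    refine (norm_sum_le _ _).trans (Finset.sum_le_sum fun d _ => ?_)
    rw [norm_mul, norm_mul, Complex.norm_real, norm_norm]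
    exact mul_le_mul_of_nonneg_left (ker_le hs0 _) (by positivity)
  have m2 : ‖(Complex.I / R) * ∑ d ∈ O1, (‖zb d - za d‖ : ℂ) *
        ((R : ℂ) * ((za d - z0) / R) * ker s (za d - ζ) -
        (1 + ((ζ - z0) / R) * (starRingEnd ℂ) ((za d - z0) / R) +
        (((ζ - z0) / R) * (starRingEnd ℂ) ((za d - z0) / R)) ^ 2))‖ ≤
      1 / R * ∑ d ∈ O1, ‖zb d - za d‖ *
        (0.0445 + ‖dirn (zb d - za d) - Complex.I * ((za d - z0) / R)‖ *
        (16 * R * q1 s (za d - ζ) + 12)) := by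
    rw [norm_mul, norm_div, Complex.norm_I, Complex.norm_real, Real.norm_eq_abs, abs_of_pos hR0]
    refine mul_le_mul_of_nonneg_left ?_ (by positivity)
    refine (norm_sum_le _ _).trans (Finset.sum_le_sum fun d hd => ?_)
    rw [norm_mul, Complex.norm_real, norm_norm]
    by_cases hne : zb d = za d
    · rw [hne, sub_self, norm_zero, zero_mul, zero_mul]
    · exact mul_le_mul_of_nonneg_left (S0_term h hs hR hζ hd hne) (norm_nonneg _)
  have m3 : 1 / R * ∑ d ∈ O1, ‖zb d - za d‖ *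
        (0.0445 + ‖dirn (zb d - za d) - Complex.I * ((za d - z0) / R)‖ *
        (16 * R * q1 s (za d - ζ) + 12)) =
      0.0445 * ((∑ d ∈ O1, ‖zb d - za d‖) / R) +
      ∑ d ∈ O1, ‖zb d - za d‖ * ‖dirn (zb d - za d) - Complex.I * ((za d - z0) / R)‖ *
        (16 * q1 s (za d - ζ) + 12 / R) := by
    rw [Finset.mul_sum, Finset.sum_div, Finset.mul_sum, ← Finset.sum_add_distrib]
    refine Finset.sum_congr rfl fun d _ => ?_
    field_simp
  have m4 : ∑ d ∈ O1, ‖zb d - za d‖ *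
        ‖dirn (zb d - za d) - Complex.I * ((za d - z0) / R)‖ * q1 s (za d - ζ) +
      ∑ d ∈ O1, ‖zb d - za d‖ * ‖dirn (zb d - za d) - Complex.I * ((za d - z0) / R)‖ *
        (16 * q1 s (za d - ζ) + 12 / R) =
      ∑ d ∈ O1, ‖zb d - za d‖ * ‖dirn (zb d - za d) - Complex.I * ((za d - z0) / R)‖ *
        (17 * q1 s (za d - ζ) + 12 / R) := by
    rw [← Finset.sum_add_distrib]
    refine Finset.sum_congr rfl fun d _ => ?_
    ring
  have hL : (∑ d ∈ O1, ‖zb d - za d‖) / R ≤ 2 * Real.pi + δ := by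
    rw [div_le_iff₀ hR0]
    have := (abs_le.1 h.len).2
    linarith
  have hδs : δ ≤ √δ := by
    have h1 : √δ ≤ 1 := by
      have h0 := Real.sqrt_le_sqrt h.δ_one
      rwa [Real.sqrt_one] at h0
    have h2 : √δ * √δ = δ := Real.mul_self_sqrt h.δ_nonneg
    have h3 : 0 ≤ √δ := Real.sqrt_nonneg _
    nlinarith
  have hpi : Real.pi < 3.1416 := Real.pi_lt_d4
  have hδ0 := h.δ_nonneg
  refine (norm_add_le _ _).trans ?_
  refine (add_le_add (norm_add_le _ _) le_rfl).trans ?_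
  have := m2.trans_eq m3
  have hpi2 : Real.pi < 3.141593 := Real.pi_lt_d6
  linarith

theorem S0 (h : HypB O1 za zb δ R z0) {s : ℝ} (hs : 200 ≤ s) (hR : 4 * s ≤ R) :
    ∫ ζ in Metric.ball z0 (R / 4), ‖SS O1 za zb 0 s ζ - 2 * (Real.pi : ℂ) * Complex.I‖ ≤
      0.2797 * (Real.pi * R ^ 2 / 16) + 10 ^ 3 * √δ * R ^ 2 +
        10 ^ 2 * ∑ d ∈ O1, ‖zb d - za d‖ ^ 2 := by
  have hs0 : 0 < s := by linarith
  have hR0 : 0 < R := by linarith
  set W := ∑ d ∈ O1, ‖zb d - za d‖ ^ 2 with hW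
  have hW0 : 0 ≤ W := Finset.sum_nonneg fun d _ => by positivity
  set A : ℝ := 0.2797 + 3 * √δ + 100 * W / R ^ 2 with hA
  set c : D → ℝ := fun d => ‖zb d - za d‖ * ‖dirn (zb d - za d) - Complex.I * ((za d - z0) / R)‖
    with hc
  have hc0 : ∀ d, 0 ≤ c d := fun d => by positivity
  have hvol : volume (Metric.ball z0 (R / 4)) ≠ ⊤ := (measure_ball_lt_top).ne
  have iq : ∀ d, IntegrableOn (fun ζ => c d * (17 * q1 s (za d - ζ) + 12 / R))
      (Metric.ball z0 (R / 4)) volume := fun d =>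
    (((intg_q1 hs0 (za d) z0 (R / 4)).const_mul 17).add
      (integrableOn_const (C := 12 / R) hvol)).const_mul (c d)
  have iA : IntegrableOn (fun _ : ℂ => A) (Metric.ball z0 (R / 4)) volume :=
    integrableOn_const (C := A) hvol
  have is : IntegrableOn (fun ζ => ∑ d ∈ O1, c d * (17 * q1 s (za d - ζ) + 12 / R))
      (Metric.ball z0 (R / 4)) volume := integrable_finsetSum _ fun d _ => iq d
  have iL : IntegrableOn (fun ζ => ‖SS O1 za zb 0 s ζ - 2 * (Real.pi : ℂ) * Complex.I‖)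
      (Metric.ball z0 (R / 4)) volume :=
    ((intg_SS O1 za zb 0 hs0 z0 (R / 4)).sub (integrableOn_const hvol)).norm
  have harea : (volume (Metric.ball z0 (R / 4))).toReal = Real.pi * (R / 4) ^ 2 :=
    ball_area z0 (by positivity)
  have st1 : ∫ ζ in Metric.ball z0 (R / 4), ‖SS O1 za zb 0 s ζ - 2 * (Real.pi : ℂ) * Complex.I‖ ≤
      ∫ ζ in Metric.ball z0 (R / 4), (A + ∑ d ∈ O1, c d * (17 * q1 s (za d - ζ) + 12 / R)) := by
    refine setIntegral_mono_on iL (iA.add is) measurableSet_ball fun ζ hζ => ?_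
    exact S0_pt h hs hR hζ
  refine st1.trans ?_
  rw [integral_add iA is, integral_finsetSum _ fun d _ => iq d, setIntegral_const, smul_eq_mul,
    Measure.real, harea]
  have st2 : ∀ d ∈ O1, ∫ ζ in Metric.ball z0 (R / 4), c d * (17 * q1 s (za d - ζ) + 12 / R) ≤
      c d * (122 * R) := by
    intro d _
    rw [integral_const_mul]
    refine mul_le_mul_of_nonneg_left ?_ (hc0 d)
    rw [integral_add ((intg_q1 hs0 (za d) z0 (R / 4)).const_mul 17)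
      (integrableOn_const (C := 12 / R) hvol), integral_const_mul, setIntegral_const, smul_eq_mul,
      Measure.real, harea]
    have h1 := int_q1 hR0 hs0 (za d) z0
    have h2 : Real.pi * (R / 4) ^ 2 * (12 / R) = Real.pi * R * (12 / 16) := by
      field_simp
      ring
    rw [h2]
    have hpi : Real.pi < 3.15 := Real.pi_lt_d2
    nlinarith
  have st3 : ∑ d ∈ O1, ∫ ζ in Metric.ball z0 (R / 4), c d * (17 * q1 s (za d - ζ) + 12 / R) ≤
      3 * √δ * R * (122 * R) := by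
    refine (Finset.sum_le_sum st2).trans ?_
    rw [← Finset.sum_mul]
    exact mul_le_mul_of_nonneg_right (sumT h) (by positivity)
  have st4 : Real.pi * (R / 4) ^ 2 * A = 0.2797 * (Real.pi * R ^ 2 / 16) +
      3 / 16 * Real.pi * √δ * R ^ 2 + 100 / 16 * Real.pi * W := by
    rw [hA]
    field_simp
    ring
  rw [st4]
  have hpi : Real.pi < 3.15 := Real.pi_lt_d2
  have hpi0 := Real.pi_pos
  have hd0 : 0 ≤ √δ * R ^ 2 := by positivity
  have e1 : 3 / 16 * Real.pi * √δ * R ^ 2 ≤ √δ * R ^ 2 := by nlinarith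
  have e2 : 100 / 16 * Real.pi * W ≤ 100 * W := by nlinarith
  have e3 : 3 * √δ * R * (122 * R) = 366 * (√δ * R ^ 2) := by ring
  rw [e3] at st3
  have e4 : (10 : ℝ) ^ 3 * √δ * R ^ 2 = 1000 * (√δ * R ^ 2) := by ring
  rw [e4]
  linarith

end Pool.Agent.Helper38.RG
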