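import Pool.Agent.Helper38.RG.Patch
import Pool.Agent.Helper38.RG.BadI

/-!
# RG-23: coherence

`c' = √3/(4 π s²)`, `S` = the regular darts in the disc about `ζ`, `w_d = v d ^ 6`, `‖w_d‖ ∈ [.99, 1.01]` (`|‖v‖ - 1| ≤ η ≤ 10^-8`).
`aa = c' |S|`, `WW 1 = c' ∑_S w`, `aa² - ‖WW 1‖² = c'² ∑_{d, x ∈ S} (1 - Re (w_d conj w_x))`.  For a good `d` and `x ∈ patch`:
`1 - Re (w_d conj w_x) = 1 - ‖w_d‖² - Re (w_d conj (w_x - w_d)) ≤ .01 + …`: with `‖w_d‖² ≥ 1 - 10^-6`: `≤ .01`.  In all other cases `≤ 2.3`.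
For a good `d`: `c' #(S \ patch) ≤ aa - .8` (`patch_count`, `patch_reg`), so `c' ∑_x … ≤ .01 aa + 2.3 (aa - .8)`; otherwise `≤ 2.3 aa`.
`c' #(good d in S) = aa - bb`.  Sum: `(aa - bb)(.01 aa + 2.3 (aa - .8)) + 2.3 bb aa ≤ .01 aa² + 2.3 aa² - 1.84 aa + 1.84 bb`.
* `aa_eq`: `WW 0` is the real number `aa ≥ 0`.  `WW1_le`: `‖WW 1‖ ≤ 1.1 aa`.
-/

set_option linter.unusedSectionVars false
set_option linter.unusedVariables false

namespace Pool.Agent.Helper38.RG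

open Finset

variable {D Fc : Type} [Fintype D] [DecidableEq D] [Fintype Fc] [DecidableEq Fc]
variable {K : Cx D Fc} {e : Fc → ℝ} {η s : ℝ} {m : ℕ}

open scoped Classical in
/-- the regular darts in the disc -/
private noncomputable def Sd (K : Cx D Fc) (e : Fc → ℝ) (η s : ℝ) (ζ : ℂ) : Finset D :=
  univ.filter fun d => K.Reg e η (K.F d) ∧ ‖K.pc (K.F d) - ζ‖ < s

private noncomputable def cc (s : ℝ) : ℝ := √3 / (4 * Real.pi * s ^ 2)

private theorem mem_Sd {d : D} {ζ : ℂ} :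
    d ∈ Sd K e η s ζ ↔ K.Reg e η (K.F d) ∧ ‖K.pc (K.F d) - ζ‖ < s := by
  classical
  unfold Sd
  rw [mem_filter]
  exact ⟨fun h => h.2, fun h => ⟨mem_univ _, h⟩⟩

private theorem WW_eq (κ : ℕ) (ζ : ℂ) : WW K e η κ s ζ =
    ((cc s : ℝ) : ℂ) * ∑ d ∈ Sd K e η s ζ, K.v d ^ (6 * κ) := by
  classical
  unfold WW cc
  congr 1
  rw [← sum_filter]
  apply sum_congr _ fun _ _ => rfl
  ext d
  rw [mem_Sd, mem_filter, mem_filter]
  constructor
  · rintro ⟨⟨_, h1⟩, h2⟩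
    exact ⟨h1, h2⟩
  · rintro ⟨h1, h2⟩
    exact ⟨⟨mem_univ _, h1⟩, h2⟩

private theorem WW_zero (ζ : ℂ) : WW K e η 0 s ζ =
    ((cc s * ((Sd K e η s ζ).card : ℝ) : ℝ) : ℂ) := by
  rw [WW_eq]
  simp only [mul_zero, pow_zero, sum_const, nsmul_eq_mul, mul_one]
  push_cast
  ring

private theorem aa_card (ζ : ℂ) : aa K e η s ζ = cc s * ((Sd K e η s ζ).card : ℝ) := by
  unfold aa
  rw [WW_zero, Complex.ofReal_re]

private theorem cc_nonneg (s : ℝ) : 0 ≤ cc s := by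
  unfold cc
  have := Real.pi_pos
  positivity

theorem aa_eq (K : Cx D Fc) (e : Fc → ℝ) (η s : ℝ) (ζ : ℂ) : WW K e η 0 s ζ = (aa K e η s ζ : ℂ) := by
  rw [aa_card, WW_zero]

theorem aa_nonneg (K : Cx D Fc) (e : Fc → ℝ) (η s : ℝ) (ζ : ℂ) : 0 ≤ aa K e η s ζ := by
  rw [aa_card]
  exact mul_nonneg (cc_nonneg s) (Nat.cast_nonneg _)

/-- the edge vectors of the regular darts -/
private theorem v_bd {d : D} {ζ : ℂ} (hd : d ∈ Sd K e η s ζ) : |‖K.v d‖ - 1| ≤ η := by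
  obtain ⟨⟨_, _, _, h4, h5⟩, _⟩ := mem_Sd.1 hd
  exact (h5 d rfl).2.trans h4

theorem WW1_le (hη : η ≤ 1 / 100) (hs : 0 < s) (ζ : ℂ) :
    ‖WW K e η 1 s ζ‖ ≤ 1.1 * aa K e η s ζ := by
  have h1 : ‖∑ d ∈ Sd K e η s ζ, K.v d ^ (6 * 1)‖ ≤ ((Sd K e η s ζ).card : ℝ) * 1.1 := by
    refine (norm_sum_le _ _).trans ?_
    rw [← nsmul_eq_mul, ← sum_const]
    refine sum_le_sum fun d hd => ?_
    have h2 := v_bd hd
    have h3 : ‖K.v d‖ ≤ 1.01 := by
      have := (abs_le.1 h2).2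
      linarith
    rw [norm_pow]
    calc ‖K.v d‖ ^ (6 * 1) ≤ (1.01 : ℝ) ^ (6 * 1) := pow_le_pow_left₀ (norm_nonneg _) h3 _
      _ ≤ 1.1 := by norm_num
  rw [WW_eq, norm_mul, Complex.norm_real, Real.norm_of_nonneg (cc_nonneg s), aa_card]
  calc cc s * ‖∑ d ∈ Sd K e η s ζ, K.v d ^ (6 * 1)‖ ≤ cc s * (((Sd K e η s ζ).card : ℝ) * 1.1) :=
        mul_le_mul_of_nonneg_left h1 (cc_nonneg s)
    _ = 1.1 * (cc s * ((Sd K e η s ζ).card : ℝ)) := by ring

private theorem bb_card (ζ : ℂ) [DecidablePred fun d : D => ¬ Good K e η m d] :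
    bb K e η m s ζ = cc s * (((Sd K e η s ζ).filter fun d => ¬ Good K e η m d).card : ℝ) := by
  classical
  unfold bb cc
  congr 1
  rw [← sum_filter, sum_const, nsmul_eq_mul, mul_one]
  congr 2
  ext d
  simp only [mem_filter, mem_Sd, mem_univ, true_and]
  tauto

private theorem eta_small (hη : η ≤ 1 / (10 ^ 4 * m ^ 2)) (hs : 200 ≤ s) (hm : 2 * s ≤ m) :
    η ≤ 1 / 10 ^ 8 := by
  have h1 : (400 : ℝ) ≤ m := by linarith
  refine hη.trans ?_
  apply one_div_le_one_div_of_le (by positivity)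
  nlinarith

/-- `‖∑ w‖ ^ 2` -/
private theorem norm_sq_sum (S : Finset D) (w : D → ℂ) : ‖∑ d ∈ S, w d‖ ^ 2 =
    ∑ d ∈ S, ∑ x ∈ S, (w d * (starRingEnd ℂ) (w x)).re := by
  have h1 : (∑ d ∈ S, w d) * (starRingEnd ℂ) (∑ d ∈ S, w d) =
      ∑ d ∈ S, ∑ x ∈ S, w d * (starRingEnd ℂ) (w x) := by
    rw [map_sum, sum_mul_sum]
  have h2 := congrArg Complex.re h1
  rw [Complex.mul_conj, Complex.ofReal_re, Complex.normSq_eq_norm_sq, Complex.re_sum] at h2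
  rw [h2]
  exact sum_congr rfl fun d _ => Complex.re_sum _ _

theorem coh (hη : η ≤ 1 / (10 ^ 4 * m ^ 2)) (hs : 200 ≤ s) (hm : 2 * s ≤ m) (ζ : ℂ) :
    aa K e η s ζ ^ 2 - ‖WW K e η 1 s ζ‖ ^ 2 ≤
      2.31 * aa K e η s ζ ^ 2 - 1.84 * aa K e η s ζ + 1.84 * bb K e η m s ζ := by
  classical
  have hη' := eta_small hη hs hm
  have hm1 : 1 ≤ m := by
    have h1 : (1 : ℝ) ≤ m := by linarith
    exact_mod_cast h1
  have hc := cc_nonneg s
  set S := Sd K e η s ζ with hS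
  set w : D → ℂ := fun d => K.v d ^ 6 with hw
  set a := aa K e η s ζ with ha
  have ha' : a = cc s * (S.card : ℝ) := aa_card ζ
  have hb' : bb K e η m s ζ = cc s * ((S.filter fun d => ¬ Good K e η m d).card : ℝ) := bb_card ζ
  have ha0 : 0 ≤ a := aa_nonneg K e η s ζ
  -- the norms
  have hwu : ∀ d ∈ S, ‖w d‖ ≤ 1.0001 := by
    intro d hd
    have h2 := v_bd hd
    have h3 : ‖K.v d‖ ≤ 1 + 1 / 10 ^ 8 := by
      have := (abs_le.1 h2).2
      linarith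
    rw [hw]
    simp only
    rw [norm_pow]
    calc ‖K.v d‖ ^ 6 ≤ (1 + 1 / 10 ^ 8 : ℝ) ^ 6 := pow_le_pow_left₀ (norm_nonneg _) h3 _
      _ ≤ 1.0001 := by norm_num
  have hwl : ∀ d ∈ S, 0.9999 ≤ ‖w d‖ := by
    intro d hd
    have h2 := v_bd hd
    have h3 : 1 - 1 / 10 ^ 8 ≤ ‖K.v d‖ := by
      have := (abs_le.1 h2).1
      linarith
    rw [hw]
    simp only
    rw [norm_pow]
    calc (0.9999 : ℝ) ≤ (1 - 1 / 10 ^ 8 : ℝ) ^ 6 := by norm_num
      _ ≤ ‖K.v d‖ ^ 6 := pow_le_pow_left₀ (by norm_num) h3 _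
  have hany : ∀ d ∈ S, ∀ x ∈ S, 1 - (w d * (starRingEnd ℂ) (w x)).re ≤ 2.3 := by
    intro d hd x hx
    have h1 := Complex.abs_re_le_norm (w d * (starRingEnd ℂ) (w x))
    rw [norm_mul, RCLike.norm_conj] at h1
    have h2 := hwu d hd
    have h3 := hwu x hx
    have h4 : ‖w d‖ * ‖w x‖ ≤ 1.0001 * 1.0001 :=
      mul_le_mul h2 h3 (norm_nonneg _) (by norm_num)
    have h5 := (abs_le.1 h1).1
    linarith
  have hgood : ∀ d ∈ S, Good K e η m d → ∀ x ∈ S, x ∈ patch K m d →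
      1 - (w d * (starRingEnd ℂ) (w x)).re ≤ 0.01 := by
    intro d hd hgd x hx hxp
    have h1 := patch_w hη hm1 hgd hxp
    have e1 : w d * (starRingEnd ℂ) (w x) =
        w d * (starRingEnd ℂ) (w d) + w d * (starRingEnd ℂ) (w x - w d) := by
      rw [map_sub]
      ring
    have e2 : (w d * (starRingEnd ℂ) (w d)).re = ‖w d‖ ^ 2 := by
      rw [Complex.mul_conj, Complex.ofReal_re, Complex.normSq_eq_norm_sq]
    have h2 := Complex.abs_re_le_norm (w d * (starRingEnd ℂ) (w x - w d))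
    rw [norm_mul, RCLike.norm_conj] at h2
    have h3 : ‖w d‖ * ‖w x - w d‖ ≤ 1.0001 * 0.008 :=
      mul_le_mul (hwu d hd) h1 (norm_nonneg _) (by norm_num)
    have h4 := hwl d hd
    have h5 := (abs_le.1 h2).1
    rw [e1, Complex.add_re, e2]
    nlinarith
  -- the inner sums
  set f : D → ℝ := fun d => cc s * ∑ x ∈ S, (1 - (w d * (starRingEnd ℂ) (w x)).re) with hf
  have f1 : ∀ d ∈ S, f d ≤ 2.3 * a := by
    intro d hd
    have h1 : ∑ x ∈ S, (1 - (w d * (starRingEnd ℂ) (w x)).re) ≤ (S.card : ℝ) * 2.3 := by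
      rw [← nsmul_eq_mul, ← sum_const]
      exact sum_le_sum fun x hx => hany d hd x hx
    calc f d ≤ cc s * ((S.card : ℝ) * 2.3) := mul_le_mul_of_nonneg_left h1 hc
      _ = 2.3 * a := by rw [ha']; ring
  have f2 : ∀ d ∈ S, Good K e η m d → f d ≤ 2.31 * a - 1.84 := by
    intro d hd hgd
    have h1 : ∑ x ∈ S, (1 - (w d * (starRingEnd ℂ) (w x)).re) ≤
        ((S.filter fun x => x ∈ patch K m d).card : ℝ) * 0.01 +
          ((S.filter fun x => ¬ x ∈ patch K m d).card : ℝ) * 2.3 := by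
      rw [← sum_filter_add_sum_filter_not S (fun x => x ∈ patch K m d)]
      apply add_le_add
      · rw [← nsmul_eq_mul, ← sum_const]
        refine sum_le_sum fun x hx => ?_
        obtain ⟨h2, h3⟩ := mem_filter.1 hx
        exact hgood d hd hgd x h2 h3
      · rw [← nsmul_eq_mul, ← sum_const]
        refine sum_le_sum fun x hx => ?_
        exact hany d hd x (mem_filter.1 hx).1
    have h2 : ((S.filter fun x => x ∈ patch K m d).card : ℝ) +
        ((S.filter fun x => ¬ x ∈ patch K m d).card : ℝ) = (S.card : ℝ) := by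
      exact_mod_cast card_filter_add_card_filter_not (s := S) (fun x => x ∈ patch K m d)
    have h3 : 0.8 ≤ cc s * ((S.filter fun x => x ∈ patch K m d).card : ℝ) := by
      have h4 := patch_count hη hs hm hgd (mem_Sd.1 hd).2
      refine h4.trans (le_of_eq ?_)
      unfold cc
      congr 3
      ext x
      rw [mem_filter, mem_filter, hS, mem_Sd]
      constructor
      · rintro ⟨h5, h6⟩
        exact ⟨⟨patch_reg hη hm1 hgd h5, h6⟩, h5⟩
      · rintro ⟨⟨_, h6⟩, h5⟩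
        exact ⟨h5, h6⟩
    set p1 := ((S.filter fun x => x ∈ patch K m d).card : ℝ)
    set p2 := ((S.filter fun x => ¬ x ∈ patch K m d).card : ℝ)
    have h4 : 0 ≤ cc s * p2 := mul_nonneg hc (Nat.cast_nonneg _)
    have h5 : cc s * p1 + cc s * p2 = a := by
      rw [ha', ← h2]
      ring
    calc f d ≤ cc s * (p1 * 0.01 + p2 * 2.3) := mul_le_mul_of_nonneg_left h1 hc
      _ = 0.01 * (cc s * p1) + 2.3 * (cc s * p2) := by ring
      _ ≤ 2.31 * a - 1.84 := by nlinarith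
  -- the whole sum
  have hsum : a ^ 2 - ‖WW K e η 1 s ζ‖ ^ 2 = ∑ d ∈ S, cc s * f d := by
    have h1 : ‖WW K e η 1 s ζ‖ = cc s * ‖∑ d ∈ S, w d‖ := by
      rw [WW_eq, norm_mul, Complex.norm_real, Real.norm_of_nonneg hc]
    have h2 : ∑ d ∈ S, cc s * f d =
        cc s ^ 2 * ((S.card : ℝ) ^ 2 - ∑ d ∈ S, ∑ x ∈ S, (w d * (starRingEnd ℂ) (w x)).re) := by
      have h3 : ∀ d ∈ S, cc s * f d =
          cc s ^ 2 * ((S.card : ℝ) - ∑ x ∈ S, (w d * (starRingEnd ℂ) (w x)).re) := by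
        intro d _
        rw [hf]
        simp only
        rw [sum_sub_distrib, sum_const, nsmul_eq_mul, mul_one]
        ring
      rw [sum_congr rfl h3, ← mul_sum, sum_sub_distrib, sum_const, nsmul_eq_mul]
      ring
    rw [h1, h2, mul_pow, norm_sq_sum, ha']
    ring
  rw [hsum, ← sum_filter_add_sum_filter_not S (fun d => Good K e η m d)]
  have hg : ((S.filter fun d => Good K e η m d).card : ℝ) +
      ((S.filter fun d => ¬ Good K e η m d).card : ℝ) = (S.card : ℝ) := by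
    exact_mod_cast card_filter_add_card_filter_not (s := S) (fun d => Good K e η m d)
  set g1 := ((S.filter fun d => Good K e η m d).card : ℝ)
  set g2 := ((S.filter fun d => ¬ Good K e η m d).card : ℝ)
  have s1 : ∑ d ∈ S.filter (fun d => Good K e η m d), cc s * f d ≤
      g1 * (cc s * (2.31 * a - 1.84)) := by
    rw [← nsmul_eq_mul, ← sum_const]
    refine sum_le_sum fun d hd => ?_
    obtain ⟨h2, h3⟩ := mem_filter.1 hd
    exact mul_le_mul_of_nonneg_left (f2 d h2 h3) hc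
  have s2 : ∑ d ∈ S.filter (fun d => ¬ Good K e η m d), cc s * f d ≤
      g2 * (cc s * (2.3 * a)) := by
    rw [← nsmul_eq_mul, ← sum_const]
    refine sum_le_sum fun d hd => ?_
    exact mul_le_mul_of_nonneg_left (f1 d (mem_filter.1 hd).1) hc
  have hg1 : cc s * g1 = a - bb K e η m s ζ := by
    rw [hb', ha', ← hg]
    ring
  have hg2 : cc s * g2 = bb K e η m s ζ := hb'.symm
  have hb0 : 0 ≤ bb K e η m s ζ := by
    rw [hb']
    exact mul_nonneg hc (Nat.cast_nonneg _)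
  calc _ ≤ g1 * (cc s * (2.31 * a - 1.84)) + g2 * (cc s * (2.3 * a)) := add_le_add s1 s2
    _ = (cc s * g1) * (2.31 * a - 1.84) + (cc s * g2) * (2.3 * a) := by ring
    _ = (a - bb K e η m s ζ) * (2.31 * a - 1.84) + bb K e η m s ζ * (2.3 * a) := by
      rw [hg1, hg2]
    _ ≤ 2.31 * a ^ 2 - 1.84 * a + 1.84 * bb K e η m s ζ := by nlinarith [mul_nonneg ha0 hb0]

/-- the pointwise inequality: `t = ‖WW 1 - ξ^6 WW 0‖`, `‖ξ‖ ≤ 1/4` -/
theorem point (hη : η ≤ 1 / (10 ^ 4 * m ^ 2)) (hs : 200 ≤ s) (hm : 2 * s ≤ m) (ζ : ℂ) {ξ : ℂ}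
    (hξ : ‖ξ‖ ≤ 1 / 4) :
    0.52 ≤ 2.1 * ‖WW K e η 0 s ζ - 1‖ + 1.84 * bb K e η m s ζ +
      2.2 * ‖WW K e η 1 s ζ - ξ ^ 6 * WW K e η 0 s ζ‖ := by
  classical
  have hη' : η ≤ 1 / 100 := (eta_small hη hs hm).trans (by norm_num)
  have hcoh := coh (K := K) (e := e) hη hs hm ζ
  have hW := WW1_le (K := K) (e := e) hη' (by linarith : 0 < s) ζ
  have ha0 := aa_nonneg K e η s ζ
  have hb0 : 0 ≤ bb K e η m s ζ := by
    rw [bb_card]
    exact mul_nonneg (cc_nonneg s) (Nat.cast_nonneg _)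
  have e0 : ‖WW K e η 0 s ζ - 1‖ = |aa K e η s ζ - 1| := by
    rw [aa_eq, ← Complex.ofReal_one, ← Complex.ofReal_sub, Complex.norm_real, Real.norm_eq_abs]
  have e1 : ‖WW K e η 1 s ζ‖ ≤ aa K e η s ζ / 4096 +
      ‖WW K e η 1 s ζ - ξ ^ 6 * WW K e η 0 s ζ‖ := by
    have h1 : ‖ξ ^ 6 * WW K e η 0 s ζ‖ ≤ aa K e η s ζ / 4096 := by
      rw [norm_mul, norm_pow, aa_eq, Complex.norm_real, Real.norm_of_nonneg ha0]
      have h2 : ‖ξ‖ ^ 6 ≤ (1 / 4 : ℝ) ^ 6 := pow_le_pow_left₀ (norm_nonneg _) hξ _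
      calc ‖ξ‖ ^ 6 * aa K e η s ζ ≤ (1 / 4 : ℝ) ^ 6 * aa K e η s ζ :=
            mul_le_mul_of_nonneg_right h2 ha0
        _ = aa K e η s ζ / 4096 := by ring
    have h2 : WW K e η 1 s ζ = ξ ^ 6 * WW K e η 0 s ζ +
        (WW K e η 1 s ζ - ξ ^ 6 * WW K e η 0 s ζ) := by ring
    calc ‖WW K e η 1 s ζ‖ ≤ ‖ξ ^ 6 * WW K e η 0 s ζ‖ +
          ‖WW K e η 1 s ζ - ξ ^ 6 * WW K e η 0 s ζ‖ := by
            conv_lhs => rw [h2]
            exact norm_add_le _ _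
      _ ≤ _ := add_le_add h1 le_rfl
  rw [e0]
  set a := aa K e η s ζ
  set b := bb K e η m s ζ
  set t := ‖WW K e η 1 s ζ - ξ ^ 6 * WW K e η 0 s ζ‖
  set W := ‖WW K e η 1 s ζ‖
  have ht0 : 0 ≤ t := norm_nonneg _
  have hW0 : 0 ≤ W := norm_nonneg _
  by_cases hδ : 1 / 4 ≤ |a - 1|
  · nlinarith
  · have hδ' := abs_lt.1 (not_le.1 hδ)
    have h1 : W ^ 2 ≤ 1.1 * a * (a / 4096 + t) := by
      rw [sq]
      exact mul_le_mul hW e1 hW0 (by positivity)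
    have h2 : a * t ≤ 2 * t := mul_le_mul_of_nonneg_right (by linarith) ht0
    have h3 : 1.84 * a - 1.3103 * a ^ 2 ≤ 1.84 * b + 2.2 * t := by nlinarith
    have h4 : 0.52 ≤ 2.1 * |a - 1| + (1.84 * a - 1.3103 * a ^ 2) := by
      rcases abs_cases (a - 1) with ⟨h5, h6⟩ | ⟨h5, h6⟩
      · rw [h5]
        nlinarith
      · rw [h5]
        nlinarith
    linarith

end Pool.Agent.Helper38.RG
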