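import Pool.Agent.Helper38.RG.LeftP
import Pool.Agent.Helper38.RG.IntBall

/-!
# RG-15: the left side, total

Integrate `left_pt` (`int_q1`, `int_q2`): `7 R · 2·10^8 C δ R`, `#(faces with an outer dart) ≤ |out| ≤ C R`: `7 R (γ C R + C' δ R)`, `8000 · 20 √(R/s) C R`,
the outer darts in faces which are not `Mid`: there `C df > 1` (otherwise `card ≤ 7`, `∑ ‖v‖ ≤ 29`), so by `out_len` the sum of `‖zb - za‖` is `≤ 22 C df`, total `≤ 22 C δ R · 14 R`,
`hrest`: `δ R · 7 R`.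
* `sq_sum`: for each face `∑ ‖zb - za‖² ≤ (∑ ‖zb - za‖)² ≤ (19 + 3 C df)² ≤ 722 + 18 C² df²`, `∑ df² ≤ (∑ df)² ≤ δ² R²`.
-/

namespace Pool.Agent.Helper38.RG

open Finset MeasureTheory

variable {D Fc : Type} [Fintype D] [DecidableEq D] [Fintype Fc] [DecidableEq Fc]
variable {K : Cx D Fc} {C C' γ δ R : ℝ} {df : Fc → ℝ} {za zb : D → ℂ}

private lemma sum_out (K : Cx D Fc) (f : D → ℝ) :
    ∑ d ∈ K.out, f d = ∑ X, ∑ d ∈ (K.fd X).filter (fun d => d ∈ K.out), f d := by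
  rw [← Finset.sum_fiberwise K.out K.F f]
  refine Finset.sum_congr rfl fun X _ => Finset.sum_congr ?_ fun _ _ => rfl
  ext d
  simp [Cx.fd, and_comm]

private lemma intq_sum {ι : Type} (S : Finset ι) (c : ι → ℝ) (p : ι → ℂ) {s : ℝ} (hs : 0 < s)
    (hR : 0 < R) (hc : ∀ i ∈ S, 0 ≤ c i) (z0 : ℂ) :
    IntegrableOn (fun ζ => ∑ i ∈ S, c i * q1 s (p i - ζ)) (Metric.ball z0 (R / 4)) volume ∧
      ∫ ζ in Metric.ball z0 (R / 4), ∑ i ∈ S, c i * q1 s (p i - ζ) ≤ (∑ i ∈ S, c i) * (7 * R) := by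
  have h1 : ∀ i, IntegrableOn (fun ζ => c i * q1 s (p i - ζ)) (Metric.ball z0 (R / 4)) volume :=
    fun i => (intg_q1 hs (p i) z0 (R / 4)).const_mul _
  refine ⟨integrable_finsetSum _ fun i _ => h1 i, ?_⟩
  rw [integral_finsetSum _ fun i _ => h1 i, Finset.sum_mul]
  refine Finset.sum_le_sum fun i hi => ?_
  rw [integral_const_mul]
  exact mul_le_mul_of_nonneg_left (int_q1 hR hs (p i) z0) (hc i hi)

private lemma intq2_sum {ι : Type} (S : Finset ι) (p : ι → ℂ) {s : ℝ} (hs : 0 < s)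
    (hR : 0 < R) (z0 : ℂ) :
    IntegrableOn (fun ζ => ∑ i ∈ S, 8000 * q1 s (p i - ζ) ^ 2) (Metric.ball z0 (R / 4)) volume ∧
      ∫ ζ in Metric.ball z0 (R / 4), ∑ i ∈ S, 8000 * q1 s (p i - ζ) ^ 2 ≤
        S.card * (8000 * (20 * √(R / s))) := by
  have h1 : ∀ i, IntegrableOn (fun ζ => 8000 * q1 s (p i - ζ) ^ 2) (Metric.ball z0 (R / 4))
      volume := fun i => (intg_q2 hs (p i) z0 (R / 4)).const_mul _
  refine ⟨integrable_finsetSum _ fun i _ => h1 i, ?_⟩
  rw [integral_finsetSum _ fun i _ => h1 i, ← nsmul_eq_mul, ← Finset.sum_const]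
  refine Finset.sum_le_sum fun i _ => ?_
  rw [integral_const_mul]
  exact mul_le_mul_of_nonneg_left (int_q2 hR hs (p i) z0) (by norm_num)

open scoped Classical in
private lemma card_bdy (K : Cx D Fc) : (univ.filter (Bdy K)).card ≤ K.out.card := by
  have h1 : univ.filter (Bdy K) ⊆ K.out.image K.F := by
    intro X hX
    obtain ⟨d, hd, ho⟩ := (Finset.mem_filter.1 hX).2
    exact Finset.mem_image.2 ⟨d, ho, hd⟩
  exact (Finset.card_le_card h1).trans Finset.card_image_le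

/-- a face with an outer dart which is not small has a large deficit -/
private lemma not_mid (h : HypF K C δ R df) {X : Fc} (hX : Bdy K X) (hm : ¬ K.Mid X) :
    1 < C * df X := by
  by_contra hc
  rw [not_lt] at hc
  apply hm
  have h1 := h.bd_card X hX
  have h2 : ((K.fd X).card : ℝ) ≤ 7 := by linarith
  have h3 : (K.fd X).card ≤ 7 := by exact_mod_cast h2
  refine ⟨hX, h3, ?_⟩
  rw [← Finset.sum_filter_add_sum_filter_not (K.fd X) (fun d => d ∈ K.out) fun d => ‖K.v d‖]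
  have h4 := h.bd_len X hX
  have h5 : ∑ d ∈ (K.fd X).filter (fun d => ¬ d ∈ K.out), ‖K.v d‖ ≤
      ((K.fd X).filter (fun d => ¬ d ∈ K.out)).card * 3 := by
    rw [← nsmul_eq_mul, ← Finset.sum_const]
    refine Finset.sum_le_sum fun d hd => h.v_le d (Finset.mem_filter.1 hd).2
  have h6 : ((K.fd X).filter (fun d => d ∈ K.out)).card +
      ((K.fd X).filter (fun d => ¬ d ∈ K.out)).card = (K.fd X).card :=
    Finset.card_filter_add_card_filter_not _
  have h7 : 1 ≤ ((K.fd X).filter (fun d => d ∈ K.out)).card := by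
    obtain ⟨d, hd, ho⟩ := hX
    refine Finset.card_pos.2 ⟨d, Finset.mem_filter.2 ⟨?_, ho⟩⟩
    exact Finset.mem_filter.2 ⟨Finset.mem_univ _, hd⟩
  have h8 : ((K.fd X).filter (fun d => ¬ d ∈ K.out)).card ≤ 6 := by omega
  have h9 : (((K.fd X).filter (fun d => ¬ d ∈ K.out)).card : ℝ) ≤ 6 := by exact_mod_cast h8
  linarith

open scoped Classical in
private lemma sum_notMid (h : HypF K C δ R df) (hM : HypM K C' γ za zb df) :
    ∑ d ∈ K.out.filter (fun d => ¬ K.Mid (K.F d)), ‖zb d - za d‖ ≤ 22 * C * (δ * R) := by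
  have hC := h.C_one
  rw [Finset.sum_filter, sum_out]
  have h1 : ∀ X, ∑ d ∈ (K.fd X).filter (fun d => d ∈ K.out),
      (if ¬ K.Mid (K.F d) then ‖zb d - za d‖ else 0) ≤ 22 * C * df X := by
    intro X
    have hdf := h.df_nonneg X
    have h0 : 0 ≤ 22 * C * df X := by positivity
    by_cases hX : Bdy K X
    · by_cases hm : K.Mid X
      · rw [Finset.sum_eq_zero]
        · exact h0
        · intro d hd
          have hd1 : K.F d = X := (Finset.mem_filter.1 (Finset.mem_filter.1 hd).1).2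
          rw [hd1, if_neg (not_not.2 hm)]
      · have h2 := not_mid h hX hm
        have h3 := out_len h hM hX
        have h4 : ∑ d ∈ (K.fd X).filter (fun d => d ∈ K.out),
            (if ¬ K.Mid (K.F d) then ‖zb d - za d‖ else 0) ≤
            ∑ d ∈ (K.fd X).filter (fun d => d ∈ K.out), ‖zb d - za d‖ := by
          refine Finset.sum_le_sum fun d _ => ?_
          split_ifs
          · exact norm_nonneg _
          · exact le_rfl
        nlinarith
    · rw [Finset.sum_eq_zero]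
      · exact h0
      · intro d hd
        exact absurd ⟨d, (Finset.mem_filter.1 (Finset.mem_filter.1 hd).1).2,
          (Finset.mem_filter.1 hd).2⟩ hX
  calc _ ≤ ∑ X, 22 * C * df X := Finset.sum_le_sum fun X _ => h1 X
    _ = 22 * C * ∑ X, df X := by rw [Finset.mul_sum]
    _ ≤ 22 * C * (δ * R) := mul_le_mul_of_nonneg_left h.df_sum (by positivity)

theorem left_total (h : HypF K C δ R df) (hM : HypM K C' γ za zb df) {O1 : Finset D}
    (hO : O1 ⊆ K.out) (hrest : ∑ d ∈ K.out \ O1, ‖zb d - za d‖ ≤ δ * R) {s : ℝ} (hs : 200 ≤ s)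
    {κ : ℕ} (hκ : κ ≤ 1) (z0 : ℂ) :
    ∫ ζ in Metric.ball z0 (R / 4), ‖EE K κ s ζ - (-1) ^ (κ + 1) * SS O1 za zb κ s ζ‖ ≤
      10 ^ 11 * C * (C' * δ * R ^ 2 + γ * R ^ 2 + R * √R) := by
  classical
  have hs0 : 0 < s := by linarith
  have hR1 := h.R_one
  have hR : 0 < R := by linarith
  have hC := h.C_one
  have hC' := hM.C'_one
  have hγ := hM.γ_nonneg
  have hδ := h.δ_nonneg
  have hdf0 := h.df_nonneg
  -- the five terms
  obtain ⟨i1, b1⟩ := intq_sum (univ : Finset Fc) (fun X => 2 * 10 ^ 8 * (C * df X)) K.pc hs0 hR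
    (fun X _ => by have := hdf0 X; positivity) z0
  obtain ⟨i2, b2⟩ := intq_sum (univ.filter (Bdy K)) (fun X => γ + C' * df X) K.pc hs0 hR
    (fun X _ => by have := hdf0 X; positivity) z0
  obtain ⟨i3, b3⟩ := intq2_sum K.out za hs0 hR z0
  obtain ⟨i4, b4⟩ := intq_sum (K.out.filter (fun d => ¬ K.Mid (K.F d)))
    (fun d => ‖zb d - za d‖) (fun d => K.pc (K.F d)) hs0 hR (fun d _ => norm_nonneg _) z0
  obtain ⟨i5, b5⟩ := intq_sum (K.out.filter (fun d => ¬ K.Mid (K.F d)))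
    (fun d => ‖zb d - za d‖) za hs0 hR (fun d _ => norm_nonneg _) z0
  obtain ⟨i6, b6⟩ := intq_sum (K.out \ O1) (fun d => ‖zb d - za d‖) za hs0 hR
    (fun d _ => norm_nonneg _) z0
  have hL : IntegrableOn (fun ζ => ‖EE K κ s ζ - (-1) ^ (κ + 1) * SS O1 za zb κ s ζ‖)
      (Metric.ball z0 (R / 4)) volume :=
    ((intg_EE K κ hs0 z0 (R / 4)).sub ((intg_SS O1 za zb κ hs0 z0 (R / 4)).const_mul _)).norm
  have hRi := ((((i1.add i2).add i3).add i4).add i5).add i6
  have hmono : ∫ ζ in Metric.ball z0 (R / 4),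
      ‖EE K κ s ζ - (-1) ^ (κ + 1) * SS O1 za zb κ s ζ‖ ≤
      ∫ ζ in Metric.ball z0 (R / 4), (((((
        (∑ X, 2 * 10 ^ 8 * (C * df X) * q1 s (K.pc X - ζ)) +
        (∑ X ∈ univ.filter (Bdy K), (γ + C' * df X) * q1 s (K.pc X - ζ))) +
        (∑ d ∈ K.out, 8000 * q1 s (za d - ζ) ^ 2)) +
        (∑ d ∈ K.out.filter (fun d => ¬ K.Mid (K.F d)),
          ‖zb d - za d‖ * q1 s (K.pc (K.F d) - ζ))) +
        (∑ d ∈ K.out.filter (fun d => ¬ K.Mid (K.F d)), ‖zb d - za d‖ * q1 s (za d - ζ))) +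
        (∑ d ∈ K.out \ O1, ‖zb d - za d‖ * q1 s (za d - ζ))) := by
    refine integral_mono hL hRi fun ζ => ?_
    have h1 := left_pt h hM hO hs hκ ζ
    have h2 : ∑ d ∈ K.out.filter (fun d => ¬ K.Mid (K.F d)),
        ‖zb d - za d‖ * (q1 s (K.pc (K.F d) - ζ) + q1 s (za d - ζ)) =
        (∑ d ∈ K.out.filter (fun d => ¬ K.Mid (K.F d)),
          ‖zb d - za d‖ * q1 s (K.pc (K.F d) - ζ)) +
        (∑ d ∈ K.out.filter (fun d => ¬ K.Mid (K.F d)), ‖zb d - za d‖ * q1 s (za d - ζ)) := by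
      rw [← Finset.sum_add_distrib]
      refine Finset.sum_congr rfl fun d _ => ?_
      ring
    rw [h2] at h1
    refine h1.trans (le_of_eq ?_)
    ring
  refine hmono.trans ?_
  have e5 := integral_add ((((i1.add i2).add i3).add i4).add i5) i6
  have e4 := integral_add (((i1.add i2).add i3).add i4) i5
  have e3 := integral_add ((i1.add i2).add i3) i4
  have e2 := integral_add (i1.add i2) i3
  have e1 := integral_add i1 i2
  simp only [Pi.add_apply] at e5 e4 e3 e2 e1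
  rw [e5, e4, e3, e2, e1]
  -- the bounds
  have c1 : ∑ X, 2 * 10 ^ 8 * (C * df X) ≤ 2 * 10 ^ 8 * C * (δ * R) := by
    calc ∑ X, 2 * 10 ^ 8 * (C * df X) = 2 * 10 ^ 8 * C * ∑ X, df X := by
          rw [Finset.mul_sum]
          refine Finset.sum_congr rfl fun X _ => ?_
          ring
      _ ≤ 2 * 10 ^ 8 * C * (δ * R) := mul_le_mul_of_nonneg_left h.df_sum (by positivity)
  have c2 : ∑ X ∈ univ.filter (Bdy K), (γ + C' * df X) ≤ γ * (C * R) + C' * (δ * R) := by
    rw [Finset.sum_add_distrib, Finset.sum_const, nsmul_eq_mul, ← Finset.mul_sum]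
    have h1 : ((univ.filter (Bdy K)).card : ℝ) ≤ C * R :=
      le_trans (by exact_mod_cast card_bdy K) h.cardO
    have h2 : ∑ X ∈ univ.filter (Bdy K), df X ≤ δ * R :=
      (Finset.sum_le_sum_of_subset_of_nonneg (Finset.filter_subset _ _)
        fun X _ _ => hdf0 X).trans h.df_sum
    refine add_le_add ?_ (mul_le_mul_of_nonneg_left h2 (by linarith))
    rw [mul_comm]
    exact mul_le_mul_of_nonneg_left h1 hγ
  have c3 : √(R / s) ≤ √R := by
    refine Real.sqrt_le_sqrt ?_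
    exact div_le_self hR.le (by linarith)
  have c4 := sum_notMid h hM
  have c3' : (K.out.card : ℝ) * (8000 * (20 * √(R / s))) ≤ C * R * (8000 * (20 * √R)) := by
    refine mul_le_mul h.cardO ?_ (by positivity) (by positivity)
    nlinarith
  have hR7 : 0 ≤ 7 * R := by positivity
  have d1 := b1.trans (mul_le_mul_of_nonneg_right c1 hR7)
  have d2 := b2.trans (mul_le_mul_of_nonneg_right c2 hR7)
  have d3 := b3.trans c3'
  have d4 := b4.trans (mul_le_mul_of_nonneg_right c4 hR7)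
  have d5 := b5.trans (mul_le_mul_of_nonneg_right c4 hR7)
  have d6 := b6.trans (mul_le_mul_of_nonneg_right hrest hR7)
  refine (add_le_add (add_le_add (add_le_add (add_le_add (add_le_add d1 d2) d3) d4) d5)
    d6).trans ?_
  have k1 : 0 ≤ δ * R ^ 2 := by positivity
  have k2 : 0 ≤ γ * R ^ 2 := by positivity
  have k3 : 0 ≤ R * √R := by positivity
  have k4 : C * (δ * R ^ 2) ≤ C * (C' * δ * R ^ 2) := by
    refine mul_le_mul_of_nonneg_left ?_ (by linarith)
    nlinarith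
  have k5 : C' * (δ * R ^ 2) ≤ C * (C' * δ * R ^ 2) := by
    have : 0 ≤ C' * δ * R ^ 2 := by positivity
    nlinarith
  have k6 : δ * R ^ 2 ≤ C * (C' * δ * R ^ 2) := by nlinarith
  have k7 : 0 ≤ C * (C' * δ * R ^ 2) := by positivity
  have k8 : 0 ≤ C * (γ * R ^ 2) := by positivity
  have k9 : 0 ≤ C * (R * √R) := by positivity
  have key : 2 * 10 ^ 8 * C * (δ * R) * (7 * R) + (γ * (C * R) + C' * (δ * R)) * (7 * R) +
      C * R * (8000 * (20 * √R)) + 22 * C * (δ * R) * (7 * R) + 22 * C * (δ * R) * (7 * R) +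
      δ * R * (7 * R) =
      (14 * 10 ^ 8 + 308) * (C * (δ * R ^ 2)) + 7 * (C * (γ * R ^ 2)) +
        7 * (C' * (δ * R ^ 2)) + 160000 * (C * (R * √R)) + 7 * (δ * R ^ 2) := by ring
  rw [key]
  have key2 : 10 ^ 11 * C * (C' * δ * R ^ 2 + γ * R ^ 2 + R * √R) =
      10 ^ 11 * (C * (C' * δ * R ^ 2)) + 10 ^ 11 * (C * (γ * R ^ 2)) +
        10 ^ 11 * (C * (R * √R)) := by ring
  rw [key2]
  linarith

theorem sq_sum (h : HypF K C δ R df) (hM : HypM K C' γ za zb df) {O1 : Finset D}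
    (hO : O1 ⊆ K.out) :
    ∑ d ∈ O1, ‖zb d - za d‖ ^ 2 ≤ 1000 * C ^ 2 * (R + δ * R ^ 2) := by
  classical
  have hR1 := h.R_one
  have hR : 0 < R := by linarith
  have hC := h.C_one
  have hδ := h.δ_nonneg
  have hδ1 := h.δ_one
  have hdf0 := h.df_nonneg
  have h1 : ∑ d ∈ O1, ‖zb d - za d‖ ^ 2 ≤ ∑ d ∈ K.out, ‖zb d - za d‖ ^ 2 :=
    Finset.sum_le_sum_of_subset_of_nonneg hO fun d _ _ => by positivity
  refine h1.trans ?_
  rw [sum_out]
  have h2 : ∀ X, ∑ d ∈ (K.fd X).filter (fun d => d ∈ K.out), ‖zb d - za d‖ ^ 2 ≤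
      if Bdy K X then 722 + 18 * C ^ 2 * df X ^ 2 else 0 := by
    intro X
    by_cases hX : Bdy K X
    · rw [if_pos hX]
      have h3 := out_len h hM hX
      have h4 : ∑ d ∈ (K.fd X).filter (fun d => d ∈ K.out), ‖zb d - za d‖ ^ 2 ≤
          (∑ d ∈ (K.fd X).filter (fun d => d ∈ K.out), ‖zb d - za d‖) ^ 2 :=
        Finset.sum_sq_le_sq_sum_of_nonneg fun d _ => norm_nonneg _
      have h5 : 0 ≤ ∑ d ∈ (K.fd X).filter (fun d => d ∈ K.out), ‖zb d - za d‖ :=
        Finset.sum_nonneg fun d _ => norm_nonneg _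
      have h6 := pow_le_pow_left₀ h5 h3 2
      have h7 : (19 + 3 * C * df X) ^ 2 ≤ 722 + 18 * C ^ 2 * df X ^ 2 := by
        nlinarith [sq_nonneg (19 - 3 * C * df X)]
      linarith
    · rw [if_neg hX, Finset.sum_eq_zero]
      intro d hd
      exact absurd ⟨d, (Finset.mem_filter.1 (Finset.mem_filter.1 hd).1).2,
        (Finset.mem_filter.1 hd).2⟩ hX
  refine (Finset.sum_le_sum fun X _ => h2 X).trans ?_
  rw [← Finset.sum_filter, Finset.sum_add_distrib, Finset.sum_const, nsmul_eq_mul,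
    ← Finset.mul_sum]
  have h8 : ((univ.filter (Bdy K)).card : ℝ) ≤ C * R :=
    le_trans (by exact_mod_cast card_bdy K) h.cardO
  have h9 : ∑ X ∈ univ.filter (Bdy K), df X ^ 2 ≤ (δ * R) ^ 2 := by
    have h10 : ∑ X ∈ univ.filter (Bdy K), df X ^ 2 ≤ ∑ X, df X ^ 2 :=
      Finset.sum_le_sum_of_subset_of_nonneg (Finset.filter_subset _ _)
        fun X _ _ => by positivity
    have h11 : ∑ X, df X ^ 2 ≤ (∑ X, df X) ^ 2 :=
      Finset.sum_sq_le_sq_sum_of_nonneg fun X _ => hdf0 X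
    have h12 : 0 ≤ ∑ X, df X := Finset.sum_nonneg fun X _ => hdf0 X
    exact h10.trans (h11.trans (pow_le_pow_left₀ h12 h.df_sum 2))
  have h13 : (δ * R) ^ 2 ≤ δ * R ^ 2 := by
    rw [mul_pow]
    refine mul_le_mul_of_nonneg_right ?_ (by positivity)
    nlinarith
  have h14 : C * R ≤ C ^ 2 * R := by
    refine mul_le_mul_of_nonneg_right ?_ hR.le
    nlinarith
  have h15 : 18 * C ^ 2 * ∑ X ∈ univ.filter (Bdy K), df X ^ 2 ≤ 18 * C ^ 2 * (δ * R ^ 2) :=
    mul_le_mul_of_nonneg_left (h9.trans h13) (by positivity)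
  have h16 : 0 ≤ C ^ 2 * R := by positivity
  have h17 : 0 ≤ C ^ 2 * (δ * R ^ 2) := by positivity
  nlinarith

end Pool.Agent.Helper38.RG
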