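import Pool.Agent.Helper38.RG.RightT
import Pool.Agent.Helper38.RG.LeftT
import Pool.Agent.Helper38.RG.BdB
import Pool.Agent.Helper38.RG.BdC
import Pool.Agent.Helper38.RG.Coh

/-!
# RG-24: the rigidity theorem

* `A_int`: `2 π i (WW 0 - 1) = (EE 0 + 2 π i WW 0) - (EE 0 + SS 0) + (SS 0 - 2 π i)` (`(-1)^1 = -1`): `right_total`, `left_total`, `S0`, `sq_sum`; divide by `2 π`: `.2797/(2π) ≤ .0446`.
* `B_int`: `2 π i (WW 1 - ξ^6 WW 0) = (EE 1 + 2 π i WW 1) - (EE 1 - SS 1) - (SS 1 + ξ^6 SS 0) - ξ^6 (EE 0 + 2 π i WW 0) + ξ^6 (EE 0 + SS 0)`, `‖ξ‖ ≤ 1`.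
* `rigid`: integrate `point` over the disc (area `π R²/16`): `.52 π/16 R² ≤ 2.1 (.0446 π R²/16 + κ R²) + 1.84 (2m+1)² (7 C δ R/η² + 7 C R) + 2.2 κ R²` with
  `κ = 10^13 C² (1/s + √δ + 1/√R + δ/η² + C' δ + γ)`.  Choose `s` (depending on `C`) with `10^13 C² /s` small, `m = ⌈2 s⌉`, `η = 1/(10^4 m²)`, `γ` small (depending on `C`);
  then (`C'` given) `δ` small, then `R` large.
-/

namespace Pool.Agent.Helper38.RG

open Finset MeasureTheory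

variable {D Fc : Type} [Fintype D] [DecidableEq D] [Fintype Fc] [DecidableEq Fc]
variable {K : Cx D Fc} {C C' γ δ R η : ℝ} {df : Fc → ℝ} {za zb : D → ℂ} {O1 : Finset D} {z0 : ℂ}

/-- integrable on `B` with integral at most `c` -/
private def IB (B : Set ℂ) (f : ℂ → ℝ) (c : ℝ) : Prop :=
  IntegrableOn f B volume ∧ ∫ ζ in B, f ζ ≤ c

private theorem IB.add {B : Set ℂ} {f g : ℂ → ℝ} {a b : ℝ} (hf : IB B f a) (hg : IB B g b) :
    IB B (fun ζ => f ζ + g ζ) (a + b) := by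
  refine ⟨hf.1.add hg.1, ?_⟩
  rw [integral_add hf.1 hg.1]
  exact add_le_add hf.2 hg.2

private theorem IB.cmul {B : Set ℂ} {f : ℂ → ℝ} {a : ℝ} (hf : IB B f a) {c : ℝ} (hc : 0 ≤ c) :
    IB B (fun ζ => c * f ζ) (c * a) := by
  refine ⟨hf.1.const_mul c, ?_⟩
  rw [integral_const_mul]
  exact mul_le_mul_of_nonneg_left hf.2 hc

private theorem fn_intg (c : ℂ) (z0 : ℂ) (r : ℝ) :
    IntegrableOn (fun _ : ℂ => c) (Metric.ball z0 r) volume :=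
  integrableOn_const measure_ball_lt_top.ne

private theorem fn_right (K : Cx D Fc) (e : Fc → ℝ) (η : ℝ) (κ : ℕ) {s : ℝ} (hs : 0 < s) (z0 : ℂ)
    (r : ℝ) : IntegrableOn
      (fun ζ => ‖EE K κ s ζ + 2 * (Real.pi : ℂ) * Complex.I * WW K e η κ s ζ‖)
      (Metric.ball z0 r) volume :=
  ((intg_EE K κ hs z0 r).add
    ((intg_WW K e η κ s z0 r).const_mul (2 * (Real.pi : ℂ) * Complex.I))).norm

private theorem fn_left (K : Cx D Fc) (O1 : Finset D) (za zb : D → ℂ) (κ : ℕ) {s : ℝ} (hs : 0 < s)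
    (z0 : ℂ) (r : ℝ) : IntegrableOn
      (fun ζ => ‖EE K κ s ζ - (-1) ^ (κ + 1) * SS O1 za zb κ s ζ‖)
      (Metric.ball z0 r) volume :=
  ((intg_EE K κ hs z0 r).sub ((intg_SS O1 za zb κ hs z0 r).const_mul ((-1) ^ (κ + 1)))).norm

omit [Fintype D] [DecidableEq D] in
private theorem fn_pow {z0 : ℂ} (R : ℝ) {f : ℂ → ℂ} {r : ℝ}
    (hf : IntegrableOn f (Metric.ball z0 r) volume) :
    IntegrableOn (fun ζ => ((ζ - z0) / R) ^ 6 * f ζ) (Metric.ball z0 r) volume := by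
  refine Integrable.bdd_mul (c := (r / |R|) ^ 6) hf ?_ ?_
  · exact (Continuous.aestronglyMeasurable (by fun_prop))
  · refine (ae_restrict_iff' measurableSet_ball).2 (Filter.Eventually.of_forall fun ζ hζ => ?_)
    rw [Metric.mem_ball, dist_eq_norm] at hζ
    rw [norm_pow, norm_div, Complex.norm_real, Real.norm_eq_abs]
    have h1 : ‖ζ - z0‖ / |R| ≤ r / |R| := div_le_div_of_nonneg_right hζ.le (abs_nonneg R)
    exact pow_le_pow_left₀ (by positivity) h1 6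

private theorem fn_xi {z0 ζ : ℂ} {R : ℝ} (hR : 0 < R) (hζ : ζ ∈ Metric.ball z0 (R / 4)) :
    ‖(ζ - z0) / (R : ℂ)‖ ≤ 1 / 4 := by
  rw [Metric.mem_ball, dist_eq_norm] at hζ
  rw [norm_div, Complex.norm_real, Real.norm_eq_abs, abs_of_pos hR, div_le_iff₀ hR]
  linarith

private theorem fn_real {C C' γ δ R η s : ℝ} (hR : 1 ≤ R) (hδ : 0 ≤ δ) (hδ1 : δ ≤ 1) :
    R ^ 2 * (1 / s + √δ + 1 / √R + δ / η ^ 2 + C' * δ + γ) =
      R ^ 2 / s + √δ * R ^ 2 + R * √R + δ * R ^ 2 / η ^ 2 + C' * δ * R ^ 2 + γ * R ^ 2 ∧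
    δ * R ^ 2 ≤ √δ * R ^ 2 ∧ R ≤ R * √R := by
  have hR0 : 0 < R := by linarith
  have h1 : √R * √R = R := Real.mul_self_sqrt hR0.le
  have h2 : 0 < √R := Real.sqrt_pos.2 hR0
  have h3 : R ^ 2 * (1 / √R) = R * √R := by
    rw [mul_one_div, div_eq_iff h2.ne']
    nlinarith
  refine ⟨?_, ?_, ?_⟩
  · rw [mul_add, mul_add, mul_add, mul_add, mul_add, h3]
    ring
  · have h4 : δ ≤ √δ := by
      have h7 : √δ * √δ = δ := Real.mul_self_sqrt hδ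
      have h8 : √δ ≤ 1 := by
        rw [Real.sqrt_le_one]
        exact hδ1
      nlinarith [Real.sqrt_nonneg δ]
    exact mul_le_mul_of_nonneg_right h4 (sq_nonneg R)
  · have h5 : 1 ≤ √R := Real.one_le_sqrt.2 hR
    nlinarith

private theorem fn_2pi {x : ℂ} : ‖x‖ = 1 / (2 * Real.pi) * ‖2 * (Real.pi : ℂ) * Complex.I * x‖ := by
  have hpi := Real.pi_pos
  rw [norm_mul, norm_mul, norm_mul, Complex.norm_I, Complex.norm_real, Real.norm_eq_abs,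
    abs_of_pos hpi, Complex.norm_ofNat]
  field_simp

theorem A_int (h : HypF K C δ R df) (hM : HypM K C' γ za zb df) (hB : HypB O1 za zb δ R z0)
    (hO : O1 ⊆ K.out) (hrest : ∑ d ∈ K.out \ O1, ‖zb d - za d‖ ≤ δ * R)
    (hη0 : 0 < η) (hη : η ≤ 1 / 100) {s : ℝ} (hs : 200 ≤ s) (hR : 4 * s ≤ R) :
    ∫ ζ in Metric.ball z0 (R / 4), ‖WW K (ee C df) η 0 s ζ - 1‖ ≤
      0.0446 * (Real.pi * R ^ 2 / 16) +
        10 ^ 12 * C ^ 2 * R ^ 2 * (1 / s + √δ + 1 / √R + δ / η ^ 2 + C' * δ + γ) := by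
  have hs0 : 0 < s := by linarith
  have hpi := Real.pi_pos
  have hC := h.C_one
  have hR1 := h.R_one
  have hδ := h.δ_nonneg
  have hC' := hM.C'_one
  have hγ := hM.γ_nonneg
  have i1 := fn_right K (ee C df) η 0 hs0 z0 (R / 4)
  have i2 := fn_left K O1 za zb 0 hs0 z0 (R / 4)
  have i3 : IntegrableOn (fun ζ => ‖SS O1 za zb 0 s ζ - 2 * (Real.pi : ℂ) * Complex.I‖)
      (Metric.ball z0 (R / 4)) volume :=
    ((intg_SS O1 za zb 0 hs0 z0 (R / 4)).sub (fn_intg _ z0 (R / 4))).norm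
  have b1 := right_total h hη0 hη hs (κ := 0) (by norm_num) z0
  have b2 := left_total h hM hO hrest hs (κ := 0) (by norm_num) z0
  have b3 : ∫ ζ in Metric.ball z0 (R / 4), ‖SS O1 za zb 0 s ζ - 2 * (Real.pi : ℂ) * Complex.I‖ ≤
      0.2797 * (Real.pi * R ^ 2 / 16) + 10 ^ 3 * (√δ * R ^ 2) +
        10 ^ 2 * ∑ d ∈ O1, ‖zb d - za d‖ ^ 2 := by
    rw [← mul_assoc (10 ^ 3 : ℝ)]
    exact S0 hB hs hR
  have b4 := sq_sum h hM hO
  have t := (((show IB _ _ _ from ⟨i1, b1⟩).add ⟨i2, b2⟩).add ⟨i3, b3⟩).cmul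
    (c := 1 / (2 * Real.pi)) (by positivity)
  have hmono : ∫ ζ in Metric.ball z0 (R / 4), ‖WW K (ee C df) η 0 s ζ - 1‖ ≤
      ∫ ζ in Metric.ball z0 (R / 4), 1 / (2 * Real.pi) *
        ((‖EE K 0 s ζ + 2 * (Real.pi : ℂ) * Complex.I * WW K (ee C df) η 0 s ζ‖ +
          ‖EE K 0 s ζ - (-1) ^ (0 + 1) * SS O1 za zb 0 s ζ‖) +
          ‖SS O1 za zb 0 s ζ - 2 * (Real.pi : ℂ) * Complex.I‖) := by
    refine integral_mono_of_nonneg (Filter.Eventually.of_forall fun _ => norm_nonneg _)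
      t.1 (Filter.Eventually.of_forall fun ζ => ?_)
    simp only
    rw [fn_2pi (x := WW K (ee C df) η 0 s ζ - 1)]
    refine mul_le_mul_of_nonneg_left ?_ (by positivity)
    have e : 2 * (Real.pi : ℂ) * Complex.I * (WW K (ee C df) η 0 s ζ - 1) =
        (EE K 0 s ζ + 2 * (Real.pi : ℂ) * Complex.I * WW K (ee C df) η 0 s ζ) -
          (EE K 0 s ζ - (-1) ^ (0 + 1) * SS O1 za zb 0 s ζ) +
          (SS O1 za zb 0 s ζ - 2 * (Real.pi : ℂ) * Complex.I) := by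
      ring
    rw [e]
    exact (norm_add_le _ _).trans (add_le_add (norm_sub_le _ _) le_rfl)
  refine (hmono.trans t.2).trans ?_
  obtain ⟨r1, r2, r3⟩ := fn_real (C := C) (C' := C') (γ := γ) (η := η) (s := s) hR1 hδ h.δ_one
  rw [show 10 ^ 12 * C ^ 2 * R ^ 2 * (1 / s + √δ + 1 / √R + δ / η ^ 2 + C' * δ + γ) =
    10 ^ 12 * C ^ 2 * (R ^ 2 * (1 / s + √δ + 1 / √R + δ / η ^ 2 + C' * δ + γ)) by ring, r1]
  have a1 : 0 ≤ R ^ 2 / s := by positivity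
  have a2 : 0 ≤ √δ * R ^ 2 := by positivity
  have a3 : 0 ≤ R * √R := by positivity
  have a4 : 0 ≤ δ * R ^ 2 / η ^ 2 := by positivity
  have a5 : 0 ≤ C' * δ * R ^ 2 := by positivity
  have a6 : 0 ≤ γ * R ^ 2 := by positivity
  have aQ : 0 ≤ Real.pi * R ^ 2 / 16 := by positivity
  generalize R ^ 2 / s = A1 at *
  generalize √δ * R ^ 2 = A2 at *
  generalize R * √R = A3 at *
  generalize δ * R ^ 2 / η ^ 2 = A4 at *
  generalize C' * δ * R ^ 2 = A5 at *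
  generalize γ * R ^ 2 = A6 at *
  generalize Real.pi * R ^ 2 / 16 = Q at *
  have b5 : ∑ d ∈ O1, ‖zb d - za d‖ ^ 2 ≤ 1000 * C ^ 2 * (A3 + A2) :=
    b4.trans (mul_le_mul_of_nonneg_left (add_le_add r3 r2) (by positivity))
  have hCC : C ≤ C ^ 2 := by nlinarith
  have c1 : C * (A1 + A2 + A3 + A4) ≤ C ^ 2 * (A1 + A2 + A3 + A4) :=
    mul_le_mul_of_nonneg_right hCC (by positivity)
  have c2 : C * (A5 + A6 + A3) ≤ C ^ 2 * (A5 + A6 + A3) :=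
    mul_le_mul_of_nonneg_right hCC (by positivity)
  have c3 : A2 ≤ C ^ 2 * A2 := le_mul_of_one_le_left a2 (by nlinarith)
  rw [one_div, inv_mul_le_iff₀ (by positivity)]
  have hp1 : 3.1415 < Real.pi := Real.pi_gt_d4
  have n1 : 0 ≤ C ^ 2 * A1 := by positivity
  have n2 : 0 ≤ C ^ 2 * A2 := by positivity
  have n3 : 0 ≤ C ^ 2 * A3 := by positivity
  have n4 : 0 ≤ C ^ 2 * A4 := by positivity
  have n5 : 0 ≤ C ^ 2 * A5 := by positivity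
  have n6 : 0 ≤ C ^ 2 * A6 := by positivity
  have e1 : 10 ^ 12 * C ^ 2 * (A1 + A2 + A3 + A4 + A5 + A6) = 10 ^ 12 * (C ^ 2 * A1 + C ^ 2 * A2 +
    C ^ 2 * A3 + C ^ 2 * A4 + C ^ 2 * A5 + C ^ 2 * A6) := by ring
  rw [e1]
  have nS : 0 ≤ C ^ 2 * A1 + C ^ 2 * A2 + C ^ 2 * A3 + C ^ 2 * A4 + C ^ 2 * A5 + C ^ 2 * A6 := by
    positivity
  have q1' : 6 * (10 ^ 12 * (C ^ 2 * A1 + C ^ 2 * A2 +
      C ^ 2 * A3 + C ^ 2 * A4 + C ^ 2 * A5 + C ^ 2 * A6)) ≤ 2 * Real.pi * (10 ^ 12 *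
      (C ^ 2 * A1 + C ^ 2 * A2 + C ^ 2 * A3 + C ^ 2 * A4 + C ^ 2 * A5 + C ^ 2 * A6)) :=
    mul_le_mul_of_nonneg_right (by linarith) (by positivity)
  have q2' : 0.2797 * Q ≤ 2 * Real.pi * (0.0446 * Q) := by
    have : 6.283 * (0.0446 * Q) ≤ 2 * Real.pi * (0.0446 * Q) :=
      mul_le_mul_of_nonneg_right (by linarith) (by positivity)
    linarith
  rw [mul_add]
  linarith

theorem B_int (h : HypF K C δ R df) (hM : HypM K C' γ za zb df) (hB : HypB O1 za zb δ R z0)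
    (hO : O1 ⊆ K.out) (hrest : ∑ d ∈ K.out \ O1, ‖zb d - za d‖ ≤ δ * R)
    (hη0 : 0 < η) (hη : η ≤ 1 / 100) {s : ℝ} (hs : 200 ≤ s) (hR : 4 * s ≤ R) :
    ∫ ζ in Metric.ball z0 (R / 4),
      ‖WW K (ee C df) η 1 s ζ - ((ζ - z0) / R) ^ 6 * WW K (ee C df) η 0 s ζ‖ ≤
        10 ^ 12 * C ^ 2 * R ^ 2 * (1 / s + √δ + 1 / √R + δ / η ^ 2 + C' * δ + γ) := by
  have hs0 : 0 < s := by linarith
  have hpi := Real.pi_pos
  have hC := h.C_one
  have hR1 := h.R_one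
  have hR0 : 0 < R := by linarith
  have hδ := h.δ_nonneg
  have hC' := hM.C'_one
  have hγ := hM.γ_nonneg
  have i1 := fn_right K (ee C df) η 0 hs0 z0 (R / 4)
  have i2 := fn_left K O1 za zb 0 hs0 z0 (R / 4)
  have j1 := fn_right K (ee C df) η 1 hs0 z0 (R / 4)
  have j2 := fn_left K O1 za zb 1 hs0 z0 (R / 4)
  have i3 : IntegrableOn (fun ζ => ‖SS O1 za zb 1 s ζ + ((ζ - z0) / R) ^ 6 * SS O1 za zb 0 s ζ‖)
      (Metric.ball z0 (R / 4)) volume :=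
    ((intg_SS O1 za zb 1 hs0 z0 (R / 4)).add
      (fn_pow R (intg_SS O1 za zb 0 hs0 z0 (R / 4)))).norm
  have b1 := right_total h hη0 hη hs (κ := 0) (by norm_num) z0
  have b2 := left_total h hM hO hrest hs (κ := 0) (by norm_num) z0
  have d1 := right_total h hη0 hη hs (κ := 1) (by norm_num) z0
  have d2 := left_total h hM hO hrest hs (κ := 1) (by norm_num) z0
  have b3 : ∫ ζ in Metric.ball z0 (R / 4), ‖SS O1 za zb 1 s ζ +
      ((ζ - z0) / R) ^ 6 * SS O1 za zb 0 s ζ‖ ≤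
      10 ^ 7 * (√δ * R ^ 2) + 10 ^ 3 * ∑ d ∈ O1, ‖zb d - za d‖ ^ 2 := by
    rw [← mul_assoc]
    exact S1 hB hs hR
  have b4 := sq_sum h hM hO
  have t := (((((show IB _ _ _ from ⟨j1, d1⟩).add ⟨j2, d2⟩).add ⟨i3, b3⟩).add ⟨i1, b1⟩).add
    ⟨i2, b2⟩).cmul (c := 1 / (2 * Real.pi)) (by positivity)
  have hmono : ∫ ζ in Metric.ball z0 (R / 4),
      ‖WW K (ee C df) η 1 s ζ - ((ζ - z0) / R) ^ 6 * WW K (ee C df) η 0 s ζ‖ ≤
      ∫ ζ in Metric.ball z0 (R / 4), 1 / (2 * Real.pi) *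
        ((((‖EE K 1 s ζ + 2 * (Real.pi : ℂ) * Complex.I * WW K (ee C df) η 1 s ζ‖ +
          ‖EE K 1 s ζ - (-1) ^ (1 + 1) * SS O1 za zb 1 s ζ‖) +
          ‖SS O1 za zb 1 s ζ + ((ζ - z0) / R) ^ 6 * SS O1 za zb 0 s ζ‖) +
          ‖EE K 0 s ζ + 2 * (Real.pi : ℂ) * Complex.I * WW K (ee C df) η 0 s ζ‖) +
          ‖EE K 0 s ζ - (-1) ^ (0 + 1) * SS O1 za zb 0 s ζ‖) := by
    refine integral_mono_of_nonneg (Filter.Eventually.of_forall fun _ => norm_nonneg _)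
      t.1 ?_
    refine (ae_restrict_iff' measurableSet_ball).2 (Filter.Eventually.of_forall fun ζ hζ => ?_)
    have hx : ‖((ζ - z0) / (R : ℂ)) ^ 6‖ ≤ 1 := by
      rw [norm_pow]
      exact pow_le_one₀ (norm_nonneg _) ((fn_xi hR0 hζ).trans (by norm_num))
    simp only
    generalize ((ζ - z0) / (R : ℂ)) ^ 6 = ξ at *
    rw [fn_2pi (x := WW K (ee C df) η 1 s ζ - ξ * WW K (ee C df) η 0 s ζ)]
    refine mul_le_mul_of_nonneg_left ?_ (by positivity)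
    have e : 2 * (Real.pi : ℂ) * Complex.I * (WW K (ee C df) η 1 s ζ - ξ * WW K (ee C df) η 0 s ζ) =
        (((EE K 1 s ζ + 2 * (Real.pi : ℂ) * Complex.I * WW K (ee C df) η 1 s ζ) -
          (EE K 1 s ζ - (-1) ^ (1 + 1) * SS O1 za zb 1 s ζ)) -
          (SS O1 za zb 1 s ζ + ξ * SS O1 za zb 0 s ζ)) -
          ξ * (EE K 0 s ζ + 2 * (Real.pi : ℂ) * Complex.I * WW K (ee C df) η 0 s ζ) +
          ξ * (EE K 0 s ζ - (-1) ^ (0 + 1) * SS O1 za zb 0 s ζ) := by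
      ring
    rw [e]
    have m1 : ‖ξ * (EE K 0 s ζ + 2 * (Real.pi : ℂ) * Complex.I * WW K (ee C df) η 0 s ζ)‖ ≤
        ‖EE K 0 s ζ + 2 * (Real.pi : ℂ) * Complex.I * WW K (ee C df) η 0 s ζ‖ := by
      rw [norm_mul]
      exact mul_le_of_le_one_left (norm_nonneg _) hx
    have m2 : ‖ξ * (EE K 0 s ζ - (-1) ^ (0 + 1) * SS O1 za zb 0 s ζ)‖ ≤
        ‖EE K 0 s ζ - (-1) ^ (0 + 1) * SS O1 za zb 0 s ζ‖ := by
      rw [norm_mul]
      exact mul_le_of_le_one_left (norm_nonneg _) hx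
    refine (norm_add_le _ _).trans (add_le_add ?_ m2)
    refine (norm_sub_le _ _).trans (add_le_add ?_ m1)
    refine (norm_sub_le _ _).trans (add_le_add ?_ le_rfl)
    exact norm_sub_le _ _
  refine (hmono.trans t.2).trans ?_
  obtain ⟨r1, r2, r3⟩ := fn_real (C := C) (C' := C') (γ := γ) (η := η) (s := s) hR1 hδ h.δ_one
  rw [show 10 ^ 12 * C ^ 2 * R ^ 2 * (1 / s + √δ + 1 / √R + δ / η ^ 2 + C' * δ + γ) =
    10 ^ 12 * C ^ 2 * (R ^ 2 * (1 / s + √δ + 1 / √R + δ / η ^ 2 + C' * δ + γ)) by ring, r1]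
  have a1 : 0 ≤ R ^ 2 / s := by positivity
  have a2 : 0 ≤ √δ * R ^ 2 := by positivity
  have a3 : 0 ≤ R * √R := by positivity
  have a4 : 0 ≤ δ * R ^ 2 / η ^ 2 := by positivity
  have a5 : 0 ≤ C' * δ * R ^ 2 := by positivity
  have a6 : 0 ≤ γ * R ^ 2 := by positivity
  generalize R ^ 2 / s = A1 at *
  generalize √δ * R ^ 2 = A2 at *
  generalize R * √R = A3 at *
  generalize δ * R ^ 2 / η ^ 2 = A4 at *
  generalize C' * δ * R ^ 2 = A5 at *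
  generalize γ * R ^ 2 = A6 at *
  have b5 : ∑ d ∈ O1, ‖zb d - za d‖ ^ 2 ≤ 1000 * C ^ 2 * (A3 + A2) :=
    b4.trans (mul_le_mul_of_nonneg_left (add_le_add r3 r2) (by positivity))
  have hCC : C ≤ C ^ 2 := by nlinarith
  have c1 : C * (A1 + A2 + A3 + A4) ≤ C ^ 2 * (A1 + A2 + A3 + A4) :=
    mul_le_mul_of_nonneg_right hCC (by positivity)
  have c2 : C * (A5 + A6 + A3) ≤ C ^ 2 * (A5 + A6 + A3) :=
    mul_le_mul_of_nonneg_right hCC (by positivity)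
  have c3 : A2 ≤ C ^ 2 * A2 := le_mul_of_one_le_left a2 (by nlinarith)
  rw [one_div, inv_mul_le_iff₀ (by positivity)]
  have hp1 : 3.1415 < Real.pi := Real.pi_gt_d4
  have n1 : 0 ≤ C ^ 2 * A1 := by positivity
  have n2 : 0 ≤ C ^ 2 * A2 := by positivity
  have n3 : 0 ≤ C ^ 2 * A3 := by positivity
  have n4 : 0 ≤ C ^ 2 * A4 := by positivity
  have n5 : 0 ≤ C ^ 2 * A5 := by positivity
  have n6 : 0 ≤ C ^ 2 * A6 := by positivity
  have e1 : 10 ^ 12 * C ^ 2 * (A1 + A2 + A3 + A4 + A5 + A6) = 10 ^ 12 * (C ^ 2 * A1 + C ^ 2 * A2 +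
    C ^ 2 * A3 + C ^ 2 * A4 + C ^ 2 * A5 + C ^ 2 * A6) := by ring
  rw [e1]
  have q1' : 6 * (10 ^ 12 * (C ^ 2 * A1 + C ^ 2 * A2 +
      C ^ 2 * A3 + C ^ 2 * A4 + C ^ 2 * A5 + C ^ 2 * A6)) ≤ 2 * Real.pi * (10 ^ 12 *
      (C ^ 2 * A1 + C ^ 2 * A2 + C ^ 2 * A3 + C ^ 2 * A4 + C ^ 2 * A5 + C ^ 2 * A6)) :=
    mul_le_mul_of_nonneg_right (by linarith) (by positivity)
  linarith

/-- the numbers of the last step -/
private theorem fn_last {C C' γ δ R η s M : ℝ} (hC : 1 ≤ C) (hR : 1 ≤ R)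
    (hs : 1 / s ≤ 1 / (10 ^ 16 * C ^ 2)) (hδ : √δ ≤ 1 / (10 ^ 16 * C ^ 2))
    (hRR : 1 / √R ≤ 1 / (10 ^ 16 * C ^ 2)) (hδη : δ / η ^ 2 ≤ 1 / (10 ^ 16 * C ^ 2))
    (hCδ : C' * δ ≤ 1 / (10 ^ 16 * C ^ 2)) (hγ : γ ≤ 1 / (10 ^ 16 * C ^ 2))
    (hM : 3000 * C * M ^ 2 ≤ R)
    (hfin : 0.52 * (Real.pi * R ^ 2 / 16) ≤
      2.1 * (0.0446 * (Real.pi * R ^ 2 / 16) +
        10 ^ 12 * C ^ 2 * R ^ 2 * (1 / s + √δ + 1 / √R + δ / η ^ 2 + C' * δ + γ)) +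
      1.84 * (M ^ 2 * (7 * C * δ * R / η ^ 2 + 7 * C * R)) +
      2.2 * (10 ^ 12 * C ^ 2 * R ^ 2 * (1 / s + √δ + 1 / √R + δ / η ^ 2 + C' * δ + γ))) :
    False := by
  have hC0 : 0 < C := by linarith
  have hR0 : 0 < R := by linarith
  have hR2 : 0 < R ^ 2 := by positivity
  have h1 : 10 ^ 12 * C ^ 2 * R ^ 2 * (1 / s + √δ + 1 / √R + δ / η ^ 2 + C' * δ + γ) ≤
      6 / 10 ^ 4 * R ^ 2 := by
    calc _ ≤ 10 ^ 12 * C ^ 2 * R ^ 2 * (6 * (1 / (10 ^ 16 * C ^ 2))) :=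
          mul_le_mul_of_nonneg_left (by linarith) (by positivity)
      _ = 6 / 10 ^ 4 * R ^ 2 := by
          field_simp
  have h2 : M ^ 2 * (7 * C * δ * R / η ^ 2 + 7 * C * R) ≤ 14 / 3000 * R ^ 2 := by
    have h3 : δ / η ^ 2 ≤ 1 := by
      refine hδη.trans ?_
      rw [div_le_one (by positivity)]
      nlinarith
    have h4 : 7 * C * δ * R / η ^ 2 = 7 * C * R * (δ / η ^ 2) := by ring
    have h5 : 7 * C * R * (δ / η ^ 2) ≤ 7 * C * R * 1 :=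
      mul_le_mul_of_nonneg_left h3 (by positivity)
    calc M ^ 2 * (7 * C * δ * R / η ^ 2 + 7 * C * R) ≤ M ^ 2 * (14 * C * R) := by
          apply mul_le_mul_of_nonneg_left _ (sq_nonneg M)
          rw [h4]
          linarith
      _ = 14 / 3000 * (3000 * C * M ^ 2) * R := by ring
      _ ≤ 14 / 3000 * R * R := by
          apply mul_le_mul_of_nonneg_right _ hR0.le
          apply mul_le_mul_of_nonneg_left hM (by norm_num)
      _ = _ := by ring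
  have h6 : 3 * R ^ 2 / 16 ≤ Real.pi * R ^ 2 / 16 := by
    have := Real.pi_gt_three
    have : 3 * R ^ 2 ≤ Real.pi * R ^ 2 := mul_le_mul_of_nonneg_right this.le hR2.le
    linarith
  generalize 10 ^ 12 * C ^ 2 * R ^ 2 * (1 / s + √δ + 1 / √R + δ / η ^ 2 + C' * δ + γ) = X at *
  generalize M ^ 2 * (7 * C * δ * R / η ^ 2 + 7 * C * R) = Y at *
  generalize Real.pi * R ^ 2 / 16 = Q at *
  linarith

private theorem fn_core {K : Cx D Fc} {C C' γ δ R η : ℝ} {df : Fc → ℝ} {za zb : D → ℂ}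
    {O1 : Finset D} {z0 : ℂ} (h : HypF K C δ R df) (hM : HypM K C' γ za zb df)
    (hB : HypB O1 za zb δ R z0)
    (hO : O1 ⊆ K.out) (hrest : ∑ d ∈ K.out \ O1, ‖zb d - za d‖ ≤ δ * R)
    (hη0 : 0 < η) (hη : η ≤ 1 / 100) {m : ℕ} (hηm : η ≤ 1 / (10 ^ 4 * m ^ 2)) {s : ℝ}
    (hs : 200 ≤ s) (hm : 2 * s ≤ m) (hR : 4 * s ≤ R) :
    0.52 * (Real.pi * R ^ 2 / 16) ≤
      2.1 * (0.0446 * (Real.pi * R ^ 2 / 16) +
        10 ^ 12 * C ^ 2 * R ^ 2 * (1 / s + √δ + 1 / √R + δ / η ^ 2 + C' * δ + γ)) +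
      1.84 * ((2 * m + 1) ^ 2 * (7 * C * δ * R / η ^ 2 + 7 * C * R)) +
      2.2 * (10 ^ 12 * C ^ 2 * R ^ 2 * (1 / s + √δ + 1 / √R + δ / η ^ 2 + C' * δ + γ)) := by
  have hs0 : 0 < s := by linarith
  have hR1 := h.R_one
  have hR0 : 0 < R := by linarith
  have k1 := A_int h hM hB hO hrest hη0 hη hs hR
  have k2 := bb_int h hη0 hη m hs z0
  have k3 := B_int h hM hB hO hrest hη0 hη hs hR
  have j1 : IntegrableOn (fun ζ => ‖WW K (ee C df) η 0 s ζ - 1‖) (Metric.ball z0 (R / 4)) volume :=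
    ((intg_WW K (ee C df) η 0 s z0 (R / 4)).sub (fn_intg 1 z0 (R / 4))).norm
  have j2 := intg_bb K (ee C df) η m s z0 (R / 4)
  have j3 : IntegrableOn (fun ζ =>
      ‖WW K (ee C df) η 1 s ζ - ((ζ - z0) / R) ^ 6 * WW K (ee C df) η 0 s ζ‖)
      (Metric.ball z0 (R / 4)) volume :=
    ((intg_WW K (ee C df) η 1 s z0 (R / 4)).sub
      (fn_pow R (intg_WW K (ee C df) η 0 s z0 (R / 4)))).norm
  have hci : IntegrableOn (fun _ : ℂ => (0.52 : ℝ)) (Metric.ball z0 (R / 4)) volume :=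
    integrableOn_const measure_ball_lt_top.ne
  have t := (((show IB _ _ _ from ⟨j1, k1⟩).cmul (c := 2.1) (by norm_num)).add
    ((show IB _ _ _ from ⟨j2, k2⟩).cmul (c := 1.84) (by norm_num))).add
    ((show IB _ _ _ from ⟨j3, k3⟩).cmul (c := 2.2) (by norm_num))
  have hmono : ∫ _ζ in Metric.ball z0 (R / 4), (0.52 : ℝ) ≤
      ∫ ζ in Metric.ball z0 (R / 4), ((2.1 * ‖WW K (ee C df) η 0 s ζ - 1‖ +
        1.84 * bb K (ee C df) η m s ζ) +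
        2.2 * ‖WW K (ee C df) η 1 s ζ - ((ζ - z0) / R) ^ 6 * WW K (ee C df) η 0 s ζ‖) := by
    refine integral_mono_ae hci t.1 ?_
    refine (ae_restrict_iff' measurableSet_ball).2 (Filter.Eventually.of_forall fun ζ hζ => ?_)
    exact point hηm hs hm ζ (fn_xi hR0 hζ)
  replace hmono := hmono.trans t.2
  rw [setIntegral_const, smul_eq_mul, Measure.real,
    ball_area z0 (by positivity : (0 : ℝ) ≤ R / 4)] at hmono
  have e : Real.pi * (R / 4) ^ 2 * 0.52 = 0.52 * (Real.pi * R ^ 2 / 16) := by ring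
  rw [e] at hmono
  linarith

theorem rigid (C : ℝ) (hC : 1 ≤ C) : ∃ γ > 0, ∀ C' : ℝ, 1 ≤ C' → ∃ δ > 0, δ ≤ 1 ∧ ∃ R0 : ℝ,
    ∀ (D Fc : Type) [Fintype D] [DecidableEq D] [Fintype Fc] [DecidableEq Fc] (K : Cx D Fc)
      (R : ℝ) (z0 : ℂ) (df : Fc → ℝ) (za zb : D → ℂ) (O1 : Finset D),
      R0 ≤ R → HypF K C δ R df → HypM K C' γ za zb df → HypB O1 za zb δ R z0 → O1 ⊆ K.out →
      ∑ d ∈ K.out \ O1, ‖zb d - za d‖ ≤ δ * R → False := by
  have hC0 : 0 < C := by linarith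
  set g : ℝ := 1 / (10 ^ 16 * C ^ 2) with hg
  have hg0 : 0 < g := by positivity
  set s : ℝ := 10 ^ 16 * C ^ 2 with hs
  have hs200 : 200 ≤ s := by
    rw [hs]
    nlinarith
  set m : ℕ := ⌈2 * s⌉₊ with hm
  have hm2 : 2 * s ≤ m := Nat.le_ceil _
  have hm0 : (400 : ℝ) ≤ m := by linarith
  set η : ℝ := 1 / (10 ^ 4 * m ^ 2) with hη
  have hmpos : (0 : ℝ) < m := by linarith
  have hη0 : 0 < η := by positivity
  have hη1 : η ≤ 1 / 100 := by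
    rw [hη]
    apply one_div_le_one_div_of_le (by norm_num)
    nlinarith
  refine ⟨g, hg0, fun C' hC' => ?_⟩
  have hC'0 : 0 < C' := by linarith
  have hg1 : g ≤ 1 := by
    rw [hg, div_le_one (by positivity)]
    nlinarith
  refine ⟨min (g ^ 2) (min (g * η ^ 2) (g / C')), by positivity,
    (min_le_left _ _).trans (pow_le_one₀ hg0.le hg1),
    1 / g ^ 2 + 4 * s + 3000 * C * (2 * m + 1) ^ 2 + 1, ?_⟩
  set δ : ℝ := min (g ^ 2) (min (g * η ^ 2) (g / C')) with hδ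
  have hδ0 : 0 < δ := by positivity
  have hδ1 : δ ≤ g ^ 2 := min_le_left _ _
  have hδ2 : δ ≤ g * η ^ 2 := (min_le_right _ _).trans (min_le_left _ _)
  have hδ3 : δ ≤ g / C' := (min_le_right _ _).trans (min_le_right _ _)
  intro D Fc _ _ _ _ K R z0 df za zb O1 hR h hM hB hO hrest
  have hp1 : 0 < 1 / g ^ 2 := by positivity
  have hp2 : 0 < 4 * s := by linarith
  have hp3 : 0 < 3000 * C * (2 * (m : ℝ) + 1) ^ 2 := by positivity
  have hR1 : 1 ≤ R := by linarith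
  have hR0 : 0 < R := by linarith
  refine fn_last (C' := C') (s := s) (M := 2 * m + 1) hC hR1 (le_of_eq ?_) ?_ ?_ ?_ ?_ le_rfl
    (by linarith) (fn_core h hM hB hO hrest hη0 hη1 le_rfl hs200 hm2 (by linarith))
  · rw [hs]
  · rw [← hg]
    exact Real.sqrt_le_iff.2 ⟨hg0.le, hδ1⟩
  · rw [← hg]
    have h1 : 1 / g ≤ √R := by
      apply Real.le_sqrt_of_sq_le
      rw [one_div_pow]
      linarith
    rw [one_div_le (Real.sqrt_pos.2 hR0) hg0]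
    exact h1
  · rw [← hg, div_le_iff₀ (by positivity)]
    exact hδ2
  · rw [← hg]
    rw [le_div_iff₀ hC'0] at hδ3
    linarith

end Pool.Agent.Helper38.RG
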