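import Pool.Agent.Helper38.RG.Defs

/-!
# RG-05: the closing relation and the summation by parts

* `v_st`: `z (st d) = z (s d)` and, for `st d`: `z d = z (st (st d)) = z (s (st d))`.
* `sum_fd_v`: `s` permutes the darts of the face.
* `EE_half`: `∑_{d ∉ out} v (st d)^(6κ+1) k (F (st (st d)))...`: reindex by `st` (a bijection of the complement of `out`), `v (st d)^(6κ+1) = - v d^(6κ+1)`.
* `diam`: by `orb`, `z d' = z d + ∑_{i<j} v (s^i d)` with `d' = s^j d`, and `j` may be taken `< card` (minimal `j`: the darts `s^i d`, `i < j`, are distinct), so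
  `‖z d' - z d‖ ≤ ∑_{fd} ‖v‖`; the mean.
* `diam2`: `F (s d) = F d`, `z (s d) = z (st d)`.
-/

namespace Pool.Agent.Helper38.RG

open Finset

variable {D Fc : Type} [Fintype D] [DecidableEq D] [Fintype Fc] [DecidableEq Fc]

theorem v_st (K : Cx D Fc) {d : D} (hd : d ∉ K.out) : K.v (K.st d) = -K.v d := by
  have h1 := K.z_st d hd
  have h2 := K.z_st (K.st d) (K.st_mem d hd)
  rw [K.st_st] at h2
  unfold Cx.v
  rw [← h2, h1]
  ring

theorem sum_fd_v (K : Cx D Fc) (X : Fc) : ∑ d ∈ K.fd X, K.v d = 0 := by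
  unfold Cx.v
  rw [sum_sub_distrib, sub_eq_zero]
  refine sum_equiv K.s (fun d => ?_) fun d _ => rfl
  simp [Cx.fd, K.F_s]

theorem EE_half (K : Cx D Fc) (κ : ℕ) (s : ℝ) (ζ : ℂ) :
    2 * EE K κ s ζ = ∑ d ∈ univ.filter (fun d => d ∉ K.out), K.v d ^ (6 * κ + 1) *
      (ker s (K.pc (K.F d) - ζ) - ker s (K.pc (K.F (K.st d)) - ζ)) := by
  have h1 : EE K κ s ζ = ∑ d ∈ univ.filter (fun d => d ∉ K.out),
      K.v (K.st d) ^ (6 * κ + 1) * ker s (K.pc (K.F (K.st d)) - ζ) := by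
    unfold EE
    symm
    refine sum_equiv K.st (fun d => ?_) fun d _ => rfl
    simp only [mem_filter, mem_univ, true_and]
    refine ⟨K.st_mem d, fun h => ?_⟩
    have h2 := K.st_mem _ h
    rwa [K.st_st] at h2
  have h2 : EE K κ s ζ = ∑ d ∈ univ.filter (fun d => d ∉ K.out),
      -(K.v d ^ (6 * κ + 1) * ker s (K.pc (K.F (K.st d)) - ζ)) := by
    rw [h1]
    refine sum_congr rfl fun d hd => ?_
    rw [mem_filter] at hd
    have hodd : Odd (6 * κ + 1) := ⟨3 * κ, by ring⟩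
    rw [v_st K hd.2, hodd.neg_pow]
    ring
  rw [two_mul]
  conv_lhs =>
    rw [show EE K κ s ζ + EE K κ s ζ = EE K κ s ζ + ∑ d ∈ univ.filter (fun d => d ∉ K.out),
      -(K.v d ^ (6 * κ + 1) * ker s (K.pc (K.F (K.st d)) - ζ)) from by rw [← h2]]
  unfold EE
  rw [← sum_add_distrib]
  refine sum_congr rfl fun d _ => ?_
  ring

theorem dist_z (K : Cx D Fc) {d d' : D} (h : K.F d = K.F d') :
    ‖K.z d' - K.z d‖ ≤ ∑ d ∈ K.fd (K.F d), ‖K.v d‖ := by
  classical
  have hex := K.orb d d' h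
  set j := Nat.find hex with hj
  have hjs : (K.s ^ j) d = d' := Nat.find_spec hex
  have hmin : ∀ i < j, (K.s ^ i) d ≠ d' := fun i hi => Nat.find_min hex hi
  have htel : K.z d' - K.z d = ∑ i ∈ range j, K.v ((K.s ^ i) d) := by
    have h1 := sum_range_sub (fun i => K.z ((K.s ^ i) d)) j
    rw [hjs] at h1
    rw [pow_zero] at h1
    have h2 : K.z ((1 : Equiv.Perm D) d) = K.z d := rfl
    rw [h2] at h1
    rw [← h1]
    refine sum_congr rfl fun i _ => ?_
    unfold Cx.v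
    rw [pow_succ']
    rfl
  rw [htel]
  have hinj : Set.InjOn (fun i => (K.s ^ i) d) (range j : Set ℕ) := by
    have key : ∀ i k : ℕ, i < k → k < j → (K.s ^ i) d ≠ (K.s ^ k) d := by
      intro i k hik hkj heq
      refine hmin (j - k + i) (by omega) ?_
      rw [pow_add, Equiv.Perm.mul_apply, heq, ← Equiv.Perm.mul_apply, ← pow_add,
        Nat.sub_add_cancel hkj.le, hjs]
    intro i hi k hk hik
    simp only [coe_range, Set.mem_Iio] at hi hk
    rcases lt_trichotomy i k with h1 | h1 | h1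
    · exact absurd hik (key i k h1 hk)
    · exact h1
    · exact absurd hik.symm (key k i h1 hi)
  have hF : ∀ i : ℕ, K.F ((K.s ^ i) d) = K.F d := by
    intro i
    induction i with
    | zero => rfl
    | succ i ih =>
      rw [pow_succ', Equiv.Perm.mul_apply, K.F_s, ih]
  calc ‖∑ i ∈ range j, K.v ((K.s ^ i) d)‖ ≤ ∑ i ∈ range j, ‖K.v ((K.s ^ i) d)‖ := norm_sum_le _ _
    _ = ∑ x ∈ (range j).image (fun i => (K.s ^ i) d), ‖K.v x‖ := by
        rw [sum_image]
        exact fun a ha b hb hab => hinj ha hb hab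
    _ ≤ ∑ x ∈ K.fd (K.F d), ‖K.v x‖ := by
        refine sum_le_sum_of_subset_of_nonneg ?_ fun _ _ _ => norm_nonneg _
        intro x hx
        rw [mem_image] at hx
        obtain ⟨i, -, rfl⟩ := hx
        simp [Cx.fd, hF i]

theorem diam (K : Cx D Fc) (d : D) : ‖K.pc (K.F d) - K.z d‖ ≤ ∑ d ∈ K.fd (K.F d), ‖K.v d‖ := by
  have hd : d ∈ K.fd (K.F d) := by simp [Cx.fd]
  have hc : 0 < ((K.fd (K.F d)).card : ℝ) := by
    exact_mod_cast card_pos.2 ⟨d, hd⟩
  have hc' : ((K.fd (K.F d)).card : ℂ) ≠ 0 := by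
    exact_mod_cast (card_pos.2 ⟨d, hd⟩).ne'
  have h1 : K.pc (K.F d) - K.z d =
      (∑ d' ∈ K.fd (K.F d), (K.z d' - K.z d)) / ((K.fd (K.F d)).card : ℂ) := by
    unfold Cx.pc
    rw [sum_sub_distrib, sum_const, nsmul_eq_mul, sub_div, mul_div_cancel_left₀ _ hc']
  rw [h1, norm_div, Complex.norm_natCast, div_le_iff₀ hc]
  refine (norm_sum_le _ _).trans ?_
  have h2 : ∀ d' ∈ K.fd (K.F d), ‖K.z d' - K.z d‖ ≤ ∑ d ∈ K.fd (K.F d), ‖K.v d‖ := by
    intro d' hd'
    have h3 : K.F d' = K.F d := by simpa [Cx.fd] using hd'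
    exact dist_z K h3.symm
  refine (sum_le_sum h2).trans_eq ?_
  rw [sum_const, nsmul_eq_mul, mul_comm]

theorem diam2 (K : Cx D Fc) {d : D} (hd : d ∉ K.out) :
    ‖K.pc (K.F d) - K.pc (K.F (K.st d))‖ ≤
      ∑ d' ∈ K.fd (K.F d), ‖K.v d'‖ + ∑ d' ∈ K.fd (K.F (K.st d)), ‖K.v d'‖ := by
  have h1 := diam K (K.s d)
  rw [K.F_s] at h1
  have h2 := diam K (K.st d)
  rw [K.z_st d hd] at h2
  have h3 : K.pc (K.F d) - K.pc (K.F (K.st d)) =
      (K.pc (K.F d) - K.z (K.s d)) - (K.pc (K.F (K.st d)) - K.z (K.s d)) := by ring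
  rw [h3]
  exact (norm_sub_le _ _).trans (add_le_add h1 h2)

end Pool.Agent.Helper38.RG
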