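import Pool.Agent.Helper38.RG.Defs

/-!
# RG-19: lattice points `a + b ω` in a disc

`lat_norm`: `‖a + b om‖² = a² + a b + b² ≥ 3/4 max (a², b²)`; it is `≥ 1` for integers `(a, b) ≠ 0`.
`lat_count`: every point `p = x + y om` of `ball q (r - 1.74)` lies in the cell `{(a + s) + (b + t) om : 0 ≤ s, t < 1}` of `a = ⌊x⌋`, `b = ⌊y⌋`, and `‖p - (a + b om)‖ ≤ ‖1 + om‖ = √3`, so
`‖a + b om - q‖ < r`.  Area of a cell `= √3/2` (image of the unit square under a linear map with determinant `√3/2`, `MeasureTheory.Measure.addHaar_image_linearMap`, or by slices).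
So `π (r - 1.74)² ≤ (√3/2) · count`, and `(1 - .0174)² · 2/√3 ≥ .9 · 2/√3`.
The finite set: any `N` with `1.2 (r + ‖q‖) ≤ N` (then all lattice points in the disc have `|a|, |b| ≤ N`, by `lat_norm`: `|a| ≤ (2/√3) ‖a + b om‖`).
-/

namespace Pool.Agent.Helper38.RG

open Finset

theorem lat_norm (x y : ℝ) : ‖(x : ℂ) + (y : ℂ) * om‖ ^ 2 = x ^ 2 + x * y + y ^ 2 := by
  have h3 : √3 * √3 = (3 : ℝ) := Real.mul_self_sqrt (by norm_num)
  rw [← Complex.normSq_eq_norm_sq, Complex.normSq_apply]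
  unfold om
  simp only [Complex.add_re, Complex.add_im, Complex.mul_re, Complex.mul_im, Complex.ofReal_re,
    Complex.ofReal_im, zero_mul, sub_zero, zero_add, add_zero]
  linear_combination (y ^ 2 / 4) * h3

theorem lat_one {a b : ℤ} (h : ¬ (a = 0 ∧ b = 0)) : 1 ≤ ‖((a : ℝ) : ℂ) + ((b : ℝ) : ℂ) * om‖ := by
  have h1 : (1 : ℤ) ≤ a ^ 2 + a * b + b ^ 2 := by
    by_contra hcon
    have h2 : a ^ 2 + a * b + b ^ 2 ≤ 0 := by omega
    apply h
    have h3 : 4 * (a ^ 2 + a * b + b ^ 2) = (2 * a + b) ^ 2 + 3 * b ^ 2 := by ring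
    have h4 : b ^ 2 = 0 := by nlinarith [sq_nonneg (2 * a + b), sq_nonneg b]
    have hb : b = 0 := by simpa using h4
    subst hb
    have h5 : a ^ 2 = 0 := by nlinarith [sq_nonneg a]
    exact ⟨by simpa using h5, rfl⟩
  have h2 : (1 : ℝ) ≤ ‖((a : ℝ) : ℂ) + ((b : ℝ) : ℂ) * om‖ ^ 2 := by
    rw [lat_norm]
    exact_mod_cast h1
  by_contra hcon
  have h3 := not_le.1 hcon
  nlinarith [norm_nonneg (((a : ℝ) : ℂ) + ((b : ℝ) : ℂ) * om)]

theorem lat_coord (x y : ℝ) : |x| ≤ 2 / √3 * ‖(x : ℂ) + (y : ℂ) * om‖ ∧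
    |y| ≤ 2 / √3 * ‖(x : ℂ) + (y : ℂ) * om‖ := by
  have h3 : √3 ^ 2 = (3 : ℝ) := Real.sq_sqrt (by norm_num)
  have h0 : 0 < √(3 : ℝ) := Real.sqrt_pos.2 (by norm_num)
  have hs : (2 / √3 * ‖(x : ℂ) + (y : ℂ) * om‖) ^ 2 = 4 / 3 * (x ^ 2 + x * y + y ^ 2) := by
    rw [mul_pow, div_pow, h3, lat_norm]
    norm_num
  constructor
  · apply abs_le_of_sq_le_sq _ (by positivity)
    rw [hs]
    nlinarith [sq_nonneg (x + 2 * y)]
  · apply abs_le_of_sq_le_sq _ (by positivity)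
    rw [hs]
    nlinarith [sq_nonneg (y + 2 * x)]

private noncomputable def h86M : ℂ →ₗ[ℝ] ℂ :=
  Matrix.toLin Complex.basisOneI Complex.basisOneI !![1, 1 / 2; 0, √3 / 2]

private theorem h86M_apply (z : ℂ) : h86M z = (z.re : ℂ) + (z.im : ℂ) * om := by
  unfold h86M om
  rw [Matrix.toLin_apply]
  simp [Fin.sum_univ_two, Matrix.mulVec, dotProduct, Complex.coe_basisOneI]
  apply Complex.ext <;> simp <;> ring

private theorem h86M_det : LinearMap.det h86M = √3 / 2 := by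
  unfold h86M
  rw [LinearMap.det_toLin, Matrix.det_fin_two_of]
  ring

private theorem h86_square (a b : ℤ) :
    MeasureTheory.volume {z : ℂ | ⌊z.re⌋ = a ∧ ⌊z.im⌋ = b} = 1 := by
  have h1 : {z : ℂ | ⌊z.re⌋ = a ∧ ⌊z.im⌋ = b} =
      Complex.measurableEquivRealProd ⁻¹' (Set.Ico (a : ℝ) (a + 1) ×ˢ Set.Ico (b : ℝ) (b + 1)) := by
    ext z
    simp only [Set.mem_ofPred_eq, Set.mem_preimage, Set.mem_prod, Set.mem_Ico, Int.floor_eq_iff]
    rfl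
  rw [h1, Complex.volume_preserving_equiv_real_prod.measure_preimage_equiv,
    MeasureTheory.Measure.volume_eq_prod, MeasureTheory.Measure.prod_prod, Real.volume_Ico,
    Real.volume_Ico]
  simp

open scoped Classical in
theorem lat_count {r : ℝ} (hr : 100 ≤ r) (q : ℂ) (N : ℕ) (hN : 1.2 * (r + ‖q‖) ≤ N) :
    0.9 * (2 / √3) * Real.pi * r ^ 2 ≤
      (((Icc (-(N : ℤ)) N ×ˢ Icc (-(N : ℤ)) N).filter
        (fun ab => ‖((ab.1 : ℝ) : ℂ) + ((ab.2 : ℝ) : ℂ) * om - q‖ < r)).card : ℝ) := by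
  set S := (Icc (-(N : ℤ)) N ×ˢ Icc (-(N : ℤ)) N).filter
        (fun ab => ‖((ab.1 : ℝ) : ℂ) + ((ab.2 : ℝ) : ℂ) * om - q‖ < r) with hS
  have h3 : √3 ^ 2 = (3 : ℝ) := Real.sq_sqrt (by norm_num)
  have h0 : 0 < √(3 : ℝ) := Real.sqrt_pos.2 (by norm_num)
  have h17 : √(3 : ℝ) ≤ 1.74 := Real.sqrt_le_iff.2 ⟨by norm_num, by norm_num⟩
  have h17b : 1.7 ≤ √(3 : ℝ) := Real.le_sqrt_of_sq_le (by norm_num)
  have hnorm : ‖(1 : ℂ) + om‖ = √3 := by
    have h1 := lat_norm 1 1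
    rw [Complex.ofReal_one, one_mul] at h1
    have h2 : ‖(1 : ℂ) + om‖ ^ 2 = √3 ^ 2 := by rw [h1, h3]; norm_num
    exact (pow_left_inj₀ (norm_nonneg _) h0.le two_ne_zero).1 h2
  have hsub : h86M ⁻¹' Metric.ball q (r - 1.74) ⊆
      ⋃ ab ∈ S, {z : ℂ | ⌊z.re⌋ = ab.1 ∧ ⌊z.im⌋ = ab.2} := by
    intro z hz
    rw [Set.mem_preimage, Metric.mem_ball, dist_eq_norm, h86M_apply] at hz
    have hfr : ‖((⌊z.re⌋ : ℝ) : ℂ) + ((⌊z.im⌋ : ℝ) : ℂ) * om - q‖ < r := by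
      have e1 : ((⌊z.re⌋ : ℝ) : ℂ) + ((⌊z.im⌋ : ℝ) : ℂ) * om - q =
          ((z.re : ℂ) + (z.im : ℂ) * om - q) -
            (((Int.fract z.re : ℝ) : ℂ) + ((Int.fract z.im : ℝ) : ℂ) * om) := by
        have e2 : (z.re : ℂ) = ((⌊z.re⌋ : ℝ) : ℂ) + ((Int.fract z.re : ℝ) : ℂ) := by
          rw [← Complex.ofReal_add, Int.floor_add_fract]
        have e3 : (z.im : ℂ) = ((⌊z.im⌋ : ℝ) : ℂ) + ((Int.fract z.im : ℝ) : ℂ) := by
          rw [← Complex.ofReal_add, Int.floor_add_fract]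
        rw [e2, e3]
        ring
      have e4 : ‖((Int.fract z.re : ℝ) : ℂ) + ((Int.fract z.im : ℝ) : ℂ) * om‖ ≤ √3 := by
        have h1 := lat_norm (Int.fract z.re) (Int.fract z.im)
        have f1 := Int.fract_nonneg z.re
        have f2 := (Int.fract_lt_one z.re).le
        have f3 := Int.fract_nonneg z.im
        have f4 := (Int.fract_lt_one z.im).le
        refine (sq_le_sq₀ (norm_nonneg _) h0.le).1 ?_
        rw [h1, h3]
        nlinarith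
      rw [e1]
      refine (norm_sub_le _ _).trans_lt ?_
      linarith
    refine Set.mem_iUnion₂.2 ⟨(⌊z.re⌋, ⌊z.im⌋), ?_, ⟨rfl, rfl⟩⟩
    rw [hS, Finset.mem_filter]
    refine ⟨?_, hfr⟩
    have hn : ‖((⌊z.re⌋ : ℝ) : ℂ) + ((⌊z.im⌋ : ℝ) : ℂ) * om‖ ≤ r + ‖q‖ := by
      have h1 := norm_add_le (((⌊z.re⌋ : ℝ) : ℂ) + ((⌊z.im⌋ : ℝ) : ℂ) * om - q) q
      rw [sub_add_cancel] at h1
      linarith
    have h12 : 2 / √(3 : ℝ) ≤ 1.2 := by
      rw [div_le_iff₀ h0]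
      linarith
    obtain ⟨c1, c2⟩ := lat_coord (⌊z.re⌋ : ℝ) (⌊z.im⌋ : ℝ)
    have hb : 2 / √3 * ‖((⌊z.re⌋ : ℝ) : ℂ) + ((⌊z.im⌋ : ℝ) : ℂ) * om‖ ≤ N :=
      (mul_le_mul h12 hn (norm_nonneg _) (by norm_num)).trans hN
    have d1 : |⌊z.re⌋| ≤ (N : ℤ) := by exact_mod_cast c1.trans hb
    have d2 : |⌊z.im⌋| ≤ (N : ℤ) := by exact_mod_cast c2.trans hb
    rw [Finset.mem_product, Finset.mem_Icc, Finset.mem_Icc]
    exact ⟨abs_le.1 d1, abs_le.1 d2⟩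
  have hvol : MeasureTheory.volume (h86M ⁻¹' Metric.ball q (r - 1.74)) ≤ (S.card : ENNReal) := by
    refine (MeasureTheory.measure_mono hsub).trans ?_
    refine (MeasureTheory.measure_biUnion_finset_le _ _).trans ?_
    rw [Finset.sum_congr rfl fun ab _ => h86_square ab.1 ab.2]
    simp
  have hdet : LinearMap.det h86M ≠ 0 := by
    rw [h86M_det]
    positivity
  rw [MeasureTheory.Measure.addHaar_preimage_linearMap _ hdet, h86M_det, Complex.volume_ball] at hvol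
  have hr0 : 0 ≤ r - 1.74 := by linarith
  have h5 := ENNReal.toReal_mono (ENNReal.natCast_ne_top _) hvol
  rw [ENNReal.toReal_mul, ENNReal.toReal_ofReal (abs_nonneg _), ENNReal.toReal_mul,
    ENNReal.toReal_pow, ENNReal.toReal_ofReal hr0, ENNReal.toReal_natCast,
    abs_of_pos (by positivity)] at h5
  have h6 : (√3 / 2)⁻¹ * ((r - 1.74) ^ 2 * Real.pi) ≤ (S.card : ℝ) := h5
  refine le_trans ?_ h6
  have h7 : (√3 / 2)⁻¹ = 2 / √(3 : ℝ) := by rw [inv_div]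
  rw [h7]
  have h8 : 0.9 * r ^ 2 ≤ (r - 1.74) ^ 2 := by nlinarith
  have h9 : 0 ≤ 2 / √(3 : ℝ) * Real.pi := by positivity
  nlinarith [mul_le_mul_of_nonneg_left h8 h9]

end Pool.Agent.Helper38.RG
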