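import Pool.Agent.Helper38.RG.Reg1
import Pool.Agent.Helper38.RG.Ident

/-!
# RG-07: the sum of the seventh powers over an almost regular hexagon is of second order

If `e ≥ 1/100`: `6 · 3^7 = 13122 ≤ 2 · 10^8 e²`.  If `e < 1/100`: the face is regular (`Reg` with the constant function `e` and `η = 1/100`), so `reg_sum` and
`v_j = om^j v + r_j`, `‖r_j‖ ≤ 5 e` (`reg_v`).  `v_j^7 = om^(7j) v^7 + 7 om^(6j) v^6 r_j + O(r_j²)`, `om^6 = 1`, `∑ om^(7j) = ∑ om^j = 0`,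
`∑ r_j = ∑ v_j - v ∑ om^j = 0` (`sum_fd_v`, `reg_sum`).  `|x^7 - y^7 - 7 y^6 (x - y)| ≤ 21 · 1.1^5 |x - y|²` for `|x|, |y| ≤ 1.1`.
-/

namespace Pool.Agent.Helper38.RG

open Finset

variable {D Fc : Type} [Fintype D] [DecidableEq D] [Fintype Fc] [DecidableEq Fc]

private theorem mon_le {x y : ℂ} (hx : ‖x‖ ≤ 2) (hy : ‖y‖ ≤ 2) (a b : ℕ) (c : ℕ) :
    ‖(c : ℂ) * x ^ a * y ^ b‖ ≤ c * 2 ^ (a + b) := by
  rw [norm_mul, norm_mul, norm_pow, norm_pow, Complex.norm_natCast, pow_add, ← mul_assoc]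
  have h1 := pow_le_pow_left₀ (norm_nonneg x) hx a
  have h2 := pow_le_pow_left₀ (norm_nonneg y) hy b
  gcongr

private theorem quint_le {x y : ℂ} (hx : ‖x‖ ≤ 2) (hy : ‖y‖ ≤ 2) :
    ‖x ^ 5 + 2 * x ^ 4 * y + 3 * x ^ 3 * y ^ 2 + 4 * x ^ 2 * y ^ 3 + 5 * x * y ^ 4 + 6 * y ^ 5‖ ≤
      672 := by
  have h : x ^ 5 + 2 * x ^ 4 * y + 3 * x ^ 3 * y ^ 2 + 4 * x ^ 2 * y ^ 3 + 5 * x * y ^ 4 +
      6 * y ^ 5 = ((1 : ℕ) : ℂ) * x ^ 5 * y ^ 0 + ((2 : ℕ) : ℂ) * x ^ 4 * y ^ 1 +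
      ((3 : ℕ) : ℂ) * x ^ 3 * y ^ 2 + ((4 : ℕ) : ℂ) * x ^ 2 * y ^ 3 +
      ((5 : ℕ) : ℂ) * x ^ 1 * y ^ 4 + ((6 : ℕ) : ℂ) * x ^ 0 * y ^ 5 := by
    push_cast
    ring
  rw [h]
  have h1 := mon_le hx hy 5 0 1
  have h2 := mon_le hx hy 4 1 2
  have h3 := mon_le hx hy 3 2 3
  have h4 := mon_le hx hy 2 3 4
  have h5 := mon_le hx hy 1 4 5
  have h6 := mon_le hx hy 0 5 6
  refine (norm_add_le _ _).trans ?_
  refine (add_le_add_left (norm_add_le _ _) _).trans ?_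
  refine (add_le_add_left (add_le_add_left (norm_add_le _ _) _) _).trans ?_
  refine (add_le_add_left (add_le_add_left (add_le_add_left (norm_add_le _ _) _) _) _).trans ?_
  refine (add_le_add_left (add_le_add_left (add_le_add_left (add_le_add_left (norm_add_le _ _) _)
    _) _) _).trans ?_
  norm_num at h1 h2 h3 h4 h5 h6 ⊢
  linarith

private theorem sum_om : ∑ j ∈ range 6, om ^ j = 0 := by
  simp only [Finset.sum_range_succ, Finset.sum_range_zero]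
  linear_combination (1 + om + om ^ 2) * om_cube

private theorem om_six : om ^ 6 = 1 := by
  linear_combination (om ^ 3 - 1) * om_cube

theorem M_in (K : Cx D Fc) {X : Fc} (hin : ∀ d, K.F d = X → d ∉ K.out) (h6 : (K.fd X).card = 6)
    {e : ℝ} (he : 0 ≤ e) (hv3 : ∀ d, K.F d = X → ‖K.v d‖ ≤ 3)
    (hv : ∀ d, K.F d = X → ‖K.v (K.s d) - om * K.v d‖ ≤ e ∧ |‖K.v d‖ - 1| ≤ e) :
    ‖∑ d ∈ K.fd X, K.v d ^ 7‖ ≤ 2 * 10 ^ 8 * e ^ 2 := by
  rcases le_or_gt (1 / 100) e with hbig | hsmall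
  · have h1 : ‖∑ d ∈ K.fd X, K.v d ^ 7‖ ≤ 6 * 3 ^ 7 := by
      refine (norm_sum_le _ _).trans ?_
      have h2 : ∀ d ∈ K.fd X, ‖K.v d ^ 7‖ ≤ 3 ^ 7 := by
        intro d hd
        rw [norm_pow]
        exact pow_le_pow_left₀ (norm_nonneg _) (hv3 d (Finset.mem_filter.1 hd).2) 7
      refine (Finset.sum_le_card_nsmul _ _ _ h2).trans (le_of_eq ?_)
      rw [h6, nsmul_eq_mul]
      norm_num
    refine h1.trans ?_
    nlinarith
  · have hne : (K.fd X).Nonempty := by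
      rw [← Finset.card_pos, h6]
      norm_num
    obtain ⟨d, hd0⟩ := hne
    have hd : K.F d = X := (Finset.mem_filter.1 hd0).2
    have hreg : K.Reg (fun _ => e) (1 / 100) X := ⟨hin, h6, he, hsmall.le, hv⟩
    obtain ⟨v, hvd⟩ : ∃ v, v = K.v d := ⟨_, rfl⟩
    obtain ⟨w, hw⟩ : ∃ w : ℕ → ℂ, ∀ j, w j = K.v ((K.s ^ j) d) := ⟨_, fun _ => rfl⟩
    have hr : ∀ j, ‖w j - om ^ j * v‖ ≤ j * e := by
      intro j
      rw [hw, hvd]
      exact reg_v hreg hd j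
    have hvn : ‖v‖ ≤ 2 := by
      have h1 := (abs_le.1 (hv d hd).2).2
      rw [hvd]
      linarith
    have hwn : ∀ j, ‖w j‖ ≤ 2 := by
      intro j
      have h1 := (abs_le.1 (hv ((K.s ^ j) d) (by rw [F_pow, hd])).2).2
      rw [hw]
      linarith
    have hs0 : ∑ j ∈ range 6, w j = 0 := by
      have h1 := reg_sum le_rfl hreg hd K.v
      rw [sum_fd_v] at h1
      rw [h1]
      exact Finset.sum_congr rfl fun j _ => hw j
    have hs7 : ∑ d' ∈ K.fd X, K.v d' ^ 7 = ∑ j ∈ range 6, w j ^ 7 := by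
      rw [reg_sum le_rfl hreg hd (fun d' => K.v d' ^ 7)]
      exact Finset.sum_congr rfl fun j _ => by rw [hw]
    have hterm : ∀ j, w j ^ 7 = v ^ 7 * om ^ j + 7 * v ^ 6 * (w j - v * om ^ j) +
        (w j - om ^ j * v) ^ 2 * (w j ^ 5 + 2 * w j ^ 4 * (om ^ j * v) +
          3 * w j ^ 3 * (om ^ j * v) ^ 2 + 4 * w j ^ 2 * (om ^ j * v) ^ 3 +
          5 * w j * (om ^ j * v) ^ 4 + 6 * (om ^ j * v) ^ 5) := by
      intro j
      have h6j : (om ^ j) ^ 6 = 1 := by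
        rw [← pow_mul, mul_comm, pow_mul, om_six, one_pow]
      linear_combination (7 * v ^ 6 * (w j - v * om ^ j) + v ^ 7 * om ^ j) * h6j
    rw [hs7, Finset.sum_congr rfl (fun j _ => hterm j), Finset.sum_add_distrib,
      Finset.sum_add_distrib, ← Finset.mul_sum, ← Finset.mul_sum, Finset.sum_sub_distrib,
      ← Finset.mul_sum, sum_om, hs0, mul_zero, mul_zero, sub_zero, mul_zero, add_zero, zero_add]
    refine (norm_sum_le _ _).trans ?_
    have hb : ∀ j ∈ range 6, ‖(w j - om ^ j * v) ^ 2 * (w j ^ 5 + 2 * w j ^ 4 * (om ^ j * v) +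
          3 * w j ^ 3 * (om ^ j * v) ^ 2 + 4 * w j ^ 2 * (om ^ j * v) ^ 3 +
          5 * w j * (om ^ j * v) ^ 4 + 6 * (om ^ j * v) ^ 5)‖ ≤ (5 * e) ^ 2 * 672 := by
      intro j hj
      have hj6 : (j : ℝ) ≤ 5 := by
        have := Finset.mem_range.1 hj
        exact_mod_cast Nat.lt_succ_iff.1 this
      rw [norm_mul, norm_pow]
      have h1 : ‖w j - om ^ j * v‖ ≤ 5 * e :=
        (hr j).trans (mul_le_mul_of_nonneg_right hj6 he)
      have h2 : ‖om ^ j * v‖ ≤ 2 := by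
        rw [norm_mul, norm_pow, norm_om, one_pow, one_mul]
        exact hvn
      exact mul_le_mul (pow_le_pow_left₀ (norm_nonneg _) h1 2) (quint_le (hwn j) h2)
        (norm_nonneg _) (by positivity)
    refine (Finset.sum_le_card_nsmul _ _ _ hb).trans ?_
    rw [card_range, nsmul_eq_mul]
    push_cast
    nlinarith [sq_nonneg e]

end Pool.Agent.Helper38.RG
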