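import Pool.Agent.Helper38.RG.Hyp
import Pool.Agent.Helper38.RG.MIn
import Pool.Agent.Helper38.RG.Ker

/-!
# RG-14: the left side, face by face

`EE κ = ∑_X ker (pc X - ζ) · ∑_{d ∈ fd X, d ∉ out} v^(6κ+1)`.
* `face_in`: face without outer darts: `κ = 0`: the sum is `0` (`sum_fd_v`).  `κ = 1`: `card = 6`: `M_in` with `e = √(C df)` (`in_six`): `≤ 2·10^8 C df`; `card ≠ 6`: `3^7 card ≤ 2187 C df`.
* `out_len`: `‖zb - za‖ ≤ ‖v‖ + 2` for an outer dart (`shift`), `∑_{fd ∩ out} ‖zb - za‖ ≤ 7 + C df + 2 card ≤ 19 + 3 C df`.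
* `left_pt`: write `EE κ - (-1)^(κ+1) SS` as: faces without outer darts (`face_in`, `ker_le`) + faces with outer darts: `ker (pc X - ζ) · (the difference in bd_M)` `≤ (γ + C' df) q1` +
  `± ∑_{o ∈ out} dirn^(6κ) (zb - za) (ker (pc (F o) - ζ) - ker (za o - ζ))` + `± ∑_{o ∈ out \ O1} dirn^(6κ) (zb - za) ker (za o - ζ)`.
  `‖dirn‖ ≤ 1`.  If `F o` is `Mid`: `‖pc (F o) - za o‖ ≤ 31` (`diam`, `shift`), `‖zb - za‖ ≤ 32`, `ker_lip`: `≤ 8 · 31 · 32 q1²`.  Otherwise `ker_le` twice.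
-/

namespace Pool.Agent.Helper38.RG

open Finset

variable {D Fc : Type} [Fintype D] [DecidableEq D] [Fintype Fc] [DecidableEq Fc]
variable {K : Cx D Fc} {C C' γ δ R : ℝ} {df : Fc → ℝ} {za zb : D → ℂ}

private theorem in_out {X : Fc} (hX : ¬ Bdy K X) : ∀ d, K.F d = X → d ∉ K.out :=
  fun d hd ho => hX ⟨d, hd, ho⟩

private theorem mem_fd' {X : Fc} {d : D} (hd : d ∈ K.fd X) : K.F d = X := by
  simpa [Cx.fd] using hd

theorem face_in (h : HypF K C δ R df) {X : Fc} (hX : ¬ Bdy K X) {κ : ℕ} (hκ : κ ≤ 1) :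
    ‖∑ d ∈ K.fd X, K.v d ^ (6 * κ + 1)‖ ≤ 2 * 10 ^ 8 * (C * df X) := by
  have hC := h.C_one
  have hdf := h.df_nonneg X
  have hCd : 0 ≤ C * df X := by positivity
  have hin := in_out hX
  obtain rfl | rfl : κ = 0 ∨ κ = 1 := by omega
  · have e : ∑ d ∈ K.fd X, K.v d ^ (6 * 0 + 1) = 0 := by
      rw [← sum_fd_v K X]
      exact sum_congr rfl fun d _ => by rw [mul_zero, zero_add, pow_one]
    rw [e, norm_zero]
    positivity
  · by_cases h6 : (K.fd X).card = 6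
    · have h1 := M_in K hin h6 (e := √(C * df X)) (Real.sqrt_nonneg _)
        (fun d hd => h.v_le d (hin d hd)) (fun d hd => by
          have h2 := h.in_six X hX h6 d hd
          exact ⟨Real.le_sqrt_of_sq_le h2.1, Real.abs_le_sqrt h2.2⟩)
      rw [Real.sq_sqrt hCd] at h1
      exact h1
    · have h1 := h.in_ne X hX h6
      calc ‖∑ d ∈ K.fd X, K.v d ^ (6 * 1 + 1)‖ ≤ ∑ d ∈ K.fd X, ‖K.v d ^ (6 * 1 + 1)‖ :=
            norm_sum_le _ _
        _ ≤ ∑ _d ∈ K.fd X, (3 : ℝ) ^ 7 := by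
            refine sum_le_sum fun d hd => ?_
            rw [norm_pow]
            exact pow_le_pow_left₀ (norm_nonneg _) (h.v_le d (hin d (mem_fd' hd))) _
        _ = (K.fd X).card * (3 : ℝ) ^ 7 := by rw [sum_const, nsmul_eq_mul]
        _ ≤ (C * df X) * (3 : ℝ) ^ 7 := by gcongr
        _ ≤ 2 * 10 ^ 8 * (C * df X) := by nlinarith

private theorem seg_le (hM : HypM K C' γ za zb df) {d : D} (hd : d ∈ K.out) :
    ‖zb d - za d‖ ≤ ‖K.v d‖ + 2 := by
  have h1 := hM.shift d hd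
  have e : zb d - za d = (zb d - K.z (K.s d)) + K.v d - (za d - K.z d) := by
    rw [Cx.v]
    ring
  rw [e]
  refine (norm_sub_le _ _).trans ?_
  have := norm_add_le (zb d - K.z (K.s d)) (K.v d)
  linarith [h1.1, h1.2]

theorem out_len (h : HypF K C δ R df) (hM : HypM K C' γ za zb df) {X : Fc} (hX : Bdy K X) :
    ∑ d ∈ (K.fd X).filter (fun d => d ∈ K.out), ‖zb d - za d‖ ≤ 19 + 3 * C * df X := by
  have h1 := h.bd_len X hX
  have h2 := h.bd_card X hX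
  have h3 : (((K.fd X).filter (fun d => d ∈ K.out)).card : ℝ) ≤ (K.fd X).card := by
    exact_mod_cast card_filter_le _ _
  calc ∑ d ∈ (K.fd X).filter (fun d => d ∈ K.out), ‖zb d - za d‖
      ≤ ∑ d ∈ (K.fd X).filter (fun d => d ∈ K.out), (‖K.v d‖ + 2) :=
        sum_le_sum fun d hd => seg_le hM (mem_filter.1 hd).2
    _ = ∑ d ∈ (K.fd X).filter (fun d => d ∈ K.out), ‖K.v d‖ +
        2 * ((K.fd X).filter (fun d => d ∈ K.out)).card := by
        rw [sum_add_distrib, sum_const, nsmul_eq_mul]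
        ring
    _ ≤ 19 + 3 * C * df X := by linarith

private theorem sum_faces (K : Cx D Fc) (p : D → Prop) [DecidablePred p] (f : D → ℂ) :
    ∑ X, ∑ d ∈ (K.fd X).filter p, f d = ∑ d ∈ univ.filter p, f d := by
  rw [← Finset.sum_fiberwise (univ.filter p) K.F f]
  refine sum_congr rfl fun X _ => sum_congr ?_ fun _ _ => rfl
  ext d
  simp [Cx.fd, and_comm]

private theorem dirn_le (v : ℂ) : ‖dirn v‖ ≤ 1 := by
  rw [dirn, norm_div, Complex.norm_real, norm_norm]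
  exact div_self_le_one _

private theorem u_le (v : ℂ) (n : ℕ) : ‖dirn v ^ n * v‖ ≤ ‖v‖ := by
  rw [norm_mul, norm_pow]
  exact mul_le_of_le_one_left (norm_nonneg _) (pow_le_one₀ (norm_nonneg _) (dirn_le v))

private theorem E_le (h : HypF K C δ R df) (hM : HypM K C' γ za zb df) {κ : ℕ} (hκ : κ ≤ 1)
    (X : Fc) [Decidable (Bdy K X)] :
    ‖∑ d ∈ (K.fd X).filter (fun d => d ∉ K.out), K.v d ^ (6 * κ + 1) -
      (-1) ^ (κ + 1) * ∑ d ∈ (K.fd X).filter (fun d => d ∈ K.out),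
        dirn (zb d - za d) ^ (6 * κ) * (zb d - za d)‖ ≤
      2 * 10 ^ 8 * (C * df X) + if Bdy K X then γ + C' * df X else 0 := by
  have hC := h.C_one
  have hdf := h.df_nonneg X
  by_cases hX : Bdy K X
  · rw [if_pos hX]
    have h1 := hM.bd_M X hX κ hκ
    have h2 : 0 ≤ 2 * 10 ^ 8 * (C * df X) := by positivity
    linarith
  · rw [if_neg hX, add_zero]
    have hin := in_out hX
    have e1 : (K.fd X).filter (fun d => d ∉ K.out) = K.fd X :=
      filter_true_of_mem fun d hd => hin d (mem_fd' hd)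
    have e2 : (K.fd X).filter (fun d => d ∈ K.out) = ∅ :=
      filter_false_of_mem fun d hd => hin d (mem_fd' hd)
    rw [e1, e2, sum_empty, mul_zero, sub_zero]
    exact face_in h hX hκ

private theorem mid_term (hM : HypM K C' γ za zb df) {s : ℝ} (hs : 200 ≤ s) (ζ : ℂ) {d : D}
    (hd : d ∈ K.out) (hm : K.Mid (K.F d)) (n : ℕ) :
    ‖dirn (zb d - za d) ^ n * (zb d - za d) *
      (ker s (K.pc (K.F d) - ζ) - ker s (za d - ζ))‖ ≤ 8000 * q1 s (za d - ζ) ^ 2 := by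
  have hv : ‖K.v d‖ ≤ 30 := by
    refine le_trans ?_ hm.2.2
    exact single_le_sum (f := fun d => ‖K.v d‖) (fun _ _ => norm_nonneg _)
      (show d ∈ K.fd (K.F d) by simp [Cx.fd])
  have h1 : ‖zb d - za d‖ ≤ 32 := by linarith [seg_le hM hd]
  have h2 : ‖za d - ζ - (K.pc (K.F d) - ζ)‖ ≤ 31 := by
    have e : za d - ζ - (K.pc (K.F d) - ζ) = (za d - K.z d) - (K.pc (K.F d) - K.z d) := by ring
    rw [e]
    refine (norm_sub_le _ _).trans ?_
    linarith [(hM.shift d hd).1, diam K d, hm.2.2]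
  have h3 := ker_lip hs (z := za d - ζ) (z' := K.pc (K.F d) - ζ) (by linarith)
  have hq : 0 ≤ q1 s (za d - ζ) ^ 2 := sq_nonneg _
  rw [norm_mul, norm_sub_rev (ker s (K.pc (K.F d) - ζ))]
  calc ‖dirn (zb d - za d) ^ n * (zb d - za d)‖ * ‖ker s (za d - ζ) - ker s (K.pc (K.F d) - ζ)‖
      ≤ 32 * (8 * 31 * q1 s (za d - ζ) ^ 2) := by
        refine mul_le_mul ((u_le _ _).trans h1) (h3.trans ?_) (norm_nonneg _) (by norm_num)
        gcongr
    _ ≤ 8000 * q1 s (za d - ζ) ^ 2 := by linarith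

open scoped Classical in
theorem left_pt (h : HypF K C δ R df) (hM : HypM K C' γ za zb df) {O1 : Finset D}
    (hO : O1 ⊆ K.out) {s : ℝ} (hs : 200 ≤ s) {κ : ℕ} (hκ : κ ≤ 1) (ζ : ℂ) :
    ‖EE K κ s ζ - (-1) ^ (κ + 1) * SS O1 za zb κ s ζ‖ ≤
      ∑ X, 2 * 10 ^ 8 * (C * df X) * q1 s (K.pc X - ζ) +
      ∑ X ∈ univ.filter (Bdy K), (γ + C' * df X) * q1 s (K.pc X - ζ) +
      ∑ d ∈ K.out, 8000 * q1 s (za d - ζ) ^ 2 +
      ∑ d ∈ K.out.filter (fun d => ¬ K.Mid (K.F d)),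
        ‖zb d - za d‖ * (q1 s (K.pc (K.F d) - ζ) + q1 s (za d - ζ)) +
      ∑ d ∈ K.out \ O1, ‖zb d - za d‖ * q1 s (za d - ζ) := by
  have hs0 : 0 < s := by linarith
  obtain ⟨k, hk⟩ : ∃ k : Fc → ℂ, k = fun X => ker s (K.pc X - ζ) := ⟨_, rfl⟩
  obtain ⟨u, hu⟩ : ∃ u : D → ℂ, u = fun d => dirn (zb d - za d) ^ (6 * κ) * (zb d - za d) :=
    ⟨_, rfl⟩
  obtain ⟨σ, hσ⟩ : ∃ σ : ℂ, σ = (-1) ^ (κ + 1) := ⟨_, rfl⟩
  obtain ⟨M, hMd⟩ : ∃ M : Fc → ℂ, M = fun X =>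
    ∑ d ∈ (K.fd X).filter (fun d => d ∉ K.out), K.v d ^ (6 * κ + 1) := ⟨_, rfl⟩
  obtain ⟨N, hNd⟩ : ∃ N : Fc → ℂ, N = fun X =>
    ∑ d ∈ (K.fd X).filter (fun d => d ∈ K.out), u d := ⟨_, rfl⟩
  have hσ1 : ‖σ‖ = 1 := by rw [hσ]; simp
  have hkX : ∀ X, ‖k X‖ ≤ q1 s (K.pc X - ζ) := fun X => by
    rw [hk]
    exact ker_le hs0 _
  have hE : ∀ X, ‖M X - σ * N X‖ ≤
      2 * 10 ^ 8 * (C * df X) + if Bdy K X then γ + C' * df X else 0 := by
    intro X
    have := E_le h hM hκ X (κ := κ)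
    rw [hMd, hNd, hσ, hu]
    exact this
  have hEE : EE K κ s ζ = ∑ X, k X * M X := by
    rw [EE, ← sum_faces K (fun d => d ∉ K.out), hMd]
    refine sum_congr rfl fun X _ => ?_
    rw [mul_sum]
    refine sum_congr rfl fun d hd => ?_
    rw [mem_fd' (mem_filter.1 hd).1, hk, mul_comm]
  have hN : ∑ X, k X * N X = ∑ d ∈ K.out, u d * k (K.F d) := by
    have e : K.out = univ.filter (fun d => d ∈ K.out) := by
      ext d
      simp
    rw [e, ← sum_faces K (fun d => d ∈ K.out), hNd]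
    refine sum_congr rfl fun X _ => ?_
    rw [mul_sum]
    refine sum_congr ?_ fun d hd => ?_
    · ext d
      simp
    · rw [mem_fd' (mem_filter.1 hd).1, mul_comm]
  have hSS : SS O1 za zb κ s ζ = ∑ d ∈ O1, u d * ker s (za d - ζ) := by
    rw [hu]
    rfl
  have hsplit : ∑ d ∈ K.out, u d * ker s (za d - ζ) =
      ∑ d ∈ K.out \ O1, u d * ker s (za d - ζ) + ∑ d ∈ O1, u d * ker s (za d - ζ) :=
    (Finset.sum_sdiff hO).symm
  have key : EE K κ s ζ - σ * SS O1 za zb κ s ζ =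
      ∑ X, k X * (M X - σ * N X) +
        σ * (∑ d ∈ K.out, u d * (k (K.F d) - ker s (za d - ζ)) +
          ∑ d ∈ K.out \ O1, u d * ker s (za d - ζ)) := by
    have e1 : ∑ X, k X * (M X - σ * N X) = ∑ X, k X * M X - σ * ∑ X, k X * N X := by
      rw [mul_sum, ← sum_sub_distrib]
      exact sum_congr rfl fun X _ => by ring
    have e2 : ∑ d ∈ K.out, u d * (k (K.F d) - ker s (za d - ζ)) =
        ∑ d ∈ K.out, u d * k (K.F d) - ∑ d ∈ K.out, u d * ker s (za d - ζ) := by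
      rw [← sum_sub_distrib]
      exact sum_congr rfl fun d _ => by ring
    rw [e1, e2, hsplit, hN, hEE, hSS]
    ring
  rw [← hσ, key]
  have b1 : ‖∑ X, k X * (M X - σ * N X)‖ ≤
      ∑ X, 2 * 10 ^ 8 * (C * df X) * q1 s (K.pc X - ζ) +
        ∑ X ∈ univ.filter (Bdy K), (γ + C' * df X) * q1 s (K.pc X - ζ) := by
    refine (norm_sum_le _ _).trans ?_
    rw [sum_filter, ← sum_add_distrib]
    refine sum_le_sum fun X _ => ?_
    rw [norm_mul]
    calc ‖k X‖ * ‖M X - σ * N X‖ ≤ q1 s (K.pc X - ζ) *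
          (2 * 10 ^ 8 * (C * df X) + if Bdy K X then γ + C' * df X else 0) :=
          mul_le_mul (hkX X) (hE X) (norm_nonneg _) (q1_pos hs0 _).le
      _ = _ := by
          split_ifs
          · ring
          · ring
  have b2 : ‖∑ d ∈ K.out, u d * (k (K.F d) - ker s (za d - ζ))‖ ≤
      ∑ d ∈ K.out, 8000 * q1 s (za d - ζ) ^ 2 +
      ∑ d ∈ K.out.filter (fun d => ¬ K.Mid (K.F d)),
        ‖zb d - za d‖ * (q1 s (K.pc (K.F d) - ζ) + q1 s (za d - ζ)) := by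
    refine (norm_sum_le _ _).trans ?_
    rw [sum_filter, ← sum_add_distrib]
    refine sum_le_sum fun d hd => ?_
    by_cases hm : K.Mid (K.F d)
    · rw [if_neg (not_not.2 hm), add_zero, hu, hk]
      exact mid_term hM hs ζ hd hm (6 * κ)
    · rw [if_pos hm, norm_mul]
      have h1 : ‖u d‖ ≤ ‖zb d - za d‖ := by
        rw [hu]
        exact u_le _ _
      have h2 : ‖k (K.F d) - ker s (za d - ζ)‖ ≤
          q1 s (K.pc (K.F d) - ζ) + q1 s (za d - ζ) :=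
        (norm_sub_le _ _).trans (add_le_add (hkX _) (ker_le hs0 _))
      have h3 := mul_le_mul h1 h2 (norm_nonneg _) (norm_nonneg _)
      have h4 : 0 ≤ 8000 * q1 s (za d - ζ) ^ 2 := by positivity
      linarith
  have b3 : ‖∑ d ∈ K.out \ O1, u d * ker s (za d - ζ)‖ ≤
      ∑ d ∈ K.out \ O1, ‖zb d - za d‖ * q1 s (za d - ζ) := by
    refine (norm_sum_le _ _).trans (sum_le_sum fun d _ => ?_)
    rw [norm_mul]
    refine mul_le_mul ?_ (ker_le hs0 _) (norm_nonneg _) (norm_nonneg _)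
    rw [hu]
    exact u_le _ _
  calc _ ≤ ‖∑ X, k X * (M X - σ * N X)‖ +
        ‖σ * (∑ d ∈ K.out, u d * (k (K.F d) - ker s (za d - ζ)) +
          ∑ d ∈ K.out \ O1, u d * ker s (za d - ζ))‖ := norm_add_le _ _
    _ ≤ ‖∑ X, k X * (M X - σ * N X)‖ + (‖∑ d ∈ K.out, u d * (k (K.F d) - ker s (za d - ζ))‖ +
          ‖∑ d ∈ K.out \ O1, u d * ker s (za d - ζ)‖) := by
        rw [norm_mul, hσ1, one_mul]
        gcongr
        exact norm_add_le _ _
    _ ≤ _ := by linarith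

end Pool.Agent.Helper38.RG
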