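import Pool.Agent.Helper38.RG.Ker

/-!
# RG-02: measurability and integrability

* `ker`, `Er` are piecewise continuous: `Measurable.ite`, `measurableSet_lt`, `Measurable` of `‖·‖`, `starRingEnd` (`Complex.continuous_conj`), `⁻¹`; `q1` is continuous.
* `WW`, `EE`, `SS`: finite sums (`Finset.measurable_sum`, `Measurable.ite`, `Measurable.const_mul`).
* `intg`: a bounded measurable function is integrable on a set of finite measure (`MeasureTheory.IntegrableOn`, `Measure.integrableOn_of_bounded`).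
* `ball_area`: `Complex.volume_ball`.
-/

namespace Pool.Agent.Helper38.RG

open Finset MeasureTheory

variable {D Fc : Type} [Fintype D] [DecidableEq D] [Fintype Fc] [DecidableEq Fc]

private theorem h86_meas_sub (p : ℂ) : Measurable fun ζ : ℂ => p - ζ :=
  measurable_const.sub measurable_id

theorem meas_q1 (s : ℝ) (p : ℂ) : Measurable fun ζ => q1 s (p - ζ) := by
  unfold q1
  exact ((h86_meas_sub p).norm.max measurable_const).inv

theorem meas_Er (s : ℝ) (p : ℂ) : Measurable fun ζ => Er s (p - ζ) := by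
  unfold Er
  refine (((meas_q1 s p).pow_const 3).const_mul 32).add ?_
  refine Measurable.ite ?_ measurable_const measurable_const
  refine measurableSet_le ?_ measurable_const
  exact continuous_abs.measurable.comp ((h86_meas_sub p).norm.sub measurable_const)

theorem meas_ker (s : ℝ) (p : ℂ) : Measurable fun ζ => ker s (p - ζ) := by
  unfold ker
  refine Measurable.ite ?_ ?_ ?_
  · exact measurableSet_lt (h86_meas_sub p).norm measurable_const
  · exact (Complex.continuous_conj.measurable.comp (h86_meas_sub p)).div measurable_const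
  · exact (h86_meas_sub p).inv

theorem meas_WW (K : Cx D Fc) (e : Fc → ℝ) (η : ℝ) (κ : ℕ) (s : ℝ) :
    Measurable fun ζ => WW K e η κ s ζ := by
  unfold WW
  refine Measurable.const_mul ?_ _
  refine Finset.measurable_sum _ fun d _ => ?_
  refine Measurable.ite ?_ measurable_const measurable_const
  exact measurableSet_lt (h86_meas_sub _).norm measurable_const

theorem meas_EE (K : Cx D Fc) (κ : ℕ) (s : ℝ) : Measurable fun ζ => EE K κ s ζ := by
  unfold EE
  exact Finset.measurable_sum _ fun d _ => (meas_ker s _).const_mul _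

theorem meas_SS (O1 : Finset D) (za zb : D → ℂ) (κ : ℕ) (s : ℝ) :
    Measurable fun ζ => SS O1 za zb κ s ζ := by
  unfold SS
  exact Finset.measurable_sum _ fun d _ => (meas_ker s _).const_mul _

theorem intg {E : Type} [NormedAddCommGroup E] {f : ℂ → E} (hf : AEStronglyMeasurable f volume)
    {M : ℝ} (hb : ∀ ζ, ‖f ζ‖ ≤ M) (z0 : ℂ) (r : ℝ) : IntegrableOn f (Metric.ball z0 r) volume :=
  Measure.integrableOn_of_bounded measure_ball_lt_top.ne hf
    (Filter.Eventually.of_forall hb)

theorem intg_q1 {s : ℝ} (hs : 0 < s) (p z0 : ℂ) (r : ℝ) :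
    IntegrableOn (fun ζ => q1 s (p - ζ)) (Metric.ball z0 r) volume :=
  intg (meas_q1 s p).aestronglyMeasurable (M := s⁻¹) (fun ζ => by
    rw [Real.norm_eq_abs, abs_of_pos (q1_pos hs _)]
    exact q1_le hs _) z0 r

theorem intg_q2 {s : ℝ} (hs : 0 < s) (p z0 : ℂ) (r : ℝ) :
    IntegrableOn (fun ζ => q1 s (p - ζ) ^ 2) (Metric.ball z0 r) volume :=
  intg ((meas_q1 s p).pow_const 2).aestronglyMeasurable (M := s⁻¹ ^ 2) (fun ζ => by
    rw [Real.norm_eq_abs, abs_of_nonneg (by positivity)]
    exact pow_le_pow_left₀ (q1_pos hs _).le (q1_le hs _) 2) z0 r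

theorem intg_Er {s : ℝ} (hs : 0 < s) (p z0 : ℂ) (r : ℝ) :
    IntegrableOn (fun ζ => Er s (p - ζ)) (Metric.ball z0 r) volume :=
  intg (meas_Er s p).aestronglyMeasurable (M := 32 * s⁻¹ ^ 3 + 32 / s ^ 2) (fun ζ => by
    have h1 : 0 ≤ 32 * q1 s (p - ζ) ^ 3 := by
      have := q1_pos hs (p - ζ)
      positivity
    have h2 : 32 * q1 s (p - ζ) ^ 3 ≤ 32 * s⁻¹ ^ 3 := by
      have := pow_le_pow_left₀ (q1_pos hs (p - ζ)).le (q1_le hs (p - ζ)) 3
      linarith
    have h3 : (0 : ℝ) ≤ 32 / s ^ 2 := by positivity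
    unfold Er
    split_ifs
    · rw [Real.norm_eq_abs, abs_of_nonneg (by linarith)]
      linarith
    · rw [Real.norm_eq_abs, abs_of_nonneg (by linarith)]
      linarith) z0 r

private theorem h86_intg_ker {s : ℝ} (hs : 0 < s) (p z0 : ℂ) (r : ℝ) :
    IntegrableOn (fun ζ => ker s (p - ζ)) (Metric.ball z0 r) volume :=
  intg (meas_ker s p).aestronglyMeasurable (M := s⁻¹) (fun ζ =>
    (ker_le hs _).trans (q1_le hs _)) z0 r

theorem intg_WW (K : Cx D Fc) (e : Fc → ℝ) (η : ℝ) (κ : ℕ) (s : ℝ) (z0 : ℂ) (r : ℝ) :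
    IntegrableOn (fun ζ => WW K e η κ s ζ) (Metric.ball z0 r) volume := by
  unfold WW
  refine Integrable.const_mul ?_ _
  refine integrable_finsetSum _ fun d _ => ?_
  refine intg (M := ‖K.v d ^ (6 * κ)‖) ?_ ?_ z0 r
  · refine (Measurable.ite ?_ measurable_const measurable_const).aestronglyMeasurable
    exact measurableSet_lt (h86_meas_sub _).norm measurable_const
  · intro ζ
    split_ifs
    · exact le_rfl
    · rw [norm_zero]
      exact norm_nonneg _

theorem intg_EE (K : Cx D Fc) (κ : ℕ) {s : ℝ} (hs : 0 < s) (z0 : ℂ) (r : ℝ) :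
    IntegrableOn (fun ζ => EE K κ s ζ) (Metric.ball z0 r) volume := by
  unfold EE
  exact integrable_finsetSum _ fun d _ => (h86_intg_ker hs _ z0 r).const_mul _

theorem intg_SS (O1 : Finset D) (za zb : D → ℂ) (κ : ℕ) {s : ℝ} (hs : 0 < s) (z0 : ℂ) (r : ℝ) :
    IntegrableOn (fun ζ => SS O1 za zb κ s ζ) (Metric.ball z0 r) volume := by
  unfold SS
  exact integrable_finsetSum _ fun d _ => (h86_intg_ker hs _ z0 r).const_mul _

/-- the area of the ball -/
theorem ball_area (z0 : ℂ) {r : ℝ} (hr : 0 ≤ r) : (volume (Metric.ball z0 r)).toReal = Real.pi * r ^ 2 := by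
  rw [Complex.volume_ball, ENNReal.toReal_mul, ENNReal.toReal_pow, ENNReal.toReal_ofReal hr,
    mul_comm]
  rfl

end Pool.Agent.Helper38.RG
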