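import Pool.Agent.Helper38.RG.Walk
import Pool.Agent.Helper38.RG.Lattice

/-!
# RG-22: the patch of a good dart fills the disc

`η ≤ 1/(10^4 m²)`, `2 s ≤ m`, `200 ≤ s`.  `patch m d = {s^j (YY a b d) : j < 6, |a|, |b| ≤ m}`.
* `patch_w`: for `x = s^j (YY a b d)`: `‖v x - om^j v (YY a b d)‖ ≤ 5 η` (`reg_v`), `om^6 = 1`, `‖v (YY) - v d‖ ≤ 10 m η ≤ .001` (`YY_geo`), so
  `‖v x ^ 6 - v d ^ 6‖ ≤ 6 · 1.01^5 (5 η + .001) ≤ .008`; `|‖v d‖ - 1| ≤ η`.
* `patch_count`: if `‖pc (F d) - ζ‖ < s`: the number of `(a, b)`, `|a|, |b| ≤ m`, with `‖pc (F (YY a b d)) - ζ‖ < s` is at least the number of those with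
  `‖√3 i (a + b om) v - (pc (F d) - ζ)‖ < s - .01` (`YY_geo`, `100 m² η ≤ .01`), i.e. `‖(a + b om) - q‖ < r` with `q = (pc (F d) - ζ)/(√3 i v)`, `r = (s - .01)/(√3 ‖v‖) ≥ .5716 s ≥ 100`,
  `‖q‖ ≤ .584 s`, `1.2 (r + ‖q‖) ≤ 2 s ≤ m` (use `r = .5716 s`): `lat_count` gives `≥ .9 · (2/√3) π (.5716 s)²`.  Every `(a, b)` gives six
  different darts of the face, and different `(a, b)` give different faces (the `pc` differ: `lat_one`, `YY_geo`).  So
  `#(patch ∩ disc) ≥ 6 · .9 · (2/√3) π (.5716)² s²` and `(√3/(4π s²))` times this is `≥ .88`.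
-/

set_option linter.unusedSectionVars false
set_option linter.unusedVariables false

namespace Pool.Agent.Helper38.RG

open Finset

variable {D Fc : Type} [Fintype D] [DecidableEq D] [Fintype Fc] [DecidableEq Fc]

/-- the darts near `d` -/
noncomputable def patch (K : Cx D Fc) (m : ℕ) (d : D) : Finset D :=
  ((Icc (-(m : ℤ)) m ×ˢ Icc (-(m : ℤ)) m) ×ˢ range 6).image
    fun x => (K.s ^ x.2) (YY K x.1.1 x.1.2 d)

variable {K : Cx D Fc} {e : Fc → ℝ} {η s : ℝ} {m : ℕ} {d : D}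

private lemma eta_bd (hη : η ≤ 1 / (10 ^ 4 * m ^ 2)) (hm : 1 ≤ m) (hη0 : 0 ≤ η) :
    η ≤ 1 / 10 ^ 4 ∧ m * η ≤ 1 / 10 ^ 4 ∧ (m : ℝ) ^ 2 * η ≤ 1 / 10 ^ 4 := by
  have hm1 : (1 : ℝ) ≤ m := by exact_mod_cast hm
  have hm2 : (m : ℝ) ≤ (m : ℝ) ^ 2 := by nlinarith
  have h1 : (m : ℝ) ^ 2 * η ≤ 1 / 10 ^ 4 := by
    rw [le_div_iff₀ (by positivity)] at hη
    rw [le_div_iff₀ (by positivity)]
    linarith
  have h2 : (m : ℝ) * η ≤ (m : ℝ) ^ 2 * η := mul_le_mul_of_nonneg_right hm2 hη0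
  have h3 : η ≤ (m : ℝ) * η := le_mul_of_one_le_left hη0 hm1
  exact ⟨by linarith, by linarith, h1⟩

private lemma mem_patch {x : D} : x ∈ patch K m d ↔ ∃ a b : ℤ, ∃ j : ℕ, |a| ≤ m ∧ |b| ≤ m ∧
    j < 6 ∧ (K.s ^ j) (YY K a b d) = x := by
  unfold patch
  simp only [mem_image, mem_product, mem_Icc, mem_range, Prod.exists]
  constructor
  · rintro ⟨a, b, j, ⟨⟨⟨h1, h2⟩, h3, h4⟩, h5⟩, h6⟩
    exact ⟨a, b, j, abs_le.2 ⟨h1, h2⟩, abs_le.2 ⟨h3, h4⟩, h5, h6⟩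
  · rintro ⟨a, b, j, h1, h2, h5, h6⟩
    exact ⟨a, b, j, ⟨⟨abs_le.1 h1, abs_le.1 h2⟩, h5⟩, h6⟩

private lemma YY_zero (K : Cx D Fc) (d : D) : YY K 0 0 d = d := by
  unfold YY
  simp

private lemma good_d (h : Good K e η m d) : K.Reg e η (K.F d) := by
  have h1 := h 0 0 (by simp) (by simp)
  rwa [YY_zero] at h1

private lemma eta_nonneg (h : Good K e η m d) : 0 ≤ η :=
  (good_d h).2.2.1.trans (good_d h).2.2.2.1

theorem patch_reg (hη : η ≤ 1 / (10 ^ 4 * m ^ 2)) (hm : 1 ≤ m) (h : Good K e η m d) {x : D}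
    (hx : x ∈ patch K m d) : K.Reg e η (K.F x) := by
  obtain ⟨a, b, j, ha, hb, hj, rfl⟩ := mem_patch.1 hx
  rw [F_pow]
  exact h a b ha hb

private theorem pow_sub_le' {x y : ℂ} {M : ℝ} (hx : ‖x‖ ≤ M) (hy : ‖y‖ ≤ M) (m : ℕ) :
    ‖x ^ (m + 1) - y ^ (m + 1)‖ ≤ (m + 1) * M ^ m * ‖x - y‖ := by
  have hM : 0 ≤ M := (norm_nonneg x).trans hx
  induction m with
  | zero => simp
  | succ m ih =>
    have e : x ^ (m + 1 + 1) - y ^ (m + 1 + 1) =
        x * (x ^ (m + 1) - y ^ (m + 1)) + (x - y) * y ^ (m + 1) := by ring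
    rw [e]
    have h1 : ‖x * (x ^ (m + 1) - y ^ (m + 1))‖ ≤ M * ((m + 1) * M ^ m * ‖x - y‖) := by
      rw [norm_mul]
      exact mul_le_mul hx ih (norm_nonneg _) hM
    have h2 : ‖(x - y) * y ^ (m + 1)‖ ≤ ‖x - y‖ * M ^ (m + 1) := by
      rw [norm_mul, norm_pow]
      exact mul_le_mul_of_nonneg_left (pow_le_pow_left₀ (norm_nonneg _) hy _) (norm_nonneg _)
    refine (norm_add_le _ _).trans ((add_le_add h1 h2).trans (le_of_eq ?_))
    push_cast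
    ring

private theorem om_six' : om ^ 6 = 1 := by
  have : om ^ 6 = om ^ 3 * om ^ 3 := by ring
  rw [this, om_cube]
  ring

private lemma v_rot (hη : η ≤ 1 / 100) {y : D} (hr : K.Reg e η (K.F y)) {j : ℕ} (hj : j < 6) :
    ‖K.v ((K.s ^ j) y) - om ^ j * K.v y‖ ≤ 3 * η := by
  have he0 : 0 ≤ e (K.F y) := hr.2.2.1
  have he1 : e (K.F y) ≤ η := hr.2.2.2.1
  by_cases hj3 : j ≤ 3
  · have h1 := reg_v hr rfl j
    have h2 : (j : ℝ) ≤ 3 := by exact_mod_cast hj3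
    have h3 : (j : ℝ) * e (K.F y) ≤ 3 * η := mul_le_mul h2 he1 he0 (by norm_num)
    exact h1.trans h3
  · obtain ⟨i, hi⟩ : ∃ i, i + j = 6 := ⟨6 - j, by omega⟩
    have hF : K.F ((K.s ^ j) y) = K.F y := F_pow K j y
    have h1 := reg_v hr hF i
    have h4 : (K.s ^ i) ((K.s ^ j) y) = y := by
      rw [← Equiv.Perm.mul_apply, ← pow_add, hi]
      exact reg_pow6 hη hr rfl
    rw [h4] at h1
    have h5 : K.v ((K.s ^ j) y) - om ^ j * K.v y =
        -(om ^ j * (K.v y - om ^ i * K.v ((K.s ^ j) y))) := by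
      have h6 : om ^ j * om ^ i = 1 := by rw [← pow_add, add_comm, hi, om_six']
      linear_combination (-(K.v ((K.s ^ j) y))) * h6
    rw [h5, norm_neg, norm_mul, norm_pow, norm_om, one_pow, one_mul]
    have h2 : (i : ℝ) ≤ 3 := by
      have : i ≤ 3 := by omega
      exact_mod_cast this
    have h3 : (i : ℝ) * e (K.F y) ≤ 3 * η := mul_le_mul h2 he1 he0 (by norm_num)
    exact h1.trans h3

private lemma norm_v (hr : K.Reg e η (K.F d)) : |‖K.v d‖ - 1| ≤ η :=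
  ((hr.2.2.2.2 d rfl).2).trans hr.2.2.2.1

theorem patch_w (hη : η ≤ 1 / (10 ^ 4 * m ^ 2)) (hm : 1 ≤ m) (h : Good K e η m d) {x : D}
    (hx : x ∈ patch K m d) : ‖K.v x ^ 6 - K.v d ^ 6‖ ≤ 0.008 := by
  have hη0 := eta_nonneg h
  obtain ⟨h1, h2, h3⟩ := eta_bd hη hm hη0
  have hη1 : η ≤ 1 / 100 := by linarith
  obtain ⟨a, b, j, ha, hb, hj, rfl⟩ := mem_patch.1 hx
  obtain ⟨y, hy⟩ : ∃ y, y = YY K a b d := ⟨_, rfl⟩
  have hry : K.Reg e η (K.F y) := by rw [hy]; exact h a b ha hb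
  have hrx : K.Reg e η (K.F ((K.s ^ j) y)) := by rw [F_pow]; exact hry
  rw [← hy]
  have hv1 := v_rot hη1 hry hj
  have hv2 := (YY_geo hη1 h ha hb).1
  rw [← hy] at hv2
  have n1 := (abs_le.1 (norm_v hrx)).2
  have n2 := (abs_le.1 (norm_v hry)).2
  have n3 := (abs_le.1 (norm_v (good_d h))).2
  have m1 : ‖K.v ((K.s ^ j) y)‖ ≤ 1.0001 := by norm_num at h1 ⊢; linarith
  have m2 : ‖K.v y‖ ≤ 1.0001 := by norm_num at h1 ⊢; linarith
  have m3 : ‖K.v d‖ ≤ 1.0001 := by norm_num at h1 ⊢; linarith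
  have m4 : ‖om ^ j * K.v y‖ ≤ 1.0001 := by
    rw [norm_mul, norm_pow, norm_om, one_pow, one_mul]; exact m2
  have p1 := pow_sub_le' m1 m4 5
  have p2 := pow_sub_le' m2 m3 5
  have e1 : (om ^ j * K.v y) ^ (5 + 1) = K.v y ^ (5 + 1) := by
    rw [mul_pow, ← pow_mul, mul_comm j, pow_mul, om_six', one_pow, one_mul]
  rw [e1] at p1
  have e2 : K.v ((K.s ^ j) y) ^ 6 - K.v d ^ 6 =
      (K.v ((K.s ^ j) y) ^ (5 + 1) - K.v y ^ (5 + 1)) + (K.v y ^ (5 + 1) - K.v d ^ (5 + 1)) := by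
    ring
  rw [e2]
  have c1 : (((5 : ℕ) : ℝ) + 1) * (1.0001 : ℝ) ^ 5 ≤ 6.0031 := by norm_num
  have q1 : (((5 : ℕ) : ℝ) + 1) * (1.0001 : ℝ) ^ 5 * ‖K.v ((K.s ^ j) y) - om ^ j * K.v y‖ ≤
      6.0031 * (3 * η) := mul_le_mul c1 hv1 (norm_nonneg _) (by norm_num)
  have q2 : (((5 : ℕ) : ℝ) + 1) * (1.0001 : ℝ) ^ 5 * ‖K.v y - K.v d‖ ≤
      6.0031 * (10 * m * η) := mul_le_mul c1 hv2 (norm_nonneg _) (by norm_num)
  have f1 : 10 * (m : ℝ) * η ≤ 10 * (1 / 10 ^ 4) := by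
    rw [mul_assoc]
    exact mul_le_mul_of_nonneg_left h2 (by norm_num)
  refine (norm_add_le _ _).trans ?_
  have := (p1.trans q1)
  have := (p2.trans q2)
  norm_num at h1 f1 ⊢
  linarith

private lemma rot_inj (hη : η ≤ 1 / 100) {y : D} (hr : K.Reg e η (K.F y)) {k : ℕ} (h0 : 0 < k)
    (hk : k < 6) : (K.s ^ k) y ≠ y := by
  intro hcon
  have h1 := reg_sum hη hr rfl (fun d' => if d' = y then (1 : ℕ) else 0)
  have hmem : y ∈ K.fd (K.F y) := by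
    unfold Cx.fd
    simp
  rw [Finset.sum_ite_eq' (K.fd (K.F y)) y (fun _ => (1 : ℕ)), if_pos hmem] at h1
  have h2 : ∑ j ∈ ({0, k} : Finset ℕ), (if (K.s ^ j) y = y then (1 : ℕ) else 0) ≤
      ∑ j ∈ range 6, (if (K.s ^ j) y = y then (1 : ℕ) else 0) := by
    refine Finset.sum_le_sum_of_subset ?_
    intro j hj
    rw [mem_insert, mem_singleton] at hj
    rw [mem_range]
    omega
  rw [Finset.sum_pair (by omega)] at h2
  simp only [hcon, if_true, pow_zero, Equiv.Perm.one_apply] at h2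
  rw [← h1] at h2
  omega

private lemma rot_inj' (hη : η ≤ 1 / 100) {y : D} (hr : K.Reg e η (K.F y)) {i j : ℕ}
    (hi : i < 6) (hj : j < 6) (h : (K.s ^ i) y = (K.s ^ j) y) : i = j := by
  by_contra hne
  rcases lt_or_gt_of_ne hne with hlt | hlt
  · refine rot_inj hη hr (k := j - i) (by omega) (by omega) ?_
    have h2 : (K.s ^ i) ((K.s ^ (j - i)) y) = (K.s ^ i) y := by
      rw [← Equiv.Perm.mul_apply, ← pow_add, show i + (j - i) = j by omega, h]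
    exact (K.s ^ i).injective h2
  · refine rot_inj hη hr (k := i - j) (by omega) (by omega) ?_
    have h2 : (K.s ^ j) ((K.s ^ (i - j)) y) = (K.s ^ j) y := by
      rw [← Equiv.Perm.mul_apply, ← pow_add, show j + (i - j) = i by omega, h]
    exact (K.s ^ j).injective h2

open scoped Classical in
theorem patch_count (hη : η ≤ 1 / (10 ^ 4 * m ^ 2)) (hs : 200 ≤ s) (hm : 2 * s ≤ m)
    (h : Good K e η m d) {ζ : ℂ} (hd : ‖K.pc (K.F d) - ζ‖ < s) :
    0.8 ≤ √3 / (4 * Real.pi * s ^ 2) *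
      (((patch K m d).filter (fun x => ‖K.pc (K.F x) - ζ‖ < s)).card : ℝ) := by
  have hm1 : 1 ≤ m := by
    have : (1 : ℝ) ≤ m := by linarith
    exact_mod_cast this
  have hη0 := eta_nonneg h
  obtain ⟨h1, h2, h3⟩ := eta_bd hη hm1 hη0
  have hη1 : η ≤ 1 / 100 := by linarith
  have hs0 : 0 < s := by linarith
  have s3p : 0 < √3 := Real.sqrt_pos.2 (by norm_num)
  have s3l : 1.7320508 < √3 := by
    rw [Real.lt_sqrt (by norm_num)]; norm_num
  have s3u : √3 < 1.7320509 := by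
    rw [Real.sqrt_lt' (by norm_num)]; norm_num
  obtain ⟨v, hv⟩ : ∃ v, v = K.v d := ⟨_, rfl⟩
  obtain ⟨c, hc⟩ : ∃ c : ℂ, c = (√3 : ℂ) * Complex.I * v := ⟨_, rfl⟩
  have nv := norm_v (good_d h)
  rw [← hv] at nv
  have nvu := (abs_le.1 nv).2
  have nvl := (abs_le.1 nv).1
  have vu : ‖v‖ ≤ 1.0001 := by norm_num at h1 ⊢; linarith
  have vl : 0.9999 ≤ ‖v‖ := by norm_num at h1 ⊢; linarith
  have nc : ‖c‖ = √3 * ‖v‖ := by
    rw [hc, norm_mul, norm_mul, Complex.norm_I, mul_one, Complex.norm_real, Real.norm_eq_abs,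
      abs_of_pos s3p]
  have cu : ‖c‖ ≤ 1.7320509 * 1.0001 := by
    rw [nc]; exact mul_le_mul s3u.le vu (norm_nonneg _) (by norm_num)
  have cl : 1.7320508 * 0.9999 ≤ ‖c‖ := by
    rw [nc]; exact mul_le_mul s3l.le vl (by norm_num) s3p.le
  have cpos : 0 < ‖c‖ := lt_of_lt_of_le (by norm_num) cl
  have cne : c ≠ 0 := norm_pos_iff.1 cpos
  obtain ⟨q, hq⟩ : ∃ q : ℂ, q = (K.pc (K.F d) - ζ) / c := ⟨_, rfl⟩
  have qn : ‖q‖ ≤ 0.584 * s := by
    rw [hq, norm_div, div_le_iff₀ cpos]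
    have : 0.584 * s * (1.7320508 * 0.9999) ≤ 0.584 * s * ‖c‖ :=
      mul_le_mul_of_nonneg_left cl (by positivity)
    norm_num at this ⊢
    linarith
  obtain ⟨r, hr⟩ : ∃ r : ℝ, r = 0.5716 * s := ⟨_, rfl⟩
  have hlat := lat_count (r := r) (by rw [hr]; norm_num; linarith) q m (by
    rw [hr]; norm_num at qn ⊢; linarith)
  obtain ⟨Λ, hΛ⟩ : ∃ Λ, Λ = (Icc (-(m : ℤ)) m ×ˢ Icc (-(m : ℤ)) m).filter
        (fun ab => ‖((ab.1 : ℝ) : ℂ) + ((ab.2 : ℝ) : ℂ) * om - q‖ < r) := ⟨_, rfl⟩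
  rw [← hΛ] at hlat
  have hpos : ∀ a b : ℤ, |a| ≤ m → |b| ≤ m →
      ‖K.pc (K.F (YY K a b d)) - K.pc (K.F d) + c * (((a : ℝ) : ℂ) + ((b : ℝ) : ℂ) * om)‖ ≤
        0.01 := by
    intro a b ha hb
    have g := (YY_geo hη1 h ha hb).2
    have e1 : K.pc (K.F (YY K a b d)) - K.pc (K.F d) +
        c * (((a : ℝ) : ℂ) + ((b : ℝ) : ℂ) * om) =
        K.pc (K.F (YY K a b d)) - K.pc (K.F d) +
        (√3 : ℂ) * Complex.I * (((a : ℝ) : ℂ) + ((b : ℝ) : ℂ) * om) * K.v d := by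
      rw [hc, hv]; ring
    rw [e1]
    refine g.trans ?_
    rw [mul_assoc]
    norm_num at h3 ⊢
    linarith
  have hmemΛ : ∀ ab ∈ Λ, |ab.1| ≤ m ∧ |ab.2| ≤ m ∧
      ‖((ab.1 : ℝ) : ℂ) + ((ab.2 : ℝ) : ℂ) * om - q‖ < r := by
    intro ab hab
    rw [hΛ, mem_filter, mem_product, mem_Icc, mem_Icc] at hab
    exact ⟨abs_le.2 hab.1.1, abs_le.2 hab.1.2, hab.2⟩
  -- the map
  have hcard : 6 * Λ.card ≤ ((patch K m d).filter (fun x => ‖K.pc (K.F x) - ζ‖ < s)).card := by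
    have e0 : (Λ ×ˢ range 6).card = 6 * Λ.card := by
      rw [card_product, card_range, mul_comm]
    rw [← e0]
    refine Finset.card_le_card_of_injOn (fun x => (K.s ^ x.2) (YY K x.1.1 x.1.2 d)) ?_ ?_
    · rintro ⟨⟨a, b⟩, j⟩ hx
      rw [mem_coe, mem_product, mem_range] at hx
      obtain ⟨ha, hb, hab⟩ := hmemΛ _ hx.1
      simp only at ha hb hab
      rw [mem_coe, mem_filter, mem_patch]
      refine ⟨⟨a, b, j, ha, hb, hx.2, rfl⟩, ?_⟩
      simp only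
      rw [F_pow]
      have g := hpos a b ha hb
      have e1 : K.pc (K.F (YY K a b d)) - ζ =
          (K.pc (K.F (YY K a b d)) - K.pc (K.F d) + c * (((a : ℝ) : ℂ) + ((b : ℝ) : ℂ) * om)) -
            c * (((a : ℝ) : ℂ) + ((b : ℝ) : ℂ) * om - q) := by
        have : c * q = K.pc (K.F d) - ζ := by rw [hq]; field_simp
        linear_combination -this
      rw [e1]
      refine (norm_sub_le _ _).trans_lt ?_
      rw [norm_mul]
      have e2 : ‖c‖ * ‖((a : ℝ) : ℂ) + ((b : ℝ) : ℂ) * om - q‖ ≤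
          1.7320509 * 1.0001 * (0.5716 * s) := by
        rw [← hr]
        exact mul_le_mul cu hab.le (norm_nonneg _) (by norm_num)
      norm_num at e2 g ⊢
      linarith
    · rintro ⟨⟨a, b⟩, j⟩ hx ⟨⟨a', b'⟩, j'⟩ hx' hxx
      rw [mem_coe, mem_product, mem_range] at hx hx'
      obtain ⟨ha, hb, -⟩ := hmemΛ _ hx.1
      obtain ⟨ha', hb', -⟩ := hmemΛ _ hx'.1
      simp only at ha hb ha' hb' hxx
      have hF : K.F (YY K a b d) = K.F (YY K a' b' d) := by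
        rw [← F_pow K j (YY K a b d), hxx, F_pow]
      have g := hpos a b ha hb
      have g' := hpos a' b' ha' hb'
      rw [hF] at g
      have hab : a - a' = 0 ∧ b - b' = 0 := by
        by_contra hne
        have l1 := lat_one hne
        have e1 : c * ((((a - a' : ℤ) : ℝ) : ℂ) + (((b - b' : ℤ) : ℝ) : ℂ) * om) =
            (K.pc (K.F (YY K a' b' d)) - K.pc (K.F d) +
              c * (((a : ℝ) : ℂ) + ((b : ℝ) : ℂ) * om)) -
            (K.pc (K.F (YY K a' b' d)) - K.pc (K.F d) +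
              c * (((a' : ℝ) : ℂ) + ((b' : ℝ) : ℂ) * om)) := by
          push_cast
          ring
        have e2 : ‖c * ((((a - a' : ℤ) : ℝ) : ℂ) + (((b - b' : ℤ) : ℝ) : ℂ) * om)‖ ≤
            0.01 + 0.01 := by
          rw [e1]
          exact (norm_sub_le _ _).trans (add_le_add g g')
        rw [norm_mul] at e2
        have e3 : 1.7320508 * 0.9999 * 1 ≤
            ‖c‖ * ‖(((a - a' : ℤ) : ℝ) : ℂ) + (((b - b' : ℤ) : ℝ) : ℂ) * om‖ :=
          mul_le_mul cl l1 (by norm_num) cpos.le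
        have e4 := e3.trans e2
        norm_num at e4
      have ea : a = a' := by omega
      have eb : b = b' := by omega
      subst ea
      subst eb
      have hj := rot_inj' hη1 (h a b ha hb) hx.2 hx'.2 hxx
      exact Prod.ext rfl hj
  have hcard' : 6 * (Λ.card : ℝ) ≤
      (((patch K m d).filter (fun x => ‖K.pc (K.F x) - ζ‖ < s)).card : ℝ) := by
    exact_mod_cast hcard
  have hpi := Real.pi_pos
  rw [div_mul_eq_mul_div, le_div_iff₀ (by positivity)]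
  have k1 : √3 * (6 * (0.9 * (2 / √3) * Real.pi * r ^ 2)) ≤
      √3 * (((patch K m d).filter (fun x => ‖K.pc (K.F x) - ζ‖ < s)).card : ℝ) := by
    refine mul_le_mul_of_nonneg_left ?_ s3p.le
    refine le_trans ?_ hcard'
    exact mul_le_mul_of_nonneg_left hlat (by norm_num)
  refine le_trans ?_ k1
  have k2 : √3 * (6 * (0.9 * (2 / √3) * Real.pi * r ^ 2)) = 10.8 * Real.pi * r ^ 2 := by
    field_simp
    ring
  rw [k2, hr]
  have k3 : 0 ≤ Real.pi * s ^ 2 := by positivity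
  norm_num
  nlinarith

end Pool.Agent.Helper38.RG
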