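import Pool.Agent.Helper38.RG.Defs

/-!
# RG-04: the regular faces

`X` regular, `F d = X`, `η ≤ 1/100`, `v = K.v d`, `|v| ∈ [.99, 1.01]`.
* `reg_v`: induction on `j` (`F (s^j d) = X`, `‖om‖ = 1`): `‖v_{j+1} - om^{j+1} v‖ ≤ ‖v_{j+1} - om v_j‖ + ‖v_j - om^j v‖`.
* `reg_pow6`: let `k ≥ 1` be minimal with `s^k d = d`.  By `orb` the face is the orbit of `d`, so `k = card = 6` (`k ≤ 6` distinct darts `s^j d`, `j < k`, are all darts).
  (`Equiv.Perm`, `Function.minimalPeriod`, or directly: the map `j ↦ s^j d` from `range k` to `fd X` is a bijection.)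
* `reg_sum`: the same bijection.
* `reg_center`: `z (s^j d) = z d + ∑_{i<j} v (s^i d)`, `‖z (s^j d) - z d - v ∑_{i<j} om^i‖ ≤ ∑_{i<j} i e = j (j-1)/2 e`; mean over `j = 0..5`: error `≤ 20/6 e`; the mean of
  `∑_{i<j} om^i` over `j = 0..5` is `om` (values `0, 1, 1 + om, 2 om, 2 om - 1, om - 1` with `om² = om - 1`, sum `6 om`).
-/

namespace Pool.Agent.Helper38.RG

open Finset

variable {D Fc : Type} [Fintype D] [DecidableEq D] [Fintype Fc] [DecidableEq Fc]
variable {K : Cx D Fc} {e : Fc → ℝ} {η : ℝ} {X : Fc} {d : D}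

theorem om_sq : om ^ 2 = om - 1 := by
  have h3 : √3 * √3 = 3 := Real.mul_self_sqrt (by norm_num)
  apply Complex.ext
  · simp only [om, pow_two, Complex.mul_re, Complex.sub_re, Complex.one_re]
    nlinarith [h3]
  · simp only [om, pow_two, Complex.mul_im, Complex.sub_im, Complex.one_im]
    ring

theorem om_cube : om ^ 3 = -1 := by
  have h := om_sq
  linear_combination (om + 1) * h

theorem norm_om : ‖om‖ = 1 := by
  have h : ‖om‖ ^ 3 = 1 := by
    rw [← norm_pow, om_cube, norm_neg, norm_one]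
  have h0 : 0 ≤ ‖om‖ := norm_nonneg _
  exact (pow_eq_one_iff_of_nonneg h0 (by norm_num)).1 h

theorem F_pow (K : Cx D Fc) (j : ℕ) (d : D) : K.F ((K.s ^ j) d) = K.F d := by
  induction j with
  | zero => simp
  | succ j ih => rw [pow_succ', Equiv.Perm.mul_apply, K.F_s, ih]

theorem reg_v (h : K.Reg e η X) (hd : K.F d = X) (j : ℕ) :
    ‖K.v ((K.s ^ j) d) - om ^ j * K.v d‖ ≤ j * e X := by
  induction j with
  | zero => simp
  | succ j ih =>
    obtain ⟨-, -, -, -, h5⟩ := h
    have h6 := (h5 ((K.s ^ j) d) (by rw [F_pow, hd])).1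
    have e1 : K.v ((K.s ^ (j + 1)) d) - om ^ (j + 1) * K.v d =
        (K.v (K.s ((K.s ^ j) d)) - om * K.v ((K.s ^ j) d)) +
          om * (K.v ((K.s ^ j) d) - om ^ j * K.v d) := by
      rw [pow_succ' K.s, Equiv.Perm.mul_apply]
      ring
    rw [e1]
    refine (norm_add_le _ _).trans ?_
    rw [norm_mul, norm_om, one_mul, Nat.cast_succ]
    linarith

private theorem reg_orbit (h : K.Reg e η X) (hd : K.F d = X) :
    (K.s ^ 6) d = d ∧ K.fd X = (range 6).image (fun j => (K.s ^ j) d) ∧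
      Set.InjOn (fun j : ℕ => (K.s ^ j) d) (range 6 : Finset ℕ) := by
  have hp : d ∈ Function.periodicPts (K.s : D → D) := by
    refine Function.mk_mem_periodicPts (n := orderOf K.s) (orderOf_pos K.s) ?_
    rw [Function.IsPeriodicPt, Function.IsFixedPt, Equiv.Perm.iterate_eq_pow, pow_orderOf_eq_one]
    rfl
  have hk : 0 < Function.minimalPeriod (K.s : D → D) d :=
    Function.minimalPeriod_pos_of_mem_periodicPts hp
  have hinj : Set.InjOn (fun j : ℕ => (K.s ^ j) d)
      (range (Function.minimalPeriod (K.s : D → D) d) : Finset ℕ) := by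
    intro i hi j hj hij
    have hi' : i ∈ Set.Iio (Function.minimalPeriod (K.s : D → D) d) := by simpa using hi
    have hj' : j ∈ Set.Iio (Function.minimalPeriod (K.s : D → D) d) := by simpa using hj
    apply Function.iterate_injOn_Iio_minimalPeriod hi' hj'
    simp only [Equiv.Perm.iterate_eq_pow]
    exact hij
  have himg : K.fd X =
      (range (Function.minimalPeriod (K.s : D → D) d)).image (fun j => (K.s ^ j) d) := by
    ext d'
    simp only [Cx.fd, mem_filter, mem_univ, true_and, mem_image, mem_range]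
    constructor
    · intro h'
      obtain ⟨j, hj⟩ := K.orb d d' (by rw [hd, h'])
      refine ⟨j % Function.minimalPeriod (K.s : D → D) d, Nat.mod_lt _ hk, ?_⟩
      have := Function.iterate_mod_minimalPeriod_eq (f := (K.s : D → D)) (x := d) (n := j)
      rw [Equiv.Perm.iterate_eq_pow, Equiv.Perm.iterate_eq_pow] at this
      rw [this, hj]
    · rintro ⟨j, -, rfl⟩
      rw [F_pow, hd]
  have hcard : Function.minimalPeriod (K.s : D → D) d = 6 := by
    have h1 := h.2.1
    rw [himg, Finset.card_image_of_injOn hinj, card_range] at h1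
    exact h1
  rw [hcard] at hinj himg
  refine ⟨?_, himg, hinj⟩
  have := Function.iterate_minimalPeriod (f := (K.s : D → D)) (x := d)
  rw [hcard, Equiv.Perm.iterate_eq_pow] at this
  exact this

theorem reg_pow6 (hη : η ≤ 1 / 100) (h : K.Reg e η X) (hd : K.F d = X) : (K.s ^ 6) d = d := by
  exact (reg_orbit h hd).1

theorem reg_sum {M : Type} [AddCommMonoid M] (hη : η ≤ 1 / 100) (h : K.Reg e η X) (hd : K.F d = X) (f : D → M) :
    ∑ d' ∈ K.fd X, f d' = ∑ j ∈ range 6, f ((K.s ^ j) d) := by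
  obtain ⟨-, h2, h3⟩ := reg_orbit h hd
  rw [h2, Finset.sum_image h3]

theorem reg_center (hη : η ≤ 1 / 100) (h : K.Reg e η X) (hd : K.F d = X) :
    ‖K.pc X - K.z d - om * K.v d‖ ≤ 4 * e X := by
  have hc : (((K.fd X).card : ℕ) : ℂ) = 6 := by
    rw [h.2.1]; norm_num
  have e1 : ∀ j : ℕ, K.z ((K.s ^ j) d) = K.z d + ∑ i ∈ range j, K.v ((K.s ^ i) d) := by
    intro j
    induction j with
    | zero => simp
    | succ j ih =>
      rw [Finset.sum_range_succ, ← add_assoc, ← ih, Cx.v, pow_succ', Equiv.Perm.mul_apply]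
      ring
  have h0 : 0 ≤ e X := h.2.2.1
  have hr : ∀ j : ℕ, ‖K.v ((K.s ^ j) d) - om ^ j * K.v d‖ ≤ j * e X := reg_v h hd
  have h2 := om_sq
  have e2 : K.pc X - K.z d - om * K.v d =
      (5 * (K.v ((K.s ^ 0) d) - om ^ 0 * K.v d) + 4 * (K.v ((K.s ^ 1) d) - om ^ 1 * K.v d)
        + 3 * (K.v ((K.s ^ 2) d) - om ^ 2 * K.v d) + 2 * (K.v ((K.s ^ 3) d) - om ^ 3 * K.v d)
        + 1 * (K.v ((K.s ^ 4) d) - om ^ 4 * K.v d)) / 6 := by
    rw [Cx.pc, hc, reg_sum hη h hd]
    simp only [e1, Finset.sum_range_succ, Finset.sum_range_zero]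
    have e3 : om ^ 4 = - om := by linear_combination (om ^ 2 + om) * h2
    have e4 : om ^ 3 = -1 := om_cube
    rw [e3, e4, h2]
    field_simp
    ring
  rw [e2, norm_div]
  have n6 : ‖(6 : ℂ)‖ = 6 := by norm_num
  rw [n6, div_le_iff₀ (by norm_num)]
  have t1 : ∀ (c : ℝ) (hc : 0 ≤ c) (w : ℂ) , ‖(c : ℂ) * w‖ = c * ‖w‖ := by
    intro c hc w
    rw [norm_mul, Complex.norm_real, Real.norm_eq_abs, abs_of_nonneg hc]
  have t5 := t1 5 (by norm_num) (K.v ((K.s ^ 0) d) - om ^ 0 * K.v d)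
  have t4 := t1 4 (by norm_num) (K.v ((K.s ^ 1) d) - om ^ 1 * K.v d)
  have t3 := t1 3 (by norm_num) (K.v ((K.s ^ 2) d) - om ^ 2 * K.v d)
  have t2 := t1 2 (by norm_num) (K.v ((K.s ^ 3) d) - om ^ 3 * K.v d)
  have t0 := t1 1 (by norm_num) (K.v ((K.s ^ 4) d) - om ^ 4 * K.v d)
  have r0 := hr 0
  have r1 := hr 1
  have r2 := hr 2
  have r3 := hr 3
  have r4 := hr 4
  simp only [Complex.ofReal_ofNat, Complex.ofReal_one] at t5 t4 t3 t2 t0
  simp only [Nat.cast_zero, Nat.cast_one, Nat.cast_ofNat] at r0 r1 r2 r3 r4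
  refine (norm_add_le _ _).trans ?_
  refine (add_le_add_left (norm_add_le _ _) _).trans ?_
  refine (add_le_add_left (add_le_add_left (norm_add_le _ _) _) _).trans ?_
  refine (add_le_add_left (add_le_add_left (add_le_add_left (norm_add_le _ _) _) _) _).trans ?_
  rw [t5, t4, t3, t2, t0]
  linarith

end Pool.Agent.Helper38.RG
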