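import Pool.Agent.Helper38.RG.Reg1
import Pool.Agent.Helper38.RG.Ident

/-!
# RG-06: neighbours and power sums of regular faces

`v_j := K.v (s^j d) = om^j v + r_j`, `‖r_j‖ ≤ j e ≤ 5 e` (`reg_v`), `‖v_j‖ ∈ [.99, 1.01]`.
* `reg_delta`: `reg_center` for `d` and for `st d`: `pc (F (st d)) ≈ z (st d) + om v (st d) = z (s d) - om v = z d + v - om v` (`z_st`, `v_st`), `pc (F d) ≈ z d + om v`;
  `v (1 - 2 om) = - √3 i v`.
* `reg_pow_a`: `∑_j (om^j v)^(6κ+2) = v^(6κ+2) ∑_j om^(2j) = 0` (`om^6 = 1`), `|x^m - y^m| ≤ m M^(m-1) |x - y|` with `m = 2` or `8`, `M = 1.06`, `‖om^j v‖ ≤ 1.01`, `‖v_j‖ ≤ 1.01`: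
  even `M = 1.01`: `8 · 1.01^7 · (0+1+…+5) e ≤ 200 e`.
* `reg_pow_b`: `v^(6κ+1) conj v - v^(6κ) = v^(6κ) (‖v‖² - 1)` (`Complex.mul_conj`), `≤ 1.01^6 · 2.01 e` for each of the six darts.
-/

namespace Pool.Agent.Helper38.RG

open Finset

variable {D Fc : Type} [Fintype D] [DecidableEq D] [Fintype Fc] [DecidableEq Fc]
variable {K : Cx D Fc} {e : Fc → ℝ} {η : ℝ} {X : Fc} {d : D}

private theorem pow_sub_le {x y : ℂ} {M : ℝ} (hx : ‖x‖ ≤ M) (hy : ‖y‖ ≤ M) (m : ℕ) :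
    ‖x ^ (m + 1) - y ^ (m + 1)‖ ≤ (m + 1) * M ^ m * ‖x - y‖ := by
  have hM : 0 ≤ M := (norm_nonneg x).trans hx
  induction m with
  | zero => simp
  | succ m ih =>
    have e : x ^ (m + 1 + 1) - y ^ (m + 1 + 1) =
        x * (x ^ (m + 1) - y ^ (m + 1)) + (x - y) * y ^ (m + 1) := by ring
    rw [e]
    have h1 : ‖x * (x ^ (m + 1) - y ^ (m + 1))‖ ≤ M * ((m + 1) * M ^ m * ‖x - y‖) := by
      rw [norm_mul]
      exact mul_le_mul hx ih (norm_nonneg _) hM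
    have h2 : ‖(x - y) * y ^ (m + 1)‖ ≤ ‖x - y‖ * M ^ (m + 1) := by
      rw [norm_mul, norm_pow]
      exact mul_le_mul_of_nonneg_left (pow_le_pow_left₀ (norm_nonneg _) hy _) (norm_nonneg _)
    refine (norm_add_le _ _).trans ((add_le_add h1 h2).trans (le_of_eq ?_))
    push_cast
    ring

private theorem two_om : 2 * om - 1 = (√3 : ℂ) * Complex.I := by
  apply Complex.ext
  · simp [om]
  · simp [om]
    ring

private theorem norm_v_le (hη : η ≤ 1 / 100) (h : K.Reg e η X) {d : D} (hd : K.F d = X) :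
    ‖K.v d‖ ≤ 101 / 100 := by
  have h1 := (h.2.2.2.2 d hd).2
  have h2 := h.2.2.2.1
  have h3 := (abs_le.1 h1).2
  linarith

private theorem exists_dart (h : K.Reg e η X) : ∃ d, K.F d = X := by
  have h1 : 0 < (K.fd X).card := by rw [h.2.1]; norm_num
  obtain ⟨d, hd⟩ := Finset.card_pos.1 h1
  exact ⟨d, (Finset.mem_filter.1 hd).2⟩

private theorem om_four : om ^ 4 = -om := by
  have : om ^ 4 = om ^ 3 * om := by ring
  rw [this, om_cube]
  ring

private theorem om_six : om ^ 6 = 1 := by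
  have : om ^ 6 = om ^ 3 * om ^ 3 := by ring
  rw [this, om_cube]
  ring

theorem reg_delta (hη : η ≤ 1 / 100) (hd : d ∉ K.out) (h1 : K.Reg e η (K.F d))
    (h2 : K.Reg e η (K.F (K.st d))) :
    ‖K.pc (K.F (K.st d)) - K.pc (K.F d) + (√3 : ℂ) * Complex.I * K.v d‖ ≤
      4 * (e (K.F d) + e (K.F (K.st d))) := by
  have c1 := reg_center hη h1 (d := d) rfl
  have c2 := reg_center hη h2 (d := K.st d) rfl
  have e1 : K.z (K.st d) = K.z d + K.v d := by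
    rw [K.z_st d hd, Cx.v]
    ring
  rw [e1, v_st K hd] at c2
  have e2 : K.pc (K.F (K.st d)) - K.pc (K.F d) + (√3 : ℂ) * Complex.I * K.v d =
      (K.pc (K.F (K.st d)) - (K.z d + K.v d) - om * -K.v d) -
        (K.pc (K.F d) - K.z d - om * K.v d) := by
    rw [← two_om]
    ring
  rw [e2]
  refine (norm_sub_le _ _).trans ?_
  linarith

theorem reg_pow_a (hη : η ≤ 1 / 100) (h : K.Reg e η X) {κ : ℕ} (hκ : κ ≤ 1) :
    ‖∑ d ∈ K.fd X, K.v d ^ (6 * κ + 2)‖ ≤ 200 * e X := by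
  obtain ⟨d, hd⟩ := exists_dart h
  rw [reg_sum hη h hd]
  have he0 : 0 ≤ e X := h.2.2.1
  have hF : ∀ j : ℕ, K.F ((K.s ^ j) d) = X := fun j => by rw [F_pow, hd]
  have hx : ∀ j : ℕ, ‖om ^ j * K.v d‖ ≤ 101 / 100 := fun j => by
    rw [norm_mul, norm_pow, norm_om, one_pow, one_mul]
    exact norm_v_le hη h hd
  have hzero : ∑ j ∈ range 6, (om ^ j * K.v d) ^ (6 * κ + 2) = 0 := by
    have e1 : ∀ j : ℕ, (om ^ j * K.v d) ^ (6 * κ + 2) = K.v d ^ (6 * κ + 2) * om ^ (2 * j) := by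
      intro j
      rw [mul_pow, ← pow_mul]
      have e2 : j * (6 * κ + 2) = 6 * (j * κ) + 2 * j := by ring
      rw [e2, pow_add, pow_mul, om_six, one_pow, one_mul, mul_comm]
    rw [Finset.sum_congr rfl fun j _ => e1 j, ← Finset.mul_sum]
    have e3 : ∑ j ∈ range 6, om ^ (2 * j) = 0 := by
      simp only [Finset.sum_range_succ, Finset.sum_range_zero]
      have a1 : om ^ (2 * 4) = om ^ 2 := by
        have : om ^ (2 * 4) = om ^ 6 * om ^ 2 := by ring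
        rw [this, om_six, one_mul]
      have a2 : om ^ (2 * 5) = om ^ 4 := by
        have : om ^ (2 * 5) = om ^ 6 * om ^ 4 := by ring
        rw [this, om_six, one_mul]
      have a3 : om ^ (2 * 3) = 1 := om_six
      have a4 : om ^ (2 * 2) = om ^ 4 := rfl
      have a5 : om ^ (2 * 1) = om ^ 2 := rfl
      have a6 : om ^ (2 * 0) = 1 := pow_zero _
      rw [a1, a2, a3, a4, a5, a6, om_four, om_sq]
      ring
    rw [e3, mul_zero]
  have hterm : ∀ j ∈ range 6, ‖K.v ((K.s ^ j) d) ^ (6 * κ + 2) -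
      (om ^ j * K.v d) ^ (6 * κ + 2)‖ ≤ 9 * (j * e X) := by
    intro j _
    have h1 := pow_sub_le (norm_v_le hη h (hF j)) (hx j) (6 * κ + 1)
    have h2 := reg_v h hd j
    have h3 : (((6 * κ + 1 : ℕ) : ℝ) + 1) * (101 / 100 : ℝ) ^ (6 * κ + 1) ≤ 9 := by
      interval_cases κ <;> norm_num
    refine h1.trans ?_
    exact mul_le_mul h3 h2 (norm_nonneg _) (by norm_num)
  have e4 : ∑ j ∈ range 6, K.v ((K.s ^ j) d) ^ (6 * κ + 2) =
      ∑ j ∈ range 6, (K.v ((K.s ^ j) d) ^ (6 * κ + 2) - (om ^ j * K.v d) ^ (6 * κ + 2)) := by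
    rw [Finset.sum_sub_distrib, hzero, sub_zero]
  rw [e4]
  refine (norm_sum_le_of_le _ hterm).trans ?_
  simp only [Finset.sum_range_succ, Finset.sum_range_zero]
  push_cast
  linarith

theorem reg_pow_b (hη : η ≤ 1 / 100) (h : K.Reg e η X) {κ : ℕ} (hκ : κ ≤ 1) :
    ‖∑ d ∈ K.fd X, (K.v d ^ (6 * κ + 1) * (starRingEnd ℂ) (K.v d) - K.v d ^ (6 * κ))‖ ≤
      20 * e X := by
  have he0 : 0 ≤ e X := h.2.2.1
  have hterm : ∀ d ∈ K.fd X, ‖K.v d ^ (6 * κ + 1) * (starRingEnd ℂ) (K.v d) -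
      K.v d ^ (6 * κ)‖ ≤ 3 * e X := by
    intro d hd
    have hF : K.F d = X := (Finset.mem_filter.1 hd).2
    have hv := norm_v_le hη h hF
    have h1 := (h.2.2.2.2 d hF).2
    have e1 : K.v d ^ (6 * κ + 1) * (starRingEnd ℂ) (K.v d) - K.v d ^ (6 * κ) =
        K.v d ^ (6 * κ) * (((‖K.v d‖ ^ 2 - 1 : ℝ)) : ℂ) := by
      have e2 : K.v d * (starRingEnd ℂ) (K.v d) = ((‖K.v d‖ ^ 2 : ℝ) : ℂ) := by
        rw [Complex.mul_conj, Complex.normSq_eq_norm_sq]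
      rw [pow_succ, mul_assoc, e2]
      push_cast
      ring
    rw [e1, norm_mul, norm_pow, Complex.norm_real, Real.norm_eq_abs]
    have h2 : |‖K.v d‖ ^ 2 - 1| ≤ 201 / 100 * e X := by
      have e3 : ‖K.v d‖ ^ 2 - 1 = (‖K.v d‖ + 1) * (‖K.v d‖ - 1) := by ring
      rw [e3, abs_mul, abs_of_nonneg (by positivity : (0 : ℝ) ≤ ‖K.v d‖ + 1)]
      exact mul_le_mul (by linarith) h1 (abs_nonneg _) (by norm_num)
    have h3 : ‖K.v d‖ ^ (6 * κ) ≤ (101 / 100 : ℝ) ^ (6 * κ) :=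
      pow_le_pow_left₀ (norm_nonneg _) hv _
    have h4 : (101 / 100 : ℝ) ^ (6 * κ) ≤ 11 / 10 := by
      interval_cases κ <;> norm_num
    calc ‖K.v d‖ ^ (6 * κ) * |‖K.v d‖ ^ 2 - 1| ≤ 11 / 10 * (201 / 100 * e X) :=
          mul_le_mul (h3.trans h4) h2 (abs_nonneg _) (by norm_num)
      _ ≤ 3 * e X := by nlinarith
  refine (norm_sum_le_of_le _ hterm).trans ?_
  rw [Finset.sum_const, h.2.1, nsmul_eq_mul]
  push_cast
  linarith

end Pool.Agent.Helper38.RG
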