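import Pool.Agent.Helper38.RG.Reg2
import Pool.Agent.Helper38.RG.Ker

/-!
# RG-08: the terms of the single darts

`p = pc (F d) - ζ`, `p' = pc (F (st d)) - ζ`, `Δ = p' - p`.
* `good_dart`: `‖v‖ ≤ 1.01`, `‖v‖^(6κ+1) ≤ 1.08`; `reg_delta`, `‖Δ‖ ≤ √3 · 1.01 + .08 ≤ 2`, `ker_taylor`, `dAdB`:
  `‖v^(6κ+1)‖ (Er + 4 (e + e') q1²)`.
* `mid_dart`: `‖Δ‖ ≤ 30 + 30` (`diam2`; in a regular face `∑ ‖v‖ ≤ 6.06`), `‖v‖ ≤ 3`, `3^7 = 2187`, `ker_lip`.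
* `wild_dart`: `ker_le`, `‖v‖ ≤ 3`.
* `main_le`: `‖v‖^(6κ+2) √3 q1² ≤ 4 q1²`.
-/

namespace Pool.Agent.Helper38.RG

open Finset

variable {D Fc : Type} [Fintype D] [DecidableEq D] [Fintype Fc] [DecidableEq Fc]
variable {K : Cx D Fc} {e : Fc → ℝ} {η s : ℝ} {d : D} {κ : ℕ} {ζ : ℂ}

/-- the main term of a dart in a regular face -/
noncomputable def mainT (K : Cx D Fc) (κ : ℕ) (s : ℝ) (ζ : ℂ) (d : D) : ℂ :=
  K.v d ^ (6 * κ + 1) * (dA s (K.pc (K.F d) - ζ) * (-((√3 : ℂ) * Complex.I * K.v d)) +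
    dB s (K.pc (K.F d) - ζ) * (starRingEnd ℂ) (-((√3 : ℂ) * Complex.I * K.v d)))

private theorem rb_pow {x M : ℝ} (hx : 0 ≤ x) (hxM : x ≤ M) (hM : 1 ≤ M) {κ : ℕ} (hκ : κ ≤ 1) :
    x ^ (6 * κ + 1) ≤ M ^ 7 :=
  (pow_le_pow_left₀ hx hxM _).trans (pow_le_pow_right₀ hM (by omega))

private theorem rb_norm (hη : η ≤ 1 / 100) (h1 : K.Reg e η (K.F d)) :
    ‖K.v d‖ ≤ 101 / 100 := by
  obtain ⟨-, -, -, h2, h3⟩ := h1
  have h4 := (abs_le.1 (h3 d rfl).2).2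
  linarith

private theorem rb_sqrt : √3 ≤ (7 : ℝ) / 4 := by
  rw [Real.sqrt_le_left (by norm_num)]
  norm_num

private theorem rb_lin (hs : 0 < s) (z w : ℂ) :
    ‖dA s z * w + dB s z * (starRingEnd ℂ) w‖ ≤ q1 s z ^ 2 * ‖w‖ := by
  rw [← dAdB hs z, add_mul]
  refine (norm_add_le _ _).trans ?_
  rw [norm_mul, norm_mul, RCLike.norm_conj]

private theorem rb_dir : ‖-((√3 : ℂ) * Complex.I * K.v d)‖ = √3 * ‖K.v d‖ := by
  rw [norm_neg, norm_mul, norm_mul, Complex.norm_I, mul_one, Complex.norm_real,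
    Real.norm_of_nonneg (Real.sqrt_nonneg _)]

theorem good_dart (hκ : κ ≤ 1) (hs : 200 ≤ s) (hη : η ≤ 1 / 100) (hd : d ∉ K.out)
    (h1 : K.Reg e η (K.F d)) (h2 : K.Reg e η (K.F (K.st d))) :
    ‖K.v d ^ (6 * κ + 1) * (ker s (K.pc (K.F d) - ζ) - ker s (K.pc (K.F (K.st d)) - ζ)) -
      mainT K κ s ζ d‖ ≤ 2 * Er s (K.pc (K.F d) - ζ) +
        10 * (e (K.F d) + e (K.F (K.st d))) * q1 s (K.pc (K.F d) - ζ) ^ 2 := by
  have hs0 : 0 < s := by linarith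
  have hv := rb_norm hη h1
  have hv0 := norm_nonneg (K.v d)
  have hd1 := reg_delta hη hd h1 h2
  have he1 : 0 ≤ e (K.F d) ∧ e (K.F d) ≤ η := ⟨h1.2.2.1, h1.2.2.2.1⟩
  have he2 : 0 ≤ e (K.F (K.st d)) ∧ e (K.F (K.st d)) ≤ η := ⟨h2.2.2.1, h2.2.2.2.1⟩
  set P : ℂ := K.pc (K.F d) - ζ with hP
  set Δ : ℂ := K.pc (K.F (K.st d)) - K.pc (K.F d) with hΔ
  set Δ0 : ℂ := -((√3 : ℂ) * Complex.I * K.v d) with hΔ0
  have hP' : K.pc (K.F (K.st d)) - ζ = P + Δ := by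
    rw [hP, hΔ]
    ring
  have hdiff : ‖Δ - Δ0‖ ≤ 4 * (e (K.F d) + e (K.F (K.st d))) := by
    have h3 : Δ - Δ0 = Δ + (√3 : ℂ) * Complex.I * K.v d := by
      rw [hΔ0]
      ring
    rw [h3]
    exact hd1
  have hn0 : ‖Δ0‖ ≤ 7 / 4 * (101 / 100) := by
    rw [hΔ0, rb_dir]
    exact mul_le_mul rb_sqrt hv hv0 (by norm_num)
  have hΔ2 : ‖Δ‖ ≤ 2 := by
    have h4 : ‖Δ‖ ≤ ‖Δ - Δ0‖ + ‖Δ0‖ := by
      have := norm_add_le (Δ - Δ0) Δ0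
      rwa [sub_add_cancel] at this
    linarith
  have hT := ker_taylor hs (z := P) hΔ2
  have hlin := rb_lin hs0 P (Δ - Δ0)
  have hq : 0 ≤ q1 s P ^ 2 := sq_nonneg _
  have hpow : ‖K.v d‖ ^ (6 * κ + 1) ≤ 2 :=
    (rb_pow hv0 hv (by norm_num) hκ).trans (by norm_num)
  have hkey : ‖(ker s P - ker s (P + Δ)) - (dA s P * Δ0 + dB s P * (starRingEnd ℂ) Δ0)‖ ≤
      Er s P + 4 * (e (K.F d) + e (K.F (K.st d))) * q1 s P ^ 2 := by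
    have h5 : (ker s P - ker s (P + Δ)) - (dA s P * Δ0 + dB s P * (starRingEnd ℂ) Δ0) =
        (ker s P - ker s (P + Δ) - (dA s P * Δ + dB s P * (starRingEnd ℂ) Δ)) +
          (dA s P * (Δ - Δ0) + dB s P * (starRingEnd ℂ) (Δ - Δ0)) := by
      rw [map_sub (starRingEnd ℂ) Δ Δ0]
      ring
    rw [h5]
    refine (norm_add_le _ _).trans (add_le_add hT (hlin.trans ?_))
    rw [mul_comm]
    exact mul_le_mul_of_nonneg_right hdiff hq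
  have hE : 0 ≤ Er s P := (norm_nonneg _).trans hT
  unfold mainT
  rw [hP', ← hP, ← hΔ0, ← mul_sub, norm_mul, norm_pow]
  have hee : 0 ≤ 4 * (e (K.F d) + e (K.F (K.st d))) * q1 s P ^ 2 :=
    mul_nonneg (by linarith [he1.1, he2.1]) hq
  calc ‖K.v d‖ ^ (6 * κ + 1) *
        ‖ker s P - ker s (P + Δ) - (dA s P * Δ0 + dB s P * (starRingEnd ℂ) Δ0)‖
      ≤ 2 * (Er s P + 4 * (e (K.F d) + e (K.F (K.st d))) * q1 s P ^ 2) :=
        mul_le_mul hpow hkey (norm_nonneg _) (by norm_num)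
    _ ≤ _ := by linarith

theorem mid_dart (hκ : κ ≤ 1) (hs : 200 ≤ s) (hη : η ≤ 1 / 100) (hd : d ∉ K.out)
    (hv : ‖K.v d‖ ≤ 3) (h1 : K.Reg e η (K.F d) ∨ K.Mid (K.F d))
    (h2 : K.Reg e η (K.F (K.st d)) ∨ K.Mid (K.F (K.st d))) :
    ‖K.v d ^ (6 * κ + 1) * (ker s (K.pc (K.F d) - ζ) - ker s (K.pc (K.F (K.st d)) - ζ))‖ ≤
      2 * 10 ^ 6 * q1 s (K.pc (K.F d) - ζ) ^ 2 := by
  have hside : ∀ X : Fc, K.Reg e η X ∨ K.Mid X → ∑ d' ∈ K.fd X, ‖K.v d'‖ ≤ 30 := by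
    intro X hX
    rcases hX with hX | hX
    · obtain ⟨-, h3, -, h4, h5⟩ := hX
      have h6 : ∀ d' ∈ K.fd X, ‖K.v d'‖ ≤ 2 := by
        intro d' hd'
        have h7 : K.F d' = X := by simpa [Cx.fd] using hd'
        have h8 := (abs_le.1 (h5 d' h7).2).2
        linarith
      refine (sum_le_card_nsmul _ _ _ h6).trans ?_
      rw [h3]
      norm_num
    · exact hX.2.2
  have h3 := diam2 K hd
  have h4 := hside _ h1
  have h5 := hside _ h2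
  have h6 : ‖(K.pc (K.F d) - ζ) - (K.pc (K.F (K.st d)) - ζ)‖ ≤ 60 := by
    rw [sub_sub_sub_cancel_right]
    linarith
  have h7 := ker_lip hs (h6.trans (by norm_num))
  have hq : 0 ≤ q1 s (K.pc (K.F d) - ζ) ^ 2 := sq_nonneg _
  have hpow : ‖K.v d‖ ^ (6 * κ + 1) ≤ 2187 :=
    (rb_pow (norm_nonneg _) hv (by norm_num) hκ).trans (by norm_num)
  rw [norm_mul, norm_pow]
  calc ‖K.v d‖ ^ (6 * κ + 1) *
        ‖ker s (K.pc (K.F d) - ζ) - ker s (K.pc (K.F (K.st d)) - ζ)‖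
      ≤ 2187 * (8 * 60 * q1 s (K.pc (K.F d) - ζ) ^ 2) := by
        refine mul_le_mul hpow (h7.trans ?_) (norm_nonneg _) (by norm_num)
        exact mul_le_mul_of_nonneg_right (by linarith) hq
    _ ≤ _ := by nlinarith

theorem wild_dart (hκ : κ ≤ 1) (hs : 0 < s) (hv : ‖K.v d‖ ≤ 3) :
    ‖K.v d ^ (6 * κ + 1) * (ker s (K.pc (K.F d) - ζ) - ker s (K.pc (K.F (K.st d)) - ζ))‖ ≤
      2187 * (q1 s (K.pc (K.F d) - ζ) + q1 s (K.pc (K.F (K.st d)) - ζ)) := by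
  have hpow : ‖K.v d‖ ^ (6 * κ + 1) ≤ 2187 :=
    (rb_pow (norm_nonneg _) hv (by norm_num) hκ).trans (by norm_num)
  rw [norm_mul, norm_pow]
  refine mul_le_mul hpow ?_ (norm_nonneg _) (by norm_num)
  exact (norm_sub_le _ _).trans (add_le_add (ker_le hs _) (ker_le hs _))

theorem main_le (hκ : κ ≤ 1) (hs : 0 < s) (hη : η ≤ 1 / 100) (h1 : K.Reg e η (K.F d)) :
    ‖mainT K κ s ζ d‖ ≤ 4 * q1 s (K.pc (K.F d) - ζ) ^ 2 := by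
  have hv := rb_norm hη h1
  have hv0 := norm_nonneg (K.v d)
  have hq : 0 ≤ q1 s (K.pc (K.F d) - ζ) ^ 2 := sq_nonneg _
  have hpow : ‖K.v d‖ ^ (6 * κ + 1) ≤ 11 / 10 :=
    (rb_pow hv0 hv (by norm_num) hκ).trans (by norm_num)
  have hlin := rb_lin hs (K.pc (K.F d) - ζ) (-((√3 : ℂ) * Complex.I * K.v d))
  rw [rb_dir] at hlin
  have h2 : √3 * ‖K.v d‖ ≤ 2 :=
    (mul_le_mul rb_sqrt hv hv0 (by norm_num)).trans (by norm_num)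
  unfold mainT
  rw [norm_mul, norm_pow]
  calc ‖K.v d‖ ^ (6 * κ + 1) * _ ≤ 11 / 10 * (q1 s (K.pc (K.F d) - ζ) ^ 2 * 2) := by
        refine mul_le_mul hpow (hlin.trans ?_) (norm_nonneg _) (by norm_num)
        exact mul_le_mul_of_nonneg_left h2 hq
    _ ≤ _ := by linarith

end Pool.Agent.Helper38.RG
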