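import Pool.Agent.Helper38.RG.RightB

/-!
# RG-09: the main terms, face by face

Sum over the faces first (`Finset.sum_fiberwise` / `sum_comp`; the regular darts are the union of the `fd X`, `X` regular).  For a regular `X` with `p = pc X - ζ`:
`∑_{d ∈ fd X} mainT = - √3 i dA ∑ v^(6κ+2) + √3 i dB ∑ v^(6κ+1) conj v` (`conj (- √3 i v) = √3 i conj v`), and the corresponding part of `4 π i WW` is
`(√3 i / s²) ∑_{d ∈ fd X} [‖p‖ < s] v^(6κ) = - √3 i dB ∑ v^(6κ)`.  `reg_pow_a`, `reg_pow_b`, `dAdB`: the norm of the sum is `≤ √3 · 200 e q1²` for the face, and a sixth of it for each dart.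
-/

namespace Pool.Agent.Helper38.RG

open Finset

variable {D Fc : Type} [Fintype D] [DecidableEq D] [Fintype Fc] [DecidableEq Fc]

/-- the combined term of a dart -/
private noncomputable def rcG (K : Cx D Fc) (κ : ℕ) (s : ℝ) (ζ : ℂ) (d : D) : ℂ :=
  -((√3 : ℂ) * Complex.I * dA s (K.pc (K.F d) - ζ)) * K.v d ^ (6 * κ + 2) +
    (√3 : ℂ) * Complex.I * dB s (K.pc (K.F d) - ζ) *
      (K.v d ^ (6 * κ + 1) * (starRingEnd ℂ) (K.v d) - K.v d ^ (6 * κ))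

private theorem rc_term (K : Cx D Fc) {s : ℝ} {κ : ℕ} (hs : 0 < s) (ζ : ℂ) (d : D) :
    mainT K κ s ζ d + 4 * (Real.pi : ℂ) * Complex.I *
      (((√3 / (4 * Real.pi * s ^ 2) : ℝ) : ℂ) *
        (if ‖K.pc (K.F d) - ζ‖ < s then K.v d ^ (6 * κ) else 0)) = rcG K κ s ζ d := by
  have hpi : (Real.pi : ℂ) ≠ 0 := Complex.ofReal_ne_zero.2 Real.pi_ne_zero
  have hsc : (s : ℂ) ≠ 0 := Complex.ofReal_ne_zero.2 hs.ne'
  have hconj : (starRingEnd ℂ) (-((√3 : ℂ) * Complex.I * K.v d)) =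
      (√3 : ℂ) * Complex.I * (starRingEnd ℂ) (K.v d) := by
    rw [map_neg, map_mul, map_mul, Complex.conj_ofReal, Complex.conj_I]
    ring
  have h2 : 4 * (Real.pi : ℂ) * Complex.I *
      (((√3 / (4 * Real.pi * s ^ 2) : ℝ) : ℂ) *
        (if ‖K.pc (K.F d) - ζ‖ < s then K.v d ^ (6 * κ) else 0)) =
      -((√3 : ℂ) * Complex.I * dB s (K.pc (K.F d) - ζ) * K.v d ^ (6 * κ)) := by
    unfold dB
    split_ifs
    · push_cast
      field_simp
    · simp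
  rw [h2]
  unfold mainT rcG
  rw [hconj]
  ring

private theorem rc_face (K : Cx D Fc) {e : Fc → ℝ} {η s : ℝ} {κ : ℕ} (hκ : κ ≤ 1) (hs : 0 < s)
    (hη : η ≤ 1 / 100) (ζ : ℂ) {X : Fc} (hX : K.Reg e η X) :
    ‖∑ d ∈ K.fd X, rcG K κ s ζ d‖ ≤ 400 * ∑ d ∈ K.fd X, e (K.F d) * q1 s (K.pc (K.F d) - ζ) ^ 2 := by
  have hF : ∀ d ∈ K.fd X, K.F d = X := fun d hd => by
    unfold Cx.fd at hd
    rw [Finset.mem_filter] at hd
    exact hd.2
  have h1 : ∑ d ∈ K.fd X, rcG K κ s ζ d =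
      -((√3 : ℂ) * Complex.I * dA s (K.pc X - ζ)) * ∑ d ∈ K.fd X, K.v d ^ (6 * κ + 2) +
      (√3 : ℂ) * Complex.I * dB s (K.pc X - ζ) *
        ∑ d ∈ K.fd X, (K.v d ^ (6 * κ + 1) * (starRingEnd ℂ) (K.v d) - K.v d ^ (6 * κ)) := by
    rw [Finset.mul_sum, Finset.mul_sum, ← Finset.sum_add_distrib]
    refine Finset.sum_congr rfl fun d hd => ?_
    unfold rcG
    rw [hF d hd]
  have h2 : ∑ d ∈ K.fd X, e (K.F d) * q1 s (K.pc (K.F d) - ζ) ^ 2 =
      6 * (e X * q1 s (K.pc X - ζ) ^ 2) := by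
    rw [Finset.sum_congr rfl fun d hd => by rw [hF d hd], Finset.sum_const, hX.2.1]
    simp
  have he : 0 ≤ e X := hX.2.2.1
  have ha := reg_pow_a hη hX hκ
  have hb := reg_pow_b hη hX hκ
  have hAB := dAdB hs (K.pc X - ζ)
  have h3 : √3 ≤ 2 := by
    rw [Real.sqrt_le_left (by norm_num)]
    norm_num
  have h30 : (0 : ℝ) ≤ √3 := Real.sqrt_nonneg 3
  have hn : ‖(√3 : ℂ)‖ = √3 := by
    rw [Complex.norm_real, Real.norm_of_nonneg h30]
  rw [h1, h2]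
  refine (norm_add_le _ _).trans ?_
  rw [norm_mul, norm_mul, norm_neg, norm_mul, norm_mul, norm_mul, norm_mul, Complex.norm_I, hn,
    mul_one]
  have hA0 := norm_nonneg (dA s (K.pc X - ζ))
  have hB0 := norm_nonneg (dB s (K.pc X - ζ))
  have hc1 : √3 * ‖dA s (K.pc X - ζ)‖ * ‖∑ d ∈ K.fd X, K.v d ^ (6 * κ + 2)‖ ≤
      2 * ‖dA s (K.pc X - ζ)‖ * (200 * e X) := by
    apply mul_le_mul _ ha (norm_nonneg _) (by positivity)
    exact mul_le_mul_of_nonneg_right h3 hA0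
  have hc2 : √3 * ‖dB s (K.pc X - ζ)‖ * ‖∑ d ∈ K.fd X,
      (K.v d ^ (6 * κ + 1) * (starRingEnd ℂ) (K.v d) - K.v d ^ (6 * κ))‖ ≤
      2 * ‖dB s (K.pc X - ζ)‖ * (200 * e X) := by
    apply mul_le_mul _ (hb.trans (by nlinarith)) (norm_nonneg _) (by positivity)
    exact mul_le_mul_of_nonneg_right h3 hB0
  rw [← hAB]
  nlinarith [mul_nonneg hA0 he, mul_nonneg hB0 he]

open scoped Classical in
theorem main_sum (K : Cx D Fc) {e : Fc → ℝ} {η s : ℝ} {κ : ℕ} (hκ : κ ≤ 1) (hs : 0 < s)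
    (hη : η ≤ 1 / 100) (ζ : ℂ) :
    ‖∑ d ∈ univ.filter (fun d => K.Reg e η (K.F d)), mainT K κ s ζ d +
        4 * (Real.pi : ℂ) * Complex.I * WW K e η κ s ζ‖ ≤
      400 * ∑ d ∈ univ.filter (fun d => K.Reg e η (K.F d)),
        e (K.F d) * q1 s (K.pc (K.F d) - ζ) ^ 2 := by
  set R : Finset D := univ.filter (fun d => K.Reg e η (K.F d)) with hR
  have h1 : ∑ d ∈ R, mainT K κ s ζ d + 4 * (Real.pi : ℂ) * Complex.I * WW K e η κ s ζ =
      ∑ d ∈ R, rcG K κ s ζ d := by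
    unfold WW
    rw [Finset.mul_sum, Finset.mul_sum, ← Finset.sum_add_distrib]
    exact Finset.sum_congr rfl fun d _ => rc_term K hs ζ d
  have hfib : ∀ X : Fc, K.Reg e η X → R.filter (fun d => K.F d = X) = K.fd X := by
    intro X hX
    unfold Cx.fd
    ext d
    rw [Finset.mem_filter, hR, Finset.mem_filter, Finset.mem_filter]
    constructor
    · rintro ⟨_, h⟩
      exact ⟨Finset.mem_univ _, h⟩
    · rintro ⟨_, h⟩
      exact ⟨⟨Finset.mem_univ _, by rw [h]; exact hX⟩, h⟩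
  have hemp : ∀ X : Fc, ¬ K.Reg e η X → R.filter (fun d => K.F d = X) = ∅ := by
    intro X hX
    rw [Finset.filter_eq_empty_iff]
    intro d hd h
    rw [hR, Finset.mem_filter] at hd
    rw [h] at hd
    exact hX hd.2
  rw [h1, ← Finset.sum_fiberwise R K.F, ← Finset.sum_fiberwise R K.F, Finset.mul_sum]
  refine (norm_sum_le _ _).trans (Finset.sum_le_sum fun X _ => ?_)
  by_cases hX : K.Reg e η X
  · rw [hfib X hX]
    exact rc_face K hκ hs hη ζ hX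
  · rw [hemp X hX]
    simp

end Pool.Agent.Helper38.RG
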