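import Pool.Agent.Helper38.RG.RightP
import Pool.Agent.Helper38.RG.IntBall

/-!
# RG-11: the integral of `EE + 2 π i WW` over the disc

`setIntegral_mono` with `right_pt` (integrability: `intg_EE`, `intg_WW`, `intg_q1`, `intg_q2`, `intg_Er`), `integral_finset_sum`, `integral_const_mul`, then `int_q1`, `int_q2`, `int_Er`.
`∑_{IsG} (e (F d) + e (F (st d))) ≤ 2 ∑_{Reg} e (F d)` (`st` is injective and maps `IsG` into the regular darts; `e ≥ 0` on regular faces).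
Half of the right side of `right_pt`: `Er`: `|D| · 1300/s`; `q1²`: `½ (10 · 2 + 400) · 20 √(R/s) ∑ e ≤ 10^5 …`; `½ · 3·10^6 · 20 √(R/s)`; `½ (2187 · 14 R + 80 √(R/s))`, `√(R/s) ≤ R` (`R ≥ 1`, `s ≥ 1`).
-/

namespace Pool.Agent.Helper38.RG

open Finset MeasureTheory

variable {D Fc : Type} [Fintype D] [DecidableEq D] [Fintype Fc] [DecidableEq Fc]

/-- integrable on `B` with integral at most `c` -/
private def IB (B : Set ℂ) (f : ℂ → ℝ) (c : ℝ) : Prop :=
  IntegrableOn f B volume ∧ ∫ ζ in B, f ζ ≤ c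

private theorem half_le {a b : ℝ} (h : 2 * a ≤ b) : a ≤ 1 / 2 * b := by linarith

private theorem IB.add {B : Set ℂ} {f g : ℂ → ℝ} {a b : ℝ} (hf : IB B f a) (hg : IB B g b) :
    IB B (fun ζ => f ζ + g ζ) (a + b) := by
  refine ⟨hf.1.add hg.1, ?_⟩
  rw [integral_add hf.1 hg.1]
  exact add_le_add hf.2 hg.2

private theorem IB.cmul {B : Set ℂ} {f : ℂ → ℝ} {a : ℝ} (hf : IB B f a) {c : ℝ} (hc : 0 ≤ c) :
    IB B (fun ζ => c * f ζ) (c * a) := by
  refine ⟨hf.1.const_mul c, ?_⟩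
  rw [integral_const_mul]
  exact mul_le_mul_of_nonneg_left hf.2 hc

private theorem IB.sum {B : Set ℂ} {ι : Type} (s : Finset ι) {f : ι → ℂ → ℝ} {a : ι → ℝ}
    (hf : ∀ i ∈ s, IB B (f i) (a i)) : IB B (fun ζ => ∑ i ∈ s, f i ζ) (∑ i ∈ s, a i) := by
  refine ⟨integrable_finsetSum s fun i hi => (hf i hi).1, ?_⟩
  rw [integral_finsetSum s fun i hi => (hf i hi).1]
  exact Finset.sum_le_sum fun i hi => (hf i hi).2

open scoped Classical in
theorem right_int (K : Cx D Fc) {e : Fc → ℝ} {η s R : ℝ} {κ : ℕ} (hκ : κ ≤ 1) (hs : 200 ≤ s)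
    (hR : 1 ≤ R) (hη : η ≤ 1 / 100) (hv : ∀ d, d ∉ K.out → ‖K.v d‖ ≤ 3) (z0 : ℂ) :
    ∫ ζ in Metric.ball z0 (R / 4), ‖EE K κ s ζ + 2 * (Real.pi : ℂ) * Complex.I * WW K e η κ s ζ‖ ≤
      1300 / s * (Fintype.card D : ℝ) +
      10 ^ 5 * √(R / s) * ∑ d ∈ univ.filter (fun d => K.Reg e η (K.F d)), e (K.F d) +
      10 ^ 8 * √(R / s) * ((univ.filter (IsM K e η)).card : ℝ) +
      10 ^ 5 * R * ((univ.filter (IsW K e η)).card : ℝ) := by
  have hs0 : 0 < s := by linarith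
  have hR0 : 0 < R := by linarith
  set B : Set ℂ := Metric.ball z0 (R / 4) with hB
  set T : ℝ := √(R / s) with hT
  have hT0 : 0 ≤ T := Real.sqrt_nonneg _
  have hTR : T ≤ R := by
    rw [hT, Real.sqrt_le_left hR0.le]
    have h1 : R / s ≤ R := div_le_self hR0.le (by linarith)
    nlinarith
  have hE : ∀ p : ℂ, IB B (fun ζ => Er s (p - ζ)) (1300 / s) := fun p =>
    ⟨intg_Er hs0 p z0 _, int_Er hR0 hs p z0⟩
  have hQ1 : ∀ p : ℂ, IB B (fun ζ => q1 s (p - ζ)) (7 * R) := fun p =>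
    ⟨intg_q1 hs0 p z0 _, int_q1 hR0 hs0 p z0⟩
  have hQ2 : ∀ p : ℂ, IB B (fun ζ => q1 s (p - ζ) ^ 2) (20 * T) := fun p =>
    ⟨intg_q2 hs0 p z0 _, int_q2 hR0 hs0 p z0⟩
  have h1 : IB B (fun ζ => ∑ d ∈ univ.filter (IsG K e η), (2 * Er s (K.pc (K.F d) - ζ) +
        10 * (e (K.F d) + e (K.F (K.st d))) * q1 s (K.pc (K.F d) - ζ) ^ 2))
      (∑ d ∈ univ.filter (IsG K e η), (2 * (1300 / s) +
        10 * (e (K.F d) + e (K.F (K.st d))) * (20 * T))) := by
    refine IB.sum _ fun d hd => ?_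
    rw [mem_filter] at hd
    have he : 0 ≤ 10 * (e (K.F d) + e (K.F (K.st d))) := by
      have h1 := hd.2.2.1.2.2.1
      have h2 := hd.2.2.2.2.2.1
      linarith
    exact ((hE _).cmul (by norm_num)).add ((hQ2 _).cmul he)
  have h2 : IB B (fun ζ => ∑ d ∈ univ.filter (IsM K e η), 3 * 10 ^ 6 *
        q1 s (K.pc (K.F d) - ζ) ^ 2)
      (∑ d ∈ univ.filter (IsM K e η), 3 * 10 ^ 6 * (20 * T)) :=
    IB.sum _ fun d _ => (hQ2 _).cmul (by norm_num)
  have h3 : IB B (fun ζ => ∑ d ∈ univ.filter (IsW K e η), (2187 * (q1 s (K.pc (K.F d) - ζ) +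
        q1 s (K.pc (K.F (K.st d)) - ζ)) + 4 * q1 s (K.pc (K.F d) - ζ) ^ 2))
      (∑ d ∈ univ.filter (IsW K e η), (2187 * (7 * R + 7 * R) + 4 * (20 * T))) :=
    IB.sum _ fun d _ => (((hQ1 _).add (hQ1 _)).cmul (by norm_num)).add ((hQ2 _).cmul (by norm_num))
  have h4 : IB B (fun ζ => 400 * ∑ d ∈ univ.filter (fun d => K.Reg e η (K.F d)),
        e (K.F d) * q1 s (K.pc (K.F d) - ζ) ^ 2)
      (400 * ∑ d ∈ univ.filter (fun d => K.Reg e η (K.F d)), e (K.F d) * (20 * T)) := by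
    refine IB.cmul (IB.sum _ fun d hd => ?_) (by norm_num)
    rw [mem_filter] at hd
    exact (hQ2 _).cmul hd.2.2.2.1
  have h5 := (((h1.add h2).add h3).add h4).cmul (c := 1 / 2) (by norm_num)
  have hmono : ∫ ζ in B, ‖EE K κ s ζ + 2 * (Real.pi : ℂ) * Complex.I * WW K e η κ s ζ‖ ≤ _ :=
    (setIntegral_mono ((intg_EE K κ hs0 z0 _).add
      ((intg_WW K e η κ s z0 _).const_mul (2 * (Real.pi : ℂ) * Complex.I))).norm h5.1 fun ζ => by
      have h6 := right_pt K (e := e) hκ hs hη hv ζ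
      have h7 : 2 * EE K κ s ζ + 4 * (Real.pi : ℂ) * Complex.I * WW K e η κ s ζ =
          2 * (EE K κ s ζ + 2 * (Real.pi : ℂ) * Complex.I * WW K e η κ s ζ) := by ring
      rw [h7, norm_mul, Complex.norm_ofNat] at h6
      exact half_le h6).trans h5.2
  refine hmono.trans ?_
  -- real numbers
  have hn : ∀ d, K.Reg e η (K.F d) → 0 ≤ e (K.F d) := fun d hd => hd.2.2.1
  have hg1 : ∑ d ∈ univ.filter (IsG K e η), e (K.F d) ≤
      ∑ d ∈ univ.filter (fun d => K.Reg e η (K.F d)), e (K.F d) := by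
    refine Finset.sum_le_sum_of_subset_of_nonneg (fun d hd => ?_) fun d hd _ => ?_
    · rw [mem_filter] at hd ⊢
      exact ⟨mem_univ _, hd.2.2.1⟩
    · rw [mem_filter] at hd
      exact hn d hd.2
  have hg2 : ∑ d ∈ univ.filter (IsG K e η), e (K.F (K.st d)) ≤
      ∑ d ∈ univ.filter (fun d => K.Reg e η (K.F d)), e (K.F d) := by
    have h8 : ∑ d ∈ univ.filter (IsG K e η), e (K.F (K.st d)) =
        ∑ d ∈ (univ.filter (IsG K e η)).image K.st, e (K.F d) := by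
      rw [Finset.sum_image fun a _ b _ hab => K.st.injective hab]
    rw [h8]
    refine Finset.sum_le_sum_of_subset_of_nonneg (fun d hd => ?_) fun d hd _ => ?_
    · obtain ⟨d', hd', rfl⟩ := Finset.mem_image.1 hd
      rw [mem_filter] at hd' ⊢
      exact ⟨mem_univ _, hd'.2.2.2⟩
    · rw [mem_filter] at hd
      exact hn d hd.2
  have hcard : ((univ.filter (IsG K e η)).card : ℝ) ≤ (Fintype.card D : ℝ) := by
    exact_mod_cast Finset.card_le_univ _
  set Se : ℝ := ∑ d ∈ univ.filter (fun d => K.Reg e η (K.F d)), e (K.F d) with hSe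
  have hSe0 : 0 ≤ Se := Finset.sum_nonneg fun d hd => hn d (mem_filter.1 hd).2
  have e1 : ∑ d ∈ univ.filter (IsG K e η), (2 * (1300 / s) +
        10 * (e (K.F d) + e (K.F (K.st d))) * (20 * T)) =
      ((univ.filter (IsG K e η)).card : ℝ) * (2 * (1300 / s)) +
        200 * T * (∑ d ∈ univ.filter (IsG K e η), e (K.F d) +
          ∑ d ∈ univ.filter (IsG K e η), e (K.F (K.st d))) := by
    rw [Finset.sum_add_distrib, Finset.sum_const, nsmul_eq_mul, ← Finset.sum_add_distrib,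
      Finset.mul_sum]
    congr 1
    refine Finset.sum_congr rfl fun d _ => ?_
    ring
  have e4 : ∑ d ∈ univ.filter (fun d => K.Reg e η (K.F d)), e (K.F d) * (20 * T) =
      Se * (20 * T) := by
    rw [hSe, Finset.sum_mul]
  rw [e1, e4, Finset.sum_const, Finset.sum_const, nsmul_eq_mul, nsmul_eq_mul]
  have hM0 : 0 ≤ ((univ.filter (IsM K e η)).card : ℝ) := Nat.cast_nonneg _
  have hW0 : 0 ≤ ((univ.filter (IsW K e η)).card : ℝ) := Nat.cast_nonneg _
  have i1 : ((univ.filter (IsG K e η)).card : ℝ) * (1300 / s) ≤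
      1300 / s * (Fintype.card D : ℝ) := by
    rw [mul_comm]
    exact mul_le_mul_of_nonneg_left hcard (by positivity)
  have i2 : T * (∑ d ∈ univ.filter (IsG K e η), e (K.F d) +
          ∑ d ∈ univ.filter (IsG K e η), e (K.F (K.st d))) ≤ T * (Se + Se) :=
    mul_le_mul_of_nonneg_left (add_le_add hg1 hg2) hT0
  have i3 : ((univ.filter (IsW K e η)).card : ℝ) * T ≤
      ((univ.filter (IsW K e η)).card : ℝ) * R := mul_le_mul_of_nonneg_left hTR hW0
  have i4 : 0 ≤ T * Se := mul_nonneg hT0 hSe0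
  have i5 : 0 ≤ T * ((univ.filter (IsM K e η)).card : ℝ) := mul_nonneg hT0 hM0
  have i6 : 0 ≤ R * ((univ.filter (IsW K e η)).card : ℝ) := mul_nonneg hR0.le hW0
  nlinarith [i1, i2, i3, i4, i5, i6]

end Pool.Agent.Helper38.RG
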