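import Pool.Agent.Helper38.RG.RightC

/-!
# RG-10: the pointwise estimate of `2 EE + 4 π i WW`

`EE_half`; every dart `d ∉ out` is in exactly one of `Gd`, `Wd`, `Md`.  On `Gd` subtract `mainT` (`good_dart`), on `Md`, `Wd` use `mid_dart`, `wild_dart`.
The darts with a regular face are not in `out` (definition of `Reg`), those which are not in `Gd` are in `Md` or `Wd`: their `mainT` is estimated by `main_le`.
`main_sum` for the sum of all `mainT`.
-/

namespace Pool.Agent.Helper38.RG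

open Finset

variable {D Fc : Type} [Fintype D] [DecidableEq D] [Fintype Fc] [DecidableEq Fc]

/-- both faces regular -/
def IsG (K : Cx D Fc) (e : Fc → ℝ) (η : ℝ) (d : D) : Prop :=
  d ∉ K.out ∧ K.Reg e η (K.F d) ∧ K.Reg e η (K.F (K.st d))

/-- neither regular nor a small face with an outer dart -/
def WildF (K : Cx D Fc) (e : Fc → ℝ) (η : ℝ) (X : Fc) : Prop := ¬ K.Reg e η X ∧ ¬ K.Mid X

def IsW (K : Cx D Fc) (e : Fc → ℝ) (η : ℝ) (d : D) : Prop :=
  d ∉ K.out ∧ (WildF K e η (K.F d) ∨ WildF K e η (K.F (K.st d)))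

def IsM (K : Cx D Fc) (e : Fc → ℝ) (η : ℝ) (d : D) : Prop :=
  d ∉ K.out ∧ ¬ IsG K e η d ∧ ¬ IsW K e η d

open scoped Classical in
theorem right_pt (K : Cx D Fc) {e : Fc → ℝ} {η s : ℝ} {κ : ℕ} (hκ : κ ≤ 1) (hs : 200 ≤ s)
    (hη : η ≤ 1 / 100) (hv : ∀ d, d ∉ K.out → ‖K.v d‖ ≤ 3) (ζ : ℂ) :
    ‖2 * EE K κ s ζ + 4 * (Real.pi : ℂ) * Complex.I * WW K e η κ s ζ‖ ≤
      ∑ d ∈ univ.filter (IsG K e η), (2 * Er s (K.pc (K.F d) - ζ) +
        10 * (e (K.F d) + e (K.F (K.st d))) * q1 s (K.pc (K.F d) - ζ) ^ 2) +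
      ∑ d ∈ univ.filter (IsM K e η), 3 * 10 ^ 6 * q1 s (K.pc (K.F d) - ζ) ^ 2 +
      ∑ d ∈ univ.filter (IsW K e η), (2187 * (q1 s (K.pc (K.F d) - ζ) +
        q1 s (K.pc (K.F (K.st d)) - ζ)) + 4 * q1 s (K.pc (K.F d) - ζ) ^ 2) +
      400 * ∑ d ∈ univ.filter (fun d => K.Reg e η (K.F d)),
        e (K.F d) * q1 s (K.pc (K.F d) - ζ) ^ 2 := by
  have hs0 : 0 < s := by linarith
  set T : D → ℂ := fun d => K.v d ^ (6 * κ + 1) *
    (ker s (K.pc (K.F d) - ζ) - ker s (K.pc (K.F (K.st d)) - ζ)) with hT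
  set Rm : D → ℂ := fun d => if K.Reg e η (K.F d) then mainT K κ s ζ d else 0 with hRm
  have hRmle : ∀ d, ‖Rm d‖ ≤ 4 * q1 s (K.pc (K.F d) - ζ) ^ 2 := by
    intro d
    by_cases h : K.Reg e η (K.F d)
    · simp only [hRm, if_pos h]
      exact main_le hκ hs0 hη h
    · simp only [hRm, if_neg h, norm_zero]
      positivity
  have hEE : 2 * EE K κ s ζ = ∑ d, (if d ∉ K.out then T d else 0) := by
    rw [EE_half, Finset.sum_filter]
  have hpt : ∀ d, (if d ∉ K.out then T d else 0) =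
      (if IsG K e η d then T d - mainT K κ s ζ d else 0) +
      (if IsM K e η d then T d - Rm d else 0) +
      (if IsW K e η d then T d - Rm d else 0) + Rm d := by
    intro d
    by_cases ho : d ∈ K.out
    · have h1 : ¬ IsG K e η d := fun h => h.1 ho
      have h2 : ¬ IsM K e η d := fun h => h.1 ho
      have h3 : ¬ IsW K e η d := fun h => h.1 ho
      have h4 : ¬ K.Reg e η (K.F d) := fun h => h.1 d rfl ho
      simp only [hRm]
      rw [if_neg h1, if_neg h2, if_neg h3, if_neg h4, if_neg (not_not.2 ho)]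
      ring
    · rw [if_pos ho]
      by_cases hG : IsG K e η d
      · have h2 : ¬ IsM K e η d := fun h => h.2.1 hG
        have h3 : ¬ IsW K e η d := by
          rintro ⟨_, h | h⟩
          · exact h.1 hG.2.1
          · exact h.1 hG.2.2
        simp only [hRm]
        rw [if_pos hG, if_neg h2, if_neg h3, if_pos hG.2.1]
        ring
      · by_cases hW : IsW K e η d
        · have h2 : ¬ IsM K e η d := fun h => h.2.2 hW
          rw [if_neg hG, if_neg h2, if_pos hW]
          ring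
        · have h2 : IsM K e η d := ⟨ho, hG, hW⟩
          rw [if_neg hG, if_pos h2, if_neg hW]
          ring
  have hkey : 2 * EE K κ s ζ + 4 * (Real.pi : ℂ) * Complex.I * WW K e η κ s ζ =
      ∑ d ∈ univ.filter (IsG K e η), (T d - mainT K κ s ζ d) +
      ∑ d ∈ univ.filter (IsM K e η), (T d - Rm d) +
      ∑ d ∈ univ.filter (IsW K e η), (T d - Rm d) +
      (∑ d ∈ univ.filter (fun d => K.Reg e η (K.F d)), mainT K κ s ζ d +
        4 * (Real.pi : ℂ) * Complex.I * WW K e η κ s ζ) := by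
    rw [hEE, Finset.sum_congr rfl fun d _ => hpt d, Finset.sum_add_distrib,
      Finset.sum_add_distrib, Finset.sum_add_distrib, Finset.sum_filter, Finset.sum_filter,
      Finset.sum_filter, Finset.sum_filter]
    ring
  rw [hkey]
  refine (norm_add_le _ _).trans (add_le_add ?_ (main_sum K hκ hs0 hη ζ))
  refine (norm_add_le _ _).trans (add_le_add ?_ ?_)
  · refine (norm_add_le _ _).trans (add_le_add ?_ ?_)
    · refine (norm_sum_le _ _).trans (Finset.sum_le_sum fun d hd => ?_)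
      have hG : IsG K e η d := (Finset.mem_filter.1 hd).2
      exact good_dart hκ hs hη hG.1 hG.2.1 hG.2.2
    · refine (norm_sum_le _ _).trans (Finset.sum_le_sum fun d hd => ?_)
      have hM : IsM K e η d := (Finset.mem_filter.1 hd).2
      have h1 : K.Reg e η (K.F d) ∨ K.Mid (K.F d) := by
        by_contra hcon
        push Not at hcon
        exact hM.2.2 ⟨hM.1, Or.inl hcon⟩
      have h2 : K.Reg e η (K.F (K.st d)) ∨ K.Mid (K.F (K.st d)) := by
        by_contra hcon
        push Not at hcon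
        exact hM.2.2 ⟨hM.1, Or.inr hcon⟩
      have h3 : ‖T d‖ ≤ 2 * 10 ^ 6 * q1 s (K.pc (K.F d) - ζ) ^ 2 :=
        mid_dart hκ hs hη hM.1 (hv d hM.1) h1 h2
      have h4 := hRmle d
      have h5 : 0 ≤ q1 s (K.pc (K.F d) - ζ) ^ 2 := sq_nonneg _
      refine (norm_sub_le _ _).trans ?_
      linarith
  · refine (norm_sum_le _ _).trans (Finset.sum_le_sum fun d hd => ?_)
    have hW : IsW K e η d := (Finset.mem_filter.1 hd).2
    have h3 : ‖T d‖ ≤ 2187 * (q1 s (K.pc (K.F d) - ζ) + q1 s (K.pc (K.F (K.st d)) - ζ)) :=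
      wild_dart hκ hs0 (hv d hW.1)
    exact (norm_sub_le _ _).trans (add_le_add h3 (hRmle d))

end Pool.Agent.Helper38.RG
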