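import Pool.Agent.Helper38.RG.RightI
import Pool.Agent.Helper38.RG.Count

/-!
# RG-13: the right side, total

`right_int` with `cardD`, `sum_e`, `card_M`, `card_W`; `√(R/s) √(δ R) ≤ √δ R` (`s ≥ 1`), `√(R/s) ≤ √R`.
-/

namespace Pool.Agent.Helper38.RG

open Finset MeasureTheory

variable {D Fc : Type} [Fintype D] [DecidableEq D] [Fintype Fc] [DecidableEq Fc]
variable {K : Cx D Fc} {C δ R η : ℝ} {df : Fc → ℝ}

theorem right_total (h : HypF K C δ R df) (hη0 : 0 < η) (hη : η ≤ 1 / 100) {s : ℝ} (hs : 200 ≤ s)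
    {κ : ℕ} (hκ : κ ≤ 1) (z0 : ℂ) :
    ∫ ζ in Metric.ball z0 (R / 4),
      ‖EE K κ s ζ + 2 * (Real.pi : ℂ) * Complex.I * WW K (ee C df) η κ s ζ‖ ≤
      10 ^ 11 * C * (R ^ 2 / s + √δ * R ^ 2 + R * √R + δ * R ^ 2 / η ^ 2) := by
  classical
  have hC : 0 ≤ C := zero_le_one.trans h.C_one
  have hR : 0 ≤ R := zero_le_one.trans h.R_one
  have hδ := h.δ_nonneg
  have hs0 : 0 < s := by linarith
  have h1 := right_int K hκ hs h.R_one hη (e := ee C df) h.v_le z0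
  have h2 := h.cardD
  have h3 := sum_e h hη0
  have h4 := card_M (η := η) h
  have h5 := card_W h hη0 hη
  have hq : √(R / s) ≤ √R := Real.sqrt_le_sqrt (div_le_self hR (by linarith))
  have hq0 : 0 ≤ √(R / s) := Real.sqrt_nonneg _
  have hqd : √(R / s) * √(δ * R) ≤ √δ * R := by
    rw [Real.sqrt_mul hδ]
    calc √(R / s) * (√δ * √R) ≤ √R * (√δ * √R) :=
          mul_le_mul_of_nonneg_right hq (by positivity)
      _ = √δ * (√R * √R) := by ring
      _ = √δ * R := by rw [Real.mul_self_sqrt hR]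
  have t1 : 1300 / s * (Fintype.card D : ℝ) ≤ 1300 * C * (R ^ 2 / s) := by
    calc 1300 / s * (Fintype.card D : ℝ) ≤ 1300 / s * (C * R ^ 2) :=
          mul_le_mul_of_nonneg_left h2 (by positivity)
      _ = 1300 * C * (R ^ 2 / s) := by ring
  have t2 : 10 ^ 5 * √(R / s) * ∑ d ∈ univ.filter (fun d => K.Reg (ee C df) η (K.F d)),
      ee C df (K.F d) ≤ 3 * 10 ^ 5 * C * (√δ * R ^ 2) := by
    calc 10 ^ 5 * √(R / s) * ∑ d ∈ univ.filter (fun d => K.Reg (ee C df) η (K.F d)),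
        ee C df (K.F d) ≤ 10 ^ 5 * √(R / s) * (3 * C * R * √(δ * R)) :=
          mul_le_mul_of_nonneg_left h3 (by positivity)
      _ = 3 * 10 ^ 5 * C * R * (√(R / s) * √(δ * R)) := by ring
      _ ≤ 3 * 10 ^ 5 * C * R * (√δ * R) := mul_le_mul_of_nonneg_left hqd (by positivity)
      _ = 3 * 10 ^ 5 * C * (√δ * R ^ 2) := by ring
  have t3 : 10 ^ 8 * √(R / s) * ((univ.filter (IsM K (ee C df) η)).card : ℝ) ≤
      14 * 10 ^ 8 * C * (R * √R) := by
    calc 10 ^ 8 * √(R / s) * ((univ.filter (IsM K (ee C df) η)).card : ℝ) ≤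
        10 ^ 8 * √R * (14 * C * R) :=
          mul_le_mul (mul_le_mul_of_nonneg_left hq (by positivity)) h4 (by positivity)
            (by positivity)
      _ = 14 * 10 ^ 8 * C * (R * √R) := by ring
  have t4 : 10 ^ 5 * R * ((univ.filter (IsW K (ee C df) η)).card : ℝ) ≤
      14 * 10 ^ 5 * C * (δ * R ^ 2 / η ^ 2) := by
    calc 10 ^ 5 * R * ((univ.filter (IsW K (ee C df) η)).card : ℝ) ≤
        10 ^ 5 * R * (14 * C * δ * R / η ^ 2) := mul_le_mul_of_nonneg_left h5 (by positivity)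
      _ = 14 * 10 ^ 5 * C * (δ * R ^ 2 / η ^ 2) := by ring
  have u1 : 0 ≤ C * (R ^ 2 / s) := by positivity
  have u2 : 0 ≤ C * (√δ * R ^ 2) := by positivity
  have u3 : 0 ≤ C * (R * √R) := by positivity
  have u4 : 0 ≤ C * (δ * R ^ 2 / η ^ 2) := by positivity
  refine h1.trans ?_
  have hexp : 10 ^ 11 * C * (R ^ 2 / s + √δ * R ^ 2 + R * √R + δ * R ^ 2 / η ^ 2) =
      10 ^ 11 * (C * (R ^ 2 / s)) + 10 ^ 11 * (C * (√δ * R ^ 2)) + 10 ^ 11 * (C * (R * √R)) +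
        10 ^ 11 * (C * (δ * R ^ 2 / η ^ 2)) := by ring
  rw [hexp]
  linarith

end Pool.Agent.Helper38.RG
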