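import Pool.Agent.Helper38.RG.Reg2

/-!
# RG-20: walking through a regular region

`t0 = s^3 ∘ st` (through the edge of the dart, then three steps: the parallel edge of the neighbour), `t1 = s⁻¹ ∘ t0 ∘ s`.
* `t0_step`: `v (st d) = - v d`, `v (s^3 (st d)) ≈ om^3 v (st d) = v d` up to `3 e` (`reg_v`), `reg_delta` (`F (t0 d) = F (st d)`): `≤ 8 η`.
* `t1_step`: `v (s d) ≈ om v d` (`e`), `t0_step` for `s d`, and `v x ≈ om v (s⁻¹ x)` for `x = t0 (s d)` (`e`): `‖v (t1 d) - v d‖ ≤ 5 η`,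
  `pc` moves by `- √3 i v (s d) ≈ - √3 i om v d`: error `≤ 8 η + √3 η ≤ 10 η`.
* `YY_geo`: induction on `|b|` (steps with `t1` or `t1⁻¹`), then on `|a|`.  Step back: `d = t (t⁻¹ d)`: `‖v (t⁻¹ d) - v d‖ ≤ 5 η`, and `pc` moves by `+ √3 i … v` up to
  `10 η + √3 · 5 η ≤ 20 η`.  After `n = |a| + |b|` steps: `‖v - v_0‖ ≤ 5 n η`, position error `≤ ∑_{i<n} (20 η + √3 · 5 i η) ≤ 25 n² η`.
  Hypothesis: all faces on the way are regular (the faces of `YY a' b' d` with `|a'| ≤ |a|`, `|b'| ≤ |b|`).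
-/

namespace Pool.Agent.Helper38.RG

open Finset

variable {D Fc : Type} [Fintype D] [DecidableEq D] [Fintype Fc] [DecidableEq Fc]

/-- straight through the edge -/
def t0 (K : Cx D Fc) : Equiv.Perm D := K.s ^ 3 * K.st

/-- through the next edge -/
def t1 (K : Cx D Fc) : Equiv.Perm D := K.s⁻¹ * t0 K * K.s

/-- the dart at the lattice position `(a, b)` seen from `d` -/
def YY (K : Cx D Fc) (a b : ℤ) (d : D) : D := (t0 K ^ a) ((t1 K ^ b) d)

/-- all faces at the lattice positions `|a|, |b| ≤ m` are regular -/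
def Good (K : Cx D Fc) (e : Fc → ℝ) (η : ℝ) (m : ℕ) (d : D) : Prop :=
  ∀ a b : ℤ, |a| ≤ m → |b| ≤ m → K.Reg e η (K.F (YY K a b d))

variable {K : Cx D Fc} {e : Fc → ℝ} {η : ℝ} {d : D}

private theorem r3_le : √3 ≤ (7 / 4 : ℝ) := by
  rw [Real.sqrt_le_left (by norm_num)]
  norm_num

private theorem norm_r3I (w : ℂ) : ‖(√3 : ℂ) * Complex.I * w‖ ≤ 7 / 4 * ‖w‖ := by
  rw [norm_mul, norm_mul, Complex.norm_I, mul_one, Complex.norm_real, Real.norm_eq_abs,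
    abs_of_nonneg (Real.sqrt_nonneg 3)]
  exact mul_le_mul_of_nonneg_right r3_le (norm_nonneg _)

private theorem t0_strong (hη : η ≤ 1 / 100) (h1 : K.Reg e η (K.F d))
    (h2 : K.Reg e η (K.F (t0 K d))) :
    ‖K.v (t0 K d) - K.v d‖ ≤ 3 * η ∧
    ‖K.pc (K.F (t0 K d)) - K.pc (K.F d) + (√3 : ℂ) * Complex.I * K.v d‖ ≤ 8 * η := by
  have hF : K.F (t0 K d) = K.F (K.st d) := by
    rw [t0, Equiv.Perm.mul_apply, F_pow]
  have hd : d ∉ K.out := h1.1 d rfl
  rw [hF] at h2 ⊢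
  have e1 := h1.2.2.2.1
  have e2 := h2.2.2.2.1
  constructor
  · have h3 := reg_v h2 rfl 3
    rw [v_st K hd, om_cube] at h3
    have h4 : K.v (t0 K d) - K.v d = K.v ((K.s ^ 3) (K.st d)) - -1 * -K.v d := by
      rw [t0, Equiv.Perm.mul_apply]; ring
    rw [h4]
    simp only [Nat.cast_ofNat] at h3
    linarith
  · have h3 := reg_delta hη hd h1 h2
    linarith

private def StepP (K : Cx D Fc) (η : ℝ) (c : ℂ) (t : Equiv.Perm D) (y : D) : Prop :=
  ‖K.v (t y) - K.v y‖ ≤ 5 * η ∧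
    ‖K.pc (K.F (t y)) - K.pc (K.F y) + (√3 : ℂ) * Complex.I * (c * K.v y)‖ ≤ 10 * η

private def QQ (K : Cx D Fc) (η : ℝ) (d : D) (N : ℕ) (c : ℂ) (y : D) : Prop :=
  ‖K.v y - K.v d‖ ≤ 5 * N * η ∧
    ‖K.pc (K.F y) - K.pc (K.F d) + (√3 : ℂ) * Complex.I * (c * K.v d)‖ ≤
      (15 * N + 5 * (N : ℝ) ^ 2) * η

private theorem step_fwd {t : Equiv.Perm D} {c0 c : ℂ} {y : D} {N : ℕ} (h0 : 0 ≤ η)
    (hc : ‖c0‖ = 1) (hs : StepP K η c0 t y) (hq : QQ K η d N c y) :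
    QQ K η d (N + 1) (c + c0) (t y) := by
  obtain ⟨s1, s2⟩ := hs
  obtain ⟨q1, q2⟩ := hq
  have hN : (0 : ℝ) ≤ N := Nat.cast_nonneg _
  constructor
  · have e1 : K.v (t y) - K.v d = (K.v (t y) - K.v y) + (K.v y - K.v d) := by ring
    rw [e1, Nat.cast_succ]
    refine (norm_add_le _ _).trans ?_
    linarith
  · have e1 : K.pc (K.F (t y)) - K.pc (K.F d) +
        (√3 : ℂ) * Complex.I * ((c + c0) * K.v d) =
        (K.pc (K.F (t y)) - K.pc (K.F y) + (√3 : ℂ) * Complex.I * (c0 * K.v y)) +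
        (K.pc (K.F y) - K.pc (K.F d) + (√3 : ℂ) * Complex.I * (c * K.v d)) -
        (√3 : ℂ) * Complex.I * (c0 * (K.v y - K.v d)) := by ring
    rw [e1, Nat.cast_succ]
    refine (norm_sub_le _ _).trans ?_
    have e2 := norm_add_le
      (K.pc (K.F (t y)) - K.pc (K.F y) + (√3 : ℂ) * Complex.I * (c0 * K.v y))
      (K.pc (K.F y) - K.pc (K.F d) + (√3 : ℂ) * Complex.I * (c * K.v d))
    have e3 := norm_r3I (c0 * (K.v y - K.v d))
    rw [norm_mul c0, hc, one_mul] at e3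
    nlinarith [mul_nonneg hN h0]

private theorem step_bwd {t : Equiv.Perm D} {c0 c : ℂ} {y : D} {N : ℕ} (h0 : 0 ≤ η)
    (hc : ‖c0‖ = 1) (hs : StepP K η c0 t y) (hq : QQ K η d N c (t y)) :
    QQ K η d (N + 1) (c - c0) y := by
  obtain ⟨s1, s2⟩ := hs
  obtain ⟨q1, q2⟩ := hq
  have hN : (0 : ℝ) ≤ N := Nat.cast_nonneg _
  have r1 : ‖K.v y - K.v d‖ ≤ 5 * ((N : ℝ) + 1) * η := by
    have e1 : K.v y - K.v d = -(K.v (t y) - K.v y) + (K.v (t y) - K.v d) := by ring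
    rw [e1]
    refine (norm_add_le _ _).trans ?_
    rw [norm_neg]
    linarith
  constructor
  · rw [Nat.cast_succ]
    exact r1
  · have e1 : K.pc (K.F y) - K.pc (K.F d) +
        (√3 : ℂ) * Complex.I * ((c - c0) * K.v d) =
        -(K.pc (K.F (t y)) - K.pc (K.F y) + (√3 : ℂ) * Complex.I * (c0 * K.v y)) +
        (K.pc (K.F (t y)) - K.pc (K.F d) + (√3 : ℂ) * Complex.I * (c * K.v d)) +
        (√3 : ℂ) * Complex.I * (c0 * (K.v y - K.v d)) := by ring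
    rw [e1, Nat.cast_succ]
    refine (norm_add_le _ _).trans ?_
    have e2 := norm_add_le
      (-(K.pc (K.F (t y)) - K.pc (K.F y) + (√3 : ℂ) * Complex.I * (c0 * K.v y)))
      (K.pc (K.F (t y)) - K.pc (K.F d) + (√3 : ℂ) * Complex.I * (c * K.v d))
    rw [norm_neg] at e2
    have e3 := norm_r3I (c0 * (K.v y - K.v d))
    rw [norm_mul c0, hc, one_mul] at e3
    nlinarith [mul_nonneg hN h0]

private theorem walk_all {t : Equiv.Perm D} {c0 c : ℂ} {y0 : D} {N0 : ℕ} {m : ℕ} (h0 : 0 ≤ η)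
    (hc : ‖c0‖ = 1)
    (hstep : ∀ k : ℤ, |k| ≤ m → |k + 1| ≤ m → StepP K η c0 t ((t ^ k) y0))
    (hq : QQ K η d N0 c y0) (b : ℤ) (hb : |b| ≤ m) :
    QQ K η d (N0 + b.natAbs) (c + ((b : ℝ) : ℂ) * c0) ((t ^ b) y0) := by
  have hpos : ∀ n : ℕ, n ≤ m →
      QQ K η d (N0 + n) (c + (((n : ℤ) : ℝ) : ℂ) * c0) ((t ^ (n : ℤ)) y0) := by
    intro n
    induction n with
    | zero => intro _; simpa using hq
    | succ n ih =>
      intro hn
      have h1 := ih (by omega)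
      have h2 := hstep (n : ℤ) (by rw [abs_of_nonneg (by positivity)]; exact_mod_cast (by omega))
        (by rw [abs_of_nonneg (by positivity)]; exact_mod_cast hn)
      have h3 := step_fwd h0 hc h2 h1
      have e1 : t ((t ^ (n : ℤ)) y0) = (t ^ ((n + 1 : ℕ) : ℤ)) y0 := by
        rw [Nat.cast_succ, add_comm, zpow_add, zpow_one, Equiv.Perm.mul_apply]
      have e2 : c + (((n : ℤ) : ℝ) : ℂ) * c0 + c0 = c + ((((n + 1 : ℕ) : ℤ) : ℝ) : ℂ) * c0 := by
        push_cast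
        ring
      rw [e1, e2] at h3
      exact h3
  have hneg : ∀ n : ℕ, n ≤ m →
      QQ K η d (N0 + n) (c + (((-(n : ℤ) : ℤ) : ℝ) : ℂ) * c0) ((t ^ (-(n : ℤ))) y0) := by
    intro n
    induction n with
    | zero => intro _; simpa using hq
    | succ n ih =>
      intro hn
      have h1 := ih (by omega)
      have h2 := hstep (-((n + 1 : ℕ) : ℤ))
        (by rw [abs_neg, abs_of_nonneg (by positivity)]; exact_mod_cast hn)
        (by
          have : -((n + 1 : ℕ) : ℤ) + 1 = -(n : ℤ) := by push_cast; ring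
          rw [this, abs_neg, abs_of_nonneg (by positivity)]; exact_mod_cast (by omega))
      have e1 : t ((t ^ (-((n + 1 : ℕ) : ℤ))) y0) = (t ^ (-(n : ℤ))) y0 := by
        have : -(n : ℤ) = 1 + -((n + 1 : ℕ) : ℤ) := by push_cast; ring
        rw [this, zpow_add, zpow_one, Equiv.Perm.mul_apply]
      rw [← e1] at h1
      have h3 := step_bwd h0 hc h2 h1
      have e2 : c + (((-(n : ℤ) : ℤ) : ℝ) : ℂ) * c0 - c0 =
          c + (((-((n + 1 : ℕ) : ℤ) : ℤ) : ℝ) : ℂ) * c0 := by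
        push_cast
        ring
      rw [e2] at h3
      exact h3
  rcases Int.natAbs_eq b with hb' | hb'
  · have hle : b.natAbs ≤ m := by
      rw [← Int.natCast_natAbs] at hb
      exact_mod_cast hb
    have := hpos b.natAbs hle
    rw [← hb'] at this
    exact this
  · have hle : b.natAbs ≤ m := by
      rw [← Int.natCast_natAbs] at hb
      exact_mod_cast hb
    have := hneg b.natAbs hle
    rw [← hb'] at this
    exact this

theorem t0_step (hη : η ≤ 1 / 100) (h1 : K.Reg e η (K.F d)) (h2 : K.Reg e η (K.F (t0 K d))) :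
    ‖K.v (t0 K d) - K.v d‖ ≤ 5 * η ∧
    ‖K.pc (K.F (t0 K d)) - K.pc (K.F d) + (√3 : ℂ) * Complex.I * K.v d‖ ≤ 10 * η := by
  obtain ⟨a1, a2⟩ := t0_strong hη h1 h2
  have h0 : 0 ≤ η := le_trans h1.2.2.1 h1.2.2.2.1
  exact ⟨by linarith, by linarith⟩

theorem t1_step (hη : η ≤ 1 / 100) (h1 : K.Reg e η (K.F d)) (h2 : K.Reg e η (K.F (t1 K d))) :
    ‖K.v (t1 K d) - K.v d‖ ≤ 5 * η ∧
    ‖K.pc (K.F (t1 K d)) - K.pc (K.F d) + (√3 : ℂ) * Complex.I * (om * K.v d)‖ ≤ 10 * η := by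
  have h0 : 0 ≤ η := le_trans h1.2.2.1 h1.2.2.2.1
  have hs : K.F (K.s d) = K.F d := K.F_s d
  have hx : K.s (t1 K d) = t0 K (K.s d) := by
    simp [t1, Equiv.Perm.mul_apply]
  have hF : K.F (t1 K d) = K.F (t0 K (K.s d)) := by
    rw [← hx, K.F_s]
  have h1' : K.Reg e η (K.F (K.s d)) := by rw [hs]; exact h1
  have h2' : K.Reg e η (K.F (t0 K (K.s d))) := by rw [← hF]; exact h2
  obtain ⟨a1, a2⟩ := t0_strong hη h1' h2'
  have b1 : ‖K.v (K.s d) - om * K.v d‖ ≤ η :=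
    le_trans (h1.2.2.2.2 d rfl).1 h1.2.2.2.1
  have b2 : ‖K.v (K.s (t1 K d)) - om * K.v (t1 K d)‖ ≤ η :=
    le_trans (h2.2.2.2.2 (t1 K d) rfl).1 h2.2.2.2.1
  rw [hx] at b2
  constructor
  · have e1 : om * (K.v (t1 K d) - K.v d) =
        -(K.v (t0 K (K.s d)) - om * K.v (t1 K d)) + (K.v (t0 K (K.s d)) - K.v (K.s d)) +
          (K.v (K.s d) - om * K.v d) := by ring
    have e2 : ‖K.v (t1 K d) - K.v d‖ = ‖om * (K.v (t1 K d) - K.v d)‖ := by
      rw [norm_mul, norm_om, one_mul]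
    rw [e2, e1]
    refine (norm_add_le _ _).trans ?_
    have e3 := norm_add_le (-(K.v (t0 K (K.s d)) - om * K.v (t1 K d)))
      (K.v (t0 K (K.s d)) - K.v (K.s d))
    rw [norm_neg] at e3
    linarith
  · rw [hF]
    have e1 : K.pc (K.F (t0 K (K.s d))) - K.pc (K.F d) +
        (√3 : ℂ) * Complex.I * (om * K.v d) =
        (K.pc (K.F (t0 K (K.s d))) - K.pc (K.F (K.s d)) + (√3 : ℂ) * Complex.I * K.v (K.s d)) -
          (√3 : ℂ) * Complex.I * (K.v (K.s d) - om * K.v d) := by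
      rw [hs]; ring
    rw [e1]
    refine (norm_sub_le _ _).trans ?_
    have e3 := norm_r3I (K.v (K.s d) - om * K.v d)
    linarith

theorem YY_geo (hη : η ≤ 1 / 100) {m : ℕ} (h : Good K e η m d) {a b : ℤ} (ha : |a| ≤ m)
    (hb : |b| ≤ m) :
    ‖K.v (YY K a b d) - K.v d‖ ≤ 10 * m * η ∧
    ‖K.pc (K.F (YY K a b d)) - K.pc (K.F d) +
      (√3 : ℂ) * Complex.I * (((a : ℝ) : ℂ) + ((b : ℝ) : ℂ) * om) * K.v d‖ ≤ 100 * m ^ 2 * η := by
  have h00 : K.Reg e η (K.F (YY K 0 0 d)) := h 0 0 (by simp) (by simp)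
  have h0 : 0 ≤ η := le_trans h00.2.2.1 h00.2.2.2.1
  have q0 : QQ K η d 0 0 d := by
    refine ⟨by simp, by simp⟩
  have s1 : ∀ k : ℤ, |k| ≤ m → |k + 1| ≤ m → StepP K η om (t1 K) ((t1 K ^ k) d) := by
    intro k hk hk1
    have r1 : K.Reg e η (K.F ((t1 K ^ k) d)) := by
      have := h 0 k (by simp) hk
      simpa [YY] using this
    have r2 : K.Reg e η (K.F (t1 K ((t1 K ^ k) d))) := by
      have := h 0 (k + 1) (by simp) hk1
      rw [YY, zpow_zero, Equiv.Perm.one_apply, add_comm, zpow_add, zpow_one,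
        Equiv.Perm.mul_apply] at this
      exact this
    exact t1_step hη r1 r2
  have q1 := walk_all (m := m) h0 norm_om s1 q0 b hb
  have s2 : ∀ k : ℤ, |k| ≤ m → |k + 1| ≤ m →
      StepP K η 1 (t0 K) ((t0 K ^ k) ((t1 K ^ b) d)) := by
    intro k hk hk1
    have r1 : K.Reg e η (K.F ((t0 K ^ k) ((t1 K ^ b) d))) := h k b hk hb
    have r2 : K.Reg e η (K.F (t0 K ((t0 K ^ k) ((t1 K ^ b) d)))) := by
      have := h (k + 1) b hk1 hb
      rw [YY, add_comm, zpow_add, zpow_one, Equiv.Perm.mul_apply] at this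
      exact this
    have := t0_step hη r1 r2
    refine ⟨this.1, ?_⟩
    rw [one_mul]
    exact this.2
  have q2 := walk_all (m := m) h0 (by simp) s2 q1 a ha
  have na : ((a.natAbs : ℕ) : ℝ) ≤ m := by
    have : ((a.natAbs : ℕ) : ℤ) ≤ m := by rw [Int.natCast_natAbs]; exact ha
    exact_mod_cast this
  have nb : ((b.natAbs : ℕ) : ℝ) ≤ m := by
    have : ((b.natAbs : ℕ) : ℤ) ≤ m := by rw [Int.natCast_natAbs]; exact hb
    exact_mod_cast this
  obtain ⟨q3, q4⟩ := q2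
  have hN : ((0 + b.natAbs + a.natAbs : ℕ) : ℝ) ≤ 2 * m := by
    push_cast
    linarith
  have hN0 : (0 : ℝ) ≤ ((0 + b.natAbs + a.natAbs : ℕ) : ℝ) := Nat.cast_nonneg _
  constructor
  · refine q3.trans ?_
    nlinarith
  · have e1 : (√3 : ℂ) * Complex.I * (((a : ℝ) : ℂ) + ((b : ℝ) : ℂ) * om) * K.v d =
        (√3 : ℂ) * Complex.I * (((0 : ℂ) + ((b : ℝ) : ℂ) * om + ((a : ℝ) : ℂ) * 1) * K.v d) := by
      ring
    rw [e1]
    refine q4.trans ?_
    have hm : (0 : ℝ) ≤ m := Nat.cast_nonneg _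
    have hmm : (m : ℝ) ≤ (m : ℝ) ^ 2 := by
      have : m ≤ m ^ 2 := Nat.le_self_pow (by norm_num) m
      exact_mod_cast this
    have h5 : ((0 + b.natAbs + a.natAbs : ℕ) : ℝ) ^ 2 ≤ (2 * m) ^ 2 :=
      pow_le_pow_left₀ hN0 hN 2
    have h6 : 15 * ((0 + b.natAbs + a.natAbs : ℕ) : ℝ) +
        5 * ((0 + b.natAbs + a.natAbs : ℕ) : ℝ) ^ 2 ≤ 100 * (m : ℝ) ^ 2 := by
      nlinarith
    exact mul_le_mul_of_nonneg_right h6 h0

end Pool.Agent.Helper38.RG
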